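import Pool.Agent.V1282.LadderLS

/-! The greedy walk on the ladder as a Markov chain on pairs (position, visited edges). -/

namespace Pool.Agent.V1282.Ladder

open Classical Filter Topology

abbrev V := ℤ × Bool
abbrev St := V × Set (Sym2 V)

/-- the three neighbours of a vertex -/
def nbrs (v : V) : Finset V := {(v.1 + 1, v.2), (v.1 - 1, v.2), (v.1, !v.2)}

noncomputable def fr (s : St) : Finset V := (nbrs s.1).filter (fun y => s(s.1, y) ∉ s.2)
noncomputable def opt (s : St) : Finset V := if (fr s).Nonempty then fr s else nbrs s.1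
def nx (s : St) (y : V) : St := (y, insert s(s.1, y) s.2)
noncomputable def avg (f : St → ℝ) (s : St) : ℝ := (∑ y ∈ opt s, f (nx s y)) / (opt s).card

theorem nbrs_nonempty (v : V) : (nbrs v).Nonempty := ⟨(v.1 + 1, v.2), by simp [nbrs]⟩

theorem nbrs_card (v : V) : (nbrs v).card = 3 := by
  unfold nbrs
  rw [Finset.card_insert_of_notMem, Finset.card_insert_of_notMem, Finset.card_singleton]
  · simp
  · simp only [Finset.mem_insert, Finset.mem_singleton, Prod.mk.injEq, not_or, not_and]
    constructor
    · intro h; omega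
    · intro h; omega

theorem opt_nonempty (s : St) : (opt s).Nonempty := by
  unfold opt
  split_ifs with h
  · exact h
  · exact nbrs_nonempty _

theorem card_pos (s : St) : (0 : ℝ) < (opt s).card := by
  exact_mod_cast (opt_nonempty s).card_pos

theorem avg_mono {f g : St → ℝ} {s : St} (h : ∀ y ∈ opt s, f (nx s y) ≤ g (nx s y)) :
    avg f s ≤ avg g s := by
  unfold avg
  exact div_le_div_of_nonneg_right (Finset.sum_le_sum h) (card_pos s).le

theorem avg_const (c : ℝ) (s : St) : avg (fun _ => c) s = c := by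
  unfold avg
  rw [Finset.sum_const, nsmul_eq_mul]
  field_simp [(card_pos s).ne']

theorem avg_lin (a : ℝ) (f g : St → ℝ) (s : St) :
    avg (fun t => a * f t + g t) s = a * avg f s + avg g s := by
  unfold avg
  rw [Finset.sum_add_distrib, ← Finset.mul_sum]
  ring

/-- probability that the chain started from `s` avoids `A` at times `0, …, N` -/
noncomputable def u (A : Set V) : ℕ → St → ℝ
  | 0, s => if s.1 ∈ A then 0 else 1
  | N + 1, s => if s.1 ∈ A then 0 else avg (u A N) s

theorem u_nonneg (A : Set V) : ∀ N s, 0 ≤ u A N s := by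
  intro N
  induction N with
  | zero => intro s; unfold u; split_ifs <;> norm_num
  | succ N ih =>
    intro s
    unfold u
    split_ifs
    · exact le_refl _
    · have := avg_mono (f := fun _ => 0) (g := u A N) (s := s) (fun y _ => ih _)
      rwa [avg_const] at this

theorem u_le_one (A : Set V) : ∀ N s, u A N s ≤ 1 := by
  intro N
  induction N with
  | zero => intro s; unfold u; split_ifs <;> norm_num
  | succ N ih =>
    intro s
    unfold u
    split_ifs
    · norm_num
    · have := avg_mono (f := u A N) (g := fun _ => 1) (s := s) (fun y _ => ih _)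
      rwa [avg_const] at this

theorem u_succ_le (A : Set V) : ∀ N s, u A (N + 1) s ≤ u A N s := by
  intro N
  induction N with
  | zero =>
    intro s
    by_cases hs : s.1 ∈ A
    · simp [u, hs]
    · have : u A 0 s = 1 := by simp [u, hs]
      rw [this]; exact u_le_one _ _ _
  | succ N ih =>
    intro s
    by_cases hs : s.1 ∈ A
    · simp [u, hs]
    · have e1 : u A (N + 1) s = avg (u A N) s := by simp [u, hs]
      have e2 : u A (N + 1 + 1) s = avg (u A (N + 1)) s := by rw [u]; simp [hs]
      rw [e1, e2]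
      exact avg_mono fun y _ => ih _

theorem u_anti (A : Set V) (s : St) : Antitone fun N => u A N s :=
  antitone_nat_of_succ_le fun N => u_succ_le A N s

/-- probability never to hit `A` -/
noncomputable def hl (A : Set V) (s : St) : ℝ := ⨅ N, u A N s

theorem bdd (A : Set V) (s : St) : BddBelow (Set.range fun N => u A N s) :=
  ⟨0, by rintro _ ⟨N, rfl⟩; exact u_nonneg A N s⟩

theorem hl_tendsto (A : Set V) (s : St) : Tendsto (fun N => u A N s) atTop (𝓝 (hl A s)) :=
  tendsto_atTop_ciInf (u_anti A s) (bdd A s)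

theorem hl_le (A : Set V) (N : ℕ) (s : St) : hl A s ≤ u A N s := ciInf_le (bdd A s) N

theorem hl_nonneg (A : Set V) (s : St) : 0 ≤ hl A s := le_ciInf fun N => u_nonneg A N s

theorem hl_in {A : Set V} {s : St} (h : s.1 ∈ A) : hl A s = 0 := by
  apply le_antisymm _ (hl_nonneg A s)
  have := hl_le A 0 s
  simpa [u, h] using this

theorem hl_step {A : Set V} {s : St} (h : s.1 ∉ A) : hl A s = avg (hl A) s := by
  have h1 : Tendsto (fun N => u A (N + 1) s) atTop (𝓝 (hl A s)) :=
    (hl_tendsto A s).comp (tendsto_add_atTop_nat 1)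
  have h2 : Tendsto (fun N => u A (N + 1) s) atTop (𝓝 (avg (hl A) s)) := by
    have : (fun N => u A (N + 1) s) = fun N => avg (u A N) s := by
      funext N; simp [u, h]
    rw [this]
    unfold avg
    apply Tendsto.div_const
    exact tendsto_finsetSum _ fun y _ => hl_tendsto A _
  exact tendsto_nhds_unique h1 h2

theorem nx_finite {s : St} (h : s.2.Finite) (y : V) : (nx s y).2.Finite := h.insert _

theorem zero_of_le {A : Set V} {q : ℝ} (hq : q < 1) (h : ∀ s : St, s.2.Finite → hl A s ≤ q) :
    ∀ s : St, s.2.Finite → hl A s = 0 := by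
  have key : ∀ N (s : St), s.2.Finite → hl A s ≤ q * u A N s := by
    intro N
    induction N with
    | zero =>
      intro s hs
      by_cases hA : s.1 ∈ A
      · rw [hl_in hA]; simp [u, hA]
      · have := h s hs
        simpa [u, hA] using this
    | succ N ih =>
      intro s hs
      by_cases hA : s.1 ∈ A
      · rw [hl_in hA]; simp [u, hA]
      · have e1 : u A (N + 1) s = avg (u A N) s := by simp [u, hA]
        rw [hl_step hA, e1]
        have h1 : avg (hl A) s ≤ avg (fun t => q * u A N t + 0) s := by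
          apply avg_mono
          intro y _
          simpa using ih _ (nx_finite hs y)
        rw [avg_lin, avg_const] at h1
        linarith
  intro s hs
  have h1 : hl A s ≤ q * hl A s :=
    ge_of_tendsto' ((hl_tendsto A s).const_mul q) fun N => key N s hs
  have h2 := hl_nonneg A s
  nlinarith

/-! ### oriented coordinates -/

section view

variable (a ε : ℤ)

def pt (c : ℤ) (i : Bool) : V := (a + ε * c, i)
def hor (k : ℤ) (j : Bool) : Sym2 V := s(pt a ε k j, pt a ε (k + 1) j)
def rung (k : ℤ) : Sym2 V := s(pt a ε k false, pt a ε k true)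

def view (s : St) : LS :=
  ⟨ε * (s.1.1 - a), s.1.2, fun k j => hor a ε k j ∈ s.2, fun k => rung a ε k ∈ s.2⟩

variable {a ε}

theorem pt_view (he : ε = 1 ∨ ε = -1) (s : St) : s.1 = pt a ε (view a ε s).c (view a ε s).i := by
  obtain ⟨⟨x, i⟩, S⟩ := s
  simp only [pt, view, Prod.mk.injEq, and_true]
  rcases he with rfl | rfl <;> ring

theorem hor_eq (he : ε = 1 ∨ ε = -1) (k k' : ℤ) (j j' : Bool) :
    hor a ε k j = hor a ε k' j' ↔ k = k' ∧ j = j' := by
  simp only [hor, pt, Sym2.eq_iff, Prod.mk.injEq]
  rcases he with rfl | rfl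
  · constructor
    · rintro (⟨⟨h1, h2⟩, h3, h4⟩ | ⟨⟨h1, h2⟩, h3, h4⟩)
      · exact ⟨by omega, h2⟩
      · omega
    · rintro ⟨rfl, rfl⟩; simp
  · constructor
    · rintro (⟨⟨h1, h2⟩, h3, h4⟩ | ⟨⟨h1, h2⟩, h3, h4⟩)
      · exact ⟨by omega, h2⟩
      · omega
    · rintro ⟨rfl, rfl⟩; simp

theorem rung_eq (he : ε = 1 ∨ ε = -1) (k k' : ℤ) :
    rung a ε k = rung a ε k' ↔ k = k' := by
  simp only [rung, pt, Sym2.eq_iff, Prod.mk.injEq]
  rcases he with rfl | rfl
  · constructor
    · rintro (⟨⟨h1, h2⟩, h3, h4⟩ | ⟨⟨h1, h2⟩, h3, h4⟩) <;> omega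
    · rintro rfl; simp
  · constructor
    · rintro (⟨⟨h1, h2⟩, h3, h4⟩ | ⟨⟨h1, h2⟩, h3, h4⟩) <;> omega
    · rintro rfl; simp

theorem hor_ne_rung (k k' : ℤ) (j : Bool) : hor a ε k j ≠ rung a ε k' := by
  intro h
  simp only [hor, rung, pt, Sym2.eq_iff, Prod.mk.injEq] at h
  rcases h with ⟨⟨h1, h2⟩, h3, h4⟩ | ⟨⟨h1, h2⟩, h3, h4⟩ <;> simp_all

theorem edge_R (he : ε = 1 ∨ ε = -1) (s : St) :
    s(s.1, pt a ε ((view a ε s).c + 1) (view a ε s).i) =
      hor a ε (view a ε s).c (view a ε s).i := by
  conv_lhs => rw [pt_view (a := a) he s]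
  rfl

theorem edge_L (he : ε = 1 ∨ ε = -1) (s : St) :
    s(s.1, pt a ε ((view a ε s).c - 1) (view a ε s).i) =
      hor a ε ((view a ε s).c - 1) (view a ε s).i := by
  conv_lhs => rw [pt_view (a := a) he s]
  rw [hor, Sym2.eq_swap]
  simp

theorem edge_G (he : ε = 1 ∨ ε = -1) (s : St) :
    s(s.1, pt a ε (view a ε s).c (!(view a ε s).i)) = rung a ε (view a ε s).c := by
  conv_lhs => rw [pt_view (a := a) he s]
  cases (view a ε s).i
  · rfl
  · rw [Sym2.eq_swap]; rfl

theorem view_R (he : ε = 1 ∨ ε = -1) (s : St) :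
    view a ε (nx s (pt a ε ((view a ε s).c + 1) (view a ε s).i)) = (view a ε s).R := by
  unfold nx
  rw [edge_R he]
  simp only [view, LS.R, pt, Set.mem_insert_iff, LS.mk.injEq, true_and]
  refine ⟨?_, ?_, ?_⟩
  · rcases he with rfl | rfl <;> ring
  · funext k j
    rw [hor_eq he]
  · funext k
    have := (hor_ne_rung (a := a) (ε := ε) (ε * (s.1.1 - a)) k s.1.2).symm
    simp [this]

theorem view_L (he : ε = 1 ∨ ε = -1) (s : St) :
    view a ε (nx s (pt a ε ((view a ε s).c - 1) (view a ε s).i)) = (view a ε s).L := by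
  unfold nx
  rw [edge_L he]
  simp only [view, LS.L, pt, Set.mem_insert_iff, LS.mk.injEq, true_and]
  refine ⟨?_, ?_, ?_⟩
  · rcases he with rfl | rfl <;> ring
  · funext k j
    rw [hor_eq he]
  · funext k
    have := (hor_ne_rung (a := a) (ε := ε) (ε * (s.1.1 - a) - 1) k s.1.2).symm
    simp [this]

theorem view_G (he : ε = 1 ∨ ε = -1) (s : St) :
    view a ε (nx s (pt a ε (view a ε s).c (!(view a ε s).i))) = (view a ε s).G := by
  unfold nx
  rw [edge_G he]
  simp only [view, LS.G, pt, Set.mem_insert_iff, LS.mk.injEq, true_and]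
  refine ⟨?_, ?_, ?_⟩
  · rcases he with rfl | rfl <;> ring
  · funext k j
    have := hor_ne_rung (a := a) (ε := ε) k (ε * (s.1.1 - a)) j
    simp [this]
  · funext k
    rw [rung_eq he]

theorem nbrs_eq (he : ε = 1 ∨ ε = -1) (s : St) :
    nbrs s.1 = {pt a ε ((view a ε s).c + 1) (view a ε s).i,
      pt a ε ((view a ε s).c - 1) (view a ε s).i, pt a ε (view a ε s).c (!(view a ε s).i)} := by
  obtain ⟨⟨x, i⟩, S⟩ := s
  ext y
  simp only [nbrs, view, pt, Finset.mem_insert, Finset.mem_singleton]
  rcases he with rfl | rfl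
  · rw [show a + 1 * (1 * (x - a) + 1) = x + 1 by ring,
      show a + 1 * (1 * (x - a) - 1) = x - 1 by ring, show a + 1 * (1 * (x - a)) = x by ring]
  · rw [show a + -1 * (-1 * (x - a) + 1) = x - 1 by ring,
      show a + -1 * (-1 * (x - a) - 1) = x + 1 by ring, show a + -1 * (-1 * (x - a)) = x by ring]
    tauto

theorem sum_nbrs (he : ε = 1 ∨ ε = -1) (s : St) (f : V → ℝ) :
    ∑ y ∈ nbrs s.1, f y = f (pt a ε ((view a ε s).c + 1) (view a ε s).i) +
      f (pt a ε ((view a ε s).c - 1) (view a ε s).i) +
        f (pt a ε (view a ε s).c (!(view a ε s).i)) := by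
  rw [nbrs_eq (a := a) he s, Finset.sum_insert, Finset.sum_insert, Finset.sum_singleton]
  · ring
  · simp [pt]
  · simp only [pt, Finset.mem_insert, Finset.mem_singleton, Prod.mk.injEq, not_or, not_and]
    constructor
    · intro h; rcases he with rfl | rfl <;> omega
    · intro h; rcases he with rfl | rfl <;> omega

theorem fr_empty_iff (he : ε = 1 ∨ ε = -1) (s : St) :
    ¬ (fr s).Nonempty ↔ full (view a ε s) := by
  rw [Finset.not_nonempty_iff_eq_empty]
  unfold fr
  rw [Finset.filter_eq_empty_iff, nbrs_eq (a := a) he s]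
  simp only [Finset.mem_insert, Finset.mem_singleton, not_not, forall_eq_or_imp, forall_eq,
    edge_R he, edge_L he, edge_G he]
  rfl

theorem sum_opt (he : ε = 1 ∨ ε = -1) (s : St) (F : LS → ℝ) :
    ∑ y ∈ opt s, F (view a ε (nx s y)) = sumL F (view a ε s) := by
  unfold opt sumL
  by_cases h : (fr s).Nonempty
  · rw [if_pos h, if_neg (fun hf => (fr_empty_iff (a := a) he s).mpr hf h)]
    unfold fr
    rw [Finset.sum_filter, sum_nbrs (a := a) he s, edge_R he, edge_L he, edge_G he,
      view_R he, view_L he, view_G he]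
    have e : ∀ (p : Prop) [Decidable p] (x : ℝ), (if p then x else 0) = ind p * x := by
      intro p _ x; by_cases hp : p <;> simp [ind, hp]
    rw [e, e, e]
    rfl
  · rw [if_neg h, if_pos ((fr_empty_iff he s).mp h), sum_nbrs (a := a) he s,
      view_R he, view_L he, view_G he]

theorem card_opt (he : ε = 1 ∨ ε = -1) (s : St) :
    ((opt s).card : ℝ) = cntL (view a ε s) := by
  have := sum_opt (a := a) he s (fun _ => 1)
  simp only [Finset.sum_const, nsmul_eq_mul, mul_one] at this
  rw [this]
  unfold sumL cntL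
  split_ifs <;> ring

theorem opt_cases (he : ε = 1 ∨ ε = -1) {s : St} {y : V} (hy : y ∈ opt s) :
    (view a ε (nx s y) = (view a ε s).R ∧
      (¬ (view a ε s).h (view a ε s).c (view a ε s).i ∨ full (view a ε s))) ∨
    (view a ε (nx s y) = (view a ε s).L ∧
      (¬ (view a ε s).h ((view a ε s).c - 1) (view a ε s).i ∨ full (view a ε s))) ∨
    (view a ε (nx s y) = (view a ε s).G ∧
      (¬ (view a ε s).g (view a ε s).c ∨ full (view a ε s))) := by
  have hy1 : y ∈ nbrs s.1 := by
    unfold opt at hy
    split_ifs at hy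
    · exact (Finset.mem_filter.mp hy).1
    · exact hy
  have hy2 : s(s.1, y) ∉ s.2 ∨ full (view a ε s) := by
    unfold opt at hy
    split_ifs at hy with h
    · exact Or.inl (Finset.mem_filter.mp hy).2
    · exact Or.inr ((fr_empty_iff he s).mp h)
  rw [nbrs_eq (a := a) he s] at hy1
  simp only [Finset.mem_insert, Finset.mem_singleton] at hy1
  rcases hy1 with rfl | rfl | rfl
  · left
    refine ⟨view_R he s, ?_⟩
    rw [edge_R he] at hy2
    exact hy2
  · right; left
    refine ⟨view_L he s, ?_⟩
    rw [edge_L he] at hy2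
    exact hy2
  · right; right
    refine ⟨view_G he s, ?_⟩
    rw [edge_G he] at hy2
    exact hy2

theorem inv_nx (he : ε = 1 ∨ ε = -1) {K : ℤ} {s : St} (hs : Inv K (view a ε s)) {y : V}
    (hy : y ∈ opt s) : Inv K (view a ε (nx s y)) := by
  rcases opt_cases (a := a) he hy with ⟨h, h'⟩ | ⟨h, h'⟩ | ⟨h, h'⟩
  · rw [h]; exact inv_R hs h'
  · rw [h]; exact inv_L hs h'
  · rw [h]; exact inv_G hs h'

theorem c_nx (he : ε = 1 ∨ ε = -1) {s : St} {y : V} (hy : y ∈ opt s) :
    (view a ε s).c - 1 ≤ (view a ε (nx s y)).c ∧ (view a ε (nx s y)).c ≤ (view a ε s).c + 1 := by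
  rcases opt_cases (a := a) he hy with ⟨h, h'⟩ | ⟨h, h'⟩ | ⟨h, h'⟩ <;> rw [h] <;>
    simp only [LS.R, LS.L, LS.G] <;> omega

theorem avg_Phi (he : ε = 1 ∨ ε = -1) {K n : ℤ} {s : St} (hs : Inv K (view a ε s))
    (h0 : 1 ≤ (view a ε s).c) (h1 : (view a ε s).c < n) :
    avg (fun t => Phi K n (view a ε t)) s ≤ Phi K n (view a ε s) := by
  unfold avg
  rw [div_le_iff₀ (card_pos s), sum_opt (a := a) he s (Phi K n), card_opt (a := a) he s, mul_comm]
  exact phi_super hs h0 h1

theorem avg_B (he : ε = 1 ∨ ε = -1) {n : ℤ} {s : St}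
    (h0 : 1 ≤ (view a ε s).c) (h1 : (view a ε s).c < n) :
    B n (view a ε s) + 2 / 3 ≤ avg (fun t => B n (view a ε t)) s := by
  unfold avg
  rw [le_div_iff₀ (card_pos s), sum_opt (a := a) he s (B n), card_opt (a := a) he s, mul_comm]
  exact B_super h0 h1

theorem u_bound (he : ε = 1 ∨ ε = -1) {K n : ℤ} (hK : 0 ≤ K) (hn : 2 ≤ n) :
    ∀ (N : ℕ) (s : St), Inv K (view a ε s) → 0 ≤ (view a ε s).c → (view a ε s).c ≤ n →
      N * u {v | v.1 = a} N s ≤ N * (Phi K n (view a ε s) / (n - 1)) +
        3 / 2 * ((n : ℝ) ^ 2 + (2 * n + 2) * (3 * n + 1) - B n (view a ε s)) := by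
  have hn' : (2 : ℝ) ≤ n := by exact_mod_cast hn
  intro N
  induction N with
  | zero =>
    intro s _ h0 h1
    have := B_le h0 h1
    simp only [Nat.cast_zero, zero_mul, zero_add]
    linarith
  | succ N ih =>
    intro s hs h0 h1
    have hB := B_le h0 h1
    have hP : 0 ≤ Phi K n (view a ε s) := phi_nonneg hK (by omega) h0
    have hg : 0 ≤ Phi K n (view a ε s) / (n - 1) := div_nonneg hP (by linarith)
    push_cast
    by_cases hc0 : (view a ε s).c = 0
    · have hA : s.1 ∈ {v : V | v.1 = a} := by
        rw [pt_view (a := a) he s, hc0]; simp [pt]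
      have : u {v : V | v.1 = a} (N + 1) s = 0 := by
        rw [u]; simp only [hA, if_true]
      rw [this]
      have : 0 ≤ ((N : ℝ) + 1) * (Phi K n (view a ε s) / (n - 1)) := by positivity
      linarith
    · by_cases hcn : (view a ε s).c = n
      · have h2 := phi_ge (K := K) (l := view a ε s) (n := n) (by omega)
        have h3 := pot_ge K (view a ε s)
        have h4 : 1 ≤ Phi K n (view a ε s) / (n - 1) := by
          rw [le_div_iff₀ (by linarith), one_mul]
          have : ((view a ε s).c : ℝ) = n := by rw [hcn]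
          linarith
        have h5 := u_le_one {v : V | v.1 = a} (N + 1) s
        have h6 : ((N : ℝ) + 1) * u {v : V | v.1 = a} (N + 1) s ≤
            ((N : ℝ) + 1) * (Phi K n (view a ε s) / (n - 1)) := by
          apply mul_le_mul_of_nonneg_left _ (by positivity)
          linarith
        linarith
      · have hA : s.1 ∉ {v : V | v.1 = a} := by
          intro h
          apply hc0
          have : s.1.1 = a := h
          simp [view, this]
        have e1 : u {v : V | v.1 = a} (N + 1) s = avg (u {v : V | v.1 = a} N) s := by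
          rw [u]; simp only [hA, if_false]
        have h7 : avg (fun t => (N : ℝ) * u {v : V | v.1 = a} N t + 0) s ≤
            avg (fun t => ((N : ℝ) / (n - 1)) * Phi K n (view a ε t) +
              ((-3 / 2) * B n (view a ε t) +
                3 / 2 * ((n : ℝ) ^ 2 + (2 * n + 2) * (3 * n + 1)))) s := by
          apply avg_mono
          intro y hy
          have hc := c_nx (a := a) he hy
          have := ih (nx s y) (inv_nx he hs hy) (by omega) (by omega)
          have e : (N : ℝ) * (Phi K n (view a ε (nx s y)) / (n - 1)) =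
            (N : ℝ) / (n - 1) * Phi K n (view a ε (nx s y)) := by ring
          rw [e] at this
          linarith
        rw [avg_lin, avg_const, avg_lin, avg_lin, avg_const] at h7
        have h8 := avg_Phi (a := a) he hs (by omega) (show (view a ε s).c < n by omega)
        have h9 := avg_B (a := a) (n := n) he (s := s) (by omega) (by omega)
        have h10 := u_le_one {v : V | v.1 = a} (N + 1) s
        rw [e1] at h10 ⊢
        have h11 : (N : ℝ) / (n - 1) * avg (fun t => Phi K n (view a ε t)) s ≤
            (N : ℝ) / (n - 1) * Phi K n (view a ε s) :=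
          mul_le_mul_of_nonneg_left h8 (div_nonneg (by positivity) (by linarith))
        have e : (N : ℝ) * (Phi K n (view a ε s) / (n - 1)) =
            (N : ℝ) / (n - 1) * Phi K n (view a ε s) := by ring
        linarith

theorem hl_col (he : ε = 1 ∨ ε = -1) (s : St) (hS : s.2.Finite) (h0 : 1 ≤ (view a ε s).c) :
    hl {v | v.1 = a} s ≤ 7 / 8 := by
  obtain ⟨K, hK0, hKc, hKh, hKg⟩ : ∃ K : ℤ, 0 ≤ K ∧ (view a ε s).c ≤ K ∧
      (∀ k j, K ≤ k → ¬ (view a ε s).h k j) ∧ (∀ k, K + 1 ≤ k → ¬ (view a ε s).g k) := by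
    have f1 : ∀ j, ({k : ℤ | hor a ε k j ∈ s.2}).Finite := fun j =>
      hS.preimage (f := fun k => hor a ε k j) fun x _ y _ h => ((hor_eq he _ _ _ _).mp h).1
    have f2 : ({k : ℤ | rung a ε k ∈ s.2}).Finite :=
      hS.preimage (f := fun k => rung a ε k) fun x _ y _ h => (rung_eq he _ _).mp h
    obtain ⟨b1, hb1⟩ := (f1 false).bddAbove
    obtain ⟨b2, hb2⟩ := (f1 true).bddAbove
    obtain ⟨b3, hb3⟩ := f2.bddAbove
    refine ⟨max (view a ε s).c (max (b1 + 1) (max (b2 + 1) b3)), by omega, by omega, ?_, ?_⟩
    · intro k j hk h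
      cases j
      · have := hb1 h; omega
      · have := hb2 h; omega
    · intro k hk h
      have := hb3 h; omega
  have hinv : Inv K (view a ε s) := by
    refine ⟨?_, ?_, ?_, ?_⟩
    · intro k h1 h2; omega
    · intro k h1 _ m hm
      exact ⟨fun j => hKh m j (by omega), hKg m (by omega)⟩
    · intro k j hk _
      have a1 := hKg k hk
      have a2 := hKh k j (by omega)
      have a3 := hKh (k - 1) j (by omega)
      tauto
    · intro h; omega
  set n : ℤ := 24 * K + 7 with hn
  have hnn : 2 ≤ n := by omega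
  have h2 := phi_start (n := n) hK0 (by omega) hKc hKh
  have hK' : (0 : ℝ) ≤ K := by exact_mod_cast hK0
  have hn' : (n : ℝ) = 24 * K + 7 := by rw [hn]; push_cast; ring
  have h3 : Phi K n (view a ε s) / (n - 1) ≤ 7 / 8 := by
    rw [div_le_iff₀ (by rw [hn']; linarith)]
    rw [hn'] at h2 ⊢
    linarith
  by_contra hcon
  push Not at hcon
  set C : ℝ := 3 / 2 * ((n : ℝ) ^ 2 + (2 * n + 2) * (3 * n + 1) - B n (view a ε s)) with hC
  obtain ⟨N, hN⟩ := exists_nat_gt (C / (hl {v | v.1 = a} s - 7 / 8))
  rw [div_lt_iff₀ (by linarith)] at hN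
  have h4 := u_bound (a := a) he hK0 hnn N s hinv (by omega) (by omega)
  have h5 : (N : ℝ) * hl {v | v.1 = a} s ≤ N * u {v | v.1 = a} N s :=
    mul_le_mul_of_nonneg_left (hl_le _ _ _) (by positivity)
  have h6 : (N : ℝ) * (Phi K n (view a ε s) / (n - 1)) ≤ N * (7 / 8) :=
    mul_le_mul_of_nonneg_left h3 (by positivity)
  rw [← hC] at h4
  nlinarith

end view

theorem hl_col_le (a : ℤ) (s : St) (hS : s.2.Finite) : hl {v : V | v.1 = a} s ≤ 7 / 8 := by
  rcases lt_trichotomy s.1.1 a with h | h | h
  · apply hl_col (a := a) (ε := -1) (Or.inr rfl) s hS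
    simp only [view]; omega
  · rw [hl_in (show s.1 ∈ {v : V | v.1 = a} from h)]; norm_num
  · apply hl_col (a := a) (ε := 1) (Or.inl rfl) s hS
    simp only [view]; omega

theorem hl_col_zero (a : ℤ) (s : St) (hS : s.2.Finite) : hl {v : V | v.1 = a} s = 0 :=
  zero_of_le (by norm_num) (fun s hs => hl_col_le a s hs) s hS

theorem fr_anti (v : V) {S T : Set (Sym2 V)} (h : S ⊆ T) : fr (v, T) ⊆ fr (v, S) := by
  intro y hy
  simp only [fr, Finset.mem_filter] at hy ⊢
  exact ⟨hy.1, fun h' => hy.2 (h h')⟩

theorem hl_le_one (A : Set V) (s : St) : hl A s ≤ 1 := (hl_le A 0 s).trans (u_le_one A 0 s)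

theorem hl_vertex_le (a : ℤ) (i : Bool) : ∀ (j : ℕ) (s : St), s.2.Finite →
    (fr ((a, !i), s.2)).card ≤ j → hl {((a, i) : V)} s ≤ 2 / 3 := by
  intro j
  induction j using Nat.strong_induction_on with
  | _ j ihj =>
    -- the walker at the twin vertex
    have hQ : ∀ s : St, s.2.Finite → (fr ((a, !i), s.2)).card ≤ j → s.1 = (a, !i) →
        hl {((a, i) : V)} s ≤ 2 / 3 := by
      intro s hS hj hs
      have hne : s.1 ∉ ({((a, i) : V)} : Set V) := by
        rw [hs]; simp
      rw [hl_step hne]
      by_cases hf : (fr s).Nonempty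
      · have h1 : avg (hl {((a, i) : V)}) s ≤ avg (fun _ => 2 / 3) s := by
          apply avg_mono
          intro y hy
          have hy' : y ∈ fr s := by unfold opt at hy; rwa [if_pos hf] at hy
          have hlt : (fr ((a, !i), (nx s y).2)).card < (fr ((a, !i), s.2)).card := by
            apply Finset.card_lt_card
            refine Finset.ssubset_iff_subset_ne.mpr
              ⟨fr_anti _ (Set.subset_insert _ _), fun heq => ?_⟩
            have h2 : y ∈ fr ((a, !i), s.2) := by
              rw [← hs]; exact hy'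
            rw [← heq] at h2
            have h3 := (Finset.mem_filter.mp h2).2
            apply h3
            show s((a, !i), y) ∈ insert s(s.1, y) s.2
            rw [hs]
            exact Set.mem_insert _ _
          exact ihj _ (lt_of_lt_of_le hlt hj) _ (nx_finite hS y) le_rfl
        rwa [avg_const] at h1
      · have ho : opt s = nbrs s.1 := by unfold opt; rw [if_neg hf]
        unfold avg
        rw [ho, nbrs_card, div_le_iff₀ (by norm_num)]
        have hmem : ((a, i) : V) ∈ nbrs s.1 := by
          rw [hs]; simp [nbrs]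
        rw [← Finset.add_sum_erase _ _ hmem]
        have e0 : hl {((a, i) : V)} (nx s (a, i)) = 0 := hl_in (by simp [nx])
        rw [e0]
        have h1 : ∑ y ∈ (nbrs s.1).erase (a, i), hl {((a, i) : V)} (nx s y) ≤
            ∑ y ∈ (nbrs s.1).erase (a, i), (1 : ℝ) :=
          Finset.sum_le_sum fun y _ => hl_le_one _ _
        rw [Finset.sum_const, Finset.card_erase_of_mem hmem, nbrs_card] at h1
        norm_num at h1 ⊢
        linarith
    -- general position
    have hR : ∀ (N : ℕ) (s : St), s.2.Finite → (fr ((a, !i), s.2)).card ≤ j →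
        hl {((a, i) : V)} s ≤ 2 / 3 + u {v : V | v.1 = a} N s := by
      have hin : ∀ (N : ℕ) (s : St), s.2.Finite → (fr ((a, !i), s.2)).card ≤ j → s.1.1 = a →
          hl {((a, i) : V)} s ≤ 2 / 3 + u {v : V | v.1 = a} N s := by
        intro N s hS hj ha
        have h0 := u_nonneg {v : V | v.1 = a} N s
        by_cases hi : s.1.2 = i
        · have : s.1 ∈ ({((a, i) : V)} : Set V) := by
            rw [Set.mem_singleton_iff]
            exact Prod.ext ha hi
          rw [hl_in this]; linarith
        · have := hQ s hS hj (Prod.ext ha (by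
            show s.1.2 = !i
            cases h1 : s.1.2 <;> cases h2 : i <;> simp_all))
          linarith
      intro N
      induction N with
      | zero =>
        intro s hS hj
        by_cases ha : s.1.1 = a
        · exact hin 0 s hS hj ha
        · have : u {v : V | v.1 = a} 0 s = 1 := by simp [u, ha]
          rw [this]
          have := hl_le_one {((a, i) : V)} s
          linarith
      | succ N ih =>
        intro s hS hj
        by_cases ha : s.1.1 = a
        · exact hin _ s hS hj ha
        · have e1 : u {v : V | v.1 = a} (N + 1) s = avg (u {v : V | v.1 = a} N) s := by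
            rw [u]; simp [ha]
          have hne : s.1 ∉ ({((a, i) : V)} : Set V) := by
            intro h
            rw [Set.mem_singleton_iff] at h
            exact ha (by rw [h])
          rw [hl_step hne, e1]
          have h1 : avg (hl {((a, i) : V)}) s ≤
              avg (fun t => 1 * u {v : V | v.1 = a} N t + 2 / 3) s := by
            apply avg_mono
            intro y hy
            have := ih (nx s y) (nx_finite hS y)
              ((Finset.card_le_card (fr_anti _ (Set.subset_insert _ _))).trans hj)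
            linarith
          rw [avg_lin, avg_const] at h1
          linarith
    intro s hS hj
    have h1 : Tendsto (fun N => 2 / 3 + u {v : V | v.1 = a} N s) atTop (𝓝 (2 / 3 + 0)) := by
      rw [← hl_col_zero a s hS]
      exact (hl_tendsto _ s).const_add _
    rw [add_zero] at h1
    exact ge_of_tendsto' h1 fun N => hR N s hS hj

/-- The chain hits every vertex almost surely, from every state with finitely many visited
edges. -/
theorem u_tendsto_zero (o : V) (s : St) (hS : s.2.Finite) :
    Tendsto (fun N => u {o} N s) atTop (𝓝 0) := by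
  have : hl {o} s = 0 :=
    zero_of_le (q := 2 / 3) (by norm_num)
      (fun s hs => hl_vertex_le o.1 o.2 _ s hs le_rfl) s hS
  rw [← this]
  exact hl_tendsto _ s

end Pool.Agent.V1282.Ladder
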