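import Pool.Agent.V1282.GIDef

set_option linter.all false

open Set Filter Topology

namespace Pool.Agent.V1282.GI

/-- the counterexample `‖z‖⁴ + ‖z‖² - 3 z₀² + 3 z₁` -/
noncomputable def F (n : ℕ) (z : E (n + 2)) : ℝ :=
  (‖z‖ ^ 2) ^ 2 + ‖z‖ ^ 2 - 3 * (z 0) ^ 2 + 3 * z 1

noncomputable def e0 (n : ℕ) : E (n + 2) := EuclideanSpace.single 0 1
noncomputable def e1 (n : ℕ) : E (n + 2) := EuclideanSpace.single 1 1

noncomputable def dF (n : ℕ) (z : E (n + 2)) : E (n + 2) :=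
  (4 * ‖z‖ ^ 2 + 2) • z - (6 * z 0) • e0 n + (3:ℝ) • e1 n

variable {n : ℕ}

theorem inner_e0 (v : E (n + 2)) : inner ℝ (e0 n) v = v 0 := by
  unfold e0; simp [EuclideanSpace.inner_single_left]

theorem inner_e1 (v : E (n + 2)) : inner ℝ (e1 n) v = v 1 := by
  unfold e1; simp [EuclideanSpace.inner_single_left]

theorem hasFDerivAt_coord (i : Fin (n + 2)) (z : E (n + 2)) :
    HasFDerivAt (fun w : E (n + 2) => w i) (EuclideanSpace.proj (𝕜 := ℝ) i) z :=
  (EuclideanSpace.proj (𝕜 := ℝ) i).hasFDerivAt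

theorem hasFDerivAt_nsq (z : E (n + 2)) :
    HasFDerivAt (fun w : E (n + 2) => ‖w‖ ^ 2) (2 • innerSL ℝ z) z :=
  (hasStrictFDerivAt_norm_sq z).hasFDerivAt

theorem hasGradientAt_F (z : E (n + 2)) : HasGradientAt (F n) (dF n z) z := by
  rw [hasGradientAt_iff_hasFDerivAt]
  have h1 := hasFDerivAt_nsq (n := n) z
  have h2 := h1.pow 2
  have h3 := ((hasFDerivAt_coord (n := n) 0 z).pow 2).const_mul 3
  have h4 := (hasFDerivAt_coord (n := n) 1 z).const_mul 3
  have h5 := ((h2.add h1).sub h3).add h4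
  refine HasFDerivAt.congr_fderiv h5 ?_
  ext v
  simp [dF, inner_add_left, inner_sub_left, inner_smul_left, inner_e0, inner_e1]
  ring

theorem gradient_F (z : E (n + 2)) : gradient (F n) z = dF n z :=
  (hasGradientAt_F z).gradient

theorem gradient_F' : gradient (F n) = dF n := funext gradient_F

noncomputable def HF (n : ℕ) (z : E (n + 2)) : E (n + 2) →L[ℝ] E (n + 2) :=
  (4 * ‖z‖ ^ 2 + 2) • (ContinuousLinearMap.id ℝ _) +
    ((8:ℝ) • innerSL ℝ z).smulRight z - (((6:ℝ) • EuclideanSpace.proj (𝕜 := ℝ) (0 : Fin (n+2))).smulRight (e0 n))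

theorem HF_apply (z v : E (n + 2)) : HF n z v =
    (4 * ‖z‖ ^ 2 + 2) • v + (8 * inner ℝ z v) • z - (6 * v 0) • e0 n := by
  simp [HF]

theorem hess_F (z : E (n + 2)) : hess (F n) z = HF n z := by
  unfold hess
  rw [gradient_F']
  have h1 := ((hasFDerivAt_nsq (n := n) z).const_mul 4).add_const 2
  have h2 := h1.smul (hasFDerivAt_id z)
  have h3 := ((hasFDerivAt_coord (n := n) 0 z).const_mul 6).smul_const (e0 n)
  have h4 := (h2.sub h3).add_const ((3:ℝ) • e1 n)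
  have h5 : HasFDerivAt (dF n) (HF n z) z := by
    refine HasFDerivAt.congr_fderiv h4 ?_
    ext v i
    have e4 : (4 • 2 • (innerSL ℝ) z) v = 8 * inner ℝ z v := by
      simp; ring
    simp only [HF, ContinuousLinearMap.sub_apply, ContinuousLinearMap.add_apply,
      ContinuousLinearMap.smulRight_apply, ContinuousLinearMap.smul_apply,
      ContinuousLinearMap.id_apply, innerSL_apply_apply, id_eq, PiLp.sub_apply, PiLp.add_apply,
      PiLp.smul_apply, smul_eq_mul, nsmul_eq_mul]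
    push_cast
    ring
  exact h5.fderiv

theorem inner_HF (z v : E (n + 2)) : inner ℝ (HF n z v) v =
    (4 * ‖z‖ ^ 2 + 2) * ‖v‖ ^ 2 + 8 * (inner ℝ z v) ^ 2 - 6 * (v 0) ^ 2 := by
  rw [HF_apply, inner_sub_left, inner_add_left, inner_smul_left, inner_smul_left,
    inner_smul_left, inner_e0, real_inner_self_eq_norm_sq]
  simp
  ring

theorem contDiff_F : ContDiff ℝ 2 (F n) := by
  unfold F
  have h1 : ContDiff ℝ 2 (fun z : E (n + 2) => ‖z‖ ^ 2) := contDiff_norm_sq ℝ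
  have h2 : ∀ i : Fin (n + 2), ContDiff ℝ 2 (fun z : E (n + 2) => z i) := fun i =>
    (EuclideanSpace.proj (𝕜 := ℝ) i).contDiff
  exact (((h1.pow 2).add h1).sub (contDiff_const.mul ((h2 0).pow 2))).add
    (contDiff_const.mul (h2 1))

/-- `‖z‖² = z₀² + W` with `W = ‖w‖²` -/
theorem sq_le (z : E (n + 2)) : z 0 ^ 2 + z 1 ^ 2 ≤ ‖z‖ ^ 2 := by
  rw [EuclideanSpace.norm_sq_eq]
  have h : ∑ i : Fin (n + 2), ‖z i‖ ^ 2 = z 0 ^ 2 + (z 1 ^ 2 + ∑ i : Fin n, ‖z i.succ.succ‖ ^ 2) := by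
    rw [Fin.sum_univ_succ, Fin.sum_univ_succ]
    simp
  rw [h]
  have : 0 ≤ ∑ i : Fin n, ‖z i.succ.succ‖ ^ 2 := Finset.sum_nonneg fun i _ => by positivity
  linarith

/-- the discriminating polynomial -/
noncomputable def Q (z : E (n + 2)) : ℝ := 6 * (‖z‖ ^ 2) ^ 2 - 5 * ‖z‖ ^ 2 + 6 * z 0 ^ 2 - 1

/-- the part of `z` orthogonal to `e₀` -/
noncomputable def wp (z : E (n + 2)) : E (n + 2) := z - z 0 • e0 n

theorem norm_e0 : ‖e0 n‖ = 1 := by unfold e0; simp

theorem inner_wp (z v : E (n + 2)) : inner ℝ (wp z) (wp v) = inner ℝ z v - z 0 * v 0 := by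
  unfold wp
  have h1 : inner ℝ z (e0 n) = z 0 := by rw [real_inner_comm, inner_e0]
  have h2 : inner ℝ (e0 n) (e0 n) = (1:ℝ) := by
    rw [real_inner_self_eq_norm_sq, norm_e0]; norm_num
  rw [inner_sub_left, inner_sub_right, inner_sub_right, inner_smul_left, inner_smul_left,
    inner_smul_right, inner_smul_right, inner_e0, h1, h2]
  simp
  ring

theorem norm_wp (z : E (n + 2)) : ‖wp z‖ ^ 2 = ‖z‖ ^ 2 - z 0 ^ 2 := by
  rw [← real_inner_self_eq_norm_sq, inner_wp, real_inner_self_eq_norm_sq]; ring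

theorem alg {x v s W U A : ℝ} (hA : 0 < A) (hW : 0 ≤ W) (hU : 0 ≤ U) (hs : s ^ 2 ≤ W * U) :
    0 ≤ 64 * W * x ^ 2 * v ^ 2 + 16 * (8 * W + A) * x * v * s + 8 * (8 * W + A) * s ^ 2 +
      (8 * W + A) * A * U := by
  rcases hW.eq_or_lt with h | h
  · rw [← h] at hs
    have : s = 0 := by nlinarith
    rw [← h, this]
    have : 0 ≤ A * A * U := by positivity
    nlinarith
  · have h1 : 0 ≤ W * (64 * W * x ^ 2 * v ^ 2 + 16 * (8 * W + A) * x * v * s +
        8 * (8 * W + A) * s ^ 2 + (8 * W + A) * A * U) := by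
      have e : W * (64 * W * x ^ 2 * v ^ 2 + 16 * (8 * W + A) * x * v * s +
        8 * (8 * W + A) * s ^ 2 + (8 * W + A) * A * U) =
        ((8 * W + A) * s + 8 * x * v * W) ^ 2 + (8 * W + A) * A * (W * U - s ^ 2) := by
        ring
      rw [e]
      have : 0 ≤ (8 * W + A) * A * (W * U - s ^ 2) :=
        mul_nonneg (by positivity) (by linarith)
      positivity
    by_contra hcon
    have := mul_neg_of_pos_of_neg h (not_le.1 hcon)
    linarith

theorem hessPos_of_Q {z : E (n + 2)} (hQ : 0 < Q z) : z ∈ HessPos (F n) := by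
  intro v hv
  rw [hess_F, inner_HF]
  set x := z 0
  set a := v 0
  set W := ‖wp z‖ ^ 2 with hW
  set U := ‖wp v‖ ^ 2 with hU
  set s := inner ℝ (wp z) (wp v) with hs
  have h1 : ‖z‖ ^ 2 = x ^ 2 + W := by rw [hW, norm_wp]; ring
  have h2 : ‖v‖ ^ 2 = a ^ 2 + U := by rw [hU, norm_wp]; ring
  have h3 : inner ℝ z v = x * a + s := by rw [hs, inner_wp]; ring
  have hs2 : s ^ 2 ≤ W * U := by
    have := abs_real_inner_le_norm (wp z) (wp v)
    rw [← hs] at this
    have h4 : s ^ 2 ≤ (‖wp z‖ * ‖wp v‖) ^ 2 := by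
      rw [← sq_abs s]
      exact pow_le_pow_left₀ (abs_nonneg _) this 2
    calc s ^ 2 ≤ (‖wp z‖ * ‖wp v‖) ^ 2 := h4
      _ = W * U := by rw [hW, hU]; ring
  have hW0 : 0 ≤ W := by positivity
  have hU0 : 0 ≤ U := by positivity
  set A := 4 * (x ^ 2 + W) + 2 with hA
  have hA0 : 0 < A := by positivity
  have h5 := alg (x := x) (v := a) hA0 hW0 hU0 hs2
  rw [h3, h2]
  rw [h1]
  unfold Q at hQ
  rw [h1] at hQ
  have hv2 : 0 < a ^ 2 + U := by rw [← h2]; positivity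
  by_cases ha : a = 0
  · rw [ha] at hv2 ⊢
    have : 0 < A * U := by
      apply mul_pos hA0; simpa using hv2
    nlinarith [sq_nonneg s]
  · have ha2 : 0 < a ^ 2 := by positivity
    have hD : 0 < 8 * W + A := by positivity
    have key : (8 * W + A) * (A * (a ^ 2 + U) + 8 * (x * a + s) ^ 2 - 6 * a ^ 2) =
        8 * (6 * (x ^ 2 + W) ^ 2 - 5 * (x ^ 2 + W) + 6 * x ^ 2 - 1) * a ^ 2 +
        (64 * W * x ^ 2 * a ^ 2 + 16 * (8 * W + A) * x * a * s + 8 * (8 * W + A) * s ^ 2 +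
      (8 * W + A) * A * U) := by
      rw [hA]; ring
    have h6 : 0 < 8 * (6 * (x ^ 2 + W) ^ 2 - 5 * (x ^ 2 + W) + 6 * x ^ 2 - 1) * a ^ 2 := by
      have : z 0 = x := rfl
      rw [this] at hQ
      positivity
    have h7 : 0 < (8 * W + A) * (A * (a ^ 2 + U) + 8 * (x * a + s) ^ 2 - 6 * a ^ 2) := by
      rw [key]; linarith
    exact (pos_iff_pos_of_mul_pos h7).1 hD

theorem Q_pos_of_norm {z : E (n + 2)} (h : 1 < ‖z‖) : 0 < Q z := by
  unfold Q
  have h1 : 1 < ‖z‖ ^ 2 := by nlinarith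
  nlinarith [sq_nonneg (z 0)]

theorem F_le_of_Q {z : E (n + 2)} (hQ : Q z ≤ 0) : F n z ≤ 5 := by
  have h1 : ‖z‖ ≤ 1 := by
    by_contra hcon
    have := Q_pos_of_norm (not_le.1 hcon)
    linarith
  have h2 : ‖z‖ ^ 2 ≤ 1 := by nlinarith [norm_nonneg z]
  have h3 := sq_le z
  have h4 : z 1 ≤ 1 := by nlinarith [sq_nonneg (z 0), sq_nonneg (z 1)]
  unfold Q at hQ
  unfold F
  nlinarith [sq_nonneg (z 0)]

theorem over_five : {z | 5 < F n z} ⊆ HessPos (F n) := by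
  intro z hz
  apply hessPos_of_Q
  by_contra hcon
  have := F_le_of_Q (not_lt.1 hcon)
  have hz : 5 < F n z := hz
  linarith

end Pool.Agent.V1282.GI
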