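import Pool.Agent.V1282.GI1

set_option linter.all false

open Set Filter Topology

namespace Pool.Agent.V1282.GI

variable {n : ℕ}

theorem no_max {p p' : ℝ → ℝ} {c t₁ : ℝ} (h1 : ∀ t, HasDerivAt p (p' t) t)
    (h2 : HasDerivAt p' c t₁) (hc : 0 < c) (hmax : IsLocalMax p t₁) : False := by
  have hd : deriv p = p' := funext fun t => (h1 t).deriv
  have h0 : p' t₁ = 0 := hmax.hasDerivAt_eq_zero (h1 t₁)
  have hmin : IsLocalMin p t₁ := by
    apply isLocalMin_of_deriv_deriv_pos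
    · rw [hd, h2.deriv]; exact hc
    · rw [hd, h0]
    · exact (h1 t₁).continuousAt
  have hev : p =ᶠ[𝓝 t₁] fun _ => p t₁ := by
    filter_upwards [hmax, hmin] with t h3 h4
    exact le_antisymm h3 h4
  have h5 := hev.deriv
  rw [hd] at h5
  have h6 : p' =ᶠ[𝓝 t₁] fun _ => (0:ℝ) := by
    refine h5.trans ?_
    filter_upwards with t
    simp
  have h7 := (h2.congr_of_eventuallyEq h6.symm).unique (hasDerivAt_const t₁ (0:ℝ))
  linarith

theorem hasDerivAt_line (x v : E (n + 2)) (t : ℝ) :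
    HasDerivAt (fun s : ℝ => F n (x + s • v)) (inner ℝ (dF n (x + t • v)) v) t := by
  have h1 : HasDerivAt (fun s : ℝ => x + s • v) v t := by
    have := ((hasDerivAt_id t).smul_const v).const_add x
    simpa using this
  have h2 := (hasGradientAt_F (x + t • v)).hasFDerivAt
  have h3 := h2.comp_hasDerivAt t h1
  refine h3.congr_deriv ?_
  simp

theorem hasFDerivAt_dF (z : E (n + 2)) : HasFDerivAt (dF n) (HF n z) z := by
  have h1 := hess_F z
  unfold hess at h1
  rw [gradient_F'] at h1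
  have h2 : DifferentiableAt ℝ (dF n) z := by
    unfold dF
    have h3 : DifferentiableAt ℝ (fun z : E (n + 2) => ‖z‖ ^ 2) z :=
      (hasFDerivAt_nsq z).differentiableAt
    have h4 : DifferentiableAt ℝ (fun z : E (n + 2) => z 0) z :=
      (hasFDerivAt_coord 0 z).differentiableAt
    exact ((((h3.const_mul 4).add_const 2).smul differentiableAt_id).sub
      ((h4.const_mul 6).smul_const _)).add_const _
  rw [← h1]
  exact h2.hasFDerivAt

theorem hasDerivAt_line2 (x v : E (n + 2)) (t : ℝ) :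
    HasDerivAt (fun s : ℝ => inner ℝ (dF n (x + s • v)) v)
      (inner ℝ (HF n (x + t • v) v) v) t := by
  have h1 : HasDerivAt (fun s : ℝ => x + s • v) v t := by
    have := ((hasDerivAt_id t).smul_const v).const_add x
    simpa using this
  have h2 := (hasFDerivAt_dF (x + t • v)).comp_hasDerivAt t h1
  have h3 := h2.inner ℝ (hasDerivAt_const t v)
  simpa using h3

theorem continuous_F : Continuous (F n) := contDiff_F.continuous

theorem trunc_convexOn {q : ℝ} (hq : 5 ≤ q) : ConvexOn ℝ univ (trunc q (F n)) := by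
  refine ⟨convex_univ, ?_⟩
  intro x _ y _ a b ha hb hab
  set v := y - x with hv
  set M := trunc q (F n) with hM
  set l : ℝ → ℝ := fun t => M x + t * (M y - M x) with hl
  have hMc : Continuous M := by
    rw [hM]; unfold trunc; exact continuous_const.max continuous_F
  have hMq : ∀ z, q ≤ M z := fun z => le_max_left _ _
  by_contra hcon
  have hcon := not_le.1 hcon
  have hpt : a • x + b • y = x + b • v := by
    rw [hv, smul_sub]
    have : a = 1 - b := by linarith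
    rw [this, sub_smul, one_smul]
    abel
  have hb1 : b ≤ 1 := by linarith
  have hval : a • M x + b • M y = l b := by
    simp only [smul_eq_mul, hl]
    have : a = 1 - b := by linarith
    rw [this]; ring
  rw [hpt, hval] at hcon
  have hcD : ContinuousOn (fun t : ℝ => M (x + t • v) - l t) (Icc 0 1) := by
    apply Continuous.continuousOn
    have : Continuous l := by rw [hl]; fun_prop
    exact (hMc.comp (by fun_prop)).sub this
  obtain ⟨t₁, ht₁, hmax⟩ := isCompact_Icc.exists_isMaxOn ⟨b, hb, hb1⟩ hcD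
  have h1 : 0 < M (x + t₁ • v) - l t₁ := by
    have h2 := hmax (show b ∈ Icc (0:ℝ) 1 from ⟨hb, hb1⟩)
    have h2 : M (x + b • v) - l b ≤ M (x + t₁ • v) - l t₁ := h2
    linarith
  have ht0 : t₁ ≠ 0 := by
    intro h0
    rw [h0] at h1
    simp [hl] at h1
  have ht1 : t₁ ≠ 1 := by
    intro h0
    rw [h0] at h1
    simp [hl, hv] at h1
  have hIoo : t₁ ∈ Ioo (0:ℝ) 1 :=
    ⟨lt_of_le_of_ne ht₁.1 (Ne.symm ht0), lt_of_le_of_ne ht₁.2 ht1⟩
  have hlq : q ≤ l t₁ := by
    have h3 := hMq x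
    have h4 := hMq y
    have : l t₁ = (1 - t₁) * M x + t₁ * M y := by rw [hl]; ring
    rw [this]
    nlinarith [hIoo.1, hIoo.2]
  have hFq : q < F n (x + t₁ • v) := by
    have h3 : q < M (x + t₁ • v) := by linarith
    rw [hM] at h3
    unfold trunc at h3
    rcases lt_max_iff.1 h3 with h4 | h4
    · exact absurd h4 (lt_irrefl _)
    · exact h4
  have hv0 : v ≠ 0 := by
    intro h0
    have hxy : y = x := by
      have := h0
      rw [hv, sub_eq_zero] at this
      exact this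
    rw [h0, smul_zero, add_zero] at h1
    rw [hl, hxy] at h1
    simp at h1
  -- near t₁, M = F
  have hloc : IsLocalMax (fun t => F n (x + t • v) - l t) t₁ := by
    have hcF : Continuous fun t : ℝ => F n (x + t • v) := continuous_F.comp (by fun_prop)
    have hev : ∀ᶠ t in 𝓝 t₁, q < F n (x + t • v) :=
      hcF.continuousAt.eventually (lt_mem_nhds hFq)
    filter_upwards [hev, Ioo_mem_nhds hIoo.1 hIoo.2] with t h3 h4
    have h5 := hmax (show t ∈ Icc (0:ℝ) 1 from ⟨h4.1.le, h4.2.le⟩)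
    have h5 : M (x + t • v) - l t ≤ M (x + t₁ • v) - l t₁ := h5
    have h6 : M (x + t • v) = F n (x + t • v) := max_eq_right h3.le
    have h7 : M (x + t₁ • v) = F n (x + t₁ • v) := max_eq_right hFq.le
    rw [h6, h7] at h5
    exact h5
  have hdl : ∀ t, HasDerivAt l (M y - M x) t := by
    intro t
    have := ((hasDerivAt_id t).mul_const (M y - M x)).const_add (M x)
    simpa [hl] using this
  have hpos : 0 < inner ℝ (HF n (x + t₁ • v) v) v := by
    have h3 : x + t₁ • v ∈ HessPos (F n) := over_five (by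
      show 5 < F n (x + t₁ • v)
      linarith)
    have h4 := h3 v hv0
    rwa [hess_F] at h4
  exact no_max (p := fun t => F n (x + t • v) - l t)
    (p' := fun t => inner ℝ (dF n (x + t • v)) v - (M y - M x))
    (fun t => (hasDerivAt_line x v t).sub (hdl t))
    ((hasDerivAt_line2 x v t₁).sub_const _) hpos hloc

/-! ### points in the `(e₀, e₁)` plane -/

noncomputable def pt (n : ℕ) (a b : ℝ) : E (n + 2) := a • e0 n + b • e1 n

theorem pt_zero (a b : ℝ) : pt n a b 0 = a := by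
  simp [pt, e0, e1]

theorem pt_one (a b : ℝ) : pt n a b 1 = b := by
  simp [pt, e0, e1]

theorem norm_pt (a b : ℝ) : ‖pt n a b‖ ^ 2 = a ^ 2 + b ^ 2 := by
  rw [← real_inner_self_eq_norm_sq]
  conv_lhs => enter [2]; unfold pt
  rw [inner_add_left, inner_smul_left, inner_smul_left, inner_e0, inner_e1, pt_zero, pt_one]
  simp
  ring

theorem F_pt (a b : ℝ) : F n (pt n a b) = (a ^ 2 + b ^ 2) ^ 2 + (a ^ 2 + b ^ 2) - 3 * a ^ 2 +
    3 * b := by
  unfold F; rw [norm_pt, pt_zero, pt_one]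

theorem Q_pt (a b : ℝ) : Q (pt n a b) = 6 * (a ^ 2 + b ^ 2) ^ 2 - 5 * (a ^ 2 + b ^ 2) +
    6 * a ^ 2 - 1 := by
  unfold Q; rw [norm_pt, pt_zero]

theorem not_convex_below {q : ℝ} (hq : q < 5) : ¬ ConvexOn ℝ univ (trunc q (F n)) := by
  intro hc
  have hcont : Continuous fun y : ℝ => y ^ 4 + y ^ 2 + 3 * y := by fun_prop
  have h1 : ∀ᶠ y in 𝓝[<] (1:ℝ), q < y ^ 4 + y ^ 2 + 3 * y := by
    have h2 := hcont.continuousAt (x := (1:ℝ))
    have h3 : q < (1:ℝ) ^ 4 + 1 ^ 2 + 3 * 1 := by norm_num; exact hq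
    exact (h2.eventually (lt_mem_nhds h3)).filter_mono nhdsWithin_le_nhds
  obtain ⟨y, hy1, hy2⟩ := (h1.and (Ioo_mem_nhdsLT (show (0:ℝ) < 1 by norm_num))).exists
  have hy0 : 0 < y := hy2.1
  have hy1' : y < 1 := hy2.2
  have hp : 0 < 1 - y ^ 2 := by nlinarith
  set t := Real.sqrt (1 - y ^ 2) with ht
  have ht2 : t ^ 2 = 1 - y ^ 2 := Real.sq_sqrt hp.le
  have h3 := hc.2 (mem_univ (pt n t y)) (mem_univ (pt n (-t) y))
    (show (0:ℝ) ≤ 1 / 2 by norm_num) (show (0:ℝ) ≤ 1 / 2 by norm_num) (by norm_num)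
  have hmid : (1 / 2 : ℝ) • pt n t y + (1 / 2 : ℝ) • pt n (-t) y = pt n 0 y := by
    unfold pt
    module
  rw [hmid] at h3
  have e1 : trunc q (F n) (pt n 0 y) = y ^ 4 + y ^ 2 + 3 * y := by
    unfold trunc
    rw [F_pt]
    rw [max_eq_right (by nlinarith)]
    ring
  have e2 : F n (pt n t y) < y ^ 4 + y ^ 2 + 3 * y := by
    rw [F_pt, ht2]
    nlinarith
  have e3 : F n (pt n (-t) y) < y ^ 4 + y ^ 2 + 3 * y := by
    rw [F_pt, neg_sq, ht2]
    nlinarith
  have e4 : trunc q (F n) (pt n t y) < y ^ 4 + y ^ 2 + 3 * y := max_lt hy1 e2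
  have e5 : trunc q (F n) (pt n (-t) y) < y ^ 4 + y ^ 2 + 3 * y := max_lt hy1 e3
  rw [e1] at h3
  simp only [smul_eq_mul] at h3
  linarith

theorem not_convex_F : ¬ ConvexOn ℝ univ (F n) := by
  intro hc
  have h3 := hc.2 (mem_univ (pt n 1 0)) (mem_univ (pt n (-1) 0))
    (show (0:ℝ) ≤ 1 / 2 by norm_num) (show (0:ℝ) ≤ 1 / 2 by norm_num) (by norm_num)
  have hmid : (1 / 2 : ℝ) • pt n 1 0 + (1 / 2 : ℝ) • pt n (-1) 0 = pt n 0 0 := by
    unfold pt
    module
  rw [hmid, F_pt, F_pt, F_pt] at h3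
  norm_num at h3

theorem levels_F : levels (F n) = Ici 5 := by
  ext q
  constructor
  · intro h
    by_contra hcon
    have hq : q < 5 := by simpa using hcon
    exact not_convex_below hq (h.2 q le_rfl)
  · intro h
    have hq : 5 ≤ q := h
    refine ⟨?_, fun r hr => trunc_convexOn (hq.trans hr)⟩
    refine (iInf_le _ (pt n 0 0)).trans ?_
    rw [F_pt]
    have : ((0:ℝ) ^ 2 + 0 ^ 2) ^ 2 + (0 ^ 2 + 0 ^ 2) - 3 * 0 ^ 2 + 3 * 0 ≤ q := by
      norm_num; linarith
    exact_mod_cast this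

theorem scl_F : scl (F n) = 5 := by
  unfold scl; rw [levels_F, csInf_Ici]

/-! ### critical points -/

theorem crit {z : E (n + 2)} (h : dF n z = 0) :
    z 0 * (4 * ‖z‖ ^ 2 - 4) = 0 ∧ (4 * ‖z‖ ^ 2 + 2) * z 1 + 3 = 0 ∧
      ‖z‖ ^ 2 = z 0 ^ 2 + z 1 ^ 2 := by
  have h0 : inner ℝ (e0 n) (dF n z) = 0 := by rw [h, inner_zero_right]
  have h1 : inner ℝ (e1 n) (dF n z) = 0 := by rw [h, inner_zero_right]
  have h2 : inner ℝ z (dF n z) = (0:ℝ) := by rw [h, inner_zero_right]
  rw [inner_e0] at h0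
  rw [inner_e1] at h1
  have h01 : e1 n 0 = 0 := by unfold e1; simp
  have h00 : e0 n 0 = 1 := by unfold e0; simp
  have h10 : e0 n 1 = 0 := by unfold e0; simp
  have h11 : e1 n 1 = 1 := by unfold e1; simp
  have hz0 : inner ℝ z (e0 n) = z 0 := by rw [real_inner_comm, inner_e0]
  have hz1 : inner ℝ z (e1 n) = z 1 := by rw [real_inner_comm, inner_e1]
  unfold dF at h0 h1 h2
  simp only [PiLp.add_apply, PiLp.sub_apply, PiLp.smul_apply, smul_eq_mul, h01, h00, h10,
    h11] at h0 h1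
  rw [inner_add_right, inner_sub_right, inner_smul_right, inner_smul_right, inner_smul_right,
    real_inner_self_eq_norm_sq, hz0, hz1] at h2
  refine ⟨by linarith, by linarith, ?_⟩
  have hA : 0 < 4 * ‖z‖ ^ 2 + 2 := by positivity
  have h3 : (4 * ‖z‖ ^ 2 + 2) * ‖z‖ ^ 2 = (4 * ‖z‖ ^ 2 + 2) * (z 0 ^ 2 + z 1 ^ 2) := by
    linear_combination h2 - z 0 * h0 - z 1 * h1
  exact mul_left_cancel₀ hA.ne' h3

theorem crit_cases {z : E (n + 2)} (h : dF n z = 0) :
    (‖z‖ ^ 2 = 1 ∧ z 1 = -(1 / 2) ∧ z 0 ^ 2 = 3 / 4) ∨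
    (z 0 = 0 ∧ ‖z‖ ^ 2 < 1 ∧ z 1 < 0) := by
  obtain ⟨h1, h2, h3⟩ := crit h
  have hA : 0 < 4 * ‖z‖ ^ 2 + 2 := by positivity
  rcases mul_eq_zero.1 h1 with h4 | h4
  · right
    refine ⟨h4, ?_, ?_⟩
    · rw [h4] at h3
      have h5 : ‖z‖ ^ 2 = z 1 ^ 2 := by rw [h3]; ring
      rw [h5] at h2
      have h6 : -1 < z 1 := by nlinarith [sq_nonneg (z 1), sq_nonneg (z 1 + 1)]
      have h7 : z 1 < 0 := by nlinarith [sq_nonneg (z 1)]
      rw [h5]; nlinarith
    · nlinarith
  · left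
    have h5 : ‖z‖ ^ 2 = 1 := by linarith
    rw [h5] at h2 h3
    have h6 : z 1 = -(1 / 2) := by linarith
    refine ⟨h5, h6, ?_⟩
    rw [h6] at h3; linarith

theorem crit_norm {z : E (n + 2)} (h : dF n z = 0) : ‖z‖ ≤ 1 := by
  rcases crit_cases h with ⟨h1, _, _⟩ | ⟨_, h1, _⟩
  · nlinarith [norm_nonneg z]
  · nlinarith [norm_nonneg z]

theorem morse_F (z : E (n + 2)) (h : gradient (F n) z = 0) :
    Function.Bijective (hess (F n) z) := by
  rw [gradient_F] at h
  rw [hess_F]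
  have hinj : Function.Injective (HF n z) := by
    rw [injective_iff_map_eq_zero]
    intro v hv
    rcases crit_cases h with ⟨h1, h2, h3⟩ | ⟨h1, h2, h3⟩
    · by_contra hv0
      have h4 : z ∈ HessPos (F n) := by
        apply hessPos_of_Q
        unfold Q
        rw [h1, h3]; norm_num
      have h5 := h4 v hv0
      rw [hess_F, hv, inner_zero_left] at h5
      exact lt_irrefl _ h5
    · have h4 := inner_HF z v
      rw [hv, inner_zero_left] at h4
      have h5 : inner ℝ (e0 n) (HF n z v) = (0:ℝ) := by rw [hv, inner_zero_right]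
      rw [inner_e0, HF_apply] at h5
      have h00 : e0 n 0 = 1 := by unfold e0; simp
      simp only [PiLp.add_apply, PiLp.sub_apply, PiLp.smul_apply, smul_eq_mul, h00, h1] at h5
      have h6 : v 0 * (4 * ‖z‖ ^ 2 - 4) = 0 := by linarith
      rcases mul_eq_zero.1 h6 with h7 | h7
      · rw [h7] at h4
        have h8 : (4 * ‖z‖ ^ 2 + 2) * ‖v‖ ^ 2 = 0 := by
          have h9 : 0 ≤ (4 * ‖z‖ ^ 2 + 2) * ‖v‖ ^ 2 := by positivity
          have h10 : 0 ≤ 8 * (inner ℝ z v) ^ 2 := by positivity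
          nlinarith
        have hA : 0 < 4 * ‖z‖ ^ 2 + 2 := by positivity
        rcases mul_eq_zero.1 h8 with h9 | h9
        · linarith
        · simpa using h9
      · linarith
  refine ⟨hinj, ?_⟩
  exact (LinearMap.injective_iff_surjective (f := (HF n z).toLinearMap)).1 hinj

theorem standing_F : Standing (F n) where
  c2 := contDiff_F
  not_convex := not_convex_F
  trunc_convex := by rw [levels_F]; exact ⟨5, by simp⟩
  morse := morse_F
  crit_bdd := by
    refine (Metric.isBounded_closedBall (x := (0 : E (n + 2))) (r := 1)).subset ?_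
    intro z hz
    have hz : gradient (F n) z = 0 := hz
    rw [gradient_F] at hz
    simpa using crit_norm hz
  hess_bdd := by
    refine (Metric.isBounded_closedBall (x := (0 : E (n + 2))) (r := 1)).subset ?_
    intro z hz
    by_contra hcon
    have h1 : 1 < ‖z‖ := by simpa using hcon
    exact hz (hessPos_of_Q (Q_pos_of_norm h1))
  levels_bdd := by rw [levels_F]; exact bddBelow_Ici
  scl_mem := by
    rw [scl_F]
    refine ⟨pt n 0 1, ?_⟩
    rw [F_pt]; norm_num
  scl_regular := by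
    intro z hz h
    rw [scl_F] at hz
    rw [gradient_F] at h
    unfold F at hz
    rcases crit_cases h with ⟨h1, h2, h3⟩ | ⟨h1, h2, h3⟩
    · rw [h1, h2, h3] at hz
      norm_num at hz
    · rw [h1] at hz
      have : 0 ≤ ‖z‖ ^ 2 := by positivity
      nlinarith
  superlevel := by
    rw [scl_F]; exact over_five

/-! ### the two minima lie in one component of `R(F)` -/

theorem mem_R {a b : ℝ} (hQ : 0 < Q (pt n a b)) (hF : F n (pt n a b) ≤ 5) :
    pt n a b ∈ R (F n) := by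
  refine ⟨hessPos_of_Q hQ, ?_⟩
  rw [scl_F]
  exact not_lt.2 hF

theorem continuous_pt : Continuous fun p : ℝ × ℝ => pt n p.1 p.2 := by
  unfold pt; fun_prop

noncomputable def cc : ℝ := Real.sqrt (3 / 4)

theorem cc_sq : cc ^ 2 = 3 / 4 := Real.sq_sqrt (by norm_num)
theorem cc_pos : 0 < cc := Real.sqrt_pos.2 (by norm_num)

theorem vert_mem {a s : ℝ} (ha : a ^ 2 = 3 / 4) (hs : s ∈ Icc (-(5/4) : ℝ) (-(1/2))) :
    pt n a s ∈ R (F n) := by
  obtain ⟨h1, h2⟩ := hs
  have hw : s ^ 2 ≤ 25 / 16 := by nlinarith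
  apply mem_R
  · rw [Q_pt, ha]; nlinarith [sq_nonneg s, sq_nonneg (s ^ 2)]
  · rw [F_pt, ha]; nlinarith [sq_nonneg s]

theorem hor_mem {u : ℝ} (hu : u ^ 2 ≤ 3 / 4) : pt n u (-(5/4)) ∈ R (F n) := by
  apply mem_R
  · rw [Q_pt]; nlinarith [sq_nonneg u, sq_nonneg (u ^ 2)]
  · rw [F_pt]; nlinarith [sq_nonneg u]

noncomputable def path (n : ℕ) : Set (E (n + 2)) :=
  ((fun s : ℝ => pt n (-cc) s) '' Icc (-(5/4)) (-(1/2)) ∪
    (fun u : ℝ => pt n u (-(5/4))) '' Icc (-cc) cc) ∪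
    (fun s : ℝ => pt n cc s) '' Icc (-(5/4)) (-(1/2))

theorem path_conn : IsPreconnected (path n) := by
  have hc1 : Continuous fun s : ℝ => pt n (-cc) s := by unfold pt; fun_prop
  have hc2 : Continuous fun u : ℝ => pt n u (-(5/4)) := by unfold pt; fun_prop
  have hc3 : Continuous fun s : ℝ => pt n cc s := by unfold pt; fun_prop
  have h1 := isPreconnected_Icc (a := (-(5/4) : ℝ)) (b := -(1/2)) |>.image _ hc1.continuousOn
  have h2 := isPreconnected_Icc (a := -cc) (b := cc) |>.image _ hc2.continuousOn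
  have h3 := isPreconnected_Icc (a := (-(5/4) : ℝ)) (b := -(1/2)) |>.image _ hc3.continuousOn
  have hp := cc_pos
  have m1 : pt n (-cc) (-(5/4)) ∈ (fun s : ℝ => pt n (-cc) s) '' Icc (-(5/4)) (-(1/2)) :=
    ⟨-(5/4), ⟨le_rfl, by norm_num⟩, rfl⟩
  have m2 : pt n (-cc) (-(5/4)) ∈ (fun u : ℝ => pt n u (-(5/4))) '' Icc (-cc) cc :=
    ⟨-cc, ⟨le_rfl, by linarith⟩, rfl⟩
  have m3 : pt n cc (-(5/4)) ∈ (fun u : ℝ => pt n u (-(5/4))) '' Icc (-cc) cc :=
    ⟨cc, ⟨by linarith, le_rfl⟩, rfl⟩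
  have m4 : pt n cc (-(5/4)) ∈ (fun s : ℝ => pt n cc s) '' Icc (-(5/4)) (-(1/2)) :=
    ⟨-(5/4), ⟨le_rfl, by norm_num⟩, rfl⟩
  have h12 := IsPreconnected.union _ m1 m2 h1 h2
  exact IsPreconnected.union _ (Or.inr m3) m4 h12 h3

theorem path_sub : path n ⊆ R (F n) := by
  rintro z ((⟨s, hs, rfl⟩ | ⟨u, hu, rfl⟩) | ⟨s, hs, rfl⟩)
  · exact vert_mem (by rw [neg_sq, cc_sq]) hs
  · apply hor_mem
    rw [← cc_sq]
    have := abs_le.2 hu
    rw [← sq_abs u]
    exact pow_le_pow_left₀ (abs_nonneg _) this 2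
  · exact vert_mem cc_sq hs

theorem left_mem_path : pt n (-cc) (-(1/2)) ∈ path n :=
  Or.inl (Or.inl ⟨-(1/2), ⟨by norm_num, le_rfl⟩, rfl⟩)

theorem right_mem_path : pt n cc (-(1/2)) ∈ path n :=
  Or.inr ⟨-(1/2), ⟨by norm_num, le_rfl⟩, rfl⟩

theorem grad_zero {a : ℝ} (ha : a ^ 2 = 3 / 4) : gradient (F n) (pt n a (-(1/2))) = 0 := by
  rw [gradient_F]
  unfold dF
  rw [norm_pt, pt_zero, ha]
  unfold pt
  module

theorem main (n : ℕ) : ∃ f : E (n + 2) → ℝ, Standing f ∧
    ∃ x ∈ R f, ∃ y ∈ R f, x ≠ y ∧ y ∈ connectedComponentIn (R f) x ∧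
      gradient f x = gradient f y := by
  refine ⟨F n, standing_F, pt n (-cc) (-(1/2)), path_sub left_mem_path,
    pt n cc (-(1/2)), path_sub right_mem_path, ?_, ?_, ?_⟩
  · intro h
    have h1 := congrArg (fun z : E (n + 2) => z 0) h
    simp only [pt_zero] at h1
    have := cc_pos
    linarith
  · exact path_conn.subset_connectedComponentIn left_mem_path path_sub right_mem_path
  · rw [grad_zero (by rw [neg_sq, cc_sq]), grad_zero cc_sq]

end Pool.Agent.V1282.GI
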