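import Mathlib

set_option linter.all false

open Set Filter Topology

namespace Pool.Agent.V1282.GI

/-- `ℝⁿ` with its Euclidean structure. -/
abbrev E (n : ℕ) := EuclideanSpace ℝ (Fin n)

/-- The Hessian of `f` at `x`, as the derivative of the gradient. -/
noncomputable def hess {n : ℕ} (f : E n → ℝ) (x : E n) : E n →L[ℝ] E n :=
  fderiv ℝ (gradient f) x

/-- `Hess⁺(f)`: the points where the Hessian is positive definite. -/
def HessPos {n : ℕ} (f : E n → ℝ) : Set (E n) :=
  {x | ∀ v : E n, v ≠ 0 → 0 < inner ℝ (hess f x v) v}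

/-- The truncation `T_q(f) = max (q, f)`. -/
noncomputable def trunc {n : ℕ} (q : ℝ) (f : E n → ℝ) (x : E n) : ℝ := max q (f x)

/-- The levels `q ≥ inf f` such that `T_r(f)` is convex for all `r ≥ q`. -/
def levels {n : ℕ} (f : E n → ℝ) : Set ℝ :=
  {q | (⨅ x, (f x : EReal)) ≤ (q : EReal) ∧ ∀ r, q ≤ r → ConvexOn ℝ univ (trunc r f)}

/-- The smallest convexity level. -/
noncomputable def scl {n : ℕ} (f : E n → ℝ) : ℝ := sInf (levels f)

/-- The standing hypotheses (H). -/
structure Standing {n : ℕ} (f : E n → ℝ) : Prop where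
  /-- `f` is `C²` -/
  c2 : ContDiff ℝ 2 f
  /-- `f` is not convex -/
  not_convex : ¬ ConvexOn ℝ univ f
  /-- `f` is truncated convex -/
  trunc_convex : (levels f).Nonempty
  /-- `f` is Morse -/
  morse : ∀ p, gradient f p = 0 → Function.Bijective (hess f p)
  /-- the critical set is bounded -/
  crit_bdd : Bornology.IsBounded {x | gradient f x = 0}
  /-- `ℝⁿ \ Hess⁺(f)` is bounded -/
  hess_bdd : Bornology.IsBounded (HessPos f)ᶜ
  /-- the levels are bounded below, so that `scl f` is their actual infimum -/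
  levels_bdd : BddBelow (levels f)
  /-- `scl(f)` is a value of `f` ... -/
  scl_mem : scl f ∈ range f
  /-- ... and a regular value -/
  scl_regular : ∀ x, f x = scl f → gradient f x ≠ 0
  /-- `f⁻¹(scl(f), ∞) ⊆ Hess⁺(f)` -/
  superlevel : {x | scl f < f x} ⊆ HessPos f

/-- `R(f) = Hess⁺(f) \ f⁻¹(scl(f), ∞)`. -/
def R {n : ℕ} (f : E n → ℝ) : Set (E n) := HessPos f \ {x | scl f < f x}

end Pool.Agent.V1282.GI
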