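import Mathlib

open Set Filter Topology MeasureTheory

set_option autoImplicit false
set_option linter.all false

namespace Pool.Agent.V1282.Hm

/-- `I` is the Riemann-Stieltjes integral `∫_0^1 f dβ` (limit of the Riemann-Stieltjes sums over
tagged partitions `0 = t_0 ≤ … ≤ t_N = 1`, `t_i ≤ ξ_i ≤ t_{i+1}`, as the mesh tends to `0`). -/
def HasRSIntegral (f β : ℝ → ℝ) (I : ℝ) : Prop :=
  ∀ ε : ℝ, 0 < ε → ∃ δ : ℝ, 0 < δ ∧ ∀ (N : ℕ) (t ξ : ℕ → ℝ), Monotone t → t 0 = 0 → t N = 1 →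
    (∀ i < N, t (i + 1) - t i < δ) → (∀ i < N, ξ i ∈ Icc (t i) (t (i + 1))) →
    |(∑ i ∈ Finset.range N, f (ξ i) * (β (t (i + 1)) - β (t i))) - I| < ε

/-- The class `Ω` of the problem. -/
structure InOmega (ω : ℝ → ℝ) : Prop where
  cont : ContinuousOn ω (Icc 0 1)
  pos : ∀ x ∈ Icc (0:ℝ) 1, 0 < ω x
  zero : ω 0 = 1
  int : IntegrableOn ω (Ioc 0 1)
  int_div : IntegrableOn (fun x => |1 - ω x| * x⁻¹) (Ioc 0 1)

/-- The ratios of moments: `λ_0 = 1` and `λ_n = (∫ ω₁ x^{n-1}) (∫ ω₂ x^{n-1})⁻¹` for `n ≥ 1`. -/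
noncomputable def lam (ω₁ ω₂ : ℝ → ℝ) (n : ℕ) : ℝ :=
  if n = 0 then 1 else (∫ x in (0:ℝ)..1, ω₁ x * x ^ (n - 1)) * (∫ x in (0:ℝ)..1, ω₂ x * x ^ (n - 1))⁻¹

/-- the family of weights -/
noncomputable def om (K x : ℝ) : ℝ := (1 + K * (1 - x) ^ 3) / (1 + K)

lemma om_cont (K : ℝ) : Continuous (om K) := by
  unfold om
  fun_prop

lemma om_pos {K : ℝ} (hK : 0 ≤ K) {x : ℝ} (hx : x ∈ Icc (0:ℝ) 1) : 0 < om K x := by
  unfold om
  have : 0 ≤ (1 - x) ^ 3 := pow_nonneg (by linarith [hx.2]) 3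
  positivity

lemma om_anti {K : ℝ} (hK : 0 ≤ K) : AntitoneOn (om K) (Icc 0 1) := by
  intro x hx y hy hxy
  unfold om
  have h1 : (1 - y) ^ 3 ≤ (1 - x) ^ 3 := by
    apply pow_le_pow_left₀ (by linarith [hy.2]) (by linarith)
  gcongr

lemma om_ratio {K L : ℝ} (hL : 0 ≤ L) (hKL : L ≤ K) :
    AntitoneOn (fun x => om K x / om L x) (Icc 0 1) := by
  intro x hx y hy hxy
  have h1 : (1 - y) ^ 3 ≤ (1 - x) ^ 3 := by
    apply pow_le_pow_left₀ (by linarith [hy.2]) (by linarith)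
  have h0 : 0 ≤ (1 - y) ^ 3 := pow_nonneg (by linarith [hy.2]) 3
  simp only
  rw [div_le_div_iff₀ (om_pos hL hy) (om_pos hL hx)]
  unfold om
  have hK : 0 ≤ K := hL.trans hKL
  rw [div_mul_div_comm, div_mul_div_comm]
  refine div_le_div_of_nonneg_right ?_ (by positivity)
  generalize (1 - y) ^ 3 = b at *
  generalize (1 - x) ^ 3 = a at *
  nlinarith [mul_le_mul_of_nonneg_left h1 (sub_nonneg.mpr hKL)]

lemma om_mem {K : ℝ} (hK : 0 ≤ K) : InOmega (om K) where
  cont := (om_cont K).continuousOn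
  pos := fun x hx => om_pos hK hx
  zero := by
    unfold om
    have : 1 + K ≠ 0 := by positivity
    field_simp
    ring
  int := ((om_cont K).continuousOn.integrableOn_Icc (a := 0) (b := 1)).mono_set Ioc_subset_Icc_self
  int_div := by
    have h1 : IntegrableOn (fun x : ℝ => |K / (1 + K) * (3 - 3 * x + x ^ 2)|) (Ioc 0 1) := by
      have : Continuous (fun x : ℝ => |K / (1 + K) * (3 - 3 * x + x ^ 2)|) := by fun_prop
      exact (this.continuousOn.integrableOn_Icc (a := 0) (b := 1)).mono_set Ioc_subset_Icc_self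
    refine h1.congr_fun ?_ measurableSet_Ioc
    intro x hx
    have hx0 : 0 < x := hx.1
    have hK1 : 1 + K ≠ 0 := by positivity
    have e : 1 - om K x = (K / (1 + K) * (3 - 3 * x + x ^ 2)) * x := by
      unfold om; field_simp; ring
    show |K / (1 + K) * (3 - 3 * x + x ^ 2)| = |1 - om K x| * x⁻¹
    rw [e, abs_mul (K / (1 + K) * (3 - 3 * x + x ^ 2)) x, abs_of_pos hx0, mul_assoc,
      mul_inv_cancel₀ hx0.ne', mul_one]

lemma int_cube (n : ℕ) : ∫ x in (0:ℝ)..1, (1 - x) ^ 3 * x ^ n =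
    6 / (((n:ℝ) + 1) * ((n:ℝ) + 2) * ((n:ℝ) + 3) * ((n:ℝ) + 4)) := by
  have e : ∀ x : ℝ, (1 - x) ^ 3 * x ^ n = x ^ n - 3 * x ^ (n + 1) + 3 * x ^ (n + 2) - x ^ (n + 3) := by
    intro x; ring
  simp_rw [e]
  have hi : ∀ k : ℕ, IntervalIntegrable (fun x : ℝ => x ^ k) volume 0 1 := fun k =>
    (continuous_pow k).intervalIntegrable _ _
  rw [intervalIntegral.integral_sub, intervalIntegral.integral_add, intervalIntegral.integral_sub,
    intervalIntegral.integral_const_mul, intervalIntegral.integral_const_mul, integral_pow,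
    integral_pow, integral_pow, integral_pow]
  · push_cast
    have h1 : (n:ℝ) + 1 ≠ 0 := by positivity
    have h2 : (n:ℝ) + 2 ≠ 0 := by positivity
    have h3 : (n:ℝ) + 3 ≠ 0 := by positivity
    have h4 : (n:ℝ) + 4 ≠ 0 := by positivity
    have h2' : (n:ℝ) + 1 + 1 ≠ 0 := by positivity
    have h3' : (n:ℝ) + 2 + 1 ≠ 0 := by positivity
    have h4' : (n:ℝ) + 3 + 1 ≠ 0 := by positivity
    simp only [one_pow, ne_eq, Nat.add_eq_zero_iff, one_ne_zero, and_false, not_false_eq_true, zero_pow,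
      sub_zero, OfNat.ofNat_ne_zero]
    field_simp
    ring
  · exact hi _
  · exact (hi _).const_mul _
  · exact (hi _).sub ((hi _).const_mul _)
  · exact (hi _).const_mul _
  · exact ((hi _).sub ((hi _).const_mul _)).add ((hi _).const_mul _)
  · exact hi _

lemma int_sq (n : ℕ) : ∫ x in (0:ℝ)..1, x ^ n * (1 - x) ^ 2 =
    2 / (((n:ℝ) + 1) * ((n:ℝ) + 2) * ((n:ℝ) + 3)) := by
  have e : ∀ x : ℝ, x ^ n * (1 - x) ^ 2 = x ^ n - 2 * x ^ (n + 1) + x ^ (n + 2) := by
    intro x; ring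
  simp_rw [e]
  have hi : ∀ k : ℕ, IntervalIntegrable (fun x : ℝ => x ^ k) volume 0 1 := fun k =>
    (continuous_pow k).intervalIntegrable _ _
  rw [intervalIntegral.integral_add, intervalIntegral.integral_sub,
    intervalIntegral.integral_const_mul, integral_pow, integral_pow, integral_pow]
  · push_cast
    have h1 : (n:ℝ) + 1 ≠ 0 := by positivity
    have h2 : (n:ℝ) + 2 ≠ 0 := by positivity
    have h3 : (n:ℝ) + 3 ≠ 0 := by positivity
    have h2' : (n:ℝ) + 1 + 1 ≠ 0 := by positivity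
    have h3' : (n:ℝ) + 2 + 1 ≠ 0 := by positivity
    simp only [one_pow, ne_eq, Nat.add_eq_zero_iff, one_ne_zero, and_false, not_false_eq_true, zero_pow,
      sub_zero, OfNat.ofNat_ne_zero]
    field_simp
    ring
  · exact hi _
  · exact (hi _).const_mul _
  · exact (hi _).sub ((hi _).const_mul _)
  · exact hi _

lemma int_om {K : ℝ} (hK : 0 ≤ K) (n : ℕ) : ∫ x in (0:ℝ)..1, om K x * x ^ n =
    (1 + 6 * K / ((n + 2) * (n + 3) * (n + 4))) / ((1 + K) * (n + 1)) := by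
  have e : ∀ x : ℝ, om K x * x ^ n = (1 + K)⁻¹ * x ^ n + (K * (1 + K)⁻¹) * ((1 - x) ^ 3 * x ^ n) := by
    intro x
    unfold om
    have hK1 : 1 + K ≠ 0 := by positivity
    field_simp
  simp_rw [e]
  rw [intervalIntegral.integral_add, intervalIntegral.integral_const_mul,
    intervalIntegral.integral_const_mul, int_cube, integral_pow]
  · have h1 : (n:ℝ) + 1 ≠ 0 := by positivity
    have h2 : (n:ℝ) + 2 ≠ 0 := by positivity
    have h3 : (n:ℝ) + 3 ≠ 0 := by positivity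
    have h4 : (n:ℝ) + 4 ≠ 0 := by positivity
    have hK1 : 1 + K ≠ 0 := by positivity
    simp only [one_pow, ne_eq, Nat.add_eq_zero_iff, one_ne_zero, and_false, not_false_eq_true, zero_pow,
      sub_zero]
    field_simp
  · exact ((continuous_pow n).intervalIntegrable _ _).const_mul _
  · exact (Continuous.intervalIntegrable (by fun_prop) _ _).const_mul _

/-- the factor `μ̂(n)` -/
noncomputable def mh (K : ℝ) (n : ℕ) : ℝ := (1 + 6 * K / ((n + 1) * (n + 2) * (n + 3))) / (1 + K)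

lemma mh_pos {K : ℝ} (hK : 0 ≤ K) (n : ℕ) : 0 < mh K n := by unfold mh; positivity

lemma lam_mul {K L : ℝ} (hK : 0 ≤ K) (hL : 0 ≤ L) (n : ℕ) : lam (om K) (om L) n * mh L n = mh K n := by
  unfold lam
  rcases Nat.eq_zero_or_pos n with rfl | hn
  · have hK1 : 1 + K ≠ 0 := by positivity
    have hL1 : 1 + L ≠ 0 := by positivity
    simp only [mh, if_true]
    norm_num
    field_simp
  · rw [if_neg (by omega), int_om hK, int_om hL]
    obtain ⟨k, rfl⟩ : ∃ k, n = k + 1 := ⟨n - 1, by omega⟩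
    have hK1 : 1 + K ≠ 0 := by positivity
    have hL1 : 1 + L ≠ 0 := by positivity
    have hm := (mh_pos hL (k + 1)).ne'
    have e : ∀ M : ℝ, 0 ≤ M → (1 + 6 * M / ((((k + 1 - 1 : ℕ) : ℝ) + 2) * (((k + 1 - 1 : ℕ) : ℝ) + 3) *
        (((k + 1 - 1 : ℕ) : ℝ) + 4))) / ((1 + M) * (((k + 1 - 1 : ℕ) : ℝ) + 1)) =
        mh M (k + 1) / ((k:ℝ) + 1) := by
      intro M hM
      unfold mh
      have hM1 : 1 + M ≠ 0 := by positivity
      rw [Nat.add_sub_cancel]
      push_cast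
      have h1 : (k:ℝ) + 1 ≠ 0 := by positivity
      have h2 : (k:ℝ) + 2 ≠ 0 := by positivity
      have h3 : (k:ℝ) + 3 ≠ 0 := by positivity
      have h4 : (k:ℝ) + 4 ≠ 0 := by positivity
      have h2' : (k:ℝ) + 1 + 1 ≠ 0 := by positivity
      have h3' : (k:ℝ) + 1 + 2 ≠ 0 := by positivity
      have h4' : (k:ℝ) + 1 + 3 ≠ 0 := by positivity
      field_simp
      ring
    rw [e K hK, e L hL]
    have h1 : (k:ℝ) + 1 ≠ 0 := by positivity
    field_simp

end Pool.Agent.V1282.Hm
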