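import Pool.Agent.V1282.Hm

open Set Filter Topology MeasureTheory Polynomial

set_option autoImplicit false
set_option linter.all false

namespace Pool.Agent.V1282.Hm

lemma rs_add {f g β : ℝ → ℝ} {I J : ℝ} (hf : HasRSIntegral f β I) (hg : HasRSIntegral g β J) :
    HasRSIntegral (fun x => f x + g x) β (I + J) := by
  intro ε hε
  obtain ⟨δ1, h1, H1⟩ := hf (ε / 2) (by positivity)
  obtain ⟨δ2, h2, H2⟩ := hg (ε / 2) (by positivity)
  refine ⟨min δ1 δ2, lt_min h1 h2, fun N t ξ ht t0 tN hm hx => ?_⟩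
  have a1 := H1 N t ξ ht t0 tN (fun i hi => (hm i hi).trans_le (min_le_left _ _)) hx
  have a2 := H2 N t ξ ht t0 tN (fun i hi => (hm i hi).trans_le (min_le_right _ _)) hx
  have e : (∑ i ∈ Finset.range N, (f (ξ i) + g (ξ i)) * (β (t (i + 1)) - β (t i))) - (I + J) =
      ((∑ i ∈ Finset.range N, f (ξ i) * (β (t (i + 1)) - β (t i))) - I) +
      ((∑ i ∈ Finset.range N, g (ξ i) * (β (t (i + 1)) - β (t i))) - J) := by
    simp_rw [add_mul]
    rw [Finset.sum_add_distrib]; ring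
  rw [e]
  exact (abs_add_le _ _).trans_lt (by linarith)

lemma rs_smul {f β : ℝ → ℝ} {I : ℝ} (a : ℝ) (hf : HasRSIntegral f β I) :
    HasRSIntegral (fun x => a * f x) β (a * I) := by
  intro ε hε
  obtain ⟨δ, h1, H1⟩ := hf (ε / (|a| + 1)) (by positivity)
  refine ⟨δ, h1, fun N t ξ ht t0 tN hm hx => ?_⟩
  have a1 := H1 N t ξ ht t0 tN hm hx
  have e : (∑ i ∈ Finset.range N, (a * f (ξ i)) * (β (t (i + 1)) - β (t i))) - a * I =
      a * ((∑ i ∈ Finset.range N, f (ξ i) * (β (t (i + 1)) - β (t i))) - I) := by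
    simp_rw [mul_assoc]
    rw [← Finset.mul_sum]; ring
  rw [e, abs_mul]
  rw [lt_div_iff₀ (by positivity)] at a1
  have := abs_nonneg ((∑ i ∈ Finset.range N, f (ξ i) * (β (t (i + 1)) - β (t i))) - I)
  nlinarith [abs_nonneg a]

/-- the moment functional on polynomials -/
noncomputable def Lf (l : ℕ → ℝ) (p : ℝ[X]) : ℝ := p.sum fun n a => a * l n

lemma Lf_add (l : ℕ → ℝ) (p q : ℝ[X]) : Lf l (p + q) = Lf l p + Lf l q := by
  unfold Lf
  exact Polynomial.sum_add_index p q _ (by simp) (by intros; ring)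

lemma Lf_monomial (l : ℕ → ℝ) (n : ℕ) (a : ℝ) : Lf l (Polynomial.monomial n a) = a * l n := by
  unfold Lf
  exact Polynomial.sum_monomial_index a _ (by simp)

lemma rs_poly {β : ℝ → ℝ} {l : ℕ → ℝ} (h : ∀ n : ℕ, HasRSIntegral (fun x => x ^ n) β (l n)) (p : ℝ[X]) :
    HasRSIntegral (fun x => p.eval x) β (Lf l p) := by
  induction p using Polynomial.induction_on' with
  | add p q hp hq =>
    rw [Lf_add]
    simp_rw [Polynomial.eval_add]
    exact rs_add hp hq
  | monomial n a =>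
    rw [Lf_monomial]
    simp_rw [Polynomial.eval_monomial]
    exact rs_smul a (h n)

/-- bounded variation bounds the functional -/
lemma bv_bound {β : ℝ → ℝ} {l : ℕ → ℝ} (hβ : BoundedVariationOn β (Icc 0 1))
    (h : ∀ n : ℕ, HasRSIntegral (fun x => x ^ n) β (l n)) :
    ∃ V : ℝ, 0 ≤ V ∧ ∀ (p : ℝ[X]) (S : ℝ), 0 ≤ S → (∀ x ∈ Icc (0:ℝ) 1, |p.eval x| ≤ S) →
      |Lf l p| ≤ V * S := by
  refine ⟨(eVariationOn β (Icc 0 1)).toReal, ENNReal.toReal_nonneg, fun p S hS0 hS => ?_⟩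
  set V := (eVariationOn β (Icc 0 1)).toReal with hV
  refine le_of_forall_pos_le_add fun ε hε => ?_
  obtain ⟨δ, hδ, H⟩ := rs_poly h p ε hε
  obtain ⟨N, hN⟩ := exists_nat_gt (1 / δ)
  have hN0 : 0 < (N:ℝ) := lt_trans (by positivity) hN
  set t : ℕ → ℝ := fun i => min ((i:ℝ) / N) 1 with ht
  have hmono : Monotone t := by
    intro i j hij
    simp only [ht]
    have : (i:ℝ) ≤ j := by exact_mod_cast hij
    gcongr
  have ht01 : ∀ i, t i ∈ Icc (0:ℝ) 1 := fun i => ⟨le_min (by positivity) zero_le_one, min_le_right _ _⟩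
  have a1 := H N t t hmono (by simp [ht]) (by simp [ht]; rw [div_self hN0.ne']) (fun i hi => by
    simp only [ht]
    push_cast
    have h1 : ((i:ℝ) + 1) / N ≤ 1 := by
      rw [div_le_one hN0]
      exact_mod_cast hi
    have h2 : (i:ℝ) / N ≤ 1 := by
      rw [div_le_one hN0]
      have : (i:ℝ) + 1 ≤ N := by exact_mod_cast hi
      linarith
    rw [min_eq_left h1, min_eq_left h2]
    have : ((i:ℝ) + 1) / N - i / N = 1 / N := by field_simp; ring
    rw [this, div_lt_iff₀ hN0]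
    rw [div_lt_iff₀ hδ] at hN
    linarith) (fun i hi => ⟨le_rfl, hmono (Nat.le_succ i)⟩)
  have a2 : ∑ i ∈ Finset.range N, |β (t (i + 1)) - β (t i)| ≤ V := by
    have h1 := eVariationOn.sum_le (f := β) (s := Icc (0:ℝ) 1) (n := N) hmono ht01
    have h2 : (∑ i ∈ Finset.range N, edist (β (t (i + 1))) (β (t i))).toReal ≤ V :=
      ENNReal.toReal_mono hβ h1
    rw [ENNReal.toReal_sum (fun i _ => edist_ne_top _ _)] at h2
    refine le_trans (le_of_eq (Finset.sum_congr rfl fun i _ => ?_)) h2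
    rw [edist_dist, ENNReal.toReal_ofReal dist_nonneg, Real.dist_eq]
  have a3 : |∑ i ∈ Finset.range N, p.eval (t i) * (β (t (i + 1)) - β (t i))| ≤ V * S := by
    refine (Finset.abs_sum_le_sum_abs _ _).trans ?_
    calc ∑ i ∈ Finset.range N, |p.eval (t i) * (β (t (i + 1)) - β (t i))|
        ≤ ∑ i ∈ Finset.range N, S * |β (t (i + 1)) - β (t i)| := by
          refine Finset.sum_le_sum fun i _ => ?_
          rw [abs_mul]
          have := hS _ (ht01 i)
          gcongr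
      _ = S * ∑ i ∈ Finset.range N, |β (t (i + 1)) - β (t i)| := by rw [Finset.mul_sum]
      _ ≤ S * V := by gcongr
      _ = V * S := by ring
  have a4 : |Lf l p| ≤ |∑ i ∈ Finset.range N, p.eval (t i) * (β (t (i + 1)) - β (t i))| +
      |(∑ i ∈ Finset.range N, p.eval (t i) * (β (t (i + 1)) - β (t i))) - Lf l p| := by
    have := abs_sub_abs_le_abs_sub (Lf l p) (∑ i ∈ Finset.range N, p.eval (t i) * (β (t (i + 1)) - β (t i)))
    rw [abs_sub_comm] at this
    linarith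
  linarith

/-- the averaging operator -/
noncomputable def Tf (L : ℝ) (f : ℝ → ℝ) (x : ℝ) : ℝ :=
  (1 + L)⁻¹ * (f x + 3 * L * ∫ y in (0:ℝ)..1, f (x * y) * (1 - y) ^ 2)

/-- polynomials: the image under the averaging operator and the functional -/
lemma poly_T {K L : ℝ} (hK : 0 ≤ K) (hL : 0 ≤ L) (p : ℝ[X]) :
    ∃ q : ℝ[X], (∀ x, q.eval x = Tf L (fun x => p.eval x) x) ∧
      Lf (lam (om K) (om L)) q = Tf K (fun x => p.eval x) 1 := by
  induction p using Polynomial.induction_on' with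
  | add p1 p2 h1 h2 =>
    obtain ⟨q1, a1, b1⟩ := h1
    obtain ⟨q2, a2, b2⟩ := h2
    have key : ∀ (M x : ℝ), Tf M (fun x => (p1 + p2).eval x) x = Tf M (fun x => p1.eval x) x +
        Tf M (fun x => p2.eval x) x := by
      intro M x
      unfold Tf
      simp_rw [Polynomial.eval_add, add_mul]
      rw [intervalIntegral.integral_add]
      · ring
      · exact Continuous.intervalIntegrable (by fun_prop) _ _
      · exact Continuous.intervalIntegrable (by fun_prop) _ _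
    refine ⟨q1 + q2, fun x => ?_, ?_⟩
    · rw [Polynomial.eval_add, a1, a2, key]
    · rw [Lf_add, b1, b2, key]
  | monomial n a =>
    have key : ∀ (M x : ℝ), 0 ≤ M → Tf M (fun x => (Polynomial.monomial n a).eval x) x =
        a * mh M n * x ^ n := by
      intro M x hM
      unfold Tf mh
      simp_rw [Polynomial.eval_monomial]
      have e : ∀ y : ℝ, a * (x * y) ^ n * (1 - y) ^ 2 = (a * x ^ n) * (y ^ n * (1 - y) ^ 2) := by
        intro y; rw [mul_pow]; ring
      simp_rw [e]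
      rw [intervalIntegral.integral_const_mul, int_sq]
      have : 1 + M ≠ 0 := by positivity
      field_simp
      ring
    refine ⟨Polynomial.monomial n (a * mh L n), fun x => ?_, ?_⟩
    · rw [key L x hL, Polynomial.eval_monomial]
    · rw [key K 1 hK, Lf_monomial, one_pow, mul_one, ← lam_mul hK hL n]
      ring

/-- sup bound of the averaging operator -/
lemma T_bound {M : ℝ} (hM : 0 ≤ M) {f : ℝ → ℝ} {S : ℝ} (hS : ∀ x ∈ Icc (0:ℝ) 1, |f x| ≤ S) {x : ℝ}
    (hx : x ∈ Icc (0:ℝ) 1) : |Tf M f x| ≤ S := by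
  have hS0 : 0 ≤ S := (abs_nonneg _).trans (hS x hx)
  have h1 : |∫ y in (0:ℝ)..1, f (x * y) * (1 - y) ^ 2| ≤ S * (1 / 3) := by
    have h2 : ‖∫ y in (0:ℝ)..1, f (x * y) * (1 - y) ^ 2‖ ≤ ∫ y in (0:ℝ)..1, S * (1 - y) ^ 2 := by
      refine intervalIntegral.norm_integral_le_of_norm_le zero_le_one ?_
        (Continuous.intervalIntegrable (by fun_prop) _ _)
      refine Eventually.of_forall fun y hy => ?_
      rw [norm_mul, Real.norm_eq_abs, Real.norm_eq_abs, abs_of_nonneg (sq_nonneg (1 - y))]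
      have : x * y ∈ Icc (0:ℝ) 1 := ⟨mul_nonneg hx.1 hy.1.le, by
        calc x * y ≤ 1 * 1 := mul_le_mul hx.2 hy.2 hy.1.le zero_le_one
          _ = 1 := by ring⟩
      have := hS _ this
      gcongr
    have h3 : ∫ y in (0:ℝ)..1, S * (1 - y) ^ 2 = S * (1 / 3) := by
      have := int_sq 0
      simp only [pow_zero, one_mul] at this
      rw [intervalIntegral.integral_const_mul, this]
      norm_num
    rw [h3] at h2
    exact h2
  unfold Tf
  rw [abs_mul, abs_of_pos (by positivity : 0 < (1 + M)⁻¹)]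
  have h2 : |f x + 3 * M * ∫ y in (0:ℝ)..1, f (x * y) * (1 - y) ^ 2| ≤ S + 3 * M * (S * (1 / 3)) := by
    refine (abs_add_le _ _).trans ?_
    rw [abs_mul, abs_of_nonneg (by positivity : 0 ≤ 3 * M)]
    have := hS x hx
    gcongr
  calc (1 + M)⁻¹ * |f x + 3 * M * ∫ y in (0:ℝ)..1, f (x * y) * (1 - y) ^ 2|
      ≤ (1 + M)⁻¹ * (S + 3 * M * (S * (1 / 3))) := by gcongr
    _ = S := by
      have : 1 + M ≠ 0 := by positivity
      field_simp

/-- difference -/
lemma T_sub {M : ℝ} {f g : ℝ → ℝ} (hf : ContinuousOn f (Icc 0 1)) (hg : ContinuousOn g (Icc 0 1)) {x : ℝ}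
    (hx : x ∈ Icc (0:ℝ) 1) : Tf M (fun x => f x - g x) x = Tf M f x - Tf M g x := by
  unfold Tf
  simp_rw [sub_mul]
  have hc : ∀ h : ℝ → ℝ, ContinuousOn h (Icc 0 1) →
      IntervalIntegrable (fun y => h (x * y) * (1 - y) ^ 2) volume 0 1 := by
    intro h hh
    apply ContinuousOn.intervalIntegrable
    rw [uIcc_of_le zero_le_one]
    refine ContinuousOn.mul (hh.comp (by fun_prop) ?_) (by fun_prop)
    intro y hy
    exact ⟨mul_nonneg hx.1 hy.1, by
        calc x * y ≤ 1 * 1 := mul_le_mul hx.2 hy.2 hy.1 zero_le_one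
          _ = 1 := by ring⟩
  rw [intervalIntegral.integral_sub (hc f hf) (hc g hg)]
  ring

/-- abstract criterion -/
lemma no_bv {K L : ℝ} (hK : 0 ≤ K) (hL : 0 ≤ L) (f : ℝ → ℝ) (hf : ContinuousOn f (Icc 0 1))
    (hT : ∀ x ∈ Icc (0:ℝ) 1, Tf L f x = 0) (hne : Tf K f 1 ≠ 0) (β : ℝ → ℝ)
    (hβ : BoundedVariationOn β (Icc 0 1)) :
    ¬ ∀ n : ℕ, HasRSIntegral (fun x => x ^ n) β (lam (om K) (om L) n) := by
  intro h
  obtain ⟨V, hV0, hV⟩ := bv_bound hβ h
  have h1 : (1:ℝ) ∈ Icc (0:ℝ) 1 := ⟨zero_le_one, le_rfl⟩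
  set ε : ℝ := |Tf K f 1| / (2 * (V + 1)) with hε
  have hpos : 0 < |Tf K f 1| := abs_pos.mpr hne
  have hε0 : 0 < ε := by positivity
  obtain ⟨p, hp⟩ := exists_polynomial_near_of_continuousOn 0 1 f hf ε hε0
  obtain ⟨q, hq1, hq2⟩ := poly_T hK hL p
  have hpc : ContinuousOn (fun x => p.eval x) (Icc 0 1) := p.continuous.continuousOn
  have hb : ∀ x ∈ Icc (0:ℝ) 1, |p.eval x - f x| ≤ ε := fun x hx => (hp x hx).le
  have b1 : ∀ x ∈ Icc (0:ℝ) 1, |q.eval x| ≤ ε := by
    intro x hx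
    have e1 := T_sub (M := L) hpc hf hx
    rw [hT x hx, sub_zero] at e1
    rw [hq1, ← e1]
    exact T_bound hL hb hx
  have b2 := hV q ε hε0.le b1
  rw [hq2] at b2
  have b3 : |Tf K (fun x => p.eval x) 1 - Tf K f 1| ≤ ε := by
    rw [← T_sub hpc hf h1]
    exact T_bound hK hb h1
  have b4 : |Tf K f 1| ≤ |Tf K (fun x => p.eval x) 1| + |Tf K (fun x => p.eval x) 1 - Tf K f 1| := by
    have := abs_sub_abs_le_abs_sub (Tf K f 1) (Tf K (fun x => p.eval x) 1)
    rw [abs_sub_comm] at this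
    linarith
  have b5 : |Tf K f 1| ≤ (V + 1) * ε := by linarith
  have b6 : (V + 1) * ε = |Tf K f 1| / 2 := by
    rw [hε]; field_simp
  linarith

end Pool.Agent.V1282.Hm
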