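import Pool.Agent.V1282.Hm2

open Set Filter Topology MeasureTheory

set_option autoImplicit false
set_option linter.all false

namespace Pool.Agent.V1282.Hm

/-- the complex exponent -/
noncomputable def z0 : ℂ := ⟨1 / 2, Real.sqrt 71 / 2⟩

lemma z0_re : z0.re = 1 / 2 := rfl

lemma z0_eq : z0 * z0 = z0 - 18 := by
  have h71 : Real.sqrt 71 * Real.sqrt 71 = 71 := Real.mul_self_sqrt (by norm_num)
  apply Complex.ext
  · simp [z0, Complex.mul_re]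
    nlinarith
  · simp [z0, Complex.mul_im]
    ring

lemma z0_prod : (z0 + 1) * (z0 + 2) * (z0 + 3) = -120 := by
  linear_combination (z0 + 7) * z0_eq

lemma beta_z0 : ∫ y in (0:ℝ)..1, (y : ℂ) ^ z0 * (1 - (y:ℂ)) ^ (2:ℕ) = -1 / 60 := by
  have h1 := Complex.betaIntegral_eval_nat_add_one_right (u := z0 + 1) (by
    rw [Complex.add_re, z0_re]; norm_num) 2
  unfold Complex.betaIntegral at h1
  have e : ∀ x : ℝ, (x:ℂ) ^ (z0 + 1 - 1) * (1 - (x:ℂ)) ^ (((2:ℕ):ℂ) + 1 - 1) =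
      (x : ℂ) ^ z0 * (1 - (x:ℂ)) ^ (2:ℕ) := by
    intro x
    rw [add_sub_cancel_right, add_sub_cancel_right, Complex.cpow_natCast]
  simp_rw [e] at h1
  rw [h1]
  simp only [Finset.prod_range_succ, Finset.prod_range_zero, one_mul]
  have h2 : (z0 + 1 + ((0:ℕ):ℂ)) * (z0 + 1 + ((1:ℕ):ℂ)) * (z0 + 1 + ((2:ℕ):ℂ)) = -120 := by
    rw [← z0_prod]
    push_cast
    ring
  rw [h2]
  norm_num [Nat.factorial]

/-- the test function `Re x^{z0}` -/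
noncomputable def tf (x : ℝ) : ℝ := ((x : ℂ) ^ z0).re

lemma tf_cont : Continuous tf := by
  unfold tf
  exact Complex.continuous_re.comp (Complex.continuous_ofReal_cpow_const (by rw [z0_re]; norm_num))

lemma tf_one : tf 1 = 1 := by unfold tf; simp

lemma int_tf {x : ℝ} (hx : 0 ≤ x) : ∫ y in (0:ℝ)..1, tf (x * y) * (1 - y) ^ 2 = -(1 / 60) * tf x := by
  have hc : Continuous (fun y : ℝ => (x:ℂ) ^ z0 * ((y : ℂ) ^ z0 * (1 - (y:ℂ)) ^ (2:ℕ))) := by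
    have := Complex.continuous_ofReal_cpow_const (y := z0) (by rw [z0_re]; norm_num)
    fun_prop
  have h1 : ∫ y in (0:ℝ)..1, tf (x * y) * (1 - y) ^ 2 =
      ∫ y in (0:ℝ)..1, Complex.re ((x:ℂ) ^ z0 * ((y : ℂ) ^ z0 * (1 - (y:ℂ)) ^ (2:ℕ))) := by
    refine intervalIntegral.integral_congr fun y hy => ?_
    rw [uIcc_of_le zero_le_one] at hy
    simp only [tf]
    rw [Complex.ofReal_mul, Complex.mul_cpow_ofReal_nonneg hx hy.1]
    have e : (x:ℂ) ^ z0 * ((y : ℂ) ^ z0 * (1 - (y:ℂ)) ^ (2:ℕ)) =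
        (((1 - y) ^ 2 : ℝ) : ℂ) * ((x:ℂ) ^ z0 * (y : ℂ) ^ z0) := by
      push_cast; ring
    rw [e, Complex.re_ofReal_mul]
    ring
  rw [h1]
  have h2 : ∫ y in (0:ℝ)..1, Complex.re ((x:ℂ) ^ z0 * ((y : ℂ) ^ z0 * (1 - (y:ℂ)) ^ (2:ℕ))) =
      Complex.re (∫ y in (0:ℝ)..1, ((x:ℂ) ^ z0 * ((y : ℂ) ^ z0 * (1 - (y:ℂ)) ^ (2:ℕ)))) := by
    rw [intervalIntegral.integral_of_le zero_le_one, intervalIntegral.integral_of_le zero_le_one]
    exact integral_re ((hc.intervalIntegrable 0 1).1)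
  rw [h2, intervalIntegral.integral_const_mul, beta_z0]
  have e3 : (x:ℂ) ^ z0 * (-1 / 60) = ((-(1 / 60) : ℝ) : ℂ) * (x:ℂ) ^ z0 := by
    push_cast; ring
  rw [e3, Complex.re_ofReal_mul, tf]

lemma T_tf {x : ℝ} (hx : x ∈ Icc (0:ℝ) 1) : Tf 20 tf x = 0 := by
  unfold Tf
  rw [int_tf hx.1]
  ring

lemma T_tf_one : Tf 21 tf 1 ≠ 0 := by
  unfold Tf
  rw [int_tf zero_le_one, tf_one]
  norm_num

end Pool.Agent.V1282.Hm
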