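import Mathlib

set_option linter.unusedVariables false

open Filter Topology Set Real

namespace Pool.Agent.V1282.Inc913

/-- The `(k+1)`-st term of the series, as a function of `y`. -/
noncomputable def term (y : ℝ) (k : ℕ) : ℝ := (-1) ^ k * (sinh y / sinh ((k + 1 : ℝ) * y))

/-- The function `S(r)`, for `r > 1`. -/
noncomputable def S (r : ℝ) : ℝ := ∑' k : ℕ, term (arcosh r) k

/-! ### Finite sums -/

noncomputable def g (m : ℕ) (x : ℝ) : ℝ := x ^ (2 * m + 1) / (1 + x ^ (2 * m + 1))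
noncomputable def p (m : ℕ) (x : ℝ) : ℝ := x ^ (2 * m + 1) / (1 + x ^ (2 * m + 1)) ^ 2
noncomputable def G (m : ℕ) (x : ℝ) : ℝ := x ^ (2 * m) / (1 + x ^ (2 * m))
noncomputable def A (N : ℕ) (x : ℝ) : ℝ :=
  (1 + x ^ 2) * ∑ m ∈ Finset.range N, g m x
    - (1 - x ^ 2) * ∑ m ∈ Finset.range N, (2 * (m : ℝ) + 1) * p m x
noncomputable def F (N : ℕ) (x : ℝ) : ℝ := (1 / x - x) * ∑ m ∈ Finset.range N, g m x

lemma term_identity (m : ℕ) {x : ℝ} (hx : 0 < x) :
    (1 + x ^ 2) * g m x - (1 - x ^ 2) * ((2 * (m : ℝ) + 1) * p m x)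
      = (1 - x) ^ 2 * g m x ^ 2
        + 2 * (x + (1 - x) ^ 2 * p m x) * (((m + 1 : ℕ) : ℝ) * G (m + 1) x - (m : ℝ) * G m x) := by
  have hv : 0 < x ^ (2 * m) := by positivity
  have h1 : x ^ (2 * m + 1) = x * x ^ (2 * m) := by rw [pow_succ]; ring
  have h2 : x ^ (2 * (m + 1)) = x ^ 2 * x ^ (2 * m) := by rw [mul_add, pow_add]; ring
  unfold g p G
  rw [h1, h2]
  generalize x ^ (2 * m) = w at hv
  push_cast
  have e1 : 1 + x * w ≠ 0 := by positivity
  have e2 : 1 + w ≠ 0 := by positivity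
  have e3 : 1 + x ^ 2 * w ≠ 0 := by positivity
  field_simp
  ring

lemma p_nonneg (m : ℕ) {x : ℝ} (hx : 0 < x) : 0 ≤ p m x := by unfold p; positivity
lemma G_nonneg (m : ℕ) {x : ℝ} (hx : 0 < x) : 0 ≤ G m x := by unfold G; positivity
lemma g_nonneg (m : ℕ) {x : ℝ} (hx : 0 < x) : 0 ≤ g m x := by unfold g; positivity

lemma p_anti (m : ℕ) {x : ℝ} (hx : 0 < x) (hx1 : x < 1) : p (m + 1) x ≤ p m x := by
  unfold p
  have h1 : x ^ (2 * (m + 1) + 1) ≤ x ^ (2 * m + 1) :=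
    pow_le_pow_of_le_one hx.le hx1.le (by omega)
  have h2 : x ^ (2 * m + 1) ≤ 1 := pow_le_one₀ hx.le hx1.le
  have h3 : 0 < x ^ (2 * (m + 1) + 1) := by positivity
  generalize x ^ (2 * (m + 1) + 1) = a at *
  generalize x ^ (2 * m + 1) = b at *
  have hb : 0 < b := lt_of_lt_of_le h3 h1
  rw [div_le_div_iff₀ (by positivity) (by positivity)]
  have h4 : a * b ≤ 1 := by nlinarith
  nlinarith [mul_nonneg (sub_nonneg.mpr h1) (sub_nonneg.mpr h4)]

lemma abel (N : ℕ) {x : ℝ} (hx : 0 < x) (hx1 : x < 1) :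
    (x + (1 - x) ^ 2 * p N x) * ((N : ℝ) * G N x) ≤
      ∑ m ∈ Finset.range N, (x + (1 - x) ^ 2 * p m x) *
        (((m + 1 : ℕ) : ℝ) * G (m + 1) x - (m : ℝ) * G m x) := by
  induction N with
  | zero => simp
  | succ N ih =>
    rw [Finset.sum_range_succ]
    have h1 : 0 ≤ ((N + 1 : ℕ) : ℝ) * G (N + 1) x := mul_nonneg (by positivity) (G_nonneg _ hx)
    have h2 : x + (1 - x) ^ 2 * p (N + 1) x ≤ x + (1 - x) ^ 2 * p N x := by
      have := mul_le_mul_of_nonneg_left (p_anti N hx hx1) (sq_nonneg (1 - x))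
      linarith
    have h3 := mul_le_mul_of_nonneg_right h2 h1
    nlinarith

lemma A_lower (N : ℕ) (hN : 1 ≤ N) {x : ℝ} (hx : 0 < x) (hx1 : x < 1) :
    (1 - x) ^ 2 * g 0 x ^ 2 ≤ A N x := by
  have h1 : A N x = (1 - x) ^ 2 * ∑ m ∈ Finset.range N, g m x ^ 2
      + 2 * ∑ m ∈ Finset.range N, (x + (1 - x) ^ 2 * p m x) *
        (((m + 1 : ℕ) : ℝ) * G (m + 1) x - (m : ℝ) * G m x) := by
    unfold A
    rw [Finset.mul_sum, Finset.mul_sum, Finset.mul_sum, Finset.mul_sum, ← Finset.sum_sub_distrib,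
      ← Finset.sum_add_distrib]
    refine Finset.sum_congr rfl fun m _ => ?_
    rw [term_identity m hx]
    ring
  have h2 := abel N hx hx1
  have h3 : 0 ≤ (x + (1 - x) ^ 2 * p N x) * ((N : ℝ) * G N x) :=
    mul_nonneg (add_nonneg hx.le (mul_nonneg (sq_nonneg _) (p_nonneg _ hx)))
      (mul_nonneg (by positivity) (G_nonneg _ hx))
  have h4 : g 0 x ^ 2 ≤ ∑ m ∈ Finset.range N, g m x ^ 2 :=
    Finset.single_le_sum (f := fun m => g m x ^ 2) (fun i _ => sq_nonneg _)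
      (Finset.mem_range.mpr (by omega))
  have h5 := mul_le_mul_of_nonneg_left h4 (sq_nonneg (1 - x))
  rw [h1]
  linarith

lemma hasDeriv_g (m : ℕ) {x : ℝ} (hx : 0 < x) :
    HasDerivAt (g m) ((2 * (m : ℝ) + 1) * p m x / x) x := by
  have h1 : HasDerivAt (fun x : ℝ => x ^ (2 * m + 1)) (((2 * m + 1 : ℕ) : ℝ) * x ^ (2 * m)) x := by
    simpa using hasDerivAt_pow (2 * m + 1) x
  have h2 := h1.div (h1.const_add 1) (by positivity : (1 : ℝ) + x ^ (2 * m + 1) ≠ 0)
  refine h2.congr_deriv ?_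
  unfold p
  have hv : 0 < x ^ (2 * m) := by positivity
  have h3 : x ^ (2 * m + 1) = x * x ^ (2 * m) := by rw [pow_succ]; ring
  rw [h3]
  generalize x ^ (2 * m) = w at hv
  push_cast
  have e1 : 1 + x * w ≠ 0 := by positivity
  field_simp
  ring

lemma hasDeriv_F (N : ℕ) {x : ℝ} (hx : 0 < x) : HasDerivAt (F N) (-(A N x / x ^ 2)) x := by
  have h1 : HasDerivAt (fun x => ∑ m ∈ Finset.range N, g m x)
      (∑ m ∈ Finset.range N, (2 * (m : ℝ) + 1) * p m x / x) x := by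
    have := HasDerivAt.fun_sum (u := Finset.range N) (A := fun m => g m)
      (A' := fun m => (2 * (m : ℝ) + 1) * p m x / x) (x := x) (fun m _ => hasDeriv_g m hx)
    exact this
  have h2 : HasDerivAt (fun x : ℝ => 1 / x - x) (-(1 / x ^ 2) - 1) x := by
    have := (hasDerivAt_inv hx.ne').sub (hasDerivAt_id x)
    have h3 : (fun x : ℝ => 1 / x - x) = fun x => x⁻¹ - id x := by
      funext x; simp
    rw [h3]
    refine this.congr_deriv ?_
    simp
  refine (h2.mul h1).congr_deriv ?_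
  unfold A
  rw [← Finset.sum_div]
  generalize (∑ m ∈ Finset.range N, g m x) = a
  generalize (∑ m ∈ Finset.range N, (2 * (m : ℝ) + 1) * p m x) = b
  field_simp
  ring

lemma F_drop (N : ℕ) (hN : 1 ≤ N) {a b : ℝ} (ha : 0 < a) (hab : a < b) (hb : b < 1) :
    F N b + (b - a) * ((1 - b) ^ 2 / 4) ≤ F N a := by
  obtain ⟨c, hc, hslope⟩ := exists_hasDerivAt_eq_slope (F N) (fun x => -(A N x / x ^ 2)) hab
    (fun x hx => (hasDeriv_F N (lt_of_lt_of_le ha hx.1)).continuousAt.continuousWithinAt)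
    (fun x hx => hasDeriv_F N (ha.trans hx.1))
  have hc0 : 0 < c := ha.trans hc.1
  have hc1 : c < 1 := hc.2.trans hb
  have h1 := A_lower N hN hc0 hc1
  have h2 : (1 - b) ^ 2 / 4 ≤ A N c / c ^ 2 := by
    rw [le_div_iff₀ (by positivity)]
    refine le_trans ?_ h1
    unfold g
    simp only [Nat.mul_zero, Nat.zero_add, pow_one]
    rw [div_pow, mul_div_assoc', le_div_iff₀ (by positivity)]
    have h3 : (1 - b) ^ 2 ≤ (1 - c) ^ 2 := by
      apply pow_le_pow_left₀ (by linarith) (by linarith [hc.2])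
    have h4 : (1 + c) ^ 2 ≤ 4 := by nlinarith
    have h5 : (1 - b) ^ 2 * (1 + c) ^ 2 ≤ (1 - c) ^ 2 * 4 :=
      mul_le_mul h3 h4 (by positivity) (by positivity)
    have h6 : 0 ≤ c ^ 2 := by positivity
    nlinarith [mul_le_mul_of_nonneg_right h5 h6]
  have hba : 0 < b - a := by linarith
  have h3 : F N b - F N a = -(A N c / c ^ 2) * (b - a) := by
    rw [hslope]
    field_simp
  have h4 := mul_le_mul_of_nonneg_left h2 hba.le
  nlinarith

/-! ### The series -/

lemma sinh_ratio {y : ℝ} (hy : 0 < y) (k : ℕ) :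
    sinh y / sinh ((k + 1 : ℝ) * y)
      = (1 - exp (-y) ^ 2) * exp (-y) ^ k / (1 - (exp (-y) ^ 2) ^ (k + 1)) := by
  set x := exp (-y) with hx
  have hx0 : 0 < x := exp_pos _
  have hx1 : x < 1 := by rw [hx]; exact Real.exp_lt_one_iff.mpr (by linarith)
  have h1 : exp y = x⁻¹ := by rw [hx, ← exp_neg, neg_neg]
  have h2 : exp ((k + 1 : ℝ) * y) = (x ^ (k + 1))⁻¹ := by
    have : ((k + 1 : ℝ) * y) = ((k + 1 : ℕ) : ℝ) * y := by push_cast; ring
    rw [this, exp_nat_mul, h1, inv_pow]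
  have h3 : exp (-((k + 1 : ℝ) * y)) = x ^ (k + 1) := by
    rw [exp_neg, h2, inv_inv]
  rw [sinh_eq, sinh_eq, h2, h3, h1]
  have h4 : exp (-y) = x := rfl
  rw [← hx]
  have h5 : x ^ (k + 1) < 1 := pow_lt_one₀ hx0.le hx1 (by omega)
  have h6 : 0 < x ^ (k + 1) := by positivity
  have h7 : (x ^ 2) ^ (k + 1) = (x ^ (k + 1)) ^ 2 := by rw [← pow_mul, ← pow_mul, mul_comm]
  rw [h7]
  have h8 : x ^ (k + 1) = x ^ k * x := pow_succ _ _
  rw [h8] at h5 h6 ⊢
  have h9 : 0 < x ^ k := by positivity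
  generalize x ^ k = w at h5 h6 h9
  have e1 : 1 - (w * x) ^ 2 ≠ 0 := by
    have : (w * x) ^ 2 < 1 := by nlinarith
    linarith
  have e2 : (w * x)⁻¹ - w * x ≠ 0 := by
    have : 1 < (w * x)⁻¹ := (one_lt_inv₀ h6).mpr h5
    linarith
  rw [div_div_div_eq]
  rw [div_eq_div_iff (by
    refine mul_ne_zero two_ne_zero e2) e1]
  field_simp

/-- the double series -/
noncomputable def ff (x : ℝ) (q : ℕ × ℕ) : ℝ :=
  (-1) ^ q.1 * ((1 - x ^ 2) * x ^ q.1) * (x ^ 2) ^ ((q.1 + 1) * q.2)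

lemma ff_summable {x : ℝ} (hx : 0 < x) (hx1 : x < 1) : Summable (ff x) := by
  have h1 : Summable (fun k : ℕ => x ^ k) := summable_geometric_of_lt_one hx.le hx1
  have h2 : Summable (fun q : ℕ × ℕ => x ^ q.1 * x ^ q.2) :=
    h1.mul_of_nonneg h1 (fun _ => by positivity) (fun _ => by positivity)
  refine Summable.of_norm_bounded h2 ?_
  intro q
  unfold ff
  rw [norm_mul, norm_mul, norm_pow, norm_neg, norm_one, one_pow, one_mul, Real.norm_eq_abs,
    Real.norm_eq_abs, abs_of_nonneg (by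
      have : x ^ 2 < 1 := by nlinarith
      have : 0 ≤ 1 - x ^ 2 := by linarith
      positivity), abs_of_nonneg (by positivity)]
  have h3 : (x ^ 2) ^ ((q.1 + 1) * q.2) ≤ x ^ q.2 := by
    rw [← pow_mul]
    refine pow_le_pow_of_le_one hx.le hx1.le ?_
    nlinarith [Nat.zero_le (q.1 * q.2)]
  have h4 : (1 - x ^ 2) * x ^ q.1 ≤ x ^ q.1 := by
    have : 0 ≤ x ^ q.1 := by positivity
    nlinarith [sq_nonneg x]
  exact mul_le_mul h4 h3 (by positivity) (by positivity)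

lemma inner_m {x : ℝ} (hx : 0 < x) (hx1 : x < 1) (k : ℕ) :
    HasSum (fun m : ℕ => ff x (k, m))
      ((-1) ^ k * ((1 - x ^ 2) * x ^ k / (1 - (x ^ 2) ^ (k + 1)))) := by
  have h2 : (x ^ 2) ^ (k + 1) < 1 := by
    rw [← pow_mul]; exact pow_lt_one₀ hx.le hx1 (by omega)
  have h1 := (hasSum_geometric_of_lt_one (by positivity : (0 : ℝ) ≤ (x ^ 2) ^ (k + 1)) h2).mul_left
    ((-1) ^ k * ((1 - x ^ 2) * x ^ k))
  have e : (fun m : ℕ => ff x (k, m)) =
      fun i => (-1) ^ k * ((1 - x ^ 2) * x ^ k) * ((x ^ 2) ^ (k + 1)) ^ i := by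
    funext m
    simp only [ff]
    rw [pow_mul]
  have e2 : (-1) ^ k * ((1 - x ^ 2) * x ^ k / (1 - (x ^ 2) ^ (k + 1)))
      = (-1) ^ k * ((1 - x ^ 2) * x ^ k) * (1 - (x ^ 2) ^ (k + 1))⁻¹ := by
    rw [div_eq_mul_inv]
    ring
  rw [e, e2]
  exact h1

lemma inner_k {x : ℝ} (hx : 0 < x) (hx1 : x < 1) (m : ℕ) :
    HasSum (fun k : ℕ => ff x (k, m)) ((1 / x - x) * g m x) := by
  have h2 : x ^ (2 * m + 1) < 1 := pow_lt_one₀ hx.le hx1 (by omega)
  have h0 : 0 < x ^ (2 * m + 1) := by positivity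
  have h1 := (hasSum_geometric_of_abs_lt_one (r := -(x ^ (2 * m + 1))) (by
    rw [abs_neg, abs_of_pos h0]; exact h2)).mul_left ((1 - x ^ 2) * x ^ (2 * m))
  have e : (fun k : ℕ => ff x (k, m)) =
      fun i => (1 - x ^ 2) * x ^ (2 * m) * (-x ^ (2 * m + 1)) ^ i := by
    funext k
    simp only [ff]
    rw [neg_pow (x ^ (2 * m + 1)) k, ← pow_mul, ← pow_mul]
    have : x ^ (2 * ((k + 1) * m)) * x ^ k = x ^ (2 * m) * x ^ ((2 * m + 1) * k) := by
      rw [← pow_add, ← pow_add]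
      congr 1
      ring
    calc (-1) ^ k * ((1 - x ^ 2) * x ^ k) * x ^ (2 * ((k + 1) * m))
        = (-1) ^ k * (1 - x ^ 2) * (x ^ (2 * ((k + 1) * m)) * x ^ k) := by ring
      _ = _ := by rw [this]; ring
  have e2' : (1 / x - x) * g m x = (1 - x ^ 2) * x ^ (2 * m) * (1 - -x ^ (2 * m + 1))⁻¹ := by
    unfold g
    have h3 : x ^ (2 * m + 1) = x * x ^ (2 * m) := by rw [pow_succ]; ring
    rw [h3]
    have hv : 0 < x ^ (2 * m) := by positivity
    generalize x ^ (2 * m) = w at hv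
    have e1 : 1 + x * w ≠ 0 := by positivity
    rw [sub_neg_eq_add]
    field_simp
  rw [e, e2']
  exact h1

lemma term_summable {y : ℝ} (hy : 0 < y) : Summable (term y) := by
  have hx1 : exp (-y) < 1 := Real.exp_lt_one_iff.mpr (by linarith)
  have h1 := (ff_summable (exp_pos (-y)) hx1).prod
  refine h1.congr fun k => ?_
  rw [(inner_m (exp_pos (-y)) hx1 k).tsum_eq, term, sinh_ratio hy]

lemma tendsto_F {r : ℝ} (hr : 1 < r) :
    Tendsto (fun N => F N (exp (-arcosh r))) atTop (𝓝 (S r)) := by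
  have hy : 0 < arcosh r := arcosh_pos hr
  set x := exp (-arcosh r) with hx
  have hx0 : 0 < x := exp_pos _
  have hx1 : x < 1 := Real.exp_lt_one_iff.mpr (by linarith)
  have h1 : S r = ∑' k, ∑' m, ff x (k, m) := by
    unfold S
    refine tsum_congr fun k => ?_
    rw [(inner_m hx0 hx1 k).tsum_eq, term, sinh_ratio hy]
  have h2 : ∑' k, ∑' m, ff x (k, m) = ∑' m, ∑' k, ff x (k, m) :=
    (Summable.tsum_comm (f := fun k m => ff x (k, m)) (ff_summable hx0 hx1)).symm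
  have h3 : ∀ m, ∑' k, ff x (k, m) = (1 / x - x) * g m x := fun m =>
    (inner_k hx0 hx1 m).tsum_eq
  have h4 : Summable (fun m => (1 / x - x) * g m x) := by
    have h5 : Summable (ff x ∘ Prod.swap) :=
      (Equiv.prodComm ℕ ℕ).summable_iff.mpr (ff_summable hx0 hx1)
    refine h5.prod.congr fun m => ?_
    exact h3 m
  have h6 := h4.hasSum.tendsto_sum_nat
  have h7 : S r = ∑' m, (1 / x - x) * g m x := by
    rw [h1, h2]
    exact tsum_congr h3
  rw [h7]
  refine h6.congr fun N => ?_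
  unfold F
  rw [Finset.mul_sum]

lemma S_drop {r r' : ℝ} (hr : 1 < r) (hrr : r < r') : S r < S r' := by
  have hy : 0 < arcosh r := arcosh_pos hr
  have hlt : arcosh r < arcosh r' := (arcosh_lt_arcosh (by linarith) (by linarith)).mpr hrr
  set b := exp (-arcosh r) with hb
  set a := exp (-arcosh r') with ha
  have ha0 : 0 < a := exp_pos _
  have hb1 : b < 1 := Real.exp_lt_one_iff.mpr (by linarith)
  have hab : a < b := exp_lt_exp.mpr (by linarith)
  have h1 := tendsto_F hr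
  have h2 := tendsto_F (hr.trans hrr)
  have h3 : S r + (b - a) * ((1 - b) ^ 2 / 4) ≤ S r' := by
    refine le_of_tendsto_of_tendsto (h1.add_const _) h2 ?_
    filter_upwards [eventually_ge_atTop 1] with N hN
    exact F_drop N hN ha0 hab hb1
  have h4 : 0 < (b - a) * ((1 - b) ^ 2 / 4) := by
    have : 0 < b - a := by linarith
    have : 0 < 1 - b := by linarith
    positivity
  linarith

lemma S_nonneg {r : ℝ} (hr : 1 < r) : 0 ≤ S r := by
  have hy : 0 < arcosh r := arcosh_pos hr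
  refine ge_of_tendsto (tendsto_F hr) (Eventually.of_forall fun N => ?_)
  unfold F
  have hx0 : 0 < exp (-arcosh r) := exp_pos _
  have hx1 : exp (-arcosh r) < 1 := Real.exp_lt_one_iff.mpr (by linarith)
  have h1 : 1 < 1 / exp (-arcosh r) := (one_lt_div hx0).mpr hx1
  refine mul_nonneg (by linarith) (Finset.sum_nonneg fun m _ => g_nonneg m hx0)

/-- **Positive answer.** The series defining `S(r)` converges absolutely for `r > 1`, the limit
`S(1)` of `S(r)` as `r` tends to `1` from the right exists, and `S`, with this value at `1`, is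
strictly increasing on `[1, ∞)`. -/
theorem result : (∀ r : ℝ, 1 < r → Summable (fun k => |term (arcosh r) k|)) ∧
    ∃ S1 : ℝ, Tendsto S (𝓝[>] 1) (𝓝 S1) ∧
      StrictMonoOn (fun r => if r = 1 then S1 else S r) (Set.Ici 1) := by
  refine ⟨fun r hr => (term_summable (arcosh_pos hr)).abs, ?_⟩
  have hmono : MonotoneOn S (Ioi 1) := by
    intro a ha b hb hab
    rcases hab.eq_or_lt with h | h
    · rw [h]
    · exact (S_drop ha h).le
  have hbdd : BddBelow (S '' Ioi 1) := ⟨0, by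
    rintro _ ⟨r, hr, rfl⟩
    exact S_nonneg hr⟩
  have hlim : Tendsto S (𝓝[>] 1) (𝓝 (sInf (S '' Ioi 1))) :=
    hmono.tendsto_nhdsGT hbdd
  refine ⟨_, hlim, ?_⟩
  have hlow : ∀ r, 1 < r → sInf (S '' Ioi 1) < S r := by
    intro r hr
    have h1 : sInf (S '' Ioi 1) ≤ S ((1 + r) / 2) :=
      csInf_le hbdd ⟨(1 + r) / 2, by show 1 < (1 + r) / 2; linarith, rfl⟩
    exact lt_of_le_of_lt h1 (S_drop (by linarith) (by linarith))
  intro a ha b hb hab
  have hb1 : b ≠ 1 := by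
    have : (1 : ℝ) ≤ a := ha
    intro h; linarith
  have hb2 : 1 < b := lt_of_le_of_lt ha hab
  simp only [hb1, if_false]
  by_cases ha1 : a = 1
  · simp only [ha1, if_true]
    exact hlow b hb2
  · simp only [ha1, if_false]
    exact S_drop (lt_of_le_of_ne ha (Ne.symm ha1)) hab

end Pool.Agent.V1282.Inc913
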