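import Mathlib

open MeasureTheory Set
open scoped ENNReal NNReal

namespace Pool.Agent.V1282

lemma lint_lower {p a : ℝ} (hp : 0 < p) (ha : 0 < a) :
    ∫⁻ t in Ioi (0:ℝ), (if t < a then ENNReal.ofReal (t ^ (p - 1)) else 0)
      = ENNReal.ofReal (a ^ p / p) := by
  have h1 : ∫⁻ t in Ioi (0:ℝ), (if t < a then ENNReal.ofReal (t ^ (p - 1)) else 0)
      = ∫⁻ t in Ioo (0:ℝ) a, ENNReal.ofReal (t ^ (p - 1)) := by
    rw [← lintegral_indicator measurableSet_Ioi, ← lintegral_indicator measurableSet_Ioo]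
    congr 1
    ext t
    by_cases h0 : 0 < t <;> by_cases h1 : t < a <;>
      simp [indicator, h0, h1]
  rw [h1, ← ofReal_integral_eq_lintegral_ofReal]
  · rw [← integral_Ioc_eq_integral_Ioo, ← intervalIntegral.integral_of_le ha.le,
      integral_rpow (Or.inl (by linarith))]
    simp [Real.zero_rpow hp.ne']
  · have := (intervalIntegral.intervalIntegrable_rpow' (a := 0) (b := a) (r := p - 1)
      (by linarith))
    rw [intervalIntegrable_iff_integrableOn_Ioc_of_le ha.le] at this
    exact this.mono_set Ioo_subset_Ioc_self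
  · filter_upwards [ae_restrict_mem measurableSet_Ioo] with t ht
    exact Real.rpow_nonneg ht.1.le _

lemma lint_upper {q a : ℝ} (hq : 0 < q) (ha : 0 < a) :
    ∫⁻ t in Ioi (0:ℝ), (if a ≤ t then ENNReal.ofReal (t ^ (-q - 1)) else 0)
      = ENNReal.ofReal (a ^ (-q) / q) := by
  have h1 : ∫⁻ t in Ioi (0:ℝ), (if a ≤ t then ENNReal.ofReal (t ^ (-q - 1)) else 0)
      = ∫⁻ t in Ici a, ENNReal.ofReal (t ^ (-q - 1)) := by
    rw [← lintegral_indicator measurableSet_Ioi, ← lintegral_indicator measurableSet_Ici]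
    congr 1
    ext t
    by_cases h1 : a ≤ t
    · have h0 : 0 < t := lt_of_lt_of_le ha h1
      simp [indicator, h0, h1]
    · simp [indicator, h1]
  rw [h1, setLIntegral_congr (Ioi_ae_eq_Ici (a := a)).symm,
    ← ofReal_integral_eq_lintegral_ofReal]
  · rw [integral_Ioi_rpow_of_lt (by linarith) ha]
    congr 1
    have : -q - 1 + 1 = -q := by ring
    rw [this]
    field_simp
  · exact integrableOn_Ioi_rpow_of_lt (by linarith) ha
  · filter_upwards [ae_restrict_mem measurableSet_Ioi] with t ht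
    exact Real.rpow_nonneg (ha.le.trans (le_of_lt ht)) _

end Pool.Agent.V1282
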