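import Pool.Agent.V1282.LI

open MeasureTheory Set
open scoped ENNReal NNReal

namespace Pool.Agent.V1282

variable {X : Type*} [MeasurableSpace X] {μ : Measure X}

/-- the truncated power of `z` above level `t` -/
noncomputable def hi (z : X → ℂ) (t : ℝ) (x : X) : ℂ := if t < ‖z x‖ then z x else 0

/-- the truncated power of `z` below level `t` -/
noncomputable def lo (z : X → ℂ) (t : ℝ) (x : X) : ℂ := if ‖z x‖ ≤ t then z x else 0

lemma hi_add_lo (z : X → ℂ) (t : ℝ) (x : X) : hi z t x + lo z t x = z x := by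
  unfold hi lo
  by_cases h : t < ‖z x‖
  · simp [h, not_le.mpr h]
  · simp [h, not_lt.mp h]

/-- weighted integral of the upper truncations -/
lemma lint_hi [SFinite μ] {β γ : ℝ} (hβ : 0 < β) (hβγ : β < γ) (z : X → ℂ) (hz : Measurable z) :
    ∫⁻ t in Ioi (0:ℝ), (∫⁻ x, ‖hi z t x‖ₑ ^ β ∂μ) * ENNReal.ofReal (t ^ (γ - β - 1))
      = ENNReal.ofReal (1 / (γ - β)) * ∫⁻ x, ‖z x‖ₑ ^ γ ∂μ := by
  have hm : Measurable (fun p : ℝ × X => ‖hi z p.1 p.2‖ₑ ^ β * ENNReal.ofReal (p.1 ^ (γ - β - 1))) := by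
    have h1 : Measurable (fun p : ℝ × X => hi z p.1 p.2) := by
      unfold hi
      refine Measurable.ite ?_ (hz.comp measurable_snd) measurable_const
      exact measurableSet_lt measurable_fst (hz.comp measurable_snd).norm
    refine Measurable.mul (h1.enorm.pow_const _) ?_
    exact ((measurable_fst).pow_const _).ennreal_ofReal
  have e1 : ∀ t : ℝ, (∫⁻ x, ‖hi z t x‖ₑ ^ β ∂μ) * ENNReal.ofReal (t ^ (γ - β - 1))
      = ∫⁻ x, ‖hi z t x‖ₑ ^ β * ENNReal.ofReal (t ^ (γ - β - 1)) ∂μ := by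
    intro t
    rw [lintegral_mul_const'' _ ?_]
    have h1 : Measurable (fun x : X => hi z t x) := by
      unfold hi
      refine Measurable.ite ?_ hz measurable_const
      exact measurableSet_lt measurable_const hz.norm
    exact (h1.enorm.pow_const _).aemeasurable
  simp_rw [e1]
  rw [lintegral_lintegral_swap hm.aemeasurable]
  have hzz : Measurable (fun x => ‖z x‖ₑ ^ γ) := hz.enorm.pow_const _
  rw [← lintegral_const_mul _ hzz]
  refine lintegral_congr fun x => ?_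
  by_cases hx : z x = 0
  · have : ∀ t : ℝ, ‖hi z t x‖ₑ = 0 := by
      intro t; simp [hi, hx]
    simp [this, hx, ENNReal.zero_rpow_of_pos hβ, ENNReal.zero_rpow_of_pos (hβ.trans hβγ)]
  · have hpos : 0 < ‖z x‖ := norm_pos_iff.mpr hx
    have e2 : ∀ t : ℝ, ‖hi z t x‖ₑ ^ β * ENNReal.ofReal (t ^ (γ - β - 1))
        = ‖z x‖ₑ ^ β * (if t < ‖z x‖ then ENNReal.ofReal (t ^ (γ - β - 1)) else 0) := by
      intro t
      by_cases h : t < ‖z x‖
      · simp [hi, h]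
      · simp [hi, h, ENNReal.zero_rpow_of_pos hβ]
    simp_rw [e2]
    rw [lintegral_const_mul' _ _ (by simp [hβ.le]), lint_lower (by linarith) hpos]
    rw [← ofReal_norm, ENNReal.ofReal_rpow_of_pos hpos, ENNReal.ofReal_rpow_of_pos hpos,
      ← ENNReal.ofReal_mul (by positivity), ← ENNReal.ofReal_mul (by
        have : 0 < γ - β := by linarith
        positivity)]
    congr 1
    rw [Real.rpow_sub hpos]
    have : (‖z x‖ ^ β) ≠ 0 := (Real.rpow_pos_of_pos hpos _).ne'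
    field_simp

/-- weighted integral of the lower truncations -/
lemma lint_lo [SFinite μ] {α γ : ℝ} (hγ : 0 < γ) (hγα : γ < α) (z : X → ℂ) (hz : Measurable z) :
    ∫⁻ t in Ioi (0:ℝ), (∫⁻ x, ‖lo z t x‖ₑ ^ α ∂μ) * ENNReal.ofReal (t ^ (-(α - γ) - 1))
      = ENNReal.ofReal (1 / (α - γ)) * ∫⁻ x, ‖z x‖ₑ ^ γ ∂μ := by
  have hα : 0 < α := hγ.trans hγα
  have hm : Measurable (fun p : ℝ × X => ‖lo z p.1 p.2‖ₑ ^ α * ENNReal.ofReal (p.1 ^ (-(α - γ) - 1))) := by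
    have h1 : Measurable (fun p : ℝ × X => lo z p.1 p.2) := by
      unfold lo
      refine Measurable.ite ?_ (hz.comp measurable_snd) measurable_const
      exact measurableSet_le (hz.comp measurable_snd).norm measurable_fst
    refine Measurable.mul (h1.enorm.pow_const _) ?_
    exact ((measurable_fst).pow_const _).ennreal_ofReal
  have e1 : ∀ t : ℝ, (∫⁻ x, ‖lo z t x‖ₑ ^ α ∂μ) * ENNReal.ofReal (t ^ (-(α - γ) - 1))
      = ∫⁻ x, ‖lo z t x‖ₑ ^ α * ENNReal.ofReal (t ^ (-(α - γ) - 1)) ∂μ := by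
    intro t
    rw [lintegral_mul_const'' _ ?_]
    have h1 : Measurable (fun x : X => lo z t x) := by
      unfold lo
      refine Measurable.ite ?_ hz measurable_const
      exact measurableSet_le hz.norm measurable_const
    exact (h1.enorm.pow_const _).aemeasurable
  simp_rw [e1]
  rw [lintegral_lintegral_swap hm.aemeasurable]
  have hzz : Measurable (fun x => ‖z x‖ₑ ^ γ) := hz.enorm.pow_const _
  rw [← lintegral_const_mul _ hzz]
  refine lintegral_congr fun x => ?_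
  by_cases hx : z x = 0
  · have : ∀ t : ℝ, ‖lo z t x‖ₑ = 0 := by
      intro t; simp [lo, hx]
    simp [this, hx, ENNReal.zero_rpow_of_pos hα, ENNReal.zero_rpow_of_pos hγ]
  · have hpos : 0 < ‖z x‖ := norm_pos_iff.mpr hx
    have e2 : ∀ t : ℝ, ‖lo z t x‖ₑ ^ α * ENNReal.ofReal (t ^ (-(α - γ) - 1))
        = ‖z x‖ₑ ^ α * (if ‖z x‖ ≤ t then ENNReal.ofReal (t ^ (-(α - γ) - 1)) else 0) := by
      intro t
      by_cases h : ‖z x‖ ≤ t
      · simp [lo, h]
      · simp [lo, h, ENNReal.zero_rpow_of_pos hα]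
    simp_rw [e2]
    rw [lintegral_const_mul' _ _ (by simp [hα.le]), lint_upper (by linarith) hpos]
    rw [← ofReal_norm, ENNReal.ofReal_rpow_of_pos hpos, ENNReal.ofReal_rpow_of_pos hpos,
      ← ENNReal.ofReal_mul (by positivity), ← ENNReal.ofReal_mul (by
        have : 0 < α - γ := by linarith
        positivity)]
    congr 1
    rw [show -(α - γ) = γ - α by ring, Real.rpow_sub hpos]
    have : (‖z x‖ ^ α) ≠ 0 := (Real.rpow_pos_of_pos hpos _).ne'
    field_simp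

/-- Marcinkiewicz-type core estimate. -/
lemma core [SFinite μ] {β γ α : ℝ} (hβ : 0 < β) (hβγ : β < γ) (hγα : γ < α) {M : ℝ} (hM : 0 < M)
    (z w : X → ℂ) (hz : Measurable z) (hw : AEMeasurable w μ)
    (H : ∀ t : ℝ, 0 < t → ∃ w0 w1 : X → ℂ, AEMeasurable w0 μ ∧ AEMeasurable w1 μ ∧
      w =ᵐ[μ] w0 + w1 ∧
      ∫⁻ x, ‖w0 x‖ₑ ^ β ∂μ ≤ ENNReal.ofReal (M ^ β) * ∫⁻ x, ‖hi z t x‖ₑ ^ β ∂μ ∧
      ∫⁻ x, ‖w1 x‖ₑ ^ α ∂μ ≤ ENNReal.ofReal (M ^ α) * ∫⁻ x, ‖lo z t x‖ₑ ^ α ∂μ) :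
    ∫⁻ x, ‖w x‖ₑ ^ γ ∂μ ≤
      ENNReal.ofReal ((2 * M) ^ γ * (γ * (1 / (γ - β) + 1 / (α - γ)))) *
        ∫⁻ x, ‖z x‖ₑ ^ γ ∂μ := by
  have hγ : 0 < γ := hβ.trans hβγ
  have hα : 0 < α := hγ.trans hγα
  have h2M : 0 < 2 * M := by positivity
  -- scale
  have s1 : ∫⁻ x, ‖w x‖ₑ ^ γ ∂μ = ENNReal.ofReal ((2 * M) ^ γ) *
      ∫⁻ x, ENNReal.ofReal ((‖w x‖ / (2 * M)) ^ γ) ∂μ := by
    rw [← lintegral_const_mul' _ _ (by simp)]
    refine lintegral_congr fun x => ?_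
    rw [← ENNReal.ofReal_mul (by positivity), ← ofReal_norm,
      ENNReal.ofReal_rpow_of_nonneg (norm_nonneg _) hγ.le]
    congr 1
    rw [Real.div_rpow (norm_nonneg _) h2M.le]
    have : (2 * M) ^ γ ≠ 0 := (Real.rpow_pos_of_pos h2M _).ne'
    field_simp
  rw [s1, lintegral_rpow_eq_lintegral_meas_lt_mul μ (Filter.Eventually.of_forall
    (fun x => by positivity)) (hw.norm.div_const _) hγ]
  -- the pointwise bound
  have s2 : ∀ t ∈ Ioi (0:ℝ), μ {x | t < ‖w x‖ / (2 * M)} * ENNReal.ofReal (t ^ (γ - 1)) ≤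
      (∫⁻ x, ‖hi z t x‖ₑ ^ β ∂μ) * ENNReal.ofReal (t ^ (γ - β - 1)) +
      (∫⁻ x, ‖lo z t x‖ₑ ^ α ∂μ) * ENNReal.ofReal (t ^ (-(α - γ) - 1)) := by
    intro t ht
    have ht : 0 < t := ht
    obtain ⟨w0, w1, hw0, hw1, he, h0, h1⟩ := H t ht
    have hMt : 0 < M * t := by positivity
    have b0 : μ {x | ENNReal.ofReal ((M * t) ^ β) ≤ ‖w0 x‖ₑ ^ β} ≤
        ENNReal.ofReal (t ^ (-β)) * ∫⁻ x, ‖hi z t x‖ₑ ^ β ∂μ := by
      have c1 := mul_meas_ge_le_lintegral₀ (μ := μ) (f := fun x => ‖w0 x‖ₑ ^ β)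
        (hw0.enorm.pow_const _) (ENNReal.ofReal ((M * t) ^ β))
      have c2 := c1.trans h0
      rw [Real.mul_rpow hM.le ht.le, ENNReal.ofReal_mul (by positivity), mul_assoc,
        ENNReal.mul_le_mul_iff_right (by simpa using Real.rpow_pos_of_pos hM _) (by simp)] at c2
      rw [Real.mul_rpow hM.le ht.le, ENNReal.ofReal_mul (by positivity)]
      rw [Real.rpow_neg ht.le, ENNReal.ofReal_inv_of_pos (Real.rpow_pos_of_pos ht _)]
      rw [← ENNReal.mul_le_iff_le_inv (by simpa using Real.rpow_pos_of_pos ht _) (by simp)]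
      exact c2
    have b1 : μ {x | ENNReal.ofReal ((M * t) ^ α) ≤ ‖w1 x‖ₑ ^ α} ≤
        ENNReal.ofReal (t ^ (-α)) * ∫⁻ x, ‖lo z t x‖ₑ ^ α ∂μ := by
      have c1 := mul_meas_ge_le_lintegral₀ (μ := μ) (f := fun x => ‖w1 x‖ₑ ^ α)
        (hw1.enorm.pow_const _) (ENNReal.ofReal ((M * t) ^ α))
      have c2 := c1.trans h1
      rw [Real.mul_rpow hM.le ht.le, ENNReal.ofReal_mul (by positivity), mul_assoc,
        ENNReal.mul_le_mul_iff_right (by simpa using Real.rpow_pos_of_pos hM _) (by simp)] at c2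
      rw [Real.mul_rpow hM.le ht.le, ENNReal.ofReal_mul (by positivity)]
      rw [Real.rpow_neg ht.le, ENNReal.ofReal_inv_of_pos (Real.rpow_pos_of_pos ht _)]
      rw [← ENNReal.mul_le_iff_le_inv (by simpa using Real.rpow_pos_of_pos ht _) (by simp)]
      exact c2
    have hsub : μ {x | t < ‖w x‖ / (2 * M)} ≤
        μ ({x | ENNReal.ofReal ((M * t) ^ β) ≤ ‖w0 x‖ₑ ^ β} ∪
          {x | ENNReal.ofReal ((M * t) ^ α) ≤ ‖w1 x‖ₑ ^ α}) := by
      refine measure_mono_ae ?_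
      filter_upwards [he] with x hx hx2
      have hx2 : t < ‖w x‖ / (2 * M) := hx2
      rw [lt_div_iff₀ h2M, hx] at hx2
      have := norm_add_le (w0 x) (w1 x)
      have hx2 : t * (2 * M) < ‖w0 x + w1 x‖ := hx2
      by_cases hc : M * t ≤ ‖w0 x‖
      · left
        show ENNReal.ofReal ((M * t) ^ β) ≤ ‖w0 x‖ₑ ^ β
        rw [← ofReal_norm, ENNReal.ofReal_rpow_of_nonneg (norm_nonneg _) hβ.le]
        exact ENNReal.ofReal_le_ofReal (Real.rpow_le_rpow hMt.le hc hβ.le)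
      · right
        show ENNReal.ofReal ((M * t) ^ α) ≤ ‖w1 x‖ₑ ^ α
        rw [← ofReal_norm, ENNReal.ofReal_rpow_of_nonneg (norm_nonneg _) hα.le]
        exact ENNReal.ofReal_le_ofReal (Real.rpow_le_rpow hMt.le (by nlinarith) hα.le)
    have b2 : μ {x | t < ‖w x‖ / (2 * M)} ≤
        ENNReal.ofReal (t ^ (-β)) * ∫⁻ x, ‖hi z t x‖ₑ ^ β ∂μ +
        ENNReal.ofReal (t ^ (-α)) * ∫⁻ x, ‖lo z t x‖ₑ ^ α ∂μ :=
      hsub.trans ((measure_union_le _ _).trans (add_le_add b0 b1))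
    calc μ {x | t < ‖w x‖ / (2 * M)} * ENNReal.ofReal (t ^ (γ - 1))
        ≤ (ENNReal.ofReal (t ^ (-β)) * ∫⁻ x, ‖hi z t x‖ₑ ^ β ∂μ +
          ENNReal.ofReal (t ^ (-α)) * ∫⁻ x, ‖lo z t x‖ₑ ^ α ∂μ) * ENNReal.ofReal (t ^ (γ - 1)) := by
          gcongr
      _ = (∫⁻ x, ‖hi z t x‖ₑ ^ β ∂μ) * (ENNReal.ofReal (t ^ (-β)) * ENNReal.ofReal (t ^ (γ - 1))) +
          (∫⁻ x, ‖lo z t x‖ₑ ^ α ∂μ) * (ENNReal.ofReal (t ^ (-α)) * ENNReal.ofReal (t ^ (γ - 1))) := by
          ring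
      _ = _ := by
          rw [← ENNReal.ofReal_mul (by positivity), ← ENNReal.ofReal_mul (by positivity),
            ← Real.rpow_add ht, ← Real.rpow_add ht]
          congr 4 <;> ring
  have s3 : ∫⁻ t in Ioi (0:ℝ), μ {x | t < ‖w x‖ / (2 * M)} * ENNReal.ofReal (t ^ (γ - 1)) ≤
      ENNReal.ofReal (1 / (γ - β)) * ∫⁻ x, ‖z x‖ₑ ^ γ ∂μ +
      ENNReal.ofReal (1 / (α - γ)) * ∫⁻ x, ‖z x‖ₑ ^ γ ∂μ := by
    refine (setLIntegral_mono' measurableSet_Ioi s2).trans ?_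
    rw [lintegral_add_left']
    · rw [lint_hi hβ hβγ z hz, lint_lo hγ hγα z hz]
    · refine AEMeasurable.mul ?_ ?_
      · have h1 : Measurable (fun p : ℝ × X => ‖hi z p.1 p.2‖ₑ ^ β) := by
          have h1 : Measurable (fun p : ℝ × X => hi z p.1 p.2) := by
            unfold hi
            refine Measurable.ite ?_ (hz.comp measurable_snd) measurable_const
            exact measurableSet_lt measurable_fst (hz.comp measurable_snd).norm
          exact h1.enorm.pow_const _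
        exact h1.lintegral_prod_right'.aemeasurable
      · exact ((measurable_id).pow_const _).ennreal_ofReal.aemeasurable
  have hp1 : 0 < 1 / (γ - β) := by
    have : 0 < γ - β := by linarith
    positivity
  have hp2 : 0 < 1 / (α - γ) := by
    have : 0 < α - γ := by linarith
    positivity
  calc ENNReal.ofReal ((2 * M) ^ γ) * (ENNReal.ofReal γ *
        ∫⁻ t in Ioi (0:ℝ), μ {x | t < ‖w x‖ / (2 * M)} * ENNReal.ofReal (t ^ (γ - 1)))
      ≤ ENNReal.ofReal ((2 * M) ^ γ) * (ENNReal.ofReal γ *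
        (ENNReal.ofReal (1 / (γ - β)) * ∫⁻ x, ‖z x‖ₑ ^ γ ∂μ +
          ENNReal.ofReal (1 / (α - γ)) * ∫⁻ x, ‖z x‖ₑ ^ γ ∂μ)) := by
        gcongr
    _ = _ := by
        rw [← add_mul, ← ENNReal.ofReal_add hp1.le hp2.le, ← mul_assoc, ← mul_assoc,
          ← ENNReal.ofReal_mul (by positivity), ← ENNReal.ofReal_mul (by positivity)]
        congr 2
        ring

end Pool.Agent.V1282
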