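import Pool.Agent.V1282.LIa

open MeasureTheory Set Filter Topology
open scoped ENNReal NNReal

namespace Pool.Agent.V1282

variable {X : Type*} [MeasurableSpace X] {μ : Measure X}

/-- the explicit constant -/
noncomputable def KC (β γ α : ℝ) : ℝ := 2 * (γ * (1 / (γ - β) + 1 / (α - γ))) ^ (1 / γ)

lemma KC_pos {β γ α : ℝ} (hβ : 0 < β) (hβγ : β < γ) (hγα : γ < α) : 0 < KC β γ α := by
  unfold KC
  have h1 : 0 < γ - β := by linarith
  have h2 : 0 < α - γ := by linarith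
  have h3 : 0 < γ := by linarith
  positivity

lemma eLp_ofReal {p : ℝ} (hp : 0 < p) (f : X → ℂ) :
    eLpNorm f (ENNReal.ofReal p) μ = (∫⁻ x, ‖f x‖ₑ ^ p ∂μ) ^ (1 / p) := by
  rw [eLpNorm_eq_lintegral_rpow_enorm_toReal (by simpa using hp) (by simp),
    ENNReal.toReal_ofReal hp.le]

lemma lint_of_eLp {p : ℝ} (hp : 0 < p) {M : ℝ} (hM : 0 ≤ M) {f g : X → ℂ}
    (h : eLpNorm f (ENNReal.ofReal p) μ ≤ ENNReal.ofReal M * eLpNorm g (ENNReal.ofReal p) μ) :
    ∫⁻ x, ‖f x‖ₑ ^ p ∂μ ≤ ENNReal.ofReal (M ^ p) * ∫⁻ x, ‖g x‖ₑ ^ p ∂μ := by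
  rw [eLp_ofReal hp, eLp_ofReal hp] at h
  have h2 := ENNReal.rpow_le_rpow h hp.le
  rw [ENNReal.mul_rpow_of_nonneg _ _ hp.le, ← ENNReal.rpow_mul, ← ENNReal.rpow_mul,
    one_div_mul_cancel hp.ne', ENNReal.rpow_one, ENNReal.rpow_one,
    ENNReal.ofReal_rpow_of_nonneg hM hp.le] at h2
  exact h2

lemma eLp_of_lint {γ : ℝ} (hγ : 0 < γ) {M c : ℝ} (hM : 0 ≤ M) (hc : 0 ≤ c) {f g : X → ℂ}
    (h : ∫⁻ x, ‖f x‖ₑ ^ γ ∂μ ≤ ENNReal.ofReal ((2 * M) ^ γ * c) * ∫⁻ x, ‖g x‖ₑ ^ γ ∂μ) :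
    eLpNorm f (ENNReal.ofReal γ) μ ≤
      ENNReal.ofReal (2 * c ^ (1 / γ) * M) * eLpNorm g (ENNReal.ofReal γ) μ := by
  rw [eLp_ofReal hγ, eLp_ofReal hγ]
  have h2 := ENNReal.rpow_le_rpow h (z := 1 / γ) (by positivity)
  rw [ENNReal.mul_rpow_of_nonneg _ _ (by positivity),
    ENNReal.ofReal_rpow_of_nonneg (by positivity) (by positivity),
    Real.mul_rpow (by positivity) hc, ← Real.rpow_mul (by positivity),
    mul_one_div_cancel hγ.ne', Real.rpow_one] at h2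
  refine h2.trans (le_of_eq ?_)
  congr 2
  ring

variable [IsFiniteMeasure μ]

lemma memLp_lo {p : ℝ≥0∞} (z : X → ℂ) (hz : Measurable z) {t : ℝ} (ht : 0 ≤ t) :
    MemLp (lo z t) p μ := by
  have h1 : Measurable (fun x : X => lo z t x) := by
    unfold lo
    refine Measurable.ite ?_ hz measurable_const
    exact measurableSet_le hz.norm measurable_const
  refine MemLp.of_bound h1.aestronglyMeasurable t (Eventually.of_forall fun x => ?_)
  unfold lo
  by_cases h : ‖z x‖ ≤ t <;> simp [h, ht]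

section
variable {β γ α : ℝ}

/-- The estimate at a base point in the smaller space. -/
lemma base (hβ : 1 ≤ β) (hβγ : β < γ) (hγα : γ < α) [Fact (1 ≤ ENNReal.ofReal β)]
    (U : Lp ℂ (ENNReal.ofReal β) μ → Lp ℂ (ENNReal.ofReal β) μ) {M : ℝ} (hM : 0 < M)
    (h0 : ∀ x y, ‖U x - U y‖ ≤ M * ‖x - y‖)
    (h1 : ∀ x y : Lp ℂ (ENNReal.ofReal β) μ, MemLp x (ENNReal.ofReal α) μ → MemLp y (ENNReal.ofReal α) μ →
      eLpNorm (⇑(U x) - ⇑(U y)) (ENNReal.ofReal α) μ ≤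
        ENNReal.ofReal M * eLpNorm (⇑x - ⇑y) (ENNReal.ofReal α) μ)
    (x y : Lp ℂ (ENNReal.ofReal β) μ) (hx : MemLp x (ENNReal.ofReal α) μ) :
    eLpNorm (⇑(U y) - ⇑(U x)) (ENNReal.ofReal γ) μ ≤
      ENNReal.ofReal (KC β γ α * M) * eLpNorm (⇑(y - x)) (ENNReal.ofReal γ) μ := by
  have hβ0 : 0 < β := by linarith
  have hγ0 : 0 < γ := by linarith
  have hα0 : 0 < α := by linarith
  set z : X → ℂ := ⇑(y - x) with hz
  have hzm : Measurable z := (Lp.stronglyMeasurable (y - x)).measurable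
  refine eLp_of_lint hγ0 hM.le (by
    have h1 : 0 < γ - β := by linarith
    have h2 : 0 < α - γ := by linarith
    positivity) ?_
  refine core hβ0 hβγ hγα hM z _ hzm
    ((Lp.aestronglyMeasurable _).sub (Lp.aestronglyMeasurable _)).aemeasurable ?_
  intro t ht
  set l : Lp ℂ (ENNReal.ofReal β) μ := (memLp_lo (μ := μ) (p := ENNReal.ofReal β) z hzm ht.le).toLp
    with hl
  have hlc : ⇑l =ᵐ[μ] lo z t := MemLp.coeFn_toLp _
  set v := x + l with hv
  refine ⟨⇑(U y) - ⇑(U v), ⇑(U v) - ⇑(U x),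
    ((Lp.aestronglyMeasurable _).sub (Lp.aestronglyMeasurable _)).aemeasurable,
    ((Lp.aestronglyMeasurable _).sub (Lp.aestronglyMeasurable _)).aemeasurable, ?_, ?_, ?_⟩
  · exact Eventually.of_forall fun a => by simp
  · refine lint_of_eLp hβ0 hM.le ?_
    have e1 : eLpNorm (⇑(U y) - ⇑(U v)) (ENNReal.ofReal β) μ = ENNReal.ofReal ‖U y - U v‖ := by
      rw [Lp.norm_def, ENNReal.ofReal_toReal (Lp.eLpNorm_ne_top _)]
      exact eLpNorm_congr_ae (Lp.coeFn_sub _ _).symm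
    have e2 : eLpNorm (hi z t) (ENNReal.ofReal β) μ = ENNReal.ofReal ‖y - v‖ := by
      rw [Lp.norm_def, ENNReal.ofReal_toReal (Lp.eLpNorm_ne_top _)]
      refine eLpNorm_congr_ae ?_
      have : y - v = (y - x) - l := by rw [hv]; abel
      rw [this]
      filter_upwards [Lp.coeFn_sub (y - x) l, hlc] with a h1 h2
      rw [h1, Pi.sub_apply, h2]
      have := hi_add_lo z t a
      rw [← hz, ← this]; ring
    have e3 : ∀ a, (fun b => hi z t b) a = hi z t a := fun _ => rfl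
    change eLpNorm (⇑(U y) - ⇑(U v)) (ENNReal.ofReal β) μ ≤
      ENNReal.ofReal M * eLpNorm (hi z t) (ENNReal.ofReal β) μ
    rw [e1, e2, ← ENNReal.ofReal_mul hM.le]
    exact ENNReal.ofReal_le_ofReal (h0 y v)
  · refine lint_of_eLp hα0 hM.le ?_
    have hvα : MemLp v (ENNReal.ofReal α) μ := by
      have h2 : MemLp (⇑x + lo z t) (ENNReal.ofReal α) μ := hx.add (memLp_lo z hzm ht.le)
      refine h2.ae_eq ?_
      filter_upwards [Lp.coeFn_add x l, hlc] with a h1 h3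
      rw [hv, h1, Pi.add_apply, Pi.add_apply, h3]
    refine (h1 v x hvα hx).trans (le_of_eq ?_)
    congr 1
    refine eLpNorm_congr_ae ?_
    filter_upwards [Lp.coeFn_add x l, hlc] with a h1 h3
    rw [hv, Pi.sub_apply, h1, Pi.add_apply, h3]
    ring

/-- The estimate at arbitrary base points. -/
lemma full (hβ : 1 ≤ β) (hβγ : β < γ) (hγα : γ < α) [Fact (1 ≤ ENNReal.ofReal β)]
    (U : Lp ℂ (ENNReal.ofReal β) μ → Lp ℂ (ENNReal.ofReal β) μ) {M : ℝ} (hM : 0 < M)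
    (h0 : ∀ x y, ‖U x - U y‖ ≤ M * ‖x - y‖)
    (h1 : ∀ x y : Lp ℂ (ENNReal.ofReal β) μ, MemLp x (ENNReal.ofReal α) μ → MemLp y (ENNReal.ofReal α) μ →
      eLpNorm (⇑(U x) - ⇑(U y)) (ENNReal.ofReal α) μ ≤
        ENNReal.ofReal M * eLpNorm (⇑x - ⇑y) (ENNReal.ofReal α) μ)
    (x y : Lp ℂ (ENNReal.ofReal β) μ) :
    eLpNorm (⇑(U y) - ⇑(U x)) (ENNReal.ofReal γ) μ ≤
      ENNReal.ofReal (KC β γ α * M) * eLpNorm (⇑(y - x)) (ENNReal.ofReal γ) μ := by
  have hex : ∀ n : ℕ, ∃ x' : Lp ℂ (ENNReal.ofReal β) μ, MemLp x' (ENNReal.ofReal α) μ ∧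
      ‖x' - x‖ < 1 / ((n : ℝ) + 1) := by
    intro n
    have hpos : (0:ℝ) < 1 / ((n : ℝ) + 1) := by positivity
    obtain ⟨g, hg1, hg2⟩ := (Lp.memLp x).exists_simpleFunc_eLpNorm_sub_lt (by simp)
      (ε := ENNReal.ofReal (1 / ((n : ℝ) + 1))) (by simpa using hpos)
    refine ⟨hg2.toLp, ?_, ?_⟩
    · exact (g.memLp_of_isFiniteMeasure (ENNReal.ofReal α) μ).ae_eq (MemLp.coeFn_toLp hg2).symm
    · rw [norm_sub_rev, Lp.norm_def]
      rw [← ENNReal.toReal_ofReal hpos.le]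
      refine (ENNReal.toReal_lt_toReal (Lp.eLpNorm_ne_top _) (by simp)).mpr ?_
      refine lt_of_le_of_lt (le_of_eq (eLpNorm_congr_ae ?_)) hg1
      filter_upwards [Lp.coeFn_sub x (hg2.toLp), MemLp.coeFn_toLp hg2] with a h1 h3
      rw [h1, Pi.sub_apply, Pi.sub_apply, h3]
  choose xs hxs hxn using hex
  have hlim : Tendsto xs atTop (𝓝 x) := by
    rw [tendsto_iff_norm_sub_tendsto_zero]
    exact squeeze_zero (fun _ => norm_nonneg _) (fun n => (hxn n).le)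
      tendsto_one_div_add_atTop_nhds_zero_nat
  have hcont : Continuous U := by
    have : LipschitzWith (Real.toNNReal M) U := by
      refine LipschitzWith.of_dist_le_mul fun a b => ?_
      rw [dist_eq_norm, dist_eq_norm, Real.coe_toNNReal _ hM.le]
      exact h0 a b
    exact this.continuous
  have hlim2 : Tendsto (fun n => U (xs n + (y - x)) - U (xs n)) atTop (𝓝 (U y - U x)) := by
    refine Tendsto.sub ?_ ((hcont.tendsto _).comp hlim)
    have h3 : Tendsto (fun n => xs n + (y - x)) atTop (𝓝 (x + (y - x))) :=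
      hlim.add tendsto_const_nhds
    rw [add_sub_cancel] at h3
    exact (hcont.tendsto _).comp h3
  have hle : eLpNorm (⇑(U y - U x)) (ENNReal.ofReal γ) μ ≤
      ENNReal.ofReal (KC β γ α * M) * eLpNorm (⇑(y - x)) (ENNReal.ofReal γ) μ := by
    refine eLpNorm_le_of_tendstoInMeasure (Eventually.of_forall fun n => ?_)
      (tendstoInMeasure_of_tendsto_Lp hlim2) (fun n => Lp.aestronglyMeasurable _)
    have h4 := base hβ hβγ hγα U hM h0 h1 (xs n) (xs n + (y - x)) (hxs n)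
    rw [add_sub_cancel_left] at h4
    refine le_trans (le_of_eq (eLpNorm_congr_ae ?_)) h4
    exact Lp.coeFn_sub _ _
  refine le_trans (le_of_eq (eLpNorm_congr_ae ?_)) hle
  exact (Lp.coeFn_sub _ _).symm

end

end Pool.Agent.V1282
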