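import Mathlib

/-! Local states of the greedy walk on the ladder and the potential function. -/

namespace Pool.Agent.V1282.Ladder

open Classical

/-- A local view of a state: column, row, visited horizontal edges, visited rungs. -/
structure LS where
  c : ℤ
  i : Bool
  h : ℤ → Bool → Prop
  g : ℤ → Prop

def LS.R (l : LS) : LS := ⟨l.c + 1, l.i, fun k j => (k = l.c ∧ j = l.i) ∨ l.h k j, l.g⟩
def LS.L (l : LS) : LS := ⟨l.c - 1, l.i, fun k j => (k = l.c - 1 ∧ j = l.i) ∨ l.h k j, l.g⟩
def LS.G (l : LS) : LS := ⟨l.c, !l.i, l.h, fun k => k = l.c ∨ l.g k⟩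

/-- exactly one of the two edges of the cut `k` is visited -/
def sg (l : LS) (k : ℤ) : Prop := (l.h k false ∧ ¬ l.h k true) ∨ (¬ l.h k false ∧ l.h k true)
def vs (l : LS) (k : ℤ) : Prop := l.h k false ∨ l.h k true

/-- indicator of a proposition -/
noncomputable def ind (p : Prop) : ℝ := if p then 1 else 0

theorem ind_pos {p : Prop} (h : p) : ind p = 1 := if_pos h
theorem ind_neg {p : Prop} (h : ¬ p) : ind p = 0 := if_neg h

noncomputable def cost (K : ℤ) (l : LS) (k : ℤ) : ℝ :=
  if K ≤ k then ind (l.c ≤ k ∧ sg l k) - 3 / 4 * ind (vs l k)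
  else (1 - ind (l.h k false)) + (1 - ind (l.h k true))

theorem cost_congr {K : ℤ} {l l' : LS} {k : ℤ} (h1 : l.c ≤ k ↔ l'.c ≤ k)
    (h2 : ∀ j, l.h k j ↔ l'.h k j) : cost K l k = cost K l' k := by
  have e : l.h k = l'.h k := funext fun j => propext (h2 j)
  have e1 : (l.c ≤ k) = (l'.c ≤ k) := propext h1
  unfold cost sg vs
  rw [e, e1]

noncomputable def pot (K : ℤ) (l : LS) : ℝ :=
  if K ≤ l.c - 1 ∧ sg l (l.c - 1) then
    (if l.h (l.c - 1) l.i then (if l.g l.c then 0 else if l.h l.c l.i then -1 / 2 else -1 / 4)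
     else -1 / (1 + (if l.h l.c l.i then 0 else 1) + (if l.g l.c then 0 else 1)))
  else 0

noncomputable def Phi (K n : ℤ) (l : LS) : ℝ :=
  l.c + ∑ k ∈ Finset.Ico (0 : ℤ) n, cost K l k + pot K l + 3 / 4 * n

structure Inv (K : ℤ) (l : LS) : Prop where
  i1 : ∀ k, K ≤ k → k + 1 ≤ l.c → vs l k
  i2 : ∀ k, K ≤ k → ¬ vs l k → ∀ m, k + 1 ≤ m → (∀ j, ¬ l.h m j) ∧ ¬ l.g m
  i3 : ∀ k j, K + 1 ≤ k → ¬(k = l.c ∧ j = l.i) →
    (l.g k → l.h (k - 1) j ∨ l.h k j) ∧ (l.h (k - 1) j → l.g k ∨ l.h k j) ∧
      (l.h k j → l.g k ∨ l.h (k - 1) j)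
  i4 : K + 1 ≤ l.c → l.g l.c ∨ l.h (l.c - 1) l.i ∨ l.h l.c l.i

/-- all three edges at the walker are visited -/
def full (l : LS) : Prop := l.h l.c l.i ∧ l.h (l.c - 1) l.i ∧ l.g l.c

theorem inv_R {K : ℤ} {l : LS} (hl : Inv K l) (ha : ¬ l.h l.c l.i ∨ full l) : Inv K l.R := by
  obtain ⟨c, i, h, g⟩ := l
  obtain ⟨i1, i2, i3, i4⟩ := hl
  dsimp only [LS.R, full, vs] at *
  refine ⟨?_, ?_, ?_, ?_⟩ <;> dsimp only [vs]
  · intro k hk hk1
    by_cases hc : k = c
    · subst hc; cases i <;> simp
    · have := i1 k hk (by omega); tauto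
  · intro k hk hv m hm
    simp only [not_or] at hv
    have hkc : ¬ (k + 1 ≤ c) := fun hh => by
      have := i1 k hk hh; tauto
    have h2 := i2 k hk (by tauto) m hm
    refine ⟨fun j => ?_, h2.2⟩
    have hne : k ≠ c := by
      rintro rfl; cases i <;> simp at hv
    have := h2.1 j
    simp only [not_or, not_and]
    refine ⟨fun e => by omega, this⟩
  · intro k j hk hne
    by_cases hw : k = c ∧ j = i
    · obtain ⟨rfl, rfl⟩ := hw
      have := i4 hk
      have h1 : ¬ (k - 1 = k ∧ j = j) := by omega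
      grind
    · have := i3 k j hk hw
      have h1 : ¬ (k - 1 = c ∧ j = i) := by
        rintro ⟨e1, e2⟩; exact hne ⟨by omega, e2⟩
      grind
  · intro _
    right; left; left; simp

theorem inv_L {K : ℤ} {l : LS} (hl : Inv K l) (ha : ¬ l.h (l.c - 1) l.i ∨ full l) :
    Inv K l.L := by
  obtain ⟨c, i, h, g⟩ := l
  obtain ⟨i1, i2, i3, i4⟩ := hl
  dsimp only [LS.L, full, vs] at *
  refine ⟨?_, ?_, ?_, ?_⟩ <;> dsimp only [vs]
  · intro k hk hk1
    have := i1 k hk (by omega); tauto
  · intro k hk hv m hm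
    simp only [not_or] at hv
    have hkc : ¬ (k + 1 ≤ c) := fun hh => by
      have := i1 k hk hh; tauto
    have h2 := i2 k hk (by tauto) m hm
    refine ⟨fun j => ?_, h2.2⟩
    have := h2.1 j
    simp only [not_or, not_and]
    refine ⟨fun e => by omega, this⟩
  · intro k j hk hne
    by_cases hw : k = c ∧ j = i
    · obtain ⟨rfl, rfl⟩ := hw
      have := i4 hk
      grind
    · have := i3 k j hk hw
      have h1 : ¬ (k - 1 = c - 1 ∧ j = i) := by
        rintro ⟨e1, e2⟩; exact hw ⟨by omega, e2⟩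
      grind
  · intro _
    right; right; left; simp

theorem inv_G {K : ℤ} {l : LS} (hl : Inv K l) (ha : ¬ l.g l.c ∨ full l) : Inv K l.G := by
  obtain ⟨c, i, h, g⟩ := l
  obtain ⟨i1, i2, i3, i4⟩ := hl
  dsimp only [LS.G, full, vs] at *
  refine ⟨?_, ?_, ?_, ?_⟩ <;> dsimp only [vs]
  · intro k hk hk1
    exact i1 k hk hk1
  · intro k hk hv m hm
    have hkc : ¬ (k + 1 ≤ c) := fun hh => hv (i1 k hk hh)
    have h2 := i2 k hk hv m hm
    refine ⟨h2.1, ?_⟩
    simp only [not_or]
    exact ⟨by omega, h2.2⟩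
  · intro k j hk hne
    by_cases hw : k = c ∧ j = i
    · obtain ⟨rfl, rfl⟩ := hw
      have := i4 hk
      grind
    · have := i3 k j hk hw
      have h1 : k ≠ c := by
        rintro rfl
        apply hw; refine ⟨rfl, ?_⟩
        cases i <;> cases j <;> simp_all
      grind
  · intro _
    left; left; trivial


theorem pot_nonpos (K : ℤ) (l : LS) : pot K l ≤ 0 := by
  unfold pot
  split_ifs <;> norm_num

theorem pot_ge (K : ℤ) (l : LS) : -1 ≤ pot K l := by
  unfold pot
  split_ifs <;> norm_num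

theorem pot_zero {K : ℤ} {l : LS} (h : ¬ (K ≤ l.c - 1 ∧ sg l (l.c - 1))) : pot K l = 0 := by
  unfold pot
  rw [if_neg h]

theorem sum_le {n c : ℤ} (h0 : 0 ≤ c) (h1 : c < n) {f g : ℤ → ℝ} {b : ℝ}
    (h : ∀ k, f k ≤ g k + if k = c then b else 0) :
    ∑ k ∈ Finset.Ico (0 : ℤ) n, f k ≤ ∑ k ∈ Finset.Ico (0 : ℤ) n, g k + b := by
  calc ∑ k ∈ Finset.Ico (0 : ℤ) n, f k
      ≤ ∑ k ∈ Finset.Ico (0 : ℤ) n, (g k + if k = c then b else 0) :=
        Finset.sum_le_sum fun k _ => h k
    _ = _ := by
        rw [Finset.sum_add_distrib, Finset.sum_ite_eq', if_pos]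
        simp [h0, h1]

theorem phiR_new {K n : ℤ} {l : LS} (hl : Inv K l) (h0 : 0 ≤ l.c) (h1 : l.c < n)
    (hr : ¬ l.h l.c l.i) : Phi K n l.R ≤ Phi K n l - pot K l := by
  have hoff : ∀ k, k ≠ l.c → cost K l.R k = cost K l k := by
    intro k hk
    apply cost_congr
    · simp only [LS.R]; omega
    · intro j; simp only [LS.R, hk, false_and, false_or]
  have key : ∃ b : ℝ, pot K l.R + b ≤ -1 ∧ cost K l.R l.c ≤ cost K l l.c + b := by
    obtain ⟨c, i, h, g⟩ := l
    obtain ⟨i1, i2, i3, i4⟩ := hl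
    dsimp only [LS.R, vs] at *
    by_cases hK : K ≤ c
    · by_cases ho : h c (!i)
      · refine ⟨-1, ?_, ?_⟩
        · rw [pot_zero]
          · norm_num
          · dsimp only [sg]
            rw [show c + 1 - 1 = c by ring]
            cases i <;> simp_all
        · simp only [cost, sg, vs, if_pos hK]
          cases i <;> simp_all [ind] <;> norm_num
      · have hv : ¬ (h c false ∨ h c true) := by cases i <;> simp_all
        have h2 := i2 c hK hv (c + 1) (by omega)
        refine ⟨-3 / 4, ?_, ?_⟩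
        · have : pot K { c := c + 1, i := i, h := fun k j => k = c ∧ j = i ∨ h k j, g := g }
              = -1 / 4 := by
            unfold pot
            have e0 : c + 1 - 1 = c := by ring
            have h21 := h2.1 i
            have h22 := h2.2
            dsimp only
            rw [e0, if_pos, if_pos, if_neg h22, if_neg]
            · simp only [not_or]; exact ⟨by omega, h21⟩
            · left; simp
            · refine ⟨hK, ?_⟩
              dsimp only [sg]
              cases i <;> simp_all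
          rw [this]; norm_num
        · simp only [cost, sg, vs, if_pos hK]
          cases i <;> simp_all [ind] <;> norm_num
    · refine ⟨-1, ?_, ?_⟩
      · have := pot_nonpos K { c := c + 1, i := i, h := fun k j => k = c ∧ j = i ∨ h k j, g := g }
        linarith
      · simp only [cost, if_neg hK]
        cases i <;> simp_all [ind]
  obtain ⟨b, hb1, hb2⟩ := key
  have := sum_le h0 h1 (b := b) (f := cost K l.R) (g := cost K l) (by
    intro k
    by_cases hk : k = l.c
    · rw [if_pos hk, hk]; exact hb2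
    · rw [if_neg hk, hoff k hk]; simp)
  unfold Phi
  have hc : (l.R.c : ℝ) = l.c + 1 := by simp [LS.R]
  rw [hc]
  linarith

theorem phiR_old {K n : ℤ} {l : LS} (hr : l.h l.c l.i) :
    Phi K n l.R ≤ Phi K n l + 1 - pot K l := by
  have e : ∀ k j, l.R.h k j ↔ l.h k j := by
    intro k j
    constructor
    · rintro (⟨rfl, rfl⟩ | h)
      · exact hr
      · exact h
    · exact Or.inr
  have key : ∀ k, cost K l.R k ≤ cost K l k := by
    intro k
    by_cases hk : k = l.c
    · have e1 : ¬ (l.R.c ≤ k) := by simp only [LS.R]; omega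
      have e2 : l.R.h k = l.h k := funext fun j => propext (e k j)
      unfold cost sg vs
      rw [e2, ind_neg (fun hh => e1 hh.1)]
      split_ifs
      · have : 0 ≤ ind (l.c ≤ k ∧ (l.h k false ∧ ¬l.h k true ∨ ¬l.h k false ∧ l.h k true)) := by
          unfold ind; split_ifs <;> norm_num
        linarith
      · exact le_refl _
    · apply le_of_eq
      apply cost_congr _ (e k)
      simp only [LS.R]; omega
  have h1 := Finset.sum_le_sum (s := Finset.Ico (0 : ℤ) n) fun k _ => key k
  have h2 := pot_nonpos K l.R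
  unfold Phi
  have hc : (l.R.c : ℝ) = l.c + 1 := by simp [LS.R]
  rw [hc]
  linarith

theorem phiL_new {K n : ℤ} {l : LS} (hl : Inv K l) (h0 : 1 ≤ l.c) (h1 : l.c ≤ n)
    (hr : ¬ l.h (l.c - 1) l.i) : Phi K n l.L ≤ Phi K n l - 1 - pot K l := by
  have hoff : ∀ k, k ≠ l.c - 1 → cost K l.L k = cost K l k := by
    intro k hk
    apply cost_congr
    · simp only [LS.L]; omega
    · intro j; simp only [LS.L, hk, false_and, false_or]
  have hon : cost K l.L (l.c - 1) ≤ cost K l (l.c - 1) + 0 := by
    obtain ⟨c, i, h, g⟩ := l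
    obtain ⟨i1, i2, i3, i4⟩ := hl
    dsimp only [LS.L, vs] at *
    by_cases hK : K ≤ c - 1
    · have hv := i1 (c - 1) hK (by omega)
      have ho : h (c - 1) (!i) := by cases i <;> simp_all
      simp only [cost, sg, vs, if_pos hK]
      cases i <;> simp_all [ind]
    · simp only [cost, if_neg hK]
      cases i <;> simp_all [ind]
  have h3 := sum_le (c := l.c - 1) (n := n) (b := 0) (f := cost K l.L) (g := cost K l)
    (by omega) (by omega) (by
    intro k
    by_cases hk : k = l.c - 1
    · rw [if_pos hk, hk]; exact hon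
    · rw [if_neg hk, hoff k hk]; simp)
  have h2 := pot_nonpos K l.L
  unfold Phi
  have hc : (l.L.c : ℝ) = l.c - 1 := by simp [LS.L]
  rw [hc]
  linarith

theorem phiL_old {K n : ℤ} {l : LS} (h0 : 1 ≤ l.c) (h1 : l.c ≤ n)
    (hr : l.h (l.c - 1) l.i) : Phi K n l.L ≤
      Phi K n l - 1 + ind (K ≤ l.c - 1 ∧ sg l (l.c - 1)) - pot K l := by
  have e : ∀ k j, l.L.h k j ↔ l.h k j := by
    intro k j
    constructor
    · rintro (⟨rfl, rfl⟩ | h)
      · exact hr
      · exact h
    · exact Or.inr
  have hoff : ∀ k, k ≠ l.c - 1 → cost K l.L k = cost K l k := by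
    intro k hk
    apply cost_congr _ (e k)
    simp only [LS.L]; omega
  have hon : cost K l.L (l.c - 1) ≤ cost K l (l.c - 1) +
      ind (K ≤ l.c - 1 ∧ sg l (l.c - 1)) := by
    have e2 : l.L.h (l.c - 1) = l.h (l.c - 1) := funext fun j => propext (e _ j)
    have e1 : (l.L.c ≤ l.c - 1) = True := by
      simp [LS.L]
    have e3 : (l.c ≤ l.c - 1) = False := by
      simp
    unfold cost sg vs
    rw [e2, e1, e3]
    by_cases hK : K ≤ l.c - 1
    · rw [if_pos hK, if_pos hK]
      simp only [hK, true_and, false_and]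
      rw [ind_neg not_false]
      linarith
    · rw [if_neg hK, if_neg hK]
      simp only [hK, false_and]
      rw [ind_neg not_false]
      linarith
  have h3 := sum_le (c := l.c - 1) (n := n) (b := ind (K ≤ l.c - 1 ∧ sg l (l.c - 1)))
    (f := cost K l.L) (g := cost K l)
    (by omega) (by omega) (by
    intro k
    by_cases hk : k = l.c - 1
    · rw [if_pos hk, hk]; exact hon
    · rw [if_neg hk, hoff k hk]; simp)
  have h2 := pot_nonpos K l.L
  unfold Phi
  have hc : (l.L.c : ℝ) = l.c - 1 := by simp [LS.L]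
  rw [hc]
  linarith

theorem phiG {K n : ℤ} {l : LS} : Phi K n l.G = Phi K n l - pot K l + pot K l.G := by
  unfold Phi
  have hc : l.G.c = l.c := rfl
  have : ∀ k, cost K l.G k = cost K l k := by
    intro k
    apply cost_congr
    · simp [LS.G]
    · intro j; simp [LS.G]
  simp only [this, hc]
  ring


/-- sum of `F` over the allowed moves -/
noncomputable def sumL (F : LS → ℝ) (l : LS) : ℝ :=
  if full l then F l.R + F l.L + F l.G
  else ind (¬ l.h l.c l.i) * F l.R + ind (¬ l.h (l.c - 1) l.i) * F l.L + ind (¬ l.g l.c) * F l.G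

/-- number of allowed moves -/
noncomputable def cntL (l : LS) : ℝ :=
  if full l then 3
  else ind (¬ l.h l.c l.i) + ind (¬ l.h (l.c - 1) l.i) + ind (¬ l.g l.c)

theorem potG_le {K : ℤ} {l : LS} (h : K ≤ l.c - 1 ∧ sg l (l.c - 1)) (hz : l.h (l.c - 1) l.i) :
    pot K l.G ≤ -1 / 2 ∧ (l.h l.c (!l.i) → pot K l.G = -1) := by
  obtain ⟨c, i, hh, g⟩ := l
  dsimp only [LS.G] at *
  have ho : ¬ hh (c - 1) (!i) := by
    have := h.2; dsimp only [sg] at this
    cases i <;> simp_all
  unfold pot
  dsimp only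
  rw [if_pos (show _ from ⟨h.1, h.2⟩), if_neg ho]
  constructor
  · split_ifs <;> first | (exfalso; tauto; done) | norm_num
  · intro h1
    rw [if_pos h1, if_pos (Or.inl rfl)]; norm_num

theorem potG_w {K : ℤ} {l : LS} (h : K ≤ l.c - 1 ∧ sg l (l.c - 1)) (hz : ¬ l.h (l.c - 1) l.i) :
    pot K l.G = 0 := by
  obtain ⟨c, i, hh, g⟩ := l
  dsimp only [LS.G] at *
  have ho : hh (c - 1) (!i) := by
    have := h.2; dsimp only [sg] at this
    cases i <;> simp_all
  unfold pot
  dsimp only
  rw [if_pos (show _ from ⟨h.1, h.2⟩), if_pos ho, if_pos (Or.inl rfl)]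

theorem potG_zero {K : ℤ} {l : LS} (h : ¬ (K ≤ l.c - 1 ∧ sg l (l.c - 1))) : pot K l.G = 0 :=
  pot_zero (l := l.G) h

theorem phi_super {K n : ℤ} {l : LS} (hl : Inv K l) (h0 : 1 ≤ l.c) (h1 : l.c < n) :
    sumL (Phi K n) l ≤ cntL l * Phi K n l := by
  have hG := phiG (K := K) (n := n) (l := l)
  by_cases hs : K ≤ l.c - 1 ∧ sg l (l.c - 1)
  · -- the cut just crossed has exactly one visited edge
    by_cases hf : full l
    · have hR := phiR_old (K := K) (n := n) hf.1
      have hL := phiL_old (K := K) (n := n) h0 h1.le hf.2.1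
      rw [ind_pos hs] at hL
      have hp : pot K l = 0 := by
        unfold pot; rw [if_pos hs, if_pos hf.2.1, if_pos hf.2.2]
      have h3 := hl.i3 l.c (!l.i) (by omega) (by simp)
      have ho : ¬ l.h (l.c - 1) (!l.i) := by
        have h2 := hs.2
        have h4 := hf.2.1
        unfold sg at h2
        cases hi : l.i <;> simp_all
      have h5 : l.h l.c (!l.i) := by
        rcases h3.1 hf.2.2 with h | h
        · exact absurd h ho
        · exact h
      have h6 := (potG_le hs hf.2.1).2 h5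
      unfold sumL cntL
      rw [if_pos hf, if_pos hf]
      linarith
    · unfold sumL cntL
      rw [if_neg hf, if_neg hf]
      by_cases hz : l.h (l.c - 1) l.i
      · have h6 := (potG_le hs hz).1
        rw [ind_neg (p := ¬ l.h (l.c - 1) l.i) (by simpa using hz)]
        by_cases hr : l.h l.c l.i
        · rw [ind_neg (p := ¬ l.h l.c l.i) (by simpa using hr)]
          have hg : ¬ l.g l.c := fun hg => hf ⟨hr, hz, hg⟩
          have hp : pot K l = -1 / 2 := by
            unfold pot; rw [if_pos hs, if_pos hz, if_neg hg, if_pos hr]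
          rw [ind_pos hg]
          linarith
        · have hR := phiR_new (K := K) (n := n) hl (by omega) h1 hr
          rw [ind_pos hr]
          by_cases hg : l.g l.c
          · have hp : pot K l = 0 := by
              unfold pot; rw [if_pos hs, if_pos hz, if_pos hg]
            rw [ind_neg (p := ¬ l.g l.c) (by simpa using hg)]
            linarith
          · have hp : pot K l = -1 / 4 := by
              unfold pot; rw [if_pos hs, if_pos hz, if_neg hg, if_neg hr]
            rw [ind_pos hg]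
            linarith
      · have h6 := potG_w hs hz
        have hL := phiL_new (K := K) (n := n) hl h0 h1.le hz
        rw [ind_pos hz]
        have hp : pot K l = -1 / (1 + (if l.h l.c l.i then 0 else 1) +
            (if l.g l.c then 0 else 1)) := by
          unfold pot; rw [if_pos hs, if_neg hz]
        by_cases hr : l.h l.c l.i
        · rw [ind_neg (p := ¬ l.h l.c l.i) (by simpa using hr)]
          by_cases hg : l.g l.c
          · rw [if_pos hr, if_pos hg] at hp
            rw [ind_neg (p := ¬ l.g l.c) (by simpa using hg)]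
            norm_num at hp
            linarith
          · rw [if_pos hr, if_neg hg] at hp
            rw [ind_pos hg]
            norm_num at hp
            linarith
        · have hR := phiR_new (K := K) (n := n) hl (by omega) h1 hr
          rw [ind_pos hr]
          by_cases hg : l.g l.c
          · rw [if_neg hr, if_pos hg] at hp
            rw [ind_neg (p := ¬ l.g l.c) (by simpa using hg)]
            norm_num at hp
            linarith
          · rw [if_neg hr, if_neg hg] at hp
            rw [ind_pos hg]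
            norm_num at hp
            linarith
  · have hp := pot_zero hs
    have hpG := potG_zero hs
    rw [hp, hpG] at hG
    by_cases hf : full l
    · have hR := phiR_old (K := K) (n := n) hf.1
      have hL := phiL_old (K := K) (n := n) h0 h1.le hf.2.1
      rw [ind_neg hs] at hL
      unfold sumL cntL
      rw [if_pos hf, if_pos hf]
      linarith
    · unfold sumL cntL
      rw [if_neg hf, if_neg hf]
      have eR : ind (¬ l.h l.c l.i) * Phi K n l.R ≤ ind (¬ l.h l.c l.i) * Phi K n l := by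
        by_cases hr : l.h l.c l.i
        · rw [ind_neg (p := ¬ l.h l.c l.i) (by simpa using hr)]; simp
        · have hR := phiR_new (K := K) (n := n) hl (by omega) h1 hr
          rw [ind_pos hr]; linarith
      have eL : ind (¬ l.h (l.c - 1) l.i) * Phi K n l.L ≤
          ind (¬ l.h (l.c - 1) l.i) * Phi K n l := by
        by_cases hr : l.h (l.c - 1) l.i
        · rw [ind_neg (p := ¬ l.h (l.c - 1) l.i) (by simpa using hr)]; simp
        · have hR := phiL_new (K := K) (n := n) hl h0 h1.le hr
          rw [ind_pos hr]; linarith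
      have eG : ind (¬ l.g l.c) * Phi K n l.G = ind (¬ l.g l.c) * Phi K n l := by
        rw [hG]; ring
      rw [eG]
      linarith

/-! ### lower bounds for the potential -/

theorem cost_ge (K : ℤ) (l : LS) (k : ℤ) : -(3 / 4) ≤ cost K l k := by
  unfold cost ind
  split_ifs <;> norm_num

theorem phi_ge {K n : ℤ} {l : LS} (hn : 0 ≤ n) : (l.c : ℝ) + pot K l ≤ Phi K n l := by
  have : ∑ k ∈ Finset.Ico (0 : ℤ) n, (-(3 / 4) : ℝ) ≤ ∑ k ∈ Finset.Ico (0 : ℤ) n, cost K l k :=
    Finset.sum_le_sum fun k _ => cost_ge K l k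
  rw [Finset.sum_const, Int.card_Ico, nsmul_eq_mul] at this
  have e : (((n - 0).toNat : ℕ) : ℝ) = n := by
    have : (((n - 0).toNat : ℕ) : ℤ) = n := by omega
    exact_mod_cast this
  rw [e] at this
  unfold Phi
  linarith

theorem phi_nonneg {K n : ℤ} {l : LS} (hK : 0 ≤ K) (hn : 0 ≤ n) (hc : 0 ≤ l.c) :
    0 ≤ Phi K n l := by
  have h1 := phi_ge (K := K) (l := l) hn
  by_cases h : K ≤ l.c - 1
  · have h2 := pot_ge K l
    have h3 : (1 : ℝ) ≤ l.c := by exact_mod_cast (show (1 : ℤ) ≤ l.c by omega)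
    linarith
  · rw [pot_zero (fun hh => h hh.1)] at h1
    have h3 : (0 : ℝ) ≤ l.c := by exact_mod_cast hc
    linarith

theorem phi_start {K n : ℤ} {l : LS} (hK : 0 ≤ K) (hn : K ≤ n) (hc : l.c ≤ K)
    (hh : ∀ k j, K ≤ k → ¬ l.h k j) : Phi K n l ≤ 3 * K + 3 / 4 * n := by
  have h1 : ∀ k, cost K l k ≤ if k < K then 2 else 0 := by
    intro k
    unfold cost
    by_cases hk : K ≤ k
    · rw [if_pos hk, if_neg (by omega), ind_neg, ind_neg]
      · norm_num
      · unfold vs; have := hh k false hk; have := hh k true hk; tauto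
      · unfold sg; have := hh k false hk; have := hh k true hk; tauto
    · rw [if_neg hk, if_pos (by omega)]
      unfold ind; split_ifs <;> norm_num
  have h2 : ∑ k ∈ Finset.Ico (0 : ℤ) n, cost K l k ≤
      ∑ k ∈ Finset.Ico (0 : ℤ) n, if k < K then (2 : ℝ) else 0 :=
    Finset.sum_le_sum fun k _ => h1 k
  have h3 : ∑ k ∈ Finset.Ico (0 : ℤ) n, (if k < K then (2 : ℝ) else 0) = 2 * K := by
    rw [← Finset.sum_filter]
    have : (Finset.Ico (0 : ℤ) n).filter (fun k => k < K) = Finset.Ico (0 : ℤ) K := by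
      ext k; simp only [Finset.mem_filter, Finset.mem_Ico]; omega
    rw [this, Finset.sum_const, Int.card_Ico, nsmul_eq_mul]
    have e : (((K - 0).toNat : ℕ) : ℝ) = K := by
      have : (((K - 0).toNat : ℕ) : ℤ) = K := by omega
      exact_mod_cast this
    rw [e]; ring
  rw [h3] at h2
  have h4 := pot_nonpos K l
  have h5 : (l.c : ℝ) ≤ K := by exact_mod_cast hc
  unfold Phi
  linarith

/-! ### the clock -/

noncomputable def W (n : ℤ) (l : LS) : ℝ :=
  ∑ k ∈ Finset.Ico (0 : ℤ) n, (ind (l.h k false) + ind (l.h k true)) +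
    ∑ k ∈ Finset.Ico (0 : ℤ) (n + 1), ind (l.g k)

noncomputable def B (n : ℤ) (l : LS) : ℝ := (l.c : ℝ) ^ 2 + (2 * n + 2) * W n l

theorem ind_mono {p q : Prop} (h : p → q) : ind p ≤ ind q := by
  unfold ind
  split_ifs <;> first | (exfalso; tauto; done) | norm_num

theorem ind_le_one (p : Prop) : ind p ≤ 1 := by unfold ind; split_ifs <;> norm_num
theorem ind_nonneg (p : Prop) : 0 ≤ ind p := by unfold ind; split_ifs <;> norm_num

theorem W_mono {n : ℤ} {l l' : LS} (h : ∀ k j, l.h k j → l'.h k j) (hg : ∀ k, l.g k → l'.g k) :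
    W n l ≤ W n l' := by
  unfold W
  refine add_le_add (Finset.sum_le_sum fun k _ => ?_) (Finset.sum_le_sum fun k _ => ?_)
  · exact add_le_add (ind_mono (h k _)) (ind_mono (h k _))
  · exact ind_mono (hg k)

theorem W_new_h {n c : ℤ} {i : Bool} {l l' : LS} (h0 : 0 ≤ c) (h1 : c < n)
    (h : ∀ k j, l.h k j → l'.h k j) (hg : ∀ k, l.g k → l'.g k) (hn : ¬ l.h c i) (hn' : l'.h c i) :
    W n l + 1 ≤ W n l' := by
  unfold W
  have hs : ∑ k ∈ Finset.Ico (0 : ℤ) (n + 1), ind (l.g k) ≤
    ∑ k ∈ Finset.Ico (0 : ℤ) (n + 1), ind (l'.g k) :=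
    Finset.sum_le_sum fun k _ => ind_mono (hg k)
  have h2 := sum_le h0 h1 (b := -1) (f := fun k => ind (l.h k false) + ind (l.h k true))
    (g := fun k => ind (l'.h k false) + ind (l'.h k true)) (by
      intro k
      by_cases hk : k = c
      · subst hk
        rw [if_pos rfl]
        cases i
        · rw [ind_neg hn, ind_pos hn']
          have := ind_mono (h k true); linarith
        · rw [ind_neg hn, ind_pos hn']
          have := ind_mono (h k false); linarith
      · rw [if_neg hk]
        have := ind_mono (h k true)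
        have := ind_mono (h k false); linarith)
  linarith

theorem W_new_g {n c : ℤ} {l l' : LS} (h0 : 0 ≤ c) (h1 : c < n)
    (h : ∀ k j, l.h k j → l'.h k j) (hg : ∀ k, l.g k → l'.g k) (hn : ¬ l.g c) (hn' : l'.g c) :
    W n l + 1 ≤ W n l' := by
  unfold W
  have hs : ∑ k ∈ Finset.Ico (0 : ℤ) n, (ind (l.h k false) + ind (l.h k true)) ≤
    ∑ k ∈ Finset.Ico (0 : ℤ) n, (ind (l'.h k false) + ind (l'.h k true)) :=
    Finset.sum_le_sum fun k _ => add_le_add (ind_mono (h k _)) (ind_mono (h k _))
  have h2 := sum_le (n := n + 1) h0 (by omega) (b := -1) (f := fun k => ind (l.g k))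
    (g := fun k => ind (l'.g k)) (by
      intro k
      by_cases hk : k = c
      · subst hk
        rw [if_pos rfl, ind_neg hn, ind_pos hn']; norm_num
      · rw [if_neg hk]
        have := ind_mono (hg k); linarith)
  linarith

theorem B_super {n : ℤ} {l : LS} (h0 : 1 ≤ l.c) (h1 : l.c < n) :
    cntL l * (B n l + 2 / 3) ≤ sumL (B n) l := by
  have hc0 : (1 : ℝ) ≤ l.c := by exact_mod_cast h0
  have hc1 : (l.c : ℝ) + 1 ≤ n := by exact_mod_cast (show l.c + 1 ≤ n by omega)
  have hn2 : (0 : ℝ) ≤ 2 * n + 2 := by linarith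
  have cR : (l.R.c : ℝ) = l.c + 1 := by simp [LS.R]
  have cL : (l.L.c : ℝ) = l.c - 1 := by simp [LS.L]
  have cG : (l.G.c : ℝ) = l.c := rfl
  have mR : W n l ≤ W n l.R := W_mono (fun k j h => Or.inr h) (fun k h => h)
  have mL : W n l ≤ W n l.L := W_mono (fun k j h => Or.inr h) (fun k h => h)
  have mG : W n l ≤ W n l.G := W_mono (fun k j h => h) (fun k h => Or.inr h)
  unfold sumL cntL
  by_cases hf : full l
  · rw [if_pos hf, if_pos hf]
    unfold B
    rw [cR, cL, cG]
    nlinarith [mul_le_mul_of_nonneg_left mR hn2, mul_le_mul_of_nonneg_left mL hn2,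
      mul_le_mul_of_nonneg_left mG hn2]
  · rw [if_neg hf, if_neg hf]
    have eR : ind (¬ l.h l.c l.i) * (B n l + 2 / 3) ≤ ind (¬ l.h l.c l.i) * B n l.R := by
      by_cases hr : l.h l.c l.i
      · rw [ind_neg (p := ¬ l.h l.c l.i) (by simpa using hr)]; simp
      · have h2 : W n l + 1 ≤ W n l.R := W_new_h (i := l.i) (by omega) h1
          (fun k j h => Or.inr h) (fun k h => h) hr (Or.inl ⟨rfl, rfl⟩)
        rw [ind_pos hr]
        unfold B
        rw [cR]
        nlinarith [mul_le_mul_of_nonneg_left h2 hn2]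
    have eL : ind (¬ l.h (l.c - 1) l.i) * (B n l + 2 / 3) ≤
        ind (¬ l.h (l.c - 1) l.i) * B n l.L := by
      by_cases hr : l.h (l.c - 1) l.i
      · rw [ind_neg (p := ¬ l.h (l.c - 1) l.i) (by simpa using hr)]; simp
      · have h2 : W n l + 1 ≤ W n l.L := W_new_h (i := l.i) (c := l.c - 1) (by omega) (by omega)
          (fun k j h => Or.inr h) (fun k h => h) hr (Or.inl ⟨rfl, rfl⟩)
        rw [ind_pos hr]
        unfold B
        rw [cL]
        nlinarith [mul_le_mul_of_nonneg_left h2 hn2]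
    have eG : ind (¬ l.g l.c) * (B n l + 2 / 3) ≤ ind (¬ l.g l.c) * B n l.G := by
      by_cases hr : l.g l.c
      · rw [ind_neg (p := ¬ l.g l.c) (by simpa using hr)]; simp
      · have h2 : W n l + 1 ≤ W n l.G := W_new_g (c := l.c) (by omega) h1
          (fun k j h => h) (fun k h => Or.inr h) hr (Or.inl rfl)
        rw [ind_pos hr]
        unfold B
        rw [cG]
        nlinarith [mul_le_mul_of_nonneg_left h2 hn2]
    nlinarith

theorem B_le {n : ℤ} {l : LS} (h0 : 0 ≤ l.c) (h1 : l.c ≤ n) :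
    B n l ≤ (n : ℝ) ^ 2 + (2 * n + 2) * (3 * n + 1) := by
  have hc0 : (0 : ℝ) ≤ l.c := by exact_mod_cast h0
  have hc1 : (l.c : ℝ) ≤ n := by exact_mod_cast h1
  have hn : 0 ≤ n := by omega
  have hW : W n l ≤ 3 * n + 1 := by
    unfold W
    have a1 : ∑ k ∈ Finset.Ico (0 : ℤ) n, (ind (l.h k false) + ind (l.h k true)) ≤
        ∑ k ∈ Finset.Ico (0 : ℤ) n, (2 : ℝ) := Finset.sum_le_sum fun k _ => by
      have := ind_le_one (l.h k false); have := ind_le_one (l.h k true); linarith
    have a2 : ∑ k ∈ Finset.Ico (0 : ℤ) (n + 1), ind (l.g k) ≤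
        ∑ k ∈ Finset.Ico (0 : ℤ) (n + 1), (1 : ℝ) := Finset.sum_le_sum fun k _ => ind_le_one _
    rw [Finset.sum_const, Int.card_Ico, nsmul_eq_mul] at a1 a2
    have e : (((n - 0).toNat : ℕ) : ℝ) = n := by
      have : (((n - 0).toNat : ℕ) : ℤ) = n := by omega
      exact_mod_cast this
    have e2 : (((n + 1 - 0).toNat : ℕ) : ℝ) = n + 1 := by
      have : (((n + 1 - 0).toNat : ℕ) : ℤ) = n + 1 := by omega
      exact_mod_cast this
    rw [e] at a1
    rw [e2] at a2
    linarith
  have hn' : (0 : ℝ) ≤ n := by exact_mod_cast hn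
  unfold B
  nlinarith

end Pool.Agent.V1282.Ladder
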