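import Pool.Agent.V1282.MEDef

set_option linter.all false

open Set Filter Topology

namespace Pool.Agent.V1282.ME

theorem norm_le_elen (x y : ℝ × ℝ) : ‖y - x‖ ≤ elen x y := by
  unfold elen
  rw [Prod.norm_def]
  apply max_le
  · apply Real.le_sqrt_of_sq_le
    rw [Prod.fst_sub, Real.norm_eq_abs, sq_abs]
    nlinarith [sq_nonneg (y.2 - x.2)]
  · apply Real.le_sqrt_of_sq_le
    rw [Prod.snd_sub, Real.norm_eq_abs, sq_abs]
    nlinarith [sq_nonneg (y.1 - x.1)]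

/-- the linear form with coefficients `p` -/
noncomputable def lin (p : ℝ × ℝ) : ℝ × ℝ →L[ℝ] ℝ :=
  p.1 • ContinuousLinearMap.fst ℝ ℝ ℝ + p.2 • ContinuousLinearMap.snd ℝ ℝ ℝ

theorem lin_apply (p v : ℝ × ℝ) : lin p v = p.1 * v.1 + p.2 * v.2 := by
  simp [lin]

theorem mem_superDiff {f g : ℝ × ℝ → ℝ} {x p : ℝ × ℝ} (hg : HasFDerivAt g (lin p) x)
    (h : ∀ᶠ y in 𝓝 x, f y - f x ≤ g y - g x) : p ∈ superDiff f x := by
  intro ε hε
  have h1 := hg.isLittleO.def hε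
  filter_upwards [h, h1] with y h2 h3
  rw [lin_apply, Real.norm_eq_abs] at h3
  have h4 := (abs_le.1 h3).2
  have h5 := mul_le_mul_of_nonneg_left (norm_le_elen x y) hε.le
  simp only [Prod.fst_sub, Prod.snd_sub] at h4
  linarith

theorem mem_subDiff {f g : ℝ × ℝ → ℝ} {x p : ℝ × ℝ} (hg : HasFDerivAt g (lin p) x)
    (h : ∀ᶠ y in 𝓝 x, g y - g x ≤ f y - f x) : p ∈ subDiff f x := by
  intro ε hε
  have h1 := hg.isLittleO.def hε
  filter_upwards [h, h1] with y h2 h3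
  rw [lin_apply, Real.norm_eq_abs] at h3
  have h4 := (abs_le.1 h3).1
  have h5 := mul_le_mul_of_nonneg_left (norm_le_elen x y) hε.le
  simp only [Prod.fst_sub, Prod.snd_sub] at h4
  linarith

/-- separate variables -/
theorem hasFDerivAt_sep {a b : ℝ → ℝ} {a' b' : ℝ} {x : ℝ × ℝ} (ha : HasDerivAt a a' x.1)
    (hb : HasDerivAt b b' x.2) :
    HasFDerivAt (fun z : ℝ × ℝ => a z.1 + b z.2) (lin (a', b')) x := by
  have h1 : HasFDerivAt (fun z : ℝ × ℝ => a z.1) (a' • ContinuousLinearMap.fst ℝ ℝ ℝ) x :=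
    ha.comp_hasFDerivAt x hasFDerivAt_fst
  have h2 : HasFDerivAt (fun z : ℝ × ℝ => b z.2) (b' • ContinuousLinearMap.snd ℝ ℝ ℝ) x :=
    hb.comp_hasFDerivAt x hasFDerivAt_snd
  exact h1.add h2

/-- the common core of the two comparison statements -/
theorem core {α : ℝ} (hα : 0 < α) {m M : ℝ × ℝ → ℝ}
    (hm : ContinuousOn m (Ici 0 ×ˢ Ici 0)) (hM : ContinuousOn M (Ici 0 ×ˢ Ici 0))
    (hmeq : ∀ x : ℝ × ℝ, 0 < x.1 → 0 < x.2 → ∀ p ∈ superDiff m x,
      p.1 + (max p.2 0) ^ α * m x ≤ 0)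
    (hMeq : ∀ x : ℝ × ℝ, 0 < x.1 → 0 < x.2 → ∀ p ∈ subDiff M x,
      0 ≤ p.1 + (max p.2 0) ^ α * M x)
    (hb : ∀ x : ℝ × ℝ, 0 ≤ x.1 → 0 ≤ x.2 → (x.1 = 0 ∨ x.2 = 0) → m x ≤ M x)
    (hpos : ∀ x y : ℝ × ℝ, 0 ≤ x.1 → 0 ≤ x.2 → 0 ≤ y.1 → 0 ≤ y.2 → M y < m x → 0 ≤ m x) :
    ∀ x : ℝ × ℝ, 0 ≤ x.1 → 0 ≤ x.2 → m x ≤ M x := by
  rintro ⟨ts, rs⟩ hts hrs
  simp only at hts hrs
  by_contra hcon
  have hcon := not_le.1 hcon
  set κ := m (ts, rs) - M (ts, rs) with hκ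
  have hκ0 : 0 < κ := by linarith
  -- compact sets
  set T := ts + 1 with hT
  set R := rs + 1 with hR
  have hT0 : 0 < T := by linarith
  have hR0 : 0 < R := by linarith
  set K1 : Set (ℝ × ℝ) := Icc 0 T ×ˢ Icc 0 R with hK1
  set K2 : Set (ℝ × ℝ) := Icc 0 (T + 1) ×ˢ Icc 0 (R + 1) with hK2
  have hK2c : IsCompact K2 := isCompact_Icc.prod isCompact_Icc
  have hK1c : IsCompact K1 := isCompact_Icc.prod isCompact_Icc
  have h12 : K1 ⊆ K2 := by
    rintro ⟨a, b⟩ ⟨h1, h2⟩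
    exact ⟨⟨h1.1, by linarith [h1.2]⟩, ⟨h2.1, by linarith [h2.2]⟩⟩
  have h2Q : K2 ⊆ Ici 0 ×ˢ Ici 0 := by
    rintro ⟨a, b⟩ ⟨h1, h2⟩
    exact ⟨h1.1, h2.1⟩
  have hmK : ContinuousOn m K2 := hm.mono h2Q
  have hMK : ContinuousOn M K2 := hM.mono h2Q
  -- bounds
  obtain ⟨C1, hC1⟩ := hK2c.exists_bound_of_continuousOn hmK
  obtain ⟨C2, hC2⟩ := hK2c.exists_bound_of_continuousOn hMK
  set B := max (C1 + C2) 1 with hB
  have hB1 : 1 ≤ B := le_max_right _ _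
  have hBd : ∀ x ∈ K2, ∀ y ∈ K2, m x - M y ≤ B := by
    intro x hx y hy
    have h1 := hC1 x hx
    have h2 := hC2 y hy
    rw [Real.norm_eq_abs] at h1 h2
    have h3 := (abs_le.1 h1).2
    have h4 := (abs_le.1 h2).1
    have h5 : C1 + C2 ≤ B := le_max_left _ _
    linarith
  -- uniform continuity
  have hum := hK2c.uniformContinuousOn_of_continuous hmK
  have huM := hK2c.uniformContinuousOn_of_continuous hMK
  rw [Metric.uniformContinuousOn_iff] at hum huM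
  obtain ⟨r1, hr1, hum⟩ := hum (κ / 4) (by linarith)
  obtain ⟨r2, hr2, huM⟩ := huM (κ / 4) (by linarith)
  set r := min (min r1 r2) 1 with hr
  have hr0 : 0 < r := lt_min (lt_min hr1 hr2) one_pos
  have hrr1 : r ≤ r1 := (min_le_left _ _).trans (min_le_left _ _)
  have hrr2 : r ≤ r2 := (min_le_left _ _).trans (min_le_right _ _)
  have hrr3 : r ≤ 1 := min_le_right _ _
  -- penalisation exponent
  have hκB : 0 < κ / (8 * B) := by positivity
  obtain ⟨k1, hk1⟩ := exists_pow_lt_of_lt_one hκB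
    (show ts / T < 1 by rw [div_lt_one hT0]; linarith)
  obtain ⟨k2, hk2⟩ := exists_pow_lt_of_lt_one hκB
    (show rs / R < 1 by rw [div_lt_one hR0]; linarith)
  set η := κ / (8 * T) with hη
  have hη0 : 0 < η := by positivity
  set n := 2 * B / r ^ 2 + 1 with hn
  have hn0 : 0 < n := by positivity
  set w : ℝ → ℝ := fun t => B * (t / T) ^ k1 with hw
  set z : ℝ → ℝ := fun ρ => B * (ρ / R) ^ k2 with hz
  have hw1 : w ts < κ / 8 := by
    rw [hw]; simp only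
    calc B * (ts / T) ^ k1 < B * (κ / (8 * B)) := mul_lt_mul_of_pos_left hk1 (by linarith)
      _ = κ / 8 := by field_simp
  have hz1 : z rs < κ / 8 := by
    rw [hz]; simp only
    calc B * (rs / R) ^ k2 < B * (κ / (8 * B)) := mul_lt_mul_of_pos_left hk2 (by linarith)
      _ = κ / 8 := by field_simp
  have hw0 : ∀ t, 0 ≤ t → 0 ≤ w t := fun t ht => by rw [hw]; simp only; positivity
  have hz0 : ∀ t, 0 ≤ t → 0 ≤ z t := fun t ht => by rw [hz]; simp only; positivity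
  have hwT : w T = B := by rw [hw]; simp only; rw [div_self hT0.ne', one_pow, mul_one]
  have hzR : z R = B := by rw [hz]; simp only; rw [div_self hR0.ne', one_pow, mul_one]
  have hwd : ∀ t, HasDerivAt w (B * (k1 * (t / T) ^ (k1 - 1) * (1 / T))) t := by
    intro t
    have := (((hasDerivAt_id t).div_const T).pow k1).const_mul B
    simpa [hw] using this
  have hzd : ∀ t, HasDerivAt z (B * (k2 * (t / R) ^ (k2 - 1) * (1 / R))) t := by
    intro t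
    have := (((hasDerivAt_id t).div_const R).pow k2).const_mul B
    simpa [hz] using this
  -- the doubled functional
  set Ph : (ℝ × ℝ) × (ℝ × ℝ) → ℝ := fun q =>
    m q.1 - M q.2 - n / 2 * (q.1.1 - q.2.1) ^ 2 - n / 2 * (q.1.2 - q.2.2) ^ 2
      - η * q.1.1 - w q.1.1 - z q.1.2 with hPh
  have hcP : ContinuousOn Ph (K1 ×ˢ K2) := by
    have hwc : Continuous w := by rw [hw]; fun_prop
    have hzc : Continuous z := by rw [hz]; fun_prop
    have h1 : ContinuousOn (fun q : (ℝ × ℝ) × (ℝ × ℝ) => m q.1) (K1 ×ˢ K2) :=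
      (hmK.mono h12).comp continuousOn_fst (fun q hq => hq.1)
    have h2 : ContinuousOn (fun q : (ℝ × ℝ) × (ℝ × ℝ) => M q.2) (K1 ×ˢ K2) :=
      hMK.comp continuousOn_snd (fun q hq => hq.2)
    have h3 : Continuous (fun q : (ℝ × ℝ) × (ℝ × ℝ) => n / 2 * (q.1.1 - q.2.1) ^ 2) := by
      fun_prop
    have h4 : Continuous (fun q : (ℝ × ℝ) × (ℝ × ℝ) => n / 2 * (q.1.2 - q.2.2) ^ 2) := by
      fun_prop
    have h5 : Continuous (fun q : (ℝ × ℝ) × (ℝ × ℝ) => η * q.1.1) := by fun_prop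
    have h6 : Continuous (fun q : (ℝ × ℝ) × (ℝ × ℝ) => w q.1.1) := by fun_prop
    have h7 : Continuous (fun q : (ℝ × ℝ) × (ℝ × ℝ) => z q.1.2) := by fun_prop
    exact (((((h1.sub h2).sub h3.continuousOn).sub h4.continuousOn).sub
      h5.continuousOn).sub h6.continuousOn).sub h7.continuousOn
  have hxs1 : ((ts, rs) : ℝ × ℝ) ∈ K1 := ⟨⟨hts, by linarith⟩, ⟨hrs, by linarith⟩⟩
  obtain ⟨⟨⟨t, ρ⟩, ⟨s, σ⟩⟩, hmem, hmax⟩ := (hK1c.prod hK2c).exists_isMaxOn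
    ⟨((ts, rs), (ts, rs)), ⟨hxs1, h12 hxs1⟩⟩ hcP
  obtain ⟨⟨ht, hρ⟩, ⟨hs, hσ⟩⟩ := hmem
  simp only at ht hρ hs hσ
  have hxK1 : ((t, ρ) : ℝ × ℝ) ∈ K1 := ⟨ht, hρ⟩
  have hyK2 : ((s, σ) : ℝ × ℝ) ∈ K2 := ⟨hs, hσ⟩
  have hval : κ / 2 ≤ Ph ((t, ρ), (s, σ)) := by
    have h1 := hmax (show (((ts, rs), (ts, rs)) : (ℝ × ℝ) × (ℝ × ℝ)) ∈ K1 ×ˢ K2 from
      ⟨hxs1, h12 hxs1⟩)
    have h1 : Ph ((ts, rs), (ts, rs)) ≤ Ph ((t, ρ), (s, σ)) := h1
    refine le_trans ?_ h1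
    rw [hPh]
    simp only [sub_self]
    have h2 : η * ts ≤ κ / 8 := by
      rw [hη]
      calc κ / (8 * T) * ts ≤ κ / (8 * T) * T :=
            mul_le_mul_of_nonneg_left (by linarith) (by positivity)
        _ = κ / 8 := by field_simp
    have : (0:ℝ) ^ 2 = 0 := by norm_num
    rw [this]
    linarith
  have hBxy : m (t, ρ) - M (s, σ) ≤ B := hBd _ (h12 hxK1) _ hyK2
  have hval' : κ / 2 ≤ m (t, ρ) - M (s, σ) - n / 2 * (t - s) ^ 2 - n / 2 * (ρ - σ) ^ 2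
      - η * t - w t - z ρ := hval
  have hq1 : 0 ≤ n / 2 * (t - s) ^ 2 := by positivity
  have hq2 : 0 ≤ n / 2 * (ρ - σ) ^ 2 := by positivity
  have hq3 : 0 ≤ η * t := mul_nonneg hη0.le ht.1
  have hq4 := hw0 t ht.1
  have hq5 := hz0 ρ hρ.1
  have htT : t < T := by
    rcases ht.2.lt_or_eq with h | h
    · exact h
    · rw [h, hwT] at hval'
      rw [h] at hBxy hq1 hq3
      linarith
  have hρR : ρ < R := by
    rcases hρ.2.lt_or_eq with h | h
    · exact h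
    · rw [h, hzR] at hval'
      rw [h] at hBxy hq2
      linarith
  have hclose : ∀ a : ℝ, n / 2 * a ^ 2 ≤ B → |a| < r := by
    intro a ha
    apply abs_lt_of_sq_lt_sq _ hr0.le
    have h1 : n * a ^ 2 ≤ 2 * B := by linarith
    have h2 : 2 * B < n * r ^ 2 := by
      rw [hn]
      have : (2 * B / r ^ 2 + 1) * r ^ 2 = 2 * B + r ^ 2 := by field_simp
      rw [this]
      have : 0 < r ^ 2 := by positivity
      linarith
    have h3 : n * a ^ 2 < n * r ^ 2 := by linarith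
    exact lt_of_mul_lt_mul_left h3 hn0.le
  have hd1 : |t - s| < r := hclose _ (by linarith)
  have hd2 : |ρ - σ| < r := hclose _ (by linarith)
  have hdist : dist ((t, ρ) : ℝ × ℝ) (s, σ) < r := by
    rw [Prod.dist_eq]
    exact max_lt (by rw [Real.dist_eq]; exact hd1) (by rw [Real.dist_eq]; exact hd2)
  have hmM : κ / 2 ≤ m (t, ρ) - M (s, σ) := by linarith
  have hsT : s < T + 1 := by have := (abs_lt.1 hd1).1; linarith
  have hσR : σ < R + 1 := by have := (abs_lt.1 hd2).1; linarith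
  -- the maximum is interior
  have hxint : ¬ (t = 0 ∨ ρ = 0) := by
    intro h
    have h1 := hb (t, ρ) ht.1 hρ.1 h
    have h2 := huM _ (h12 hxK1) _ hyK2 (lt_of_lt_of_le hdist hrr2)
    rw [Real.dist_eq] at h2
    have h3 := (abs_lt.1 h2).2
    linarith
  have hyint : ¬ (s = 0 ∨ σ = 0) := by
    intro h
    have h1 := hb (s, σ) hs.1 hσ.1 h
    have h2 := hum _ (h12 hxK1) _ hyK2 (lt_of_lt_of_le hdist hrr1)
    rw [Real.dist_eq] at h2
    have h3 := (abs_lt.1 h2).2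
    linarith
  rw [not_or] at hxint hyint
  have ht0 : 0 < t := lt_of_le_of_ne ht.1 (Ne.symm hxint.1)
  have hρ0 : 0 < ρ := lt_of_le_of_ne hρ.1 (Ne.symm hxint.2)
  have hs0 : 0 < s := lt_of_le_of_ne hs.1 (Ne.symm hyint.1)
  have hσ0 : 0 < σ := lt_of_le_of_ne hσ.1 (Ne.symm hyint.2)
  -- superdifferential
  set w' := B * (k1 * (t / T) ^ (k1 - 1) * (1 / T)) with hw'
  set z' := B * (k2 * (ρ / R) ^ (k2 - 1) * (1 / R)) with hz'
  have hw'0 : 0 ≤ w' := by rw [hw']; positivity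
  have hz'0 : 0 ≤ z' := by rw [hz']; positivity
  have hD1 : ((n * (t - s) + η + w', n * (ρ - σ) + z') : ℝ × ℝ) ∈ superDiff m (t, ρ) := by
    have ha : HasDerivAt (fun a : ℝ => n / 2 * (a - s) ^ 2 + η * a + w a)
        (n * (t - s) + η + w') t := by
      have h1 : HasDerivAt (fun a : ℝ => n / 2 * (a - s) ^ 2) (n * (t - s)) t := by
        have := ((((hasDerivAt_id t).sub_const s).pow 2).const_mul (n / 2))
        refine this.congr_deriv ?_
        simp; ring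
      have h2 : HasDerivAt (fun a : ℝ => η * a) η t := by
        have := (hasDerivAt_id t).const_mul η
        simpa using this
      exact (h1.add h2).add (hwd t)
    have hb' : HasDerivAt (fun a : ℝ => n / 2 * (a - σ) ^ 2 + z a) (n * (ρ - σ) + z') ρ := by
      have h1 : HasDerivAt (fun a : ℝ => n / 2 * (a - σ) ^ 2) (n * (ρ - σ)) ρ := by
        have := ((((hasDerivAt_id ρ).sub_const σ).pow 2).const_mul (n / 2))
        refine this.congr_deriv ?_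
        simp; ring
      exact h1.add (hzd ρ)
    refine mem_superDiff (hasFDerivAt_sep (x := (t, ρ)) ha hb') ?_
    have hnb : K1 ∈ 𝓝 ((t, ρ) : ℝ × ℝ) :=
      prod_mem_nhds (Icc_mem_nhds ht0 htT) (Icc_mem_nhds hρ0 hρR)
    filter_upwards [hnb] with x hx
    have h1 := hmax (show ((x, (s, σ)) : (ℝ × ℝ) × (ℝ × ℝ)) ∈ K1 ×ˢ K2 from ⟨hx, hyK2⟩)
    have h1 : Ph (x, (s, σ)) ≤ Ph ((t, ρ), (s, σ)) := h1
    rw [hPh] at h1
    simp only at h1
    linarith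
  have hD2 : ((n * (t - s), n * (ρ - σ)) : ℝ × ℝ) ∈ subDiff M (s, σ) := by
    have ha : HasDerivAt (fun a : ℝ => -(n / 2 * (t - a) ^ 2)) (n * (t - s)) s := by
      have := ((((hasDerivAt_id s).const_sub t).pow 2).const_mul (n / 2)).neg
      refine this.congr_deriv ?_
      simp; ring
    have hb' : HasDerivAt (fun a : ℝ => -(n / 2 * (ρ - a) ^ 2)) (n * (ρ - σ)) σ := by
      have := ((((hasDerivAt_id σ).const_sub ρ).pow 2).const_mul (n / 2)).neg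
      refine this.congr_deriv ?_
      simp; ring
    refine mem_subDiff (hasFDerivAt_sep (x := (s, σ)) ha hb') ?_
    have hnb : K2 ∈ 𝓝 ((s, σ) : ℝ × ℝ) :=
      prod_mem_nhds (Icc_mem_nhds hs0 hsT) (Icc_mem_nhds hσ0 hσR)
    filter_upwards [hnb] with y hy
    have h1 := hmax (show (((t, ρ), y) : (ℝ × ℝ) × (ℝ × ℝ)) ∈ K1 ×ˢ K2 from ⟨hxK1, hy⟩)
    have h1 : Ph ((t, ρ), y) ≤ Ph ((t, ρ), (s, σ)) := h1
    rw [hPh] at h1
    simp only at h1
    linarith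
  have hE1 := hmeq (t, ρ) ht0 hρ0 _ hD1
  have hE2 := hMeq (s, σ) hs0 hσ0 _ hD2
  simp only at hE1 hE2
  have hmx : 0 ≤ m (t, ρ) := hpos (t, ρ) (s, σ) ht0.le hρ0.le hs0.le hσ0.le (by linarith)
  have hpow : (max (n * (ρ - σ)) 0) ^ α ≤ (max (n * (ρ - σ) + z') 0) ^ α := by
    apply Real.rpow_le_rpow (le_max_right _ _) _ hα.le
    exact max_le_max (by linarith) le_rfl
  have hpow0 : 0 ≤ (max (n * (ρ - σ)) 0) ^ α := Real.rpow_nonneg (le_max_right _ _) _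
  have h1 : (max (n * (ρ - σ)) 0) ^ α * m (t, ρ) ≤
      (max (n * (ρ - σ) + z') 0) ^ α * m (t, ρ) := mul_le_mul_of_nonneg_right hpow hmx
  have h2 : (max (n * (ρ - σ)) 0) ^ α * M (s, σ) ≤ (max (n * (ρ - σ)) 0) ^ α * m (t, ρ) :=
    mul_le_mul_of_nonneg_left (by linarith) hpow0
  linarith

theorem zero_sub_eqn {α : ℝ} (x p : ℝ × ℝ) (hp : p ∈ superDiff (fun _ => (0:ℝ)) x) :
    p.1 + (max p.2 0) ^ α * (0:ℝ) ≤ 0 := by
  rw [mul_zero, add_zero]
  by_contra hcon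
  have hc := not_le.1 hcon
  -- move backwards in time
  have h1 := hp (p.1 / 2) (by linarith)
  have h2 : Tendsto (fun h : ℝ => ((x.1 - h, x.2) : ℝ × ℝ)) (𝓝[>] 0) (𝓝 x) := by
    have : Continuous fun h : ℝ => ((x.1 - h, x.2) : ℝ × ℝ) := by fun_prop
    have h3 := this.tendsto 0
    simp only [sub_zero, Prod.mk.eta] at h3
    exact h3.mono_left nhdsWithin_le_nhds
  obtain ⟨h, hh, hpos⟩ := ((h2.eventually h1).and self_mem_nhdsWithin).exists
  have hpos : 0 < h := hpos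
  unfold elen at hh
  simp only [sub_self, zero_sub, mul_zero, add_zero] at hh
  have h4 : Real.sqrt ((x.1 - h - x.1) ^ 2 + 0 ^ 2) = h := by
    rw [show (x.1 - h - x.1) ^ 2 + 0 ^ 2 = h ^ 2 by ring, Real.sqrt_sq hpos.le]
  rw [h4] at hh
  nlinarith

theorem supersol_nonneg {α : ℝ} (hα : 0 < α) {m₀ : ℝ → ℝ} (h0 : ∀ ρ, 0 ≤ ρ → 0 ≤ m₀ ρ)
    {M : ℝ × ℝ → ℝ} (hM : IsSupersol α m₀ M) :
    ∀ x : ℝ × ℝ, 0 ≤ x.1 → 0 ≤ x.2 → 0 ≤ M x := by
  refine core hα (m := fun _ => 0) continuousOn_const hM.cont ?_ hM.eqn ?_ ?_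
  · intro x _ _ p hp
    exact zero_sub_eqn x p hp
  · rintro ⟨a, b⟩ ha hb (h | h)
    · simp only at h ha hb
      rw [h]; exact (h0 b hb).trans (hM.init b hb)
    · simp only at h ha hb
      rw [h]; exact hM.bdry a ha
  · intro x y _ _ _ _ _
    exact le_rfl

theorem comparison {α : ℝ} (hα : 0 < α) {m₀ : ℝ → ℝ} (h0 : ∀ ρ, 0 ≤ ρ → 0 ≤ m₀ ρ)
    {m M : ℝ × ℝ → ℝ} (hm : IsSubsol α m₀ m) (hM : IsSupersol α m₀ M) :
    ∀ x : ℝ × ℝ, 0 ≤ x.1 → 0 ≤ x.2 → m x ≤ M x := by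
  refine core hα hm.cont hM.cont hm.eqn hM.eqn ?_ ?_
  · rintro ⟨a, b⟩ ha hb (h | h)
    · simp only at h ha hb
      rw [h]; exact (hm.init b hb).trans (hM.init b hb)
    · simp only at h ha hb
      rw [h]; exact (hm.bdry a ha).trans (hM.bdry a ha)
  · intro x y hx1 hx2 hy1 hy2 h
    exact (supersol_nonneg hα h0 hM y hy1 hy2).trans h.le

end Pool.Agent.V1282.ME
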