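import Mathlib

set_option linter.all false

open Set Filter Topology

namespace Pool.Agent.V1282.ME

/-- Euclidean length of `y - x` in the plane. -/
noncomputable def elen (x y : ℝ × ℝ) : ℝ := Real.sqrt ((y.1 - x.1) ^ 2 + (y.2 - x.2) ^ 2)

/-- The Fréchet superdifferential `D⁺f(x)`: the `p` with
`limsup_{y → x} (f(y) - f(x) - p·(y - x))/|y - x| ≤ 0`. -/
def superDiff (f : ℝ × ℝ → ℝ) (x : ℝ × ℝ) : Set (ℝ × ℝ) :=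
  {p | ∀ ε > 0, ∀ᶠ y in 𝓝 x,
    f y - f x - (p.1 * (y.1 - x.1) + p.2 * (y.2 - x.2)) ≤ ε * elen x y}

/-- The Fréchet subdifferential `D⁻f(x)`: the `p` with
`liminf_{y → x} (f(y) - f(x) - p·(y - x))/|y - x| ≥ 0`. -/
def subDiff (f : ℝ × ℝ → ℝ) (x : ℝ × ℝ) : Set (ℝ × ℝ) :=
  {p | ∀ ε > 0, ∀ᶠ y in 𝓝 x,
    -(ε * elen x y) ≤ f y - f x - (p.1 * (y.1 - x.1) + p.2 * (y.2 - x.2))}

/-- `m ∈ C([0,∞)²)` is a viscosity subsolution of `m_t + (m_ρ)_+^α m = 0`,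
`m(0,·) = m₀`, `m(·,0) = 0`; points are `(t, ρ)`. -/
structure IsSubsol (α : ℝ) (m₀ : ℝ → ℝ) (m : ℝ × ℝ → ℝ) : Prop where
  cont : ContinuousOn m (Ici 0 ×ˢ Ici 0)
  eqn : ∀ x : ℝ × ℝ, 0 < x.1 → 0 < x.2 → ∀ p ∈ superDiff m x,
    p.1 + (max p.2 0) ^ α * m x ≤ 0
  init : ∀ ρ, 0 ≤ ρ → m (0, ρ) ≤ m₀ ρ
  bdry : ∀ t, 0 ≤ t → m (t, 0) ≤ 0

/-- viscosity supersolution -/
structure IsSupersol (α : ℝ) (m₀ : ℝ → ℝ) (m : ℝ × ℝ → ℝ) : Prop where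
  cont : ContinuousOn m (Ici 0 ×ˢ Ici 0)
  eqn : ∀ x : ℝ × ℝ, 0 < x.1 → 0 < x.2 → ∀ p ∈ subDiff m x,
    0 ≤ p.1 + (max p.2 0) ^ α * m x
  init : ∀ ρ, 0 ≤ ρ → m₀ ρ ≤ m (0, ρ)
  bdry : ∀ t, 0 ≤ t → 0 ≤ m (t, 0)

/-- viscosity solution -/
def IsSol (α : ℝ) (m₀ : ℝ → ℝ) (m : ℝ × ℝ → ℝ) : Prop :=
  IsSubsol α m₀ m ∧ IsSupersol α m₀ m

end Pool.Agent.V1282.ME
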