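import Mathlib

open Set Filter Topology MeasureTheory

set_option autoImplicit false
set_option linter.all false

namespace Pool.Agent.V1282.PT

section Det

variable {E : Type*} [NormedAddCommGroup E] [InnerProductSpace ℝ E] [FiniteDimensional ℝ E]

/-- a positive operator with trace at most the dimension has determinant in `[0,1]` -/
lemma abs_det_le_one {T : E →ₗ[ℝ] E} (hT : T.IsPositive)
    (htr : LinearMap.trace ℝ E T ≤ Module.finrank ℝ E) : |LinearMap.det T| ≤ 1 := by
  have h1 := hT.isSymmetric.det_eq_prod_eigenvalues rfl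
  have h2 := hT.isSymmetric.trace_eq_sum_eigenvalues rfl
  have h3 := hT.nonneg_eigenvalues rfl
  simp only [RCLike.ofReal_real_eq_id, id_eq] at h1 h2
  rw [h1, abs_of_nonneg (Finset.prod_nonneg fun i _ => h3 i)]
  have h4 : ∏ i, hT.isSymmetric.eigenvalues rfl i ≤
      ∏ i, Real.exp (hT.isSymmetric.eigenvalues rfl i - 1) := by
    refine Finset.prod_le_prod (fun i _ => h3 i) fun i _ => ?_
    have := Real.add_one_le_exp (hT.isSymmetric.eigenvalues rfl i - 1)
    linarith
  refine h4.trans ?_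
  rw [← Real.exp_sum, Real.exp_le_one_iff, Finset.sum_sub_distrib]
  simp only [Finset.sum_const, Finset.card_univ, Fintype.card_fin, nsmul_eq_mul, mul_one]
  rw [← h2]
  linarith

end Det

section Calc

variable {E : Type*} [NormedAddCommGroup E] [InnerProductSpace ℝ E]

/-- second derivative along a line -/
lemma line_deriv {v : E → ℝ} (hv : ContDiff ℝ 2 v) (z x : E) (t : ℝ) :
    HasDerivAt (fun t : ℝ => v (z + t • x)) (fderiv ℝ v (z + t • x) x) t := by
  have h1 : HasDerivAt (fun t : ℝ => z + t • x) x t := by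
    simpa using ((hasDerivAt_id t).smul_const x).const_add z
  have h2 : HasFDerivAt v (fderiv ℝ v (z + t • x)) (z + t • x) :=
    (hv.differentiable (by norm_num) _).hasFDerivAt
  exact h2.comp_hasDerivAt t h1

lemma fderiv_contDiff {v : E → ℝ} (hv : ContDiff ℝ 2 v) : ContDiff ℝ 1 (fderiv ℝ v) :=
  hv.fderiv_right (by norm_num)

lemma line_deriv2 {v : E → ℝ} (hv : ContDiff ℝ 2 v) (z x : E) (t : ℝ) :
    HasDerivAt (fun t : ℝ => fderiv ℝ v (z + t • x) x)
      (fderiv ℝ (fderiv ℝ v) (z + t • x) x x) t := by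
  have h1 : HasDerivAt (fun t : ℝ => z + t • x) x t := by
    simpa using ((hasDerivAt_id t).smul_const x).const_add z
  have h2 : HasFDerivAt (fderiv ℝ v) (fderiv ℝ (fderiv ℝ v) (z + t • x)) (z + t • x) :=
    ((fderiv_contDiff hv).differentiable (by norm_num) _).hasFDerivAt
  have h3 := h2.comp_hasDerivAt t h1
  have h4 := h3.clm_apply (hasDerivAt_const t x)
  simpa using h4

/-- necessary conditions at a local maximum in one variable -/
lemma max_necessary {h h1 : ℝ → ℝ} {c : ℝ} (hd : ∀ t, HasDerivAt h (h1 t) t)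
    (hc : HasDerivAt h1 c 0) (hmax : IsLocalMax h 0) : h1 0 = 0 ∧ c ≤ 0 := by
  have e1 : h1 0 = 0 := hmax.hasDerivAt_eq_zero (hd 0)
  refine ⟨e1, ?_⟩
  by_contra hcon
  push Not at hcon
  have d1 : deriv h = h1 := funext fun t => (hd t).deriv
  have hmin : IsLocalMin h 0 := by
    refine isLocalMin_of_deriv_deriv_pos ?_ ?_ (hd 0).continuousAt
    · rw [d1, hc.deriv]; exact hcon
    · rw [d1, e1]
  have hconst : h =ᶠ[𝓝 0] fun _ => h 0 := by
    filter_upwards [hmax, hmin] with t h2 h3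
    exact le_antisymm h2 h3
  have h1const : h1 =ᶠ[𝓝 0] fun _ => 0 := by
    have := hconst.deriv
    rw [d1] at this
    simpa using this
  have := h1const.deriv_eq
  rw [hc.deriv] at this
  simp at this
  linarith

end Calc

section Contact

variable {E : Type*} [NormedAddCommGroup E] [InnerProductSpace ℝ E] [FiniteDimensional ℝ E]

/-- the contact set of `v` with downward... upper paraboloids of opening `λ` with vertices in the
closed ball of radius `ρ` -/
def Contact (v : E → ℝ) (z0 : E) (R ρ lam : ℝ) : Set E :=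
  {z | z ∈ Metric.closedBall z0 R ∧ ∃ y ∈ Metric.closedBall z0 ρ, ∀ w ∈ Metric.closedBall z0 R,
    v w - lam * ‖w - y‖ ^ 2 ≤ v z - lam * ‖z - y‖ ^ 2}

lemma contact_compact {v : E → ℝ} (hv : Continuous v) (z0 : E) (R ρ lam : ℝ) :
    IsCompact (Contact v z0 R ρ lam) := by
  have hS : IsCompact ((Metric.closedBall z0 R ×ˢ Metric.closedBall z0 ρ) ∩
      {p : E × E | ∀ w ∈ Metric.closedBall z0 R,
        v w - lam * ‖w - p.2‖ ^ 2 ≤ v p.1 - lam * ‖p.1 - p.2‖ ^ 2}) := by
    refine ((isCompact_closedBall z0 R).prod (isCompact_closedBall z0 ρ)).inter_right ?_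
    have : {p : E × E | ∀ w ∈ Metric.closedBall z0 R,
        v w - lam * ‖w - p.2‖ ^ 2 ≤ v p.1 - lam * ‖p.1 - p.2‖ ^ 2} =
        ⋂ w ∈ Metric.closedBall z0 R, {p : E × E |
          v w - lam * ‖w - p.2‖ ^ 2 ≤ v p.1 - lam * ‖p.1 - p.2‖ ^ 2} := by
      ext p; simp
    rw [this]
    refine isClosed_biInter fun w _ => isClosed_le (by fun_prop) (by fun_prop)
  have : Contact v z0 R ρ lam = Prod.fst '' ((Metric.closedBall z0 R ×ˢ Metric.closedBall z0 ρ) ∩
      {p : E × E | ∀ w ∈ Metric.closedBall z0 R,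
        v w - lam * ‖w - p.2‖ ^ 2 ≤ v p.1 - lam * ‖p.1 - p.2‖ ^ 2}) := by
    ext z
    constructor
    · rintro ⟨h1, y, h2, h3⟩
      exact ⟨(z, y), ⟨⟨h1, h2⟩, h3⟩, rfl⟩
    · rintro ⟨⟨z', y⟩, ⟨⟨h1, h2⟩, h3⟩, rfl⟩
      exact ⟨h1, y, h2, h3⟩
  rw [this]
  exact hS.image continuous_fst

/-- the Hessian operator -/
noncomputable def hess (v : E → ℝ) (z : E) : E →L[ℝ] E :=
  ∑ i, ((fderiv ℝ (fderiv ℝ v) z).flip (stdOrthonormalBasis ℝ E i)).smulRight
    (stdOrthonormalBasis ℝ E i)

/-- the gradient -/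
noncomputable def grad (v : E → ℝ) (z : E) : E :=
  ∑ i, fderiv ℝ v z (stdOrthonormalBasis ℝ E i) • (stdOrthonormalBasis ℝ E i)

lemma inner_grad (v : E → ℝ) (z x : E) : inner ℝ (grad v z) x = fderiv ℝ v z x := by
  unfold grad
  rw [sum_inner]
  simp_rw [inner_smul_left]
  conv_rhs => rw [← (stdOrthonormalBasis ℝ E).sum_repr' x]
  rw [map_sum]
  refine Finset.sum_congr rfl fun i _ => ?_
  rw [map_smul]
  simp [mul_comm]

lemma inner_hess (v : E → ℝ) (z x y : E) :
    inner ℝ (hess v z x) y = fderiv ℝ (fderiv ℝ v) z x y := by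
  unfold hess
  rw [ContinuousLinearMap.sum_apply, sum_inner]
  conv_rhs => rw [← (stdOrthonormalBasis ℝ E).sum_repr' y]
  rw [map_sum]
  refine Finset.sum_congr rfl fun i _ => ?_
  rw [map_smul]
  simp [inner_smul_left, mul_comm]

lemma hasFDerivAt_grad {v : E → ℝ} (hv : ContDiff ℝ 2 v) (z : E) :
    HasFDerivAt (grad v) (hess v z) z := by
  unfold grad hess
  refine HasFDerivAt.fun_sum fun i _ => ?_
  have h2 : HasFDerivAt (fderiv ℝ v) (fderiv ℝ (fderiv ℝ v) z) z :=
    ((fderiv_contDiff hv).differentiable (by norm_num) _).hasFDerivAt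
  have h3 := h2.clm_apply (hasFDerivAt_const (stdOrthonormalBasis ℝ E i) z)
  have h4 := h3.smul_const (stdOrthonormalBasis ℝ E i)
  refine h4.congr_fderiv ?_
  ext x
  simp

lemma norm_line (z y x : E) (t : ℝ) :
    ‖z + t • x - y‖ ^ 2 = ‖z - y‖ ^ 2 + 2 * t * inner ℝ (z - y) x + t ^ 2 * ‖x‖ ^ 2 := by
  have : z + t • x - y = (z - y) + t • x := by abel
  rw [this, norm_add_sq_real, inner_smul_right, norm_smul, mul_pow, Real.norm_eq_abs, sq_abs]
  ring

/-- necessary conditions at an interior contact point -/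
lemma contact_necessary {v : E → ℝ} (hv : ContDiff ℝ 2 v) {z0 z y : E} {R lam : ℝ}
    (hz : z ∈ Metric.ball z0 R) (hmax : ∀ w ∈ Metric.closedBall z0 R,
      v w - lam * ‖w - y‖ ^ 2 ≤ v z - lam * ‖z - y‖ ^ 2) (x : E) :
    fderiv ℝ v z x = 2 * lam * inner ℝ (z - y) x ∧
      fderiv ℝ (fderiv ℝ v) z x x ≤ 2 * lam * ‖x‖ ^ 2 := by
  have hd : ∀ t : ℝ, HasDerivAt (fun t : ℝ => v (z + t • x) - lam * (‖z - y‖ ^ 2 +
      2 * t * inner ℝ (z - y) x + t ^ 2 * ‖x‖ ^ 2))
      (fderiv ℝ v (z + t • x) x - lam * (2 * inner ℝ (z - y) x + 2 * t * ‖x‖ ^ 2)) t := by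
    intro t
    refine (line_deriv hv z x t).sub ?_
    have h1 : HasDerivAt (fun t : ℝ => ‖z - y‖ ^ 2 + 2 * t * inner ℝ (z - y) x + t ^ 2 * ‖x‖ ^ 2)
        (2 * inner ℝ (z - y) x + 2 * t * ‖x‖ ^ 2) t := by
      have a1 : HasDerivAt (fun t : ℝ => 2 * t * inner ℝ (z - y) x) (2 * 1 * inner ℝ (z - y) x) t :=
        ((hasDerivAt_id t).const_mul 2).mul_const _
      have a2 : HasDerivAt (fun t : ℝ => t ^ 2 * ‖x‖ ^ 2) ((2 * t) * ‖x‖ ^ 2) t := by
        have := (hasDerivAt_pow 2 t).mul_const (‖x‖ ^ 2)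
        simpa using this
      have a3 := (a1.const_add (‖z - y‖ ^ 2)).add a2
      refine a3.congr_deriv ?_
      ring
    exact h1.const_mul lam
  have hc : HasDerivAt (fun t : ℝ => fderiv ℝ v (z + t • x) x -
      lam * (2 * inner ℝ (z - y) x + 2 * t * ‖x‖ ^ 2))
      (fderiv ℝ (fderiv ℝ v) z x x - lam * (2 * ‖x‖ ^ 2)) 0 := by
    have h1 := line_deriv2 hv z x 0
    rw [zero_smul, add_zero] at h1
    refine h1.sub ?_
    have a1 : HasDerivAt (fun t : ℝ => 2 * inner ℝ (z - y) x + 2 * t * ‖x‖ ^ 2)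
        (2 * ‖x‖ ^ 2) 0 := by
      have := (((hasDerivAt_id (0:ℝ)).const_mul 2).mul_const (‖x‖ ^ 2)).const_add
        (2 * inner ℝ (z - y) x)
      refine this.congr_deriv ?_
      ring
    exact a1.const_mul lam
  have hloc : IsLocalMax (fun t : ℝ => v (z + t • x) - lam * (‖z - y‖ ^ 2 +
      2 * t * inner ℝ (z - y) x + t ^ 2 * ‖x‖ ^ 2)) 0 := by
    have hcont : Tendsto (fun t : ℝ => z + t • x) (𝓝 0) (𝓝 z) := by
      have : Continuous (fun t : ℝ => z + t • x) := by fun_prop
      simpa using this.tendsto 0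
    have hev : ∀ᶠ t : ℝ in 𝓝 0, z + t • x ∈ Metric.ball z0 R :=
      hcont.eventually (Metric.isOpen_ball.mem_nhds hz)
    filter_upwards [hev] with t ht
    have h1 := hmax _ (Metric.ball_subset_closedBall ht)
    rw [norm_line] at h1
    simpa using h1
  obtain ⟨h1, h2⟩ := max_necessary hd hc hloc
  rw [zero_smul, add_zero] at h1
  constructor
  · linarith
  · linarith

/-- measure of the contact set of a smooth function with nonnegative Laplacian -/
lemma contact_measure [MeasurableSpace E] [BorelSpace E] {v : E → ℝ} (hv : ContDiff ℝ 2 v)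
    (z0 : E) {R ρ lam : ℝ} (hlam : 0 < lam)
    (hint : ∀ y ∈ Metric.closedBall z0 ρ, ∀ z ∈ Metric.closedBall z0 R,
      (∀ w ∈ Metric.closedBall z0 R, v w - lam * ‖w - y‖ ^ 2 ≤ v z - lam * ‖z - y‖ ^ 2) →
      z ∈ Metric.ball z0 R)
    (hR : 0 ≤ R)
    (htr : ∀ z ∈ Metric.ball z0 R, 0 ≤ LinearMap.trace ℝ E (hess v z)) :
    volume (Metric.closedBall z0 ρ) ≤ volume (Contact v z0 R ρ lam) := by
  set F : E → E := fun z => z - (2 * lam)⁻¹ • grad v z with hF
  have hsub : Metric.closedBall z0 ρ ⊆ F '' (Contact v z0 R ρ lam) := by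
    intro y hy
    have hcont : ContinuousOn (fun w => v w - lam * ‖w - y‖ ^ 2) (Metric.closedBall z0 R) := by
      have := hv.continuous
      fun_prop
    obtain ⟨z, hz, hzmax⟩ := (isCompact_closedBall z0 R).exists_isMaxOn
      ⟨z0, Metric.mem_closedBall_self hR⟩ hcont
    have hmax : ∀ w ∈ Metric.closedBall z0 R,
        v w - lam * ‖w - y‖ ^ 2 ≤ v z - lam * ‖z - y‖ ^ 2 := fun w hw => hzmax hw
    refine ⟨z, ⟨hz, y, hy, hmax⟩, ?_⟩
    have hzb := hint y hy z hz hmax
    have h1 : grad v z = (2 * lam) • (z - y) := by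
      refine ext_inner_right ℝ fun x => ?_
      rw [inner_grad, (contact_necessary hv hzb hmax x).1, inner_smul_left]
      simp
    simp only [hF]
    rw [h1, smul_smul, inv_mul_cancel₀ (by positivity), one_smul]
    abel
  have hder : ∀ z ∈ Contact v z0 R ρ lam, HasFDerivWithinAt F
      (ContinuousLinearMap.id ℝ E - (2 * lam)⁻¹ • hess v z) (Contact v z0 R ρ lam) z := by
    intro z _
    exact ((hasFDerivAt_id z).sub ((hasFDerivAt_grad hv z).const_smul _)).hasFDerivWithinAt
  have hmeas : MeasurableSet (Contact v z0 R ρ lam) :=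
    (contact_compact hv.continuous z0 R ρ lam).measurableSet
  refine (measure_mono hsub).trans ?_
  refine (addHaar_image_le_lintegral_abs_det_fderiv volume hmeas hder).trans ?_
  have hle : ∀ z ∈ Contact v z0 R ρ lam, ENNReal.ofReal
      |(ContinuousLinearMap.id ℝ E - (2 * lam)⁻¹ • hess v z).det| ≤ 1 := by
    rintro z ⟨hz, y, hy, hmax⟩
    have hzb := hint y hy z hz hmax
    have hnec := fun x => (contact_necessary hv hzb hmax x).2
    rw [← ENNReal.ofReal_one]
    apply ENNReal.ofReal_le_ofReal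
    have hsymm : ∀ x y : E, fderiv ℝ (fderiv ℝ v) z x y = fderiv ℝ (fderiv ℝ v) z y x := by
      intro x y
      exact (hv.contDiffAt.isSymmSndFDerivAt (by simp)).eq x y
    have hin : ∀ x y : E, inner ℝ ((ContinuousLinearMap.id ℝ E - (2 * lam)⁻¹ • hess v z) x) y =
        inner ℝ x y - (2 * lam)⁻¹ * fderiv ℝ (fderiv ℝ v) z x y := by
      intro x y
      simp only [ContinuousLinearMap.sub_apply, ContinuousLinearMap.id_apply,
        ContinuousLinearMap.smul_apply]
      rw [inner_sub_left, inner_smul_left, inner_hess]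
      simp
    have hpos : ((ContinuousLinearMap.id ℝ E - (2 * lam)⁻¹ • hess v z : E →L[ℝ] E) :
        E →ₗ[ℝ] E).IsPositive := by
      refine ⟨?_, ?_⟩
      · intro x y
        simp only [ContinuousLinearMap.coe_coe]
        have e2 := hin y x
        rw [real_inner_comm] at e2
        rw [hin, e2, real_inner_comm x y, hsymm x y]
      · intro x
        simp only [ContinuousLinearMap.coe_coe]
        rw [hin]
        simp only [RCLike.re_to_real]
        rw [real_inner_self_eq_norm_sq]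
        have h1 := hnec x
        have h2 : (2 * lam)⁻¹ * fderiv ℝ (fderiv ℝ v) z x x ≤ (2 * lam)⁻¹ * (2 * lam * ‖x‖ ^ 2) := by
          gcongr
        rw [inv_mul_cancel_left₀ (by positivity)] at h2
        linarith
    refine abs_det_le_one hpos ?_
    have e1 : LinearMap.trace ℝ E ((ContinuousLinearMap.id ℝ E - (2 * lam)⁻¹ • hess v z :
        E →L[ℝ] E) : E →ₗ[ℝ] E) = Module.finrank ℝ E - (2 * lam)⁻¹ * LinearMap.trace ℝ E (hess v z) := by
      rw [ContinuousLinearMap.toLinearMap_sub, ContinuousLinearMap.toLinearMap_smul, map_sub, map_smul]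
      simp
    rw [e1]
    have := htr z hzb
    have : 0 ≤ (2 * lam)⁻¹ * LinearMap.trace ℝ E (hess v z) := by positivity
    linarith
  calc ∫⁻ z in Contact v z0 R ρ lam, ENNReal.ofReal
        |(ContinuousLinearMap.id ℝ E - (2 * lam)⁻¹ • hess v z).det| ≤
        ∫⁻ z in Contact v z0 R ρ lam, 1 := by
        refine setLIntegral_mono' hmeas hle
    _ = volume (Contact v z0 R ρ lam) := by simp

end Contact

end Pool.Agent.V1282.PT
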