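import Pool.Agent.V1282.PT1

open Set Filter Topology MeasureTheory

set_option autoImplicit false
set_option linter.all false

namespace Pool.Agent.V1282.PT

variable {E : Type*} [NormedAddCommGroup E] [InnerProductSpace ℝ E] [FiniteDimensional ℝ E]

/-- contact points of an extended valued function -/
def EContact (u : E → EReal) (z0 : E) (R ρ lam : ℝ) : Set E :=
  {z | z ∈ Metric.closedBall z0 R ∧ ∃ y ∈ Metric.closedBall z0 ρ, ∀ w ∈ Metric.closedBall z0 R,
    u w - ((lam * ‖w - y‖ ^ 2 : ℝ) : EReal) ≤ u z - ((lam * ‖z - y‖ ^ 2 : ℝ) : EReal)}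

lemma unif_points {u : E → EReal} {z0 : E} {R ρ : ℝ} (hρ : ρ < R)
    (hdense : ∀ z ∈ Metric.closedBall z0 R, ∀ ε > 0, ∃ w ∈ Metric.closedBall z0 R,
      ‖w - z‖ < ε ∧ u w ≠ ⊥) :
    ∃ C : ℝ, ∀ y ∈ Metric.closedBall z0 ρ, ∃ w ∈ Metric.closedBall z0 R,
      ‖w - y‖ ≤ (R - ρ) / 2 ∧ ((-C : ℝ) : EReal) ≤ u w := by
  refine IsCompact.induction_on (p := fun s => ∃ C : ℝ, ∀ y ∈ s, ∃ w ∈ Metric.closedBall z0 R,
      ‖w - y‖ ≤ (R - ρ) / 2 ∧ ((-C : ℝ) : EReal) ≤ u w) (isCompact_closedBall z0 ρ) ?_ ?_ ?_ ?_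
  · exact ⟨0, by simp⟩
  · rintro s t hst ⟨C, hC⟩
    exact ⟨C, fun y hy => hC y (hst hy)⟩
  · rintro s t ⟨C1, h1⟩ ⟨C2, h2⟩
    refine ⟨max C1 C2, fun y hy => ?_⟩
    rcases hy with hy | hy
    · obtain ⟨w, hw, hw1, hw2⟩ := h1 y hy
      refine ⟨w, hw, hw1, le_trans ?_ hw2⟩
      rw [EReal.coe_le_coe_iff]
      have := le_max_left C1 C2
      linarith
    · obtain ⟨w, hw, hw1, hw2⟩ := h2 y hy
      refine ⟨w, hw, hw1, le_trans ?_ hw2⟩
      rw [EReal.coe_le_coe_iff]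
      have := le_max_right C1 C2
      linarith
  · intro x hx
    have hδ : 0 < (R - ρ) / 4 := by linarith
    obtain ⟨w, hw, hwx, hwne⟩ := hdense x (Metric.closedBall_subset_closedBall hρ.le hx) _ hδ
    obtain ⟨C, hC⟩ : ∃ C : ℝ, ((-C : ℝ) : EReal) ≤ u w := by
      have : (⊥ : EReal) < u w := bot_lt_iff_ne_bot.mpr hwne
      obtain ⟨c, hc⟩ := EReal.lt_iff_exists_real_btwn.mp this
      exact ⟨-c, by rw [neg_neg]; exact hc.2.le⟩
    refine ⟨Metric.ball x ((R - ρ) / 4), mem_nhdsWithin_of_mem_nhds (Metric.ball_mem_nhds x hδ), C,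
      fun y hy => ⟨w, hw, ?_, hC⟩⟩
    have h1 : ‖x - y‖ < (R - ρ) / 4 := by
      rw [← dist_eq_norm, dist_comm]; exact hy
    calc ‖w - y‖ = ‖(w - x) + (x - y)‖ := by congr 1; abel
      _ ≤ ‖w - x‖ + ‖x - y‖ := norm_add_le _ _
      _ ≤ (R - ρ) / 2 := by linarith

/-- points in infinitely many contact sets are contact points of the limit -/
lemma limsup_contact {u : E → EReal} {z0 : E} {R ρ lam : ℝ} {v : ℕ → E → ℝ}
    (hge : ∀ k, ∀ z ∈ Metric.closedBall z0 R, u z ≤ (v k z : EReal))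
    (hlim : ∀ z ∈ Metric.closedBall z0 R, ∀ c : ℝ, u z < c → ∀ᶠ k in atTop, v k z ≤ c)
    {z : E} (hz : ∃ᶠ k in atTop, z ∈ Contact (v k) z0 R ρ lam) :
    z ∈ EContact u z0 R ρ lam := by
  obtain ⟨φ, hφ, hφz⟩ := extraction_of_frequently_atTop hz
  have hzR : z ∈ Metric.closedBall z0 R := (hφz 0).1
  choose y hy hmax using fun j => (hφz j).2
  obtain ⟨y0, hy0, ψ, hψ, hlimy⟩ := (isCompact_closedBall z0 ρ).tendsto_subseq hy
  refine ⟨hzR, y0, hy0, fun w hw => ?_⟩
  by_contra hcon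
  push Not at hcon
  obtain ⟨c1, hc1, hc1'⟩ := EReal.lt_iff_exists_real_btwn.mp hcon
  obtain ⟨c2, hc2, hc2'⟩ := EReal.lt_iff_exists_real_btwn.mp hc1'
  have hc12 : c1 < c2 := by exact_mod_cast hc2
  -- bounds
  have e1 : u z < ((c1 + lam * ‖z - y0‖ ^ 2 : ℝ) : EReal) := by
    rw [EReal.coe_add]
    rwa [EReal.sub_lt_iff (Or.inl (EReal.coe_ne_bot _)) (Or.inl (EReal.coe_ne_top _))] at hc1
  have e2 : ((c2 + lam * ‖w - y0‖ ^ 2 : ℝ) : EReal) ≤ u w := by
    rw [EReal.coe_add]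
    have := hc2'.le
    rwa [EReal.le_sub_iff_add_le (Or.inl (EReal.coe_ne_bot _)) (Or.inl (EReal.coe_ne_top _))] at this
  have htend : Tendsto (fun j => φ (ψ j)) atTop atTop := hφ.tendsto_atTop.comp hψ.tendsto_atTop
  have e3 : ∀ᶠ j in atTop, v (φ (ψ j)) z ≤ c1 + lam * ‖z - y0‖ ^ 2 :=
    htend.eventually (hlim z hzR _ e1)
  have e4 : ∀ᶠ j in atTop, c2 + lam * ‖w - y0‖ ^ 2 - lam * ‖w - y (ψ j)‖ ^ 2 ≤
      c1 + lam * ‖z - y0‖ ^ 2 - lam * ‖z - y (ψ j)‖ ^ 2 := by
    filter_upwards [e3] with j hj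
    have h1 := hmax (ψ j) w hw
    have h2 : c2 + lam * ‖w - y0‖ ^ 2 ≤ v (φ (ψ j)) w := by
      have := e2.trans (hge (φ (ψ j)) w hw)
      exact_mod_cast this
    linarith
  have t1 : Tendsto (fun j => c2 + lam * ‖w - y0‖ ^ 2 - lam * ‖w - y (ψ j)‖ ^ 2) atTop
      (𝓝 (c2 + lam * ‖w - y0‖ ^ 2 - lam * ‖w - y0‖ ^ 2)) := by
    refine tendsto_const_nhds.sub (Tendsto.const_mul lam ?_)
    exact ((tendsto_const_nhds.sub hlimy).norm).pow 2
  have t2 : Tendsto (fun j => c1 + lam * ‖z - y0‖ ^ 2 - lam * ‖z - y (ψ j)‖ ^ 2) atTop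
      (𝓝 (c1 + lam * ‖z - y0‖ ^ 2 - lam * ‖z - y0‖ ^ 2)) := by
    refine tendsto_const_nhds.sub (Tendsto.const_mul lam ?_)
    exact ((tendsto_const_nhds.sub hlimy).norm).pow 2
  have := le_of_tendsto_of_tendsto t1 t2 e4
  linarith

/-- almost every point is a contact point -/
lemma ae_contact [MeasurableSpace E] [BorelSpace E] {u : E → EReal} {z0 : E} {R : ℝ} (hR : 0 < R)
    {v : ℕ → E → ℝ} (hv : ∀ k, ContDiff ℝ 2 (v k))
    (hge : ∀ k, ∀ z ∈ Metric.closedBall z0 R, u z ≤ (v k z : EReal))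
    (hlim : ∀ z ∈ Metric.closedBall z0 R, ∀ c : ℝ, u z < c → ∀ᶠ k in atTop, v k z ≤ c)
    (htr : ∀ k, ∀ z ∈ Metric.ball z0 R, 0 ≤ LinearMap.trace ℝ E (hess (v k) z))
    {M : ℝ} (hM : ∀ k, ∀ z ∈ Metric.closedBall z0 R, v k z ≤ M)
    (hdense : ∀ z ∈ Metric.closedBall z0 R, ∀ ε > 0, ∃ w ∈ Metric.closedBall z0 R,
      ‖w - z‖ < ε ∧ u w ≠ ⊥) :
    volume {z | z ∈ Metric.ball z0 R ∧ ¬ ∃ (lam : ℝ) (y : E), ∀ w ∈ Metric.ball z0 R,
      u w - ((lam * ‖w - y‖ ^ 2 : ℝ) : EReal) ≤ u z - ((lam * ‖z - y‖ ^ 2 : ℝ) : EReal)} = 0 := by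
  -- the key estimate for each ρ < R
  have key : ∀ ρ : ℝ, ρ < R → ∃ L : Set E, MeasurableSet L ∧ L ⊆ Metric.closedBall z0 R ∧
      volume (Metric.closedBall z0 ρ) ≤ volume L ∧ ∃ lam, L ⊆ EContact u z0 R ρ lam := by
    intro ρ hρ
    obtain ⟨C, hC⟩ := unif_points (u := u) hρ hdense
    set δ := R - ρ with hδ
    have hδ0 : 0 < δ := by linarith
    set lam : ℝ := (|M| + |C| + 1) * 4 / (3 * δ ^ 2) with hlam
    have hlam0 : 0 < lam := by positivity
    have hlam1 : M + C < lam * (3 / 4 * δ ^ 2) := by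
      have : lam * (3 / 4 * δ ^ 2) = |M| + |C| + 1 := by
        rw [hlam]; field_simp
      rw [this]
      linarith [le_abs_self M, le_abs_self C]
    have hint : ∀ k, ∀ y ∈ Metric.closedBall z0 ρ, ∀ z ∈ Metric.closedBall z0 R,
        (∀ w ∈ Metric.closedBall z0 R,
          v k w - lam * ‖w - y‖ ^ 2 ≤ v k z - lam * ‖z - y‖ ^ 2) → z ∈ Metric.ball z0 R := by
      intro k y hy z hz hmax
      by_contra hcon
      have h1 : R ≤ dist z z0 := by simpa using hcon
      have h2 : δ ≤ ‖z - y‖ := by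
        have := dist_triangle z y z0
        have hy' : dist y z0 ≤ ρ := hy
        rw [dist_eq_norm z y] at this
        linarith
      obtain ⟨w, hw, hwy, hwC⟩ := hC y hy
      have h3 : -C ≤ v k w := by exact_mod_cast hwC.trans (hge k w hw)
      have h4 := hmax w hw
      have h5 := hM k z hz
      have h6 : lam * ‖w - y‖ ^ 2 ≤ lam * (δ / 2) ^ 2 := by gcongr
      have h7 : lam * δ ^ 2 ≤ lam * ‖z - y‖ ^ 2 := by gcongr
      have h8 : lam * (δ / 2) ^ 2 = lam * δ ^ 2 / 4 := by ring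
      have h9 : lam * (3 / 4 * δ ^ 2) = lam * δ ^ 2 * (3 / 4) := by ring
      rw [h9] at hlam1
      linarith
    have hmeasC : ∀ k, MeasurableSet (Contact (v k) z0 R ρ lam) := fun k =>
      (contact_compact (hv k).continuous z0 R ρ lam).measurableSet
    set S : ℕ → Set E := fun n => ⋃ k ≥ n, Contact (v k) z0 R ρ lam with hS
    have hSmeas : ∀ n, MeasurableSet (S n) := fun n =>
      MeasurableSet.biUnion (Set.to_countable _) fun k _ => hmeasC k
    have hSanti : Antitone S := by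
      intro a b hab
      exact biUnion_subset_biUnion_left fun k (hk : b ≤ k) => hab.trans hk
    have hSsub : ∀ n, S n ⊆ Metric.closedBall z0 R := by
      intro n z hz
      simp only [hS, mem_iUnion] at hz
      obtain ⟨k, _, hk⟩ := hz
      exact hk.1
    refine ⟨⋂ n, S n, MeasurableSet.iInter hSmeas, (iInter_subset S 0).trans (hSsub 0), ?_, lam, ?_⟩
    · have ht := tendsto_measure_iInter_atTop (μ := (volume : Measure E)) (s := S)
        (fun i => (hSmeas i).nullMeasurableSet) hSanti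
        ⟨0, ((measure_mono (hSsub 0)).trans_lt measure_closedBall_lt_top).ne⟩
      refine ge_of_tendsto' ht fun n => ?_
      refine (contact_measure (hv n) z0 hlam0 (hint n) hR.le (htr n)).trans ?_
      refine measure_mono ?_
      intro z hz
      simp only [hS, mem_iUnion]
      exact ⟨n, le_rfl, hz⟩
    · intro z hz
      refine limsup_contact hge hlim ?_
      rw [frequently_atTop]
      intro a
      have := mem_iInter.mp hz a
      simp only [hS, mem_iUnion] at this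
      obtain ⟨k, hk, hk'⟩ := this
      exact ⟨k, hk, hk'⟩
  have hρlt : ∀ j : ℕ, R - R / (j + 1) < R := by
    intro j
    have : 0 < R / ((j:ℝ) + 1) := by positivity
    linarith
  choose L hL1 hL2 hL3 lam hL4 using fun j : ℕ => key (R - R / (j + 1)) (hρlt j)
  set G : Set E := ⋃ j, L j with hG
  have hGmeas : MeasurableSet G := MeasurableSet.iUnion hL1
  have hGsub : G ⊆ Metric.closedBall z0 R := iUnion_subset hL2
  have hball : Metric.ball z0 R = ⋃ j : ℕ, Metric.closedBall z0 (R - R / (j + 1)) := by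
    ext z
    simp only [mem_iUnion, Metric.mem_ball, Metric.mem_closedBall]
    constructor
    · intro hz
      obtain ⟨j, hj⟩ := exists_nat_gt (R / (R - dist z z0))
      refine ⟨j, ?_⟩
      have h1 : 0 < R - dist z z0 := by linarith
      rw [div_lt_iff₀ h1] at hj
      have h2 : R / ((j:ℝ) + 1) ≤ R - dist z z0 := by
        rw [div_le_iff₀ (by positivity)]
        nlinarith
      linarith
    · rintro ⟨j, hj⟩
      exact hj.trans_lt (hρlt j)
  have hmono : Monotone fun j : ℕ => Metric.closedBall z0 (R - R / ((j:ℝ) + 1)) := by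
    intro a b hab
    apply Metric.closedBall_subset_closedBall
    have : R / ((b:ℝ) + 1) ≤ R / ((a:ℝ) + 1) := by
      have : (a:ℝ) ≤ b := by exact_mod_cast hab
      gcongr
    linarith
  have hvol : volume (Metric.closedBall z0 R) ≤ volume G := by
    have e1 : volume (Metric.closedBall z0 R) ≤ volume (Metric.ball z0 R) := by
      rw [← Metric.ball_union_sphere]
      refine (measure_union_le _ _).trans ?_
      rw [Measure.addHaar_sphere_of_ne_zero _ _ hR.ne', add_zero]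
    refine e1.trans ?_
    rw [hball, hmono.measure_iUnion]
    exact iSup_le fun j => (hL3 j).trans (measure_mono (subset_iUnion L j))
  have hnull : volume (Metric.closedBall z0 R \ G) = 0 := by
    rw [measure_diff hGsub hGmeas.nullMeasurableSet
      ((measure_mono hGsub).trans_lt measure_closedBall_lt_top).ne]
    exact tsub_eq_zero_of_le hvol
  refine measure_mono_null ?_ hnull
  rintro z ⟨hz1, hz2⟩
  refine ⟨Metric.ball_subset_closedBall hz1, fun hzG => hz2 ?_⟩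
  obtain ⟨j, hj⟩ := mem_iUnion.mp hzG
  obtain ⟨_, y, _, hy⟩ := hL4 j hj
  exact ⟨lam j, y, fun w hw => hy w (Metric.ball_subset_closedBall hw)⟩

end Pool.Agent.V1282.PT
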