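import Mathlib

open Set Filter Topology MeasureTheory

set_option autoImplicit false

/-!
# Plurisubharmonic functions on open subsets of `ℂⁿ`, differential tests from above
-/

namespace Pool.Agent.V1282.PT

/-- `ℂⁿ` with its Hermitian norm and Lebesgue measure -/
abbrev Cn (n : ℕ) : Type := EuclideanSpace ℂ (Fin n)

variable {n : ℕ}

/-- `u` is plurisubharmonic on the open set `Ω`: it takes values in `[-∞, ∞)`, is upper
semicontinuous, and on every closed disc `{z + ζ v : |ζ| ≤ 1} ⊆ Ω` the value `u z` at the centre is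
at most the mean of `max u m` over the boundary circle, for every real `m` (as `m → -∞` these means
decrease to the mean of `u`, so this is the sub-mean value inequality). -/
structure IsPSH (Ω : Set (Cn n)) (u : Cn n → EReal) : Prop where
  lt_top : ∀ z ∈ Ω, u z < ⊤
  usc : UpperSemicontinuousOn u Ω
  submean : ∀ z v : Cn n, (∀ ζ : ℂ, ‖ζ‖ ≤ 1 → z + ζ • v ∈ Ω) → ∀ m : ℝ,
    u z ≤ ((Real.circleAverage (fun ζ => (max (u (z + ζ • v)) (m : EReal)).toReal) 0 1 : ℝ) : EReal)

/-- `φ` admits a differential test from above at `z`: a function `q` of class `C²` on an open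
neighbourhood `V ⊆ Ω` of `z` such that `φ - q` attains at `z` its supremum over `V`. -/
def HasTestAbove (Ω : Set (Cn n)) (φ : Cn n → EReal) (z : Cn n) : Prop :=
  ∃ V : Set (Cn n), IsOpen V ∧ z ∈ V ∧ V ⊆ Ω ∧ ∃ q : Cn n → ℝ,
    ContDiffOn ℝ 2 q V ∧ ∀ w ∈ V, φ w - (q w : EReal) ≤ φ z - (q z : EReal)

/-- The set `E(φ)` of the points of `Ω` at which `φ` admits no differential test from above. -/
def ExSet (Ω : Set (Cn n)) (φ : Cn n → EReal) : Set (Cn n) :=
  {z | z ∈ Ω ∧ ¬ HasTestAbove Ω φ z}

end Pool.Agent.V1282.PT
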