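import Pool.Agent.V1282.PT1
import Pool.Agent.V1282.PTDef

open Set Filter Topology MeasureTheory

set_option autoImplicit false
set_option linter.all false

namespace Pool.Agent.V1282.PT

section Taylor

variable {E : Type*} [NormedAddCommGroup E] [InnerProductSpace ℝ E] [FiniteDimensional ℝ E]

lemma hess_cont {g : E → ℝ} (hg : ContDiff ℝ 2 g) : Continuous (hess g) := by
  have h1 : ContDiff ℝ 1 (grad g) := by
    unfold grad
    exact ContDiff.sum fun i _ => ((fderiv_contDiff hg).clm_apply contDiff_const).smul contDiff_const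
  have h2 : fderiv ℝ (grad g) = hess g := funext fun z => (hasFDerivAt_grad hg z).fderiv
  rw [← h2]
  exact h1.continuous_fderiv (by norm_num)

/-- second order Taylor upper bound -/
lemma taylor_upper {g : E → ℝ} (hg : ContDiff ℝ 2 g) (z : E) {ε : ℝ} (hε : 0 < ε) :
    ∃ δ > 0, ∀ x : E, ‖x‖ < δ →
      g (z + x) ≤ g z + fderiv ℝ g z x + (fderiv ℝ (fderiv ℝ g) z x x + ε * ‖x‖ ^ 2) / 2 := by
  obtain ⟨δ, hδ, hδ'⟩ := Metric.continuous_iff.mp (hess_cont hg) z ε hε
  refine ⟨δ, hδ, fun x hx => ?_⟩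
  set c : ℝ := fderiv ℝ (fderiv ℝ g) z x x + ε * ‖x‖ ^ 2 with hc
  set p : ℝ → ℝ := fun t => g (z + t • x) - t * fderiv ℝ g z x - t ^ 2 / 2 * c with hp
  set p1 : ℝ → ℝ := fun t => fderiv ℝ g (z + t • x) x - fderiv ℝ g z x - t * c with hp1
  have d1 : ∀ t, HasDerivAt p (p1 t) t := by
    intro t
    have a1 := line_deriv hg z x t
    have a2 := (hasDerivAt_id t).mul_const (fderiv ℝ g z x)
    have a3 := ((hasDerivAt_pow 2 t).div_const 2).mul_const c
    refine ((a1.sub a2).sub a3).congr_deriv ?_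
    simp only [hp1]
    norm_num
  have d2 : ∀ t, HasDerivAt p1 (fderiv ℝ (fderiv ℝ g) (z + t • x) x x - c) t := by
    intro t
    have a1 := line_deriv2 hg z x t
    have a2 := (hasDerivAt_id t).mul_const c
    refine ((a1.sub_const (fderiv ℝ g z x)).sub a2).congr_deriv ?_
    ring
  have hneg2 : ∀ t ∈ Icc (0:ℝ) 1, fderiv ℝ (fderiv ℝ g) (z + t • x) x x - c ≤ 0 := by
    intro t ht
    have h1 : dist (z + t • x) z < δ := by
      rw [dist_eq_norm, add_sub_cancel_left, norm_smul, Real.norm_eq_abs, abs_of_nonneg ht.1]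
      nlinarith [ht.2, norm_nonneg x]
    have h2 := (hδ' _ h1).le
    rw [dist_eq_norm] at h2
    have h3 : fderiv ℝ (fderiv ℝ g) (z + t • x) x x - fderiv ℝ (fderiv ℝ g) z x x ≤
        ε * ‖x‖ ^ 2 := by
      rw [← inner_hess, ← inner_hess, ← inner_sub_left, ← ContinuousLinearMap.sub_apply]
      calc inner ℝ ((hess g (z + t • x) - hess g z) x) x ≤
          ‖(hess g (z + t • x) - hess g z) x‖ * ‖x‖ := real_inner_le_norm _ _
        _ ≤ ‖hess g (z + t • x) - hess g z‖ * ‖x‖ * ‖x‖ := by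
            gcongr
            exact ContinuousLinearMap.le_opNorm _ _
        _ ≤ ε * ‖x‖ * ‖x‖ := by gcongr
        _ = ε * ‖x‖ ^ 2 := by ring
    linarith
  have anti1 : AntitoneOn p1 (Icc 0 1) := by
    refine antitoneOn_of_deriv_nonpos (convex_Icc 0 1)
      (fun t _ => (d2 t).continuousAt.continuousWithinAt)
      (fun t _ => (d2 t).differentiableAt.differentiableWithinAt) fun t ht => ?_
    rw [interior_Icc] at ht
    rw [(d2 t).deriv]
    exact hneg2 t (Ioo_subset_Icc_self ht)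
  have hp10 : p1 0 = 0 := by simp [hp1]
  have hp1neg : ∀ t ∈ Icc (0:ℝ) 1, p1 t ≤ 0 := by
    intro t ht
    have := anti1 (left_mem_Icc.mpr zero_le_one) ht ht.1
    rwa [hp10] at this
  have anti0 : AntitoneOn p (Icc 0 1) := by
    refine antitoneOn_of_deriv_nonpos (convex_Icc 0 1)
      (fun t _ => (d1 t).continuousAt.continuousWithinAt)
      (fun t _ => (d1 t).differentiableAt.differentiableWithinAt) fun t ht => ?_
    rw [interior_Icc] at ht
    rw [(d1 t).deriv]
    exact hp1neg t (Ioo_subset_Icc_self ht)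
  have h1 := anti0 (left_mem_Icc.mpr zero_le_one) (right_mem_Icc.mpr zero_le_one) zero_le_one
  simp only [hp] at h1
  norm_num at h1
  linarith

end Taylor

variable {n : ℕ}

lemma circle_smul (θ : ℝ) (w : Cn n) :
    circleMap 0 1 θ • w = Real.cos θ • w + Real.sin θ • (Complex.I • w) := by
  have : circleMap 0 1 θ = (Real.cos θ : ℂ) + (Real.sin θ : ℂ) * Complex.I := by
    simp [circleMap, Complex.exp_mul_I]
  rw [this, add_smul, mul_smul, Complex.coe_smul, Complex.coe_smul]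

/-- mean of a quadratic polynomial over the circle -/
lemma circle_quad (a b c A B C : ℝ) :
    ∫ θ in (0:ℝ)..(2 * Real.pi), (c + (a * Real.cos θ + b * Real.sin θ) +
      (A * Real.cos θ ^ 2 + B * (Real.sin θ * Real.cos θ) + C * Real.sin θ ^ 2)) =
      2 * Real.pi * (c + (A + C) / 2) := by
  have i1 : ∀ f : ℝ → ℝ, Continuous f → IntervalIntegrable f volume 0 (2 * Real.pi) :=
    fun f hf => hf.intervalIntegrable _ _
  rw [intervalIntegral.integral_add (i1 _ (by fun_prop)) (i1 _ (by fun_prop)),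
    intervalIntegral.integral_add (i1 _ (by fun_prop)) (i1 _ (by fun_prop)),
    intervalIntegral.integral_add (i1 _ (by fun_prop)) (i1 _ (by fun_prop)),
    intervalIntegral.integral_add (i1 _ (by fun_prop)) (i1 _ (by fun_prop)),
    intervalIntegral.integral_add (i1 _ (by fun_prop)) (i1 _ (by fun_prop))]
  simp only [intervalIntegral.integral_const_mul, intervalIntegral.integral_const, integral_cos,
    integral_sin, integral_cos_sq, integral_sin_sq, integral_sin_mul_cos₁]
  simp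
  ring

/-- a `C²` function satisfying the sub-mean value inequality on small circles in the complex
direction `w` has nonnegative Levi form in this direction -/
lemma levi_nonneg {g : Cn n → ℝ} (hg : ContDiff ℝ 2 g) (z w : Cn n)
    (hsub : ∀ᶠ r in 𝓝[>] (0:ℝ), g z ≤ Real.circleAverage (fun ζ => g (z + ζ • (r • w))) 0 1) :
    0 ≤ fderiv ℝ (fderiv ℝ g) z w w + fderiv ℝ (fderiv ℝ g) z (Complex.I • w) (Complex.I • w) := by
  by_contra hcon
  push Not at hcon
  set A := fderiv ℝ (fderiv ℝ g) z w w with hA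
  set C := fderiv ℝ (fderiv ℝ g) z (Complex.I • w) (Complex.I • w) with hC
  set B := fderiv ℝ (fderiv ℝ g) z w (Complex.I • w) with hB
  set a := fderiv ℝ g z w with ha
  set b := fderiv ℝ g z (Complex.I • w) with hb
  have hsymm : fderiv ℝ (fderiv ℝ g) z (Complex.I • w) w = B :=
    (hg.contDiffAt.isSymmSndFDerivAt (by simp)).eq _ _
  -- choose ε
  obtain ⟨ε, hε, hεlt⟩ : ∃ ε > 0, (A + C) / 2 + ε * ‖w‖ ^ 2 < 0 := by
    refine ⟨-(A + C) / (4 * (‖w‖ ^ 2 + 1)), ?_, ?_⟩
    · apply div_pos (by linarith) (by positivity)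
    · have h1 : -(A + C) / (4 * (‖w‖ ^ 2 + 1)) * ‖w‖ ^ 2 ≤ -(A + C) / 4 := by
        rw [div_mul_eq_mul_div, div_le_div_iff₀ (by positivity) (by norm_num)]
        nlinarith [sq_nonneg ‖w‖]
      linarith
  obtain ⟨δ, hδ, hδ'⟩ := taylor_upper hg z hε
  have hsmall : ∀ᶠ r in 𝓝[>] (0:ℝ), r * ‖w‖ < δ := by
    have : Tendsto (fun r : ℝ => r * ‖w‖) (𝓝[>] 0) (𝓝 0) := by
      have h : Tendsto (fun r : ℝ => r * ‖w‖) (𝓝 0) (𝓝 (0 * ‖w‖)) := tendsto_id.mul_const _
      rw [zero_mul] at h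
      exact h.mono_left nhdsWithin_le_nhds
    exact this.eventually (gt_mem_nhds hδ)
  obtain ⟨r, ⟨hr1, hr2⟩, hr0⟩ := ((hsub.and hsmall).and self_mem_nhdsWithin).exists
  have hr0' : 0 < r := hr0
  have hupper : ∀ θ : ℝ, g (z + circleMap 0 1 θ • (r • w)) ≤
      ((g z + r ^ 2 / 2 * (ε * ‖w‖ ^ 2)) + ((r * a) * Real.cos θ + (r * b) * Real.sin θ)) +
      ((r ^ 2 / 2 * A) * Real.cos θ ^ 2 + (r ^ 2 * B) * (Real.sin θ * Real.cos θ) +
        (r ^ 2 / 2 * C) * Real.sin θ ^ 2) := by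
    intro θ
    have hn : ‖circleMap 0 1 θ • (r • w)‖ = r * ‖w‖ := by
      rw [norm_smul, norm_smul, norm_circleMap_zero, abs_one, one_mul, Real.norm_eq_abs,
        abs_of_pos hr0']
    have h1 := hδ' (circleMap 0 1 θ • (r • w)) (by rw [hn]; exact hr2)
    refine h1.trans (le_of_eq ?_)
    rw [hn]
    have e1 : circleMap 0 1 θ • (r • w) = (r * Real.cos θ) • w +
        (r * Real.sin θ) • (Complex.I • w) := by
      rw [circle_smul, smul_comm Complex.I r w, smul_smul, smul_smul, mul_comm r, mul_comm r]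
    rw [e1]
    simp only [map_add, map_smul, ContinuousLinearMap.add_apply, ContinuousLinearMap.smul_apply,
      smul_eq_mul]
    rw [hsymm, ← hA, ← hB, ← hC, ← ha, ← hb]
    ring
  have hle : Real.circleAverage (fun ζ => g (z + ζ • (r • w))) 0 1 ≤
      (2 * Real.pi)⁻¹ * (2 * Real.pi * ((g z + r ^ 2 / 2 * (ε * ‖w‖ ^ 2)) +
        (r ^ 2 / 2 * A + r ^ 2 / 2 * C) / 2)) := by
    rw [Real.circleAverage_def, smul_eq_mul, ← circle_quad (r * a) (r * b)
      (g z + r ^ 2 / 2 * (ε * ‖w‖ ^ 2)) (r ^ 2 / 2 * A) (r ^ 2 * B) (r ^ 2 / 2 * C)]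
    have hgc := hg.continuous
    have hcm : Continuous (fun θ : ℝ => circleMap 0 1 θ) := continuous_circleMap 0 1
    gcongr
    refine intervalIntegral.integral_mono (by positivity)
      (Continuous.intervalIntegrable (by fun_prop) _ _)
      (Continuous.intervalIntegrable (by fun_prop) _ _) hupper
  rw [inv_mul_cancel_left₀ (by positivity)] at hle
  have h3 := hr1.trans hle
  have h4 : 0 < r ^ 2 := by positivity
  nlinarith

/-- multiplication by `i` as a real linear isometry -/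
noncomputable def Jmap (n : ℕ) : Cn n ≃ₗᵢ[ℝ] Cn n where
  toLinearEquiv := (LinearEquiv.smulOfNeZero ℂ (Cn n) Complex.I Complex.I_ne_zero).restrictScalars ℝ
  norm_map' := by
    intro x
    change ‖Complex.I • x‖ = ‖x‖
    rw [norm_smul, Complex.norm_I, one_mul]

/-- a `C²` function satisfying the sub-mean value inequality on small circles has a Hessian of
nonnegative trace -/
lemma trace_nonneg {g : Cn n → ℝ} (hg : ContDiff ℝ 2 g) (z : Cn n)
    (hsub : ∀ w : Cn n, ∀ᶠ r in 𝓝[>] (0:ℝ),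
      g z ≤ Real.circleAverage (fun ζ => g (z + ζ • (r • w))) 0 1) :
    0 ≤ LinearMap.trace ℝ (Cn n) (hess g z) := by
  have h1 := LinearMap.trace_eq_sum_inner ((hess g z : Cn n →L[ℝ] Cn n) : Cn n →ₗ[ℝ] Cn n)
    (stdOrthonormalBasis ℝ (Cn n))
  have h2 := LinearMap.trace_eq_sum_inner ((hess g z : Cn n →L[ℝ] Cn n) : Cn n →ₗ[ℝ] Cn n)
    ((stdOrthonormalBasis ℝ (Cn n)).map (Jmap n))
  have e1 : ∀ x : Cn n, inner ℝ x (hess g z x) = fderiv ℝ (fderiv ℝ g) z x x := by
    intro x
    rw [real_inner_comm, inner_hess]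
  simp only [ContinuousLinearMap.coe_coe, OrthonormalBasis.map_apply, e1] at h1 h2
  have h3 : 0 ≤ ∑ i, (fderiv ℝ (fderiv ℝ g) z (stdOrthonormalBasis ℝ (Cn n) i)
      (stdOrthonormalBasis ℝ (Cn n) i) + fderiv ℝ (fderiv ℝ g) z
      (Jmap n (stdOrthonormalBasis ℝ (Cn n) i)) (Jmap n (stdOrthonormalBasis ℝ (Cn n) i))) :=
    Finset.sum_nonneg fun i _ => levi_nonneg hg z _ (hsub _)
  rw [Finset.sum_add_distrib, ← h1, ← h2] at h3
  linarith

end Pool.Agent.V1282.PT
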