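import Pool.Agent.V1282.PT3

open Set Filter Topology MeasureTheory

set_option autoImplicit false
set_option linter.all false

namespace Pool.Agent.V1282.PT

variable {n : ℕ}

/-- unnormalised radial bump -/
noncomputable def bump (r : ℝ) (y : Cn n) : ℝ := Real.smoothTransition (1 - ‖y‖ ^ 2 / r ^ 2)

lemma bump_contDiff (r : ℝ) : ContDiff ℝ 2 (bump r : Cn n → ℝ) := by
  unfold bump
  exact Real.smoothTransition.contDiff.comp
    (contDiff_const.sub ((contDiff_norm_sq ℝ).div_const _))

lemma bump_nonneg (r : ℝ) (y : Cn n) : 0 ≤ bump r y := Real.smoothTransition.nonneg _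

lemma bump_zero {r : ℝ} (hr : 0 < r) {y : Cn n} (hy : r ≤ ‖y‖) : bump r y = 0 := by
  apply Real.smoothTransition.zero_of_nonpos
  have : 1 ≤ ‖y‖ ^ 2 / r ^ 2 := by
    rw [one_le_div (by positivity)]
    gcongr
  linarith

lemma bump_hcs {r : ℝ} (hr : 0 < r) : HasCompactSupport (bump r : Cn n → ℝ) := by
  refine HasCompactSupport.intro (isCompact_closedBall 0 r) fun y hy => ?_
  apply bump_zero hr
  simp only [Metric.mem_closedBall, dist_zero_right, not_le] at hy
  exact hy.le

lemma bump_integrable {r : ℝ} (hr : 0 < r) : Integrable (bump r : Cn n → ℝ) :=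
  (bump_contDiff r).continuous.integrable_of_hasCompactSupport (bump_hcs hr)

lemma bump_integral_pos {r : ℝ} (hr : 0 < r) : 0 < ∫ y : Cn n, bump r y := by
  refine (bump_contDiff r).continuous.integral_pos_of_hasCompactSupport_nonneg_nonzero
    (bump_hcs hr) (bump_nonneg r) (x := 0) ?_
  have : 0 < bump r (0 : Cn n) := by
    unfold bump
    apply Real.smoothTransition.pos_of_pos
    simp
  exact this.ne'

/-- radial mollifier -/
noncomputable def ker (r : ℝ) (y : Cn n) : ℝ := bump r y / ∫ y : Cn n, bump r y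

lemma ker_contDiff (r : ℝ) : ContDiff ℝ 2 (ker r : Cn n → ℝ) := (bump_contDiff r).div_const _

lemma ker_nonneg {r : ℝ} (hr : 0 < r) (y : Cn n) : 0 ≤ ker r y :=
  div_nonneg (bump_nonneg r y) (bump_integral_pos hr).le

lemma ker_zero {r : ℝ} (hr : 0 < r) {y : Cn n} (hy : r ≤ ‖y‖) : ker r y = 0 := by
  unfold ker; rw [bump_zero hr hy, zero_div]

lemma ker_hcs {r : ℝ} (hr : 0 < r) : HasCompactSupport (ker r : Cn n → ℝ) := by
  refine HasCompactSupport.intro (isCompact_closedBall 0 r) fun y hy => ?_
  apply ker_zero hr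
  simp only [Metric.mem_closedBall, dist_zero_right, not_le] at hy
  exact hy.le

lemma ker_integrable {r : ℝ} (hr : 0 < r) : Integrable (ker r : Cn n → ℝ) :=
  (bump_integrable hr).div_const _

lemma ker_integral {r : ℝ} (hr : 0 < r) : ∫ y : Cn n, ker r y = 1 := by
  unfold ker
  rw [integral_div, div_self (bump_integral_pos hr).ne']

lemma ker_radial (r : ℝ) {x y : Cn n} (h : ‖x‖ = ‖y‖) : ker r x = ker r y := by
  unfold ker bump; rw [h]

/-- Fubini for a circle average and an integral against an integrable kernel -/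
lemma fubini_circle {K : Cn n → ℝ} (hK : Integrable K) {F : Cn n → ℂ → ℝ}
    (hFm : Measurable (Function.uncurry F)) {B : ℝ} (hFb : ∀ y ζ, |F y ζ| ≤ B) :
    Real.circleAverage (fun ζ => ∫ y, K y * F y ζ) 0 1 =
      ∫ y, K y * Real.circleAverage (F y) 0 1 := by
  have h2pi : (0:ℝ) ≤ 2 * Real.pi := by positivity
  have hcm : Measurable (fun θ : ℝ => circleMap 0 1 θ) := (continuous_circleMap 0 1).measurable
  have hint : Integrable (Function.uncurry fun (θ : ℝ) (y : Cn n) => K y * F y (circleMap 0 1 θ))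
      ((volume.restrict (Ioc 0 (2 * Real.pi))).prod volume) := by
    have h1 : Integrable (fun p : ℝ × Cn n => B * ‖K p.2‖)
        ((volume.restrict (Ioc 0 (2 * Real.pi))).prod volume) := by
      have := (hK.norm.const_mul B).comp_snd (volume.restrict (Ioc 0 (2 * Real.pi)))
      exact this
    refine h1.mono' ?_ ?_
    · have a1 : AEStronglyMeasurable (fun p : ℝ × Cn n => K p.2)
          ((volume.restrict (Ioc 0 (2 * Real.pi))).prod volume) :=
        (hK.comp_snd (volume.restrict (Ioc 0 (2 * Real.pi)))).aestronglyMeasurable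
      have a2 : Measurable (fun p : ℝ × Cn n => F p.2 (circleMap 0 1 p.1)) :=
        hFm.comp (measurable_snd.prodMk (hcm.comp measurable_fst))
      exact a1.mul a2.aestronglyMeasurable
    · refine Filter.Eventually.of_forall fun p => ?_
      simp only [Function.uncurry]
      rw [norm_mul, mul_comm]
      gcongr
      exact hFb _ _
  simp only [Real.circleAverage_def, smul_eq_mul]
  rw [intervalIntegral.integral_of_le h2pi, integral_integral_swap hint, ← integral_const_mul]
  congr 1
  ext y
  rw [intervalIntegral.integral_of_le h2pi, integral_const_mul]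
  ring

/-- smoothing -/
noncomputable def sm (r : ℝ) (f : Cn n → ℝ) (z : Cn n) : ℝ := ∫ y, ker r y * f (z - y)

lemma sm_contDiff {r : ℝ} (hr : 0 < r) {f : Cn n → ℝ} (hf : Measurable f) {B : ℝ}
    (hB : ∀ z, |f z| ≤ B) : ContDiff ℝ 2 (sm r f) := by
  have hloc : LocallyIntegrable f volume := by
    have h1 : LocallyIntegrable (fun _ : Cn n => B) volume := locallyIntegrable_const B
    refine h1.mono hf.aestronglyMeasurable ?_
    refine Filter.Eventually.of_forall fun z => ?_
    exact (hB z).trans (le_abs_self B)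
  have := (ker_hcs (n := n) hr).contDiff_convolution_left (ContinuousLinearMap.lsmul ℝ ℝ)
    (μ := volume) (ker_contDiff r) hloc
  exact this

lemma ker_mul_integrable {r : ℝ} (hr : 0 < r) {F : Cn n → ℝ} (hF : Measurable F) {B : ℝ}
    (hB : ∀ y, |F y| ≤ B) : Integrable (fun y => ker r y * F y) :=
  (ker_integrable hr).mul_bdd hF.aestronglyMeasurable (Filter.Eventually.of_forall hB)

/-- comparison of integrals against the kernel -/
lemma ker_mono {r : ℝ} (hr : 0 < r) {F G : Cn n → ℝ} (hF : Measurable F) (hG : Measurable G)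
    {B : ℝ} (hFB : ∀ y, |F y| ≤ B) (hGB : ∀ y, |G y| ≤ B) (h : ∀ y, ‖y‖ < r → F y ≤ G y) :
    ∫ y, ker r y * F y ≤ ∫ y, ker r y * G y := by
  refine integral_mono (ker_mul_integrable hr hF hFB) (ker_mul_integrable hr hG hGB) fun y => ?_
  by_cases hy : ‖y‖ < r
  · exact mul_le_mul_of_nonneg_left (h y hy) (ker_nonneg hr y)
  · simp only [ker_zero hr (not_lt.mp hy), zero_mul, le_refl]

lemma ker_const {r : ℝ} (hr : 0 < r) (c : ℝ) : ∫ y : Cn n, ker r y * c = c := by
  rw [integral_mul_const, ker_integral hr, one_mul]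

lemma rot_invariant {r : ℝ} (f : Cn n → ℝ) (z : Cn n) {ζ : ℂ} (hζ : ‖ζ‖ = 1) :
    ∫ y, ker r y * f (z - ζ • y) = sm r f z := by
  have hζ0 : ζ ≠ 0 := by
    intro h; rw [h, norm_zero] at hζ; norm_num at hζ
  let J : Cn n ≃ₗᵢ[ℝ] Cn n :=
    { toLinearEquiv := (LinearEquiv.smulOfNeZero ℂ (Cn n) ζ hζ0).restrictScalars ℝ
      norm_map' := by
        intro x
        change ‖ζ • x‖ = ‖x‖
        rw [norm_smul, hζ, one_mul] }
  have hJ : ∀ y, J y = ζ • y := fun y => rfl
  unfold sm
  have key := J.measurePreserving.integral_comp J.toMeasurableEquiv.measurableEmbedding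
    (fun y => ker r y * f (z - y))
  rw [← key]
  refine integral_congr_ae (Filter.Eventually.of_forall fun y => ?_)
  simp only [hJ]
  rw [ker_radial r (x := ζ • y) (y := y) (by rw [norm_smul, hζ, one_mul])]

end Pool.Agent.V1282.PT
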