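import Pool.Agent.V1282.PT4
import Pool.Agent.V1282.PT2

open Set Filter Topology MeasureTheory

set_option autoImplicit false
set_option linter.all false

namespace Pool.Agent.V1282.PT

variable {n : ℕ} {Ω : Set (Cn n)} {u : Cn n → EReal}

/-- a usc function on the circle gives an integrable truncation -/
lemma circleIntegrable_trunc {Ω : Set (Cn n)} {u : (Cn n) → EReal} (hΩ : IsOpen Ω)
    (hlt : ∀ z ∈ Ω, u z < ⊤) (husc : UpperSemicontinuousOn u Ω) (z v : Cn n)
    (hd : ∀ ζ : ℂ, ‖ζ‖ = 1 → z + ζ • v ∈ Ω) (m : ℝ) :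
    CircleIntegrable (fun ζ => (max (u (z + ζ • v)) (m : EReal)).toReal) 0 1 := by
  have hc : Continuous (fun θ : ℝ => z + circleMap 0 1 θ • v) := by
    have : Continuous (fun θ : ℝ => circleMap 0 1 θ) := continuous_circleMap 0 1
    fun_prop
  have hin : ∀ θ : ℝ, z + circleMap 0 1 θ • v ∈ Ω := fun θ => hd _ (by simp)
  have husc2 : UpperSemicontinuous (fun θ : ℝ => u (z + circleMap 0 1 θ • v)) := by
    intro θ y hy
    have h1 := husc _ (hin θ) y hy
    rw [hΩ.nhdsWithin_eq (hin θ)] at h1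
    exact hc.continuousAt.eventually h1
  have hmeas : Measurable (fun θ : ℝ => (max (u (z + circleMap 0 1 θ • v)) (m : EReal)).toReal) :=
    (husc2.measurable.max measurable_const).ereal_toReal
  -- bound
  have hK : IsCompact (Icc (0:ℝ) (2 * Real.pi)) := isCompact_Icc
  obtain ⟨θ0, _, hθ0⟩ := UpperSemicontinuousOn.exists_isMaxOn
    (s := Icc (0:ℝ) (2 * Real.pi)) ⟨0, by constructor <;> linarith [Real.pi_pos]⟩ hK
    (husc2.upperSemicontinuousOn _)
  obtain ⟨M, hM⟩ : ∃ M : ℝ, u (z + circleMap 0 1 θ0 • v) ≤ (M : EReal) := by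
    obtain ⟨M, hM⟩ := EReal.lt_iff_exists_real_btwn.mp (hlt _ (hin θ0))
    exact ⟨M, hM.1.le⟩
  unfold CircleIntegrable
  rw [intervalIntegrable_iff_integrableOn_Icc_of_le (by linarith [Real.pi_pos])]
  refine Measure.integrableOn_of_bounded (M := max |m| |max M m|) (by simp [ENNReal.mul_eq_top]) hmeas.aestronglyMeasurable ?_
  filter_upwards [ae_restrict_mem measurableSet_Icc] with θ hθ
  have h1 : u (z + circleMap 0 1 θ • v) ≤ (M : EReal) := (hθ0 hθ).trans hM
  have h2 : max (u (z + circleMap 0 1 θ • v)) (m : EReal) ≤ ((max M m : ℝ) : EReal) := by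
    rw [EReal.coe_strictMono.monotone.map_max]
    exact max_le_max h1 le_rfl
  have h3 : (m : EReal) ≤ max (u (z + circleMap 0 1 θ • v)) (m : EReal) := le_max_right _ _
  have hne1 : max (u (z + circleMap 0 1 θ • v)) (m : EReal) ≠ ⊤ :=
    ne_top_of_le_ne_top (EReal.coe_ne_top _) h2
  have hne2 : max (u (z + circleMap 0 1 θ • v)) (m : EReal) ≠ ⊥ :=
    ne_bot_of_le_ne_bot (EReal.coe_ne_bot _) h3
  have h4 : (max (u (z + circleMap 0 1 θ • v)) (m : EReal)).toReal ≤ max M m := by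
    rw [← EReal.coe_le_coe_iff, EReal.coe_toReal hne1 hne2]; exact h2
  have h5 : m ≤ (max (u (z + circleMap 0 1 θ • v)) (m : EReal)).toReal := by
    rw [← EReal.coe_le_coe_iff, EReal.coe_toReal hne1 hne2]; exact h3
  rw [Real.norm_eq_abs]
  exact abs_le_max_abs_abs h5 h4

lemma usc_disc (hΩ : IsOpen Ω) (hu : IsPSH Ω u) (z v : Cn n)
    (hd : ∀ ζ : ℂ, ‖ζ‖ ≤ 1 → z + ζ • v ∈ Ω) :
    UpperSemicontinuousOn (fun ζ : ℂ => u (z + ζ • v)) (Metric.closedBall 0 1) := by
  intro ζ hζ y hy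
  have hin : z + ζ • v ∈ Ω := hd ζ (by simpa using hζ)
  have h1 := hu.usc _ hin y hy
  rw [hΩ.nhdsWithin_eq hin] at h1
  have hc : Continuous (fun ζ : ℂ => z + ζ • v) := by fun_prop
  exact nhdsWithin_le_nhds (hc.continuousAt.eventually h1)

/-- if `u = -∞` on the part of the circle near `1`, then `u = -∞` at the centre. -/
lemma arc_bot (hΩ : IsOpen Ω) (hu : IsPSH Ω u) (z v : Cn n)
    (hd : ∀ ζ : ℂ, ‖ζ‖ ≤ 1 → z + ζ • v ∈ Ω)
    (hb : ∀ᶠ w in 𝓝 (z + v), u w = ⊥) : u z = ⊥ := by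
  -- an upper bound on the circle
  have husc := usc_disc hΩ hu z v hd
  obtain ⟨ζ0, hζ0, hmax⟩ := UpperSemicontinuousOn.exists_isMaxOn
    (s := Metric.closedBall (0:ℂ) 1) ⟨0, by simp⟩ (isCompact_closedBall _ _) husc
  obtain ⟨M, hM⟩ : ∃ M : ℝ, u (z + ζ0 • v) ≤ (M : EReal) := by
    obtain ⟨M, hM⟩ := EReal.lt_iff_exists_real_btwn.mp (hu.lt_top _ (hd ζ0 (by simpa using hζ0)))
    exact ⟨M, hM.1.le⟩
  have hMall : ∀ ζ : ℂ, ‖ζ‖ ≤ 1 → u (z + ζ • v) ≤ (M : EReal) := fun ζ h =>
    (hmax (by simpa using h)).trans hM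
  -- the arc
  have hc : Continuous (fun θ : ℝ => z + circleMap 0 1 θ • v) := by
    have : Continuous (fun θ : ℝ => circleMap 0 1 θ) := continuous_circleMap 0 1
    fun_prop
  have h0 : (fun θ : ℝ => z + circleMap 0 1 θ • v) 0 = z + v := by simp [circleMap]
  have hev : ∀ᶠ θ : ℝ in 𝓝 0, u (z + circleMap 0 1 θ • v) = ⊥ := by
    have := hc.continuousAt (x := (0:ℝ))
    unfold ContinuousAt at this
    rw [h0] at this
    exact this.eventually hb
  obtain ⟨η, hη, hηb⟩ := Metric.eventually_nhds_iff.mp hev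
  set η' : ℝ := min (η / 2) 1 with hη'
  have hη'0 : 0 < η' := by positivity
  have hη'1 : η' < 2 * Real.pi := by
    have := Real.pi_gt_three
    have := min_le_right (η / 2) 1
    linarith
  have hbot : ∀ θ ∈ Icc (0:ℝ) η', u (z + circleMap 0 1 θ • v) = ⊥ := by
    intro θ hθ
    apply hηb
    rw [Real.dist_eq, sub_zero, abs_of_nonneg hθ.1]
    have := min_le_left (η / 2) 1
    linarith [hθ.2]
  -- choose m
  have key : ∀ m : ℝ, m ≤ M → u z ≤ (((2 * Real.pi)⁻¹ * (η' * m + (2 * Real.pi - η') * M) : ℝ) : EReal) := by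
    intro m hm
    refine (hu.submean z v hd m).trans ?_
    rw [EReal.coe_le_coe_iff, Real.circleAverage_def, smul_eq_mul]
    have hint : IntervalIntegrable (fun θ : ℝ => (max (u (z + circleMap 0 1 θ • v)) (m : EReal)).toReal)
        volume 0 (2 * Real.pi) :=
      circleIntegrable_trunc hΩ hu.lt_top hu.usc z v (fun ζ h => hd ζ h.le) m
    have hi1 : IntervalIntegrable (fun θ : ℝ => (max (u (z + circleMap 0 1 θ • v)) (m : EReal)).toReal)
        volume 0 η' := hint.mono_set (by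
      rw [uIcc_of_le hη'0.le, uIcc_of_le (by linarith)]
      exact Icc_subset_Icc_right hη'1.le)
    have hi2 : IntervalIntegrable (fun θ : ℝ => (max (u (z + circleMap 0 1 θ • v)) (m : EReal)).toReal)
        volume η' (2 * Real.pi) := hint.mono_set (by
      rw [uIcc_of_le hη'1.le, uIcc_of_le (by linarith)]
      exact Icc_subset_Icc_left hη'0.le)
    rw [← intervalIntegral.integral_add_adjacent_intervals hi1 hi2]
    have b1 : ∫ θ in (0:ℝ)..η', (max (u (z + circleMap 0 1 θ • v)) (m : EReal)).toReal = η' * m := by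
      have : ∀ θ ∈ uIcc (0:ℝ) η', (max (u (z + circleMap 0 1 θ • v)) (m : EReal)).toReal = m := by
        intro θ hθ
        rw [uIcc_of_le hη'0.le] at hθ
        rw [hbot θ hθ, max_eq_right bot_le, EReal.toReal_coe]
      rw [intervalIntegral.integral_congr this]
      simp
    have b2 : ∫ θ in η'..(2 * Real.pi), (max (u (z + circleMap 0 1 θ • v)) (m : EReal)).toReal ≤
        (2 * Real.pi - η') * M := by
      have : ∫ θ in η'..(2 * Real.pi), M = (2 * Real.pi - η') * M := by simp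
      rw [← this]
      refine intervalIntegral.integral_mono_on hη'1.le hi2 (by simp) fun θ hθ => ?_
      have h1 : u (z + circleMap 0 1 θ • v) ≤ (M : EReal) := hMall _ (by simp)
      have h2 : max (u (z + circleMap 0 1 θ • v)) (m : EReal) ≤ (M : EReal) :=
        max_le h1 (by rw [EReal.coe_le_coe_iff]; exact hm)
      have hne1 := ne_top_of_le_ne_top (EReal.coe_ne_top _) h2
      have hne2 : max (u (z + circleMap 0 1 θ • v)) (m : EReal) ≠ ⊥ :=
        ne_bot_of_le_ne_bot (EReal.coe_ne_bot _) (le_max_right _ _)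
      rw [← EReal.coe_le_coe_iff, EReal.coe_toReal hne1 hne2]
      exact h2
    rw [b1]
    have := Real.pi_pos
    gcongr
  by_contra hne
  have hnt : u z ≠ ⊤ := (hu.lt_top z (by simpa using hd 0 (by simp))).ne
  obtain ⟨U, hU⟩ : ∃ U : ℝ, u z = (U : EReal) := ⟨(u z).toReal, (EReal.coe_toReal hnt hne).symm⟩
  have hpi := Real.pi_pos
  set m : ℝ := min M ((2 * Real.pi * U - (2 * Real.pi - η') * M) / η' - 1) with hm
  have h1 := key m (min_le_left _ _)
  rw [hU, EReal.coe_le_coe_iff] at h1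
  have h2 : m ≤ (2 * Real.pi * U - (2 * Real.pi - η') * M) / η' - 1 := min_le_right _ _
  have h3 : η' * m ≤ 2 * Real.pi * U - (2 * Real.pi - η') * M - η' := by
    calc η' * m ≤ η' * ((2 * Real.pi * U - (2 * Real.pi - η') * M) / η' - 1) := by gcongr
      _ = _ := by field_simp
  have h4 : (2 * Real.pi)⁻¹ * (η' * m + (2 * Real.pi - η') * M) ≤
      (2 * Real.pi)⁻¹ * (2 * Real.pi * U - η') := by
    gcongr
    linarith
  have h5 : (2 * Real.pi)⁻¹ * (2 * Real.pi * U - η') = U - η' / (2 * Real.pi) := by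
    field_simp
  have h6 : 0 < η' / (2 * Real.pi) := by positivity
  linarith

/-- A plurisubharmonic function on a connected open set which is `-∞` on a nonempty open subset is
`-∞` everywhere. -/
lemma bot_of_open (hΩ : IsOpen Ω) (hconn : IsPreconnected Ω) (hu : IsPSH Ω u) {a : Cn n}
    (ha : a ∈ Ω) (hb : ∀ᶠ w in 𝓝 a, u w = ⊥) : ∀ z ∈ Ω, u z = ⊥ := by
  set A : Set (Cn n) := interior {z | u z = ⊥} with hA
  have haA : a ∈ A := mem_interior_iff_mem_nhds.mpr hb
  have hsub : Ω ⊆ A := by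
    refine hconn.subset_of_closure_inter_subset isOpen_interior ⟨a, ha, haA⟩ ?_
    rintro z ⟨hz1, hz2⟩
    obtain ⟨R, hR, hRsub⟩ := Metric.isOpen_iff.mp hΩ z hz2
    set s : ℝ := R / 4 with hs
    have hs0 : 0 < s := by positivity
    obtain ⟨w, hwA, hwz⟩ := Metric.mem_closure_iff.mp hz1 s hs0
    rw [hA, mem_interior_iff_mem_nhds]
    refine mem_of_superset (Metric.ball_mem_nhds z hs0) ?_
    intro p hp
    have hpz : dist p z < s := hp
    refine arc_bot hΩ hu p (w - p) (fun ζ hζ => hRsub ?_) ?_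
    · rw [Metric.mem_ball, dist_eq_norm]
      have e1 : p + ζ • (w - p) - z = (p - z) + ζ • (w - p) := by abel
      rw [e1]
      have e2 : ‖w - p‖ ≤ 2 * s := by
        rw [← dist_eq_norm]
        have := dist_triangle w z p
        rw [dist_comm w z, dist_comm z p] at this
        linarith
      calc ‖(p - z) + ζ • (w - p)‖ ≤ ‖p - z‖ + ‖ζ • (w - p)‖ := norm_add_le _ _
        _ = dist p z + ‖ζ‖ * ‖w - p‖ := by rw [norm_smul, dist_eq_norm]
        _ ≤ dist p z + 1 * (2 * s) := by gcongr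
        _ < R := by rw [hs] at *; linarith
    · rw [add_sub_cancel]
      exact mem_interior_iff_mem_nhds.mp hwA
  intro z hz
  have := interior_subset (hsub hz)
  exact this


end Pool.Agent.V1282.PT
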