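import Pool.Agent.V1282.PT5

open Set Filter Topology MeasureTheory

set_option autoImplicit false
set_option linter.all false

namespace Pool.Agent.V1282.PT

variable {n : ℕ} {Ω : Set (Cn n)} {u : Cn n → EReal}

lemma circle_ker_integrable {K : Cn n → ℝ} (hK : Integrable K) {F : Cn n → ℂ → ℝ}
    (hFm : Measurable (Function.uncurry F)) {B : ℝ} (hFb : ∀ y ζ, |F y ζ| ≤ B) :
    Integrable (fun y => K y * Real.circleAverage (F y) 0 1) := by
  have h2pi : (0:ℝ) ≤ 2 * Real.pi := by positivity
  have hcm : Measurable (fun θ : ℝ => circleMap 0 1 θ) := (continuous_circleMap 0 1).measurable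
  have hint : Integrable (Function.uncurry fun (θ : ℝ) (y : Cn n) => K y * F y (circleMap 0 1 θ))
      ((volume.restrict (Ioc 0 (2 * Real.pi))).prod volume) := by
    have h1 : Integrable (fun p : ℝ × Cn n => B * ‖K p.2‖)
        ((volume.restrict (Ioc 0 (2 * Real.pi))).prod volume) :=
      (hK.norm.const_mul B).comp_snd (volume.restrict (Ioc 0 (2 * Real.pi)))
    refine h1.mono' ?_ ?_
    · have a1 : AEStronglyMeasurable (fun p : ℝ × Cn n => K p.2)
          ((volume.restrict (Ioc 0 (2 * Real.pi))).prod volume) :=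
        (hK.comp_snd (volume.restrict (Ioc 0 (2 * Real.pi)))).aestronglyMeasurable
      have a2 : Measurable (fun p : ℝ × Cn n => F p.2 (circleMap 0 1 p.1)) :=
        hFm.comp (measurable_snd.prodMk (hcm.comp measurable_fst))
      exact a1.mul a2.aestronglyMeasurable
    · refine Filter.Eventually.of_forall fun p => ?_
      simp only [Function.uncurry]
      rw [norm_mul, mul_comm]
      gcongr
      exact hFb _ _
  have h2 := (hint.swap.integral_prod_left).const_mul ((2 * Real.pi)⁻¹)
  refine h2.congr (Filter.Eventually.of_forall fun y => ?_)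
  simp only [Real.circleAverage_def, smul_eq_mul, Function.comp, Prod.swap, Function.uncurry]
  rw [intervalIntegral.integral_of_le h2pi, integral_const_mul]
  ring

lemma circleIntegrable_bdd {F : ℂ → ℝ} (hF : Measurable F) {B : ℝ} (hB : ∀ ζ, |F ζ| ≤ B) :
    CircleIntegrable F 0 1 := by
  unfold CircleIntegrable
  rw [intervalIntegrable_iff_integrableOn_Icc_of_le (by positivity)]
  refine Measure.integrableOn_of_bounded (M := B) (by simp [ENNReal.mul_eq_top])
    (hF.comp (continuous_circleMap 0 1).measurable).aestronglyMeasurable ?_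
  exact Filter.Eventually.of_forall fun θ => hB _

/-- the local form of the theorem -/
lemma local_null (hΩ : IsOpen Ω) (hconn : IsPreconnected Ω) (hu : IsPSH Ω u)
    (hne : ∃ z ∈ Ω, u z ≠ ⊥) {z0 : Cn n} {R : ℝ} (hR : 0 < R)
    (hball : Metric.closedBall z0 (3 * R) ⊆ Ω) :
    volume {z | z ∈ Metric.ball z0 R ∧ ¬ ∃ (lam : ℝ) (y : Cn n), ∀ w ∈ Metric.ball z0 R,
      u w - ((lam * ‖w - y‖ ^ 2 : ℝ) : EReal) ≤ u z - ((lam * ‖z - y‖ ^ 2 : ℝ) : EReal)} = 0 := by
  classical
  set C : Set (Cn n) := Metric.closedBall z0 (3 * R) with hC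
  -- upper bound
  obtain ⟨M, hM0, hM⟩ : ∃ M : ℝ, 0 ≤ M ∧ ∀ w ∈ C, u w ≤ (M : EReal) := by
    obtain ⟨w0, hw0, hmax⟩ := UpperSemicontinuousOn.exists_isMaxOn (s := C)
      ⟨z0, Metric.mem_closedBall_self (by positivity)⟩ (isCompact_closedBall _ _)
      (hu.usc.mono hball)
    obtain ⟨M, hM⟩ := EReal.lt_iff_exists_real_btwn.mp (hu.lt_top _ (hball hw0))
    refine ⟨max M 0, le_max_right _ _, fun w hw => ((hmax hw).trans hM.1.le).trans ?_⟩
    rw [EReal.coe_le_coe_iff]
    exact le_max_left _ _
  set U : Cn n → EReal := fun w => if w ∈ C then u w else ⊥ with hUdef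
  have hUC : ∀ w ∈ C, U w = u w := fun w hw => by simp [hUdef, hw]
  have hUM : ∀ w, U w ≤ (M : EReal) := by
    intro w
    by_cases hw : w ∈ C
    · rw [hUC w hw]; exact hM w hw
    · simp [hUdef, hw]
  have hUusc : UpperSemicontinuous U := by
    intro w y hy
    by_cases hw : w ∈ C
    · rw [hUC w hw] at hy
      have h1 := hu.usc w (hball hw) y hy
      rw [hΩ.nhdsWithin_eq (hball hw)] at h1
      filter_upwards [h1] with x hx
      by_cases hxC : x ∈ C
      · rw [hUC x hxC]; exact hx
      · simp only [hUdef, hxC, if_false]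
        exact lt_of_le_of_lt bot_le hx
    · have h1 : Cᶜ ∈ 𝓝 w := (Metric.isClosed_closedBall.isOpen_compl).mem_nhds hw
      have h2 : U w = ⊥ := by simp [hUdef, hw]
      rw [h2] at hy
      filter_upwards [h1] with x hx
      have : U x = ⊥ := by simp only [hUdef]; rw [if_neg hx]
      rw [this]; exact hy
  set f : ℕ → Cn n → ℝ := fun k w => (max (U w) ((-(k:ℝ) : ℝ) : EReal)).toReal with hfdef
  have hfcoe : ∀ k w, ((f k w : ℝ) : EReal) = max (U w) ((-(k:ℝ) : ℝ) : EReal) := by
    intro k w
    refine EReal.coe_toReal ?_ ?_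
    · refine ne_top_of_le_ne_top (b := ((max M (-(k:ℝ)) : ℝ) : EReal)) (EReal.coe_ne_top _) ?_
      rw [EReal.coe_strictMono.monotone.map_max]
      exact max_le_max (hUM w) le_rfl
    · exact ne_bot_of_le_ne_bot (EReal.coe_ne_bot _) (le_max_right _ _)
  have hfm : ∀ k, Measurable (f k) := fun k =>
    (hUusc.measurable.max measurable_const).ereal_toReal
  have hflow : ∀ (k : ℕ) w, -(k:ℝ) ≤ f k w := by
    intro k w
    rw [← EReal.coe_le_coe_iff, hfcoe]
    exact le_max_right _ _
  have hfup : ∀ k w, f k w ≤ M := by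
    intro k w
    rw [← EReal.coe_le_coe_iff, hfcoe]
    refine max_le (hUM w) ?_
    rw [EReal.coe_le_coe_iff]
    have : (0:ℝ) ≤ k := Nat.cast_nonneg k
    linarith
  have hfabs : ∀ k w, |f k w| ≤ M + k := by
    intro k w
    rw [abs_le]
    have : (0:ℝ) ≤ k := Nat.cast_nonneg k
    constructor
    · have := hflow k w; linarith
    · have := hfup k w; linarith
  have hUf : ∀ k w, U w ≤ (f k w : EReal) := by
    intro k w; rw [hfcoe]; exact le_max_left _ _
  set rad : ℕ → ℝ := fun k => R / (k + 1) with hrad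
  have hrad0 : ∀ k, 0 < rad k := fun k => by simp only [hrad]; positivity
  have hradR : ∀ k, rad k ≤ R := by
    intro k
    simp only [hrad]
    rw [div_le_iff₀ (by positivity)]
    have : (0:ℝ) ≤ k := Nat.cast_nonneg k
    nlinarith
  -- submean inequality for `f`
  have hsub : ∀ k, ∀ z ∈ Metric.closedBall z0 (2 * R), ∀ w : Cn n, ‖w‖ ≤ R →
      f k z ≤ Real.circleAverage (fun ζ => f k (z + ζ • w)) 0 1 := by
    intro k z hz w hw
    have hz' : dist z z0 ≤ 2 * R := hz
    have hdisc : ∀ ζ : ℂ, ‖ζ‖ ≤ 1 → z + ζ • w ∈ C := by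
      intro ζ hζ
      rw [hC, Metric.mem_closedBall, dist_eq_norm]
      calc ‖z + ζ • w - z0‖ = ‖(z - z0) + ζ • w‖ := by congr 1; abel
        _ ≤ ‖z - z0‖ + ‖ζ • w‖ := norm_add_le _ _
        _ = ‖z - z0‖ + ‖ζ‖ * ‖w‖ := by rw [norm_smul]
        _ ≤ 2 * R + 1 * R := by
            rw [dist_eq_norm] at hz'
            gcongr
        _ = 3 * R := by ring
    have hzC : z ∈ C := by simpa using hdisc 0 (by simp)
    have e1 : Real.circleAverage (fun ζ => f k (z + ζ • w)) 0 1 =
        Real.circleAverage (fun ζ => (max (u (z + ζ • w)) ((-(k:ℝ) : ℝ) : EReal)).toReal) 0 1 := by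
      apply Real.circleAverage_congr_sphere
      intro ζ hζ
      have : ‖ζ‖ ≤ 1 := by
        have : ‖ζ‖ = 1 := by simpa using hζ
        exact this.le
      simp only [hfdef]
      rw [hUC _ (hdisc ζ this)]
    rw [← EReal.coe_le_coe_iff, hfcoe]
    refine max_le ?_ ?_
    · rw [hUC z hzC, e1]
      exact hu.submean z w (fun ζ hζ => hball (hdisc ζ hζ)) _
    · rw [EReal.coe_le_coe_iff]
      calc -(k:ℝ) = Real.circleAverage (fun _ : ℂ => -(k:ℝ)) 0 1 :=
            (Real.circleAverage_const _ _ _).symm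
        _ ≤ _ := by
            refine Real.circleAverage_mono (circleIntegrable_const _ _ _) ?_
              (fun ζ _ => hflow k _)
            exact circleIntegrable_bdd ((hfm k).comp (by fun_prop)) (fun ζ => hfabs k _)
  -- the smooth approximations
  set v : ℕ → Cn n → ℝ := fun k => sm (rad k) (f k) with hv
  have hvC2 : ∀ k, ContDiff ℝ 2 (v k) := fun k => sm_contDiff (hrad0 k) (hfm k) (hfabs k)
  have hge : ∀ k, ∀ z ∈ Metric.closedBall z0 R, u z ≤ (v k z : EReal) := by
    intro k z hz
    have hz2 : z ∈ Metric.closedBall z0 (2 * R) :=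
      Metric.closedBall_subset_closedBall (by linarith) hz
    have hzC : z ∈ C := Metric.closedBall_subset_closedBall (by linarith) hz
    rw [← hUC z hzC]
    refine (hUf k z).trans ?_
    rw [EReal.coe_le_coe_iff]
    have hFm : Measurable (Function.uncurry fun (y : Cn n) (ζ : ℂ) => f k (z - ζ • y)) :=
      (hfm k).comp (by fun_prop)
    have e1 : v k z = Real.circleAverage (fun ζ => ∫ y, ker (rad k) y * f k (z - ζ • y)) 0 1 := by
      rw [← Real.circleAverage_const (v k z) 0 1]
      apply Real.circleAverage_congr_sphere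
      intro ζ hζ
      have : ‖ζ‖ = 1 := by simpa using hζ
      exact (rot_invariant (f k) z this).symm
    rw [e1, fubini_circle (ker_integrable (hrad0 k)) hFm (fun y ζ => hfabs k _)]
    calc f k z = ∫ y, ker (rad k) y * f k z := (ker_const (hrad0 k) _).symm
      _ ≤ _ := by
        refine integral_mono ((ker_integrable (hrad0 k)).mul_const _)
          (circle_ker_integrable (ker_integrable (hrad0 k)) hFm (fun y ζ => hfabs k _)) fun y => ?_
        by_cases hy : ‖y‖ < rad k
        · refine mul_le_mul_of_nonneg_left ?_ (ker_nonneg (hrad0 k) y)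
          have h1 := hsub k z hz2 (-y) (by rw [norm_neg]; exact hy.le.trans (hradR k))
          simpa [sub_eq_add_neg] using h1
        · simp only [ker_zero (hrad0 k) (not_lt.mp hy), zero_mul, le_refl]
  have hvsub : ∀ k, ∀ z ∈ Metric.closedBall z0 R, ∀ w : Cn n, ‖w‖ ≤ R →
      v k z ≤ Real.circleAverage (fun ζ => v k (z + ζ • w)) 0 1 := by
    intro k z hz w hw
    have hz' : dist z z0 ≤ R := hz
    have hFm : Measurable (Function.uncurry fun (y : Cn n) (ζ : ℂ) => f k (z + ζ • w - y)) :=
      (hfm k).comp (by fun_prop)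
    have e1 : Real.circleAverage (fun ζ => v k (z + ζ • w)) 0 1 =
        ∫ y, ker (rad k) y * Real.circleAverage (fun ζ => f k (z + ζ • w - y)) 0 1 :=
      fubini_circle (ker_integrable (hrad0 k)) hFm (fun y ζ => hfabs k _)
    rw [e1]
    refine integral_mono (ker_mul_integrable (hrad0 k) ((hfm k).comp (by fun_prop))
      (fun y => hfabs k _)) (circle_ker_integrable (ker_integrable (hrad0 k)) hFm
      (fun y ζ => hfabs k _)) fun y => ?_
    by_cases hy : ‖y‖ < rad k
    · refine mul_le_mul_of_nonneg_left ?_ (ker_nonneg (hrad0 k) y)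
      have h1 := hsub k (z - y) (by
        rw [Metric.mem_closedBall, dist_eq_norm]
        rw [dist_eq_norm] at hz'
        calc ‖z - y - z0‖ = ‖(z - z0) - y‖ := by congr 1; abel
          _ ≤ ‖z - z0‖ + ‖y‖ := norm_sub_le _ _
          _ ≤ 2 * R := by linarith [hradR k]) w hw
      have e2 : ∀ ζ : ℂ, z - y + ζ • w = z + ζ • w - y := fun ζ => by abel
      simp only [e2] at h1
      exact h1
    · simp only [ker_zero (hrad0 k) (not_lt.mp hy), zero_mul, le_refl]
  have hradlim : Tendsto rad atTop (𝓝 0) := by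
    have := tendsto_const_div_atTop_nhds_zero_nat R
    have h2 := (tendsto_add_atTop_iff_nat 1).mpr this
    simpa [hrad] using h2
  have hlim : ∀ z ∈ Metric.closedBall z0 R, ∀ c : ℝ, u z < c → ∀ᶠ k in atTop, v k z ≤ c := by
    intro z hz c hc
    have hzC : z ∈ C := Metric.closedBall_subset_closedBall (by linarith) hz
    rw [← hUC z hzC] at hc
    obtain ⟨η, hη, hη'⟩ := Metric.eventually_nhds_iff.mp (hUusc z c hc)
    have h1 : ∀ᶠ k in atTop, rad k < η := hradlim.eventually (gt_mem_nhds hη)
    have h2 : ∀ᶠ k : ℕ in atTop, -c ≤ (k:ℝ) :=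
      tendsto_natCast_atTop_atTop.eventually_ge_atTop _
    filter_upwards [h1, h2] with k hk1 hk2
    calc v k z ≤ ∫ y : Cn n, ker (rad k) y * c := by
          refine ker_mono (hrad0 k) ((hfm k).comp (by fun_prop)) measurable_const
            (B := max (M + k) |c|) (fun y => (hfabs k _).trans (le_max_left _ _))
            (fun y => le_max_right _ _) fun y hy => ?_
          rw [← EReal.coe_le_coe_iff, hfcoe]
          refine max_le ?_ ?_
          · refine (hη' ?_).le
            rw [dist_eq_norm, sub_sub_cancel_left, norm_neg]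
            exact hy.trans hk1
          · rw [EReal.coe_le_coe_iff]; linarith
      _ = c := ker_const (hrad0 k) c
  have hvM : ∀ k, ∀ z ∈ Metric.closedBall z0 R, v k z ≤ M := by
    intro k z _
    calc v k z ≤ ∫ y : Cn n, ker (rad k) y * M := by
          refine ker_mono (hrad0 k) ((hfm k).comp (by fun_prop)) measurable_const
            (B := M + k) (fun y => hfabs k _) (fun y => ?_) fun y hy => hfup k _
          rw [abs_of_nonneg hM0]
          have : (0:ℝ) ≤ k := Nat.cast_nonneg k
          linarith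
      _ = M := ker_const (hrad0 k) M
  have htr : ∀ k, ∀ z ∈ Metric.ball z0 R, 0 ≤ LinearMap.trace ℝ (Cn n) (hess (v k) z) := by
    intro k z hz
    refine trace_nonneg (hvC2 k) z fun w => ?_
    have h1 : ∀ᶠ r in 𝓝[>] (0:ℝ), r * ‖w‖ < R := by
      have : Tendsto (fun r : ℝ => r * ‖w‖) (𝓝[>] 0) (𝓝 0) := by
        have h : Tendsto (fun r : ℝ => r * ‖w‖) (𝓝 0) (𝓝 (0 * ‖w‖)) := tendsto_id.mul_const _
        rw [zero_mul] at h
        exact h.mono_left nhdsWithin_le_nhds
      exact this.eventually (gt_mem_nhds hR)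
    filter_upwards [h1, self_mem_nhdsWithin] with r hr hr0
    have hr0' : 0 < r := hr0
    refine hvsub k z (Metric.ball_subset_closedBall hz) (r • w) ?_
    rw [norm_smul, Real.norm_eq_abs, abs_of_pos hr0']
    exact hr.le
  have hdense : ∀ z ∈ Metric.closedBall z0 R, ∀ ε > 0, ∃ w ∈ Metric.closedBall z0 R,
      ‖w - z‖ < ε ∧ u w ≠ ⊥ := by
    intro z hz ε hε
    by_contra hcon
    push Not at hcon
    have hzc : z ∈ closure (Metric.ball z0 R) := by
      rw [closure_ball z0 hR.ne']; exact hz
    obtain ⟨a, ha, haz⟩ := Metric.mem_closure_iff.mp hzc ε hε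
    obtain ⟨z1, hz1, hz1'⟩ := hne
    refine hz1' (bot_of_open hΩ hconn hu (a := a) ?_ ?_ z1 hz1)
    · exact hball (Metric.closedBall_subset_closedBall (by linarith)
        (Metric.ball_subset_closedBall ha))
    · have hopen : IsOpen (Metric.ball z0 R ∩ Metric.ball z ε) :=
        Metric.isOpen_ball.inter Metric.isOpen_ball
      have hmem : a ∈ Metric.ball z0 R ∩ Metric.ball z ε := ⟨ha, by rwa [Metric.mem_ball, dist_comm]⟩
      filter_upwards [hopen.mem_nhds hmem] with w hw
      refine hcon w (Metric.ball_subset_closedBall hw.1) ?_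
      rw [← dist_eq_norm]; exact hw.2
  exact ae_contact hR hvC2 hge hlim htr hvM hdense

/-- **Theorem.** The exceptional set of a plurisubharmonic function is Lebesgue null. -/
theorem exSet_null (hΩ : IsOpen Ω) (hconn : IsPreconnected Ω) (hu : IsPSH Ω u)
    (hne : ∃ z ∈ Ω, u z ≠ ⊥) : volume (ExSet Ω u) = 0 := by
  refine measure_null_of_locally_null _ fun z hz => ?_
  obtain ⟨R', hR', hsub⟩ := Metric.isOpen_iff.mp hΩ z hz.1
  set R : ℝ := R' / 4 with hR
  have hR0 : 0 < R := by positivity
  have hball : Metric.closedBall z (3 * R) ⊆ Ω := by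
    refine (Metric.closedBall_subset_ball ?_).trans hsub
    rw [hR]; linarith
  have hb2 : Metric.ball z R ⊆ Ω :=
    (Metric.ball_subset_closedBall.trans (Metric.closedBall_subset_closedBall (by linarith))).trans hball
  refine ⟨ExSet Ω u ∩ Metric.ball z R,
    inter_mem self_mem_nhdsWithin (mem_nhdsWithin_of_mem_nhds (Metric.ball_mem_nhds z hR0)), ?_⟩
  refine measure_mono_null ?_ (local_null hΩ hconn hu hne hR0 hball)
  rintro w ⟨⟨hw1, hw2⟩, hw3⟩
  refine ⟨hw3, fun ⟨lam, y, hly⟩ => hw2 ?_⟩
  refine ⟨Metric.ball z R, Metric.isOpen_ball, hw3, hb2, fun x => lam * ‖x - y‖ ^ 2, ?_, hly⟩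
  have : ContDiff ℝ 2 (fun x : Cn n => lam * ‖x - y‖ ^ 2) :=
    contDiff_const.mul ((contDiff_id.sub contDiff_const).norm_sq ℝ)
  exact this.contDiffOn

end Pool.Agent.V1282.PT
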