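import Pool.Agent.V1282.PsDef

open Set Filter Topology MeasureTheory

set_option autoImplicit false
set_option linter.all false

namespace Pool.Agent.V1282.Ps

variable {n : ℕ}

/-- mean of an affine function -/
lemma circleAverage_affine (c : ℝ) (b : ℂ) :
    Real.circleAverage (fun ζ : ℂ => c + (b * ζ).re) 0 1 = c := by
  rw [Real.circleAverage_def]
  have h1 : ∫ θ in (0:ℝ)..2 * Real.pi, (c + (b * circleMap 0 1 θ).re) = 2 * Real.pi * c := by
    have e1 : ∀ θ : ℝ, (c + (b * circleMap 0 1 θ).re) = c + (b.re * Real.cos θ - b.im * Real.sin θ) := by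
      intro θ
      simp [circleMap, Complex.exp_ofReal_mul_I_re, Complex.exp_ofReal_mul_I_im]
    simp_rw [e1]
    rw [intervalIntegral.integral_add, intervalIntegral.integral_sub,
      intervalIntegral.integral_const_mul, intervalIntegral.integral_const_mul,
      integral_cos, integral_sin]
    · simp
    all_goals exact Continuous.intervalIntegrable (by fun_prop) _ _
  rw [h1, smul_eq_mul]
  have := Real.pi_pos
  field_simp

lemma circleIntegrable_affine (c : ℝ) (b : ℂ) :
    CircleIntegrable (fun ζ : ℂ => c + (b * ζ).re) 0 1 := by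
  apply Continuous.intervalIntegrable
  have : Continuous (fun θ : ℝ => circleMap 0 1 θ) := continuous_circleMap 0 1
  fun_prop

/-- a usc function on the circle gives an integrable truncation -/
lemma circleIntegrable_trunc {Ω : Set (Fin n → ℂ)} {u : (Fin n → ℂ) → EReal} (hΩ : IsOpen Ω)
    (hlt : ∀ z ∈ Ω, u z < ⊤) (husc : UpperSemicontinuousOn u Ω) (z v : Fin n → ℂ)
    (hd : ∀ ζ : ℂ, ‖ζ‖ = 1 → z + ζ • v ∈ Ω) (m : ℝ) :
    CircleIntegrable (fun ζ => (max (u (z + ζ • v)) (m : EReal)).toReal) 0 1 := by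
  have hc : Continuous (fun θ : ℝ => z + circleMap 0 1 θ • v) := by
    have : Continuous (fun θ : ℝ => circleMap 0 1 θ) := continuous_circleMap 0 1
    fun_prop
  have hin : ∀ θ : ℝ, z + circleMap 0 1 θ • v ∈ Ω := fun θ => hd _ (by simp)
  have husc2 : UpperSemicontinuous (fun θ : ℝ => u (z + circleMap 0 1 θ • v)) := by
    intro θ y hy
    have h1 := husc _ (hin θ) y hy
    rw [hΩ.nhdsWithin_eq (hin θ)] at h1
    exact hc.continuousAt.eventually h1
  have hmeas : Measurable (fun θ : ℝ => (max (u (z + circleMap 0 1 θ • v)) (m : EReal)).toReal) :=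
    (husc2.measurable.max measurable_const).ereal_toReal
  -- bound
  have hK : IsCompact (Icc (0:ℝ) (2 * Real.pi)) := isCompact_Icc
  obtain ⟨θ0, _, hθ0⟩ := UpperSemicontinuousOn.exists_isMaxOn
    (s := Icc (0:ℝ) (2 * Real.pi)) ⟨0, by constructor <;> linarith [Real.pi_pos]⟩ hK
    (husc2.upperSemicontinuousOn _)
  obtain ⟨M, hM⟩ : ∃ M : ℝ, u (z + circleMap 0 1 θ0 • v) ≤ (M : EReal) := by
    obtain ⟨M, hM⟩ := EReal.lt_iff_exists_real_btwn.mp (hlt _ (hin θ0))
    exact ⟨M, hM.1.le⟩
  unfold CircleIntegrable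
  rw [intervalIntegrable_iff_integrableOn_Icc_of_le (by linarith [Real.pi_pos])]
  refine Measure.integrableOn_of_bounded (M := max |m| |max M m|) (by simp [ENNReal.mul_eq_top]) hmeas.aestronglyMeasurable ?_
  filter_upwards [ae_restrict_mem measurableSet_Icc] with θ hθ
  have h1 : u (z + circleMap 0 1 θ • v) ≤ (M : EReal) := (hθ0 hθ).trans hM
  have h2 : max (u (z + circleMap 0 1 θ • v)) (m : EReal) ≤ ((max M m : ℝ) : EReal) := by
    rw [EReal.coe_strictMono.monotone.map_max]
    exact max_le_max h1 le_rfl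
  have h3 : (m : EReal) ≤ max (u (z + circleMap 0 1 θ • v)) (m : EReal) := le_max_right _ _
  have hne1 : max (u (z + circleMap 0 1 θ • v)) (m : EReal) ≠ ⊤ :=
    ne_top_of_le_ne_top (EReal.coe_ne_top _) h2
  have hne2 : max (u (z + circleMap 0 1 θ • v)) (m : EReal) ≠ ⊥ :=
    ne_bot_of_le_ne_bot (EReal.coe_ne_bot _) h3
  have h4 : (max (u (z + circleMap 0 1 θ • v)) (m : EReal)).toReal ≤ max M m := by
    rw [← EReal.coe_le_coe_iff, EReal.coe_toReal hne1 hne2]; exact h2
  have h5 : m ≤ (max (u (z + circleMap 0 1 θ • v)) (m : EReal)).toReal := by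
    rw [← EReal.coe_le_coe_iff, EReal.coe_toReal hne1 hne2]; exact h3
  rw [Real.norm_eq_abs]
  exact abs_le_max_abs_abs h5 h4

lemma circleIntegrable_of_cont {g : ℂ → ℝ} (hg : Continuous g) : CircleIntegrable g 0 1 := by
  apply Continuous.intervalIntegrable
  have : Continuous (fun θ : ℝ => circleMap 0 1 θ) := continuous_circleMap 0 1
  fun_prop

/-- the convex function `max (‖z_i - a_i‖² - r²) 0` -/
noncomputable def phi (a : Fin n → ℂ) (i : Fin n) (r : ℝ) (z : Fin n → ℂ) : ℝ :=
  max (‖z i - a i‖ ^ 2 - r ^ 2) 0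

lemma phi_cont (a : Fin n → ℂ) (i : Fin n) (r : ℝ) : Continuous (phi a i r) := by
  unfold phi
  fun_prop

lemma phi_psh (a : Fin n → ℂ) (i : Fin n) (r : ℝ) (Ω : Set (Fin n → ℂ)) :
    IsPSH Ω (fun z => (phi a i r z : EReal)) where
  lt_top := fun z _ => EReal.coe_lt_top _
  usc := by
    have : Continuous (fun z => (phi a i r z : EReal)) :=
      continuous_coe_real_ereal.comp (phi_cont a i r)
    exact this.upperSemicontinuous.upperSemicontinuousOn _
  submean := by
    intro z v _ m
    have hF : ∀ ζ : ℂ, (max ((phi a i r (z + ζ • v) : ℝ) : EReal) (m : EReal)).toReal =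
        max (phi a i r (z + ζ • v)) m := by
      intro ζ
      rw [← EReal.coe_strictMono.monotone.map_max, EReal.toReal_coe]
    simp_rw [hF]
    rw [EReal.coe_le_coe_iff]
    have hcont : Continuous (fun ζ : ℂ => max (phi a i r (z + ζ • v)) m) := by
      have := phi_cont a i r
      fun_prop
    have key : ∃ b : ℂ, ∀ ζ : ℂ, ‖ζ‖ = 1 → phi a i r z + (b * ζ).re ≤ phi a i r (z + ζ • v) := by
      by_cases h : ‖z i - a i‖ ^ 2 - r ^ 2 ≤ 0
      · refine ⟨0, fun ζ _ => ?_⟩
        have : phi a i r z = 0 := max_eq_right h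
        rw [this]
        simp only [zero_mul, Complex.zero_re, add_zero]
        exact le_max_right _ _
      · refine ⟨2 * (starRingEnd ℂ (z i - a i)) * v i, fun ζ _ => ?_⟩
        have : phi a i r z = ‖z i - a i‖ ^ 2 - r ^ 2 := max_eq_left (not_le.mp h).le
        rw [this]
        refine le_trans ?_ (le_max_left _ _)
        have e1 : (z + ζ • v) i - a i = (z i - a i) + ζ * v i := by
          simp; ring
        rw [e1, ← Complex.normSq_eq_norm_sq, ← Complex.normSq_eq_norm_sq, Complex.normSq_add]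
        have e2 : 0 ≤ Complex.normSq (ζ * v i) := Complex.normSq_nonneg _
        have e3 : ((z i - a i) * (starRingEnd ℂ) (ζ * v i)).re =
            ((starRingEnd ℂ (z i - a i)) * v i * ζ).re := by
          rw [← Complex.conj_re]
          congr 1
          simp
          ring
        rw [e3]
        have e4 : (2 * (starRingEnd ℂ) (z i - a i) * v i * ζ).re =
            2 * ((starRingEnd ℂ) (z i - a i) * v i * ζ).re := by
          rw [show 2 * (starRingEnd ℂ) (z i - a i) * v i * ζ =
            ((2:ℝ) : ℂ) * ((starRingEnd ℂ) (z i - a i) * v i * ζ) by push_cast; ring,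
            Complex.re_ofReal_mul]
        rw [e4]
        linarith
    obtain ⟨b, hb⟩ := key
    calc phi a i r z = Real.circleAverage (fun ζ : ℂ => phi a i r z + (b * ζ).re) 0 1 :=
          (circleAverage_affine _ _).symm
      _ ≤ Real.circleAverage (fun ζ : ℂ => max (phi a i r (z + ζ • v)) m) 0 1 := by
          refine Real.circleAverage_mono (circleIntegrable_affine _ _)
            (circleIntegrable_of_cont hcont) fun ζ hζ => ?_
          have : ‖ζ‖ = 1 := by simpa using hζ
          exact (hb ζ this).trans (le_max_left _ _)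

lemma circle_mem_ex {a : Fin n → ℂ} {i : Fin n} {r : ℝ} (hr : 0 < r) {Ω : Set (Fin n → ℂ)}
    {z : Fin n → ℂ} (hz : z ∈ Ω) (hzr : ‖z i - a i‖ = r) :
    z ∈ ExSet Ω (fun z => (phi a i r z : EReal)) := by
  refine ⟨hz, ?_⟩
  rintro ⟨V, hV, hzV, hVΩ, q, hq, hmax⟩
  have hz0 : phi a i r z = 0 := by unfold phi; rw [hzr]; simp
  -- unit outward direction
  set d : Fin n → ℂ := Pi.single i ((z i - a i) / r) with hd
  have hγ : HasDerivAt (fun t : ℝ => z + (t:ℂ) • d) d 0 := by
    have h1 : HasDerivAt (fun t : ℝ => ((t:ℂ)) • d) ((1:ℂ) • d) 0 :=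
      (Complex.ofRealCLM.hasDerivAt (x := (0:ℝ))).smul_const d
    rw [one_smul] at h1
    exact h1.const_add z
  have hqd : DifferentiableAt ℝ q z :=
    (hq.contDiffAt (hV.mem_nhds hzV)).differentiableAt (by norm_num)
  have hQ : HasDerivAt (fun t : ℝ => q (z + (t:ℂ) • d)) (fderiv ℝ q z d) 0 := by
    have h1 : HasFDerivAt q (fderiv ℝ q z) (z + ((0:ℝ):ℂ) • d) := by simpa using hqd.hasFDerivAt
    exact h1.comp_hasDerivAt 0 hγ
  set D : ℝ := fderiv ℝ q z d with hD
  have hcontγ : Tendsto (fun t : ℝ => z + (t:ℂ) • d) (𝓝 0) (𝓝 z) := by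
    have := hγ.continuousAt.tendsto
    simpa using this
  have hev : ∀ᶠ t : ℝ in 𝓝 0, z + (t:ℂ) • d ∈ V := hcontγ.eventually (hV.mem_nhds hzV)
  have hval : ∀ t : ℝ, -r ≤ t → ‖(z + (t:ℂ) • d) i - a i‖ = r + t := by
    intro t ht
    have : (z + (t:ℂ) • d) i - a i = ((((r + t) / r : ℝ)) : ℂ) * (z i - a i) := by
      have hrc : (r : ℂ) ≠ 0 := by exact_mod_cast hr.ne'
      simp [hd]
      field_simp
      ring
    rw [this, norm_mul, Complex.norm_real, Real.norm_eq_abs, hzr, abs_of_nonneg (by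
      apply div_nonneg _ hr.le; linarith)]
    field_simp
  have hineq : ∀ᶠ t : ℝ in 𝓝 0, phi a i r (z + (t:ℂ) • d) ≤ q (z + (t:ℂ) • d) - q z := by
    filter_upwards [hev] with t ht
    have h1 := hmax _ ht
    simp only at h1
    rw [hz0, ← EReal.coe_sub, ← EReal.coe_sub, EReal.coe_le_coe_iff] at h1
    linarith
  -- left derivative ≤ 0, right derivative ≥ 2r
  have hslope := hasDerivAt_iff_tendsto_slope.mp hQ
  have h0 : q (z + ((0:ℝ):ℂ) • d) = q z := by simp
  have hpos : 2 * r ≤ D := by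
    have h1 : Tendsto (slope (fun t : ℝ => q (z + (t:ℂ) • d)) 0) (𝓝[>] 0) (𝓝 D) :=
      hslope.mono_left (nhdsWithin_mono _ (fun x hx => (ne_of_gt hx : x ≠ 0)))
    refine ge_of_tendsto h1 ?_
    filter_upwards [self_mem_nhdsWithin, nhdsWithin_le_nhds hineq] with t ht hi
    have ht0 : (0:ℝ) < t := ht
    rw [slope_def_field, h0, sub_zero, le_div_iff₀ ht0]
    have h2 : phi a i r (z + (t:ℂ) • d) = (r + t) ^ 2 - r ^ 2 := by
      unfold phi
      rw [hval t (by linarith)]
      exact max_eq_left (by nlinarith)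
    rw [h2] at hi
    nlinarith
  have hneg : D ≤ 0 := by
    have h1 : Tendsto (slope (fun t : ℝ => q (z + (t:ℂ) • d)) 0) (𝓝[<] 0) (𝓝 D) :=
      hslope.mono_left (nhdsWithin_mono _ (fun x hx => (ne_of_lt hx : x ≠ 0)))
    refine le_of_tendsto h1 ?_
    filter_upwards [self_mem_nhdsWithin, nhdsWithin_le_nhds hineq] with t ht hi
    have ht0 : t < (0:ℝ) := ht
    rw [slope_def_field, h0, sub_zero]
    have h2 : 0 ≤ phi a i r (z + (t:ℂ) • d) := le_max_right _ _
    exact div_nonpos_of_nonneg_of_nonpos (by linarith) ht0.le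
  linarith

end Pool.Agent.V1282.Ps
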