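import Pool.Agent.V1282.PsA

open Set Filter Topology MeasureTheory

set_option autoImplicit false
set_option linter.all false

namespace Pool.Agent.V1282.Ps

variable {n : ℕ} {Ω : Set (Fin n → ℂ)} {u : (Fin n → ℂ) → EReal}

/-- the basic consequence of the sub-mean value inequality -/
lemma le_mean (hΩ : IsOpen Ω) (hu : IsPSH Ω u) (z v : Fin n → ℂ)
    (hd : ∀ ζ : ℂ, ‖ζ‖ ≤ 1 → z + ζ • v ∈ Ω) (m : ℝ) (g : ℂ → ℝ) (hg : CircleIntegrable g 0 1)
    (hle : ∀ ζ : ℂ, ‖ζ‖ = 1 → max (u (z + ζ • v)) (m : EReal) ≤ (g ζ : EReal)) :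
    u z ≤ ((Real.circleAverage g 0 1 : ℝ) : EReal) := by
  refine (hu.submean z v hd m).trans ?_
  rw [EReal.coe_le_coe_iff]
  refine Real.circleAverage_mono (circleIntegrable_trunc hΩ hu.lt_top hu.usc z v
    (fun ζ h => hd ζ h.le) m) hg fun ζ hζ => ?_
  have h1 : ‖ζ‖ = 1 := by simpa using hζ
  have h2 := hle ζ h1
  have hne1 : max (u (z + ζ • v)) (m : EReal) ≠ ⊤ := ne_top_of_le_ne_top (EReal.coe_ne_top _) h2
  have hne2 : max (u (z + ζ • v)) (m : EReal) ≠ ⊥ :=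
    ne_bot_of_le_ne_bot (EReal.coe_ne_bot _) (le_max_right _ _)
  rw [← EReal.coe_le_coe_iff, EReal.coe_toReal hne1 hne2]
  exact h2

lemma usc_disc (hΩ : IsOpen Ω) (hu : IsPSH Ω u) (z v : Fin n → ℂ)
    (hd : ∀ ζ : ℂ, ‖ζ‖ ≤ 1 → z + ζ • v ∈ Ω) :
    UpperSemicontinuousOn (fun ζ : ℂ => u (z + ζ • v)) (Metric.closedBall 0 1) := by
  intro ζ hζ y hy
  have hin : z + ζ • v ∈ Ω := hd ζ (by simpa using hζ)
  have h1 := hu.usc _ hin y hy
  rw [hΩ.nhdsWithin_eq hin] at h1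
  have hc : Continuous (fun ζ : ℂ => z + ζ • v) := by fun_prop
  exact nhdsWithin_le_nhds (hc.continuousAt.eventually h1)

/-- maximum principle: if `u = -∞` on the boundary of a disc, then also inside. -/
lemma disc_bot (hΩ : IsOpen Ω) (hu : IsPSH Ω u) (z v : Fin n → ℂ)
    (hd : ∀ ζ : ℂ, ‖ζ‖ ≤ 1 → z + ζ • v ∈ Ω) (hb : ∀ ζ : ℂ, ‖ζ‖ = 1 → u (z + ζ • v) = ⊥) :
    ∀ ζ : ℂ, ‖ζ‖ ≤ 1 → u (z + ζ • v) = ⊥ := by
  have husc := usc_disc hΩ hu z v hd
  have hq : ContinuousOn (fun ζ : ℂ => ((‖ζ‖ ^ 2 : ℝ) : EReal)) (Metric.closedBall 0 1) := by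
    apply Continuous.continuousOn
    exact continuous_coe_real_ereal.comp (by fun_prop)
  have hsum : UpperSemicontinuousOn (fun ζ : ℂ => u (z + ζ • v) + ((‖ζ‖ ^ 2 : ℝ) : EReal))
      (Metric.closedBall 0 1) := by
    refine UpperSemicontinuousOn.add' husc hq.upperSemicontinuousOn ?_
    intro ζ _
    exact EReal.continuousAt_add (Or.inr (EReal.coe_ne_bot _)) (Or.inr (EReal.coe_ne_top _))
  obtain ⟨ζ0, hζ0, hmax⟩ := UpperSemicontinuousOn.exists_isMaxOn
    (s := Metric.closedBall (0:ℂ) 1) ⟨0, by simp⟩ (isCompact_closedBall _ _) hsum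
  have hζ0' : ‖ζ0‖ ≤ 1 := by simpa using hζ0
  have hmax' : ∀ ζ : ℂ, ‖ζ‖ ≤ 1 → u (z + ζ • v) + ((‖ζ‖ ^ 2 : ℝ) : EReal) ≤
      u (z + ζ0 • v) + ((‖ζ0‖ ^ 2 : ℝ) : EReal) := fun ζ h => hmax (by simpa using h)
  by_cases hbot : u (z + ζ0 • v) = ⊥
  · intro ζ hζ
    have h1 := hmax' ζ hζ
    rw [hbot, EReal.bot_add, le_bot_iff, EReal.add_eq_bot_iff] at h1
    rcases h1 with h | h
    · exact h
    · exact absurd h (EReal.coe_ne_bot _)
  exfalso
  have hne : ‖ζ0‖ < 1 := by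
    rcases lt_or_eq_of_le hζ0' with h | h
    · exact h
    · exact absurd (hb ζ0 h) hbot
  have hnt : u (z + ζ0 • v) ≠ ⊤ := (hu.lt_top _ (hd _ hζ0')).ne
  obtain ⟨U, hU⟩ : ∃ U : ℝ, u (z + ζ0 • v) = (U : EReal) :=
    ⟨(u (z + ζ0 • v)).toReal, (EReal.coe_toReal hnt hbot).symm⟩
  set ρ : ℝ := 1 - ‖ζ0‖ with hρ
  have hρ0 : 0 < ρ := by linarith
  have hin : ∀ ξ : ℂ, ‖ξ‖ ≤ 1 → ‖ζ0 + ρ * ξ‖ ≤ 1 := by
    intro ξ hξ
    calc ‖ζ0 + ρ * ξ‖ ≤ ‖ζ0‖ + ‖(ρ:ℂ) * ξ‖ := norm_add_le _ _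
      _ = ‖ζ0‖ + ρ * ‖ξ‖ := by rw [norm_mul, Complex.norm_real, Real.norm_eq_abs, abs_of_pos hρ0]
      _ ≤ ‖ζ0‖ + ρ * 1 := by gcongr
      _ = 1 := by rw [hρ]; ring
  have hdisc : ∀ ξ : ℂ, z + ζ0 • v + ξ • ((ρ:ℂ) • v) = z + (ζ0 + ρ * ξ) • v := by
    intro ξ
    rw [smul_smul, add_smul, mul_comm, add_assoc]
  have hsq : ∀ ξ : ℂ, ‖ξ‖ = 1 → ‖ζ0 + ρ * ξ‖ ^ 2 =
      ‖ζ0‖ ^ 2 + ρ ^ 2 + ((2 * ρ * (starRingEnd ℂ) ζ0) * ξ).re := by
    intro ξ hξ
    rw [← Complex.normSq_eq_norm_sq, ← Complex.normSq_eq_norm_sq, Complex.normSq_add]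
    have e1 : Complex.normSq ((ρ:ℂ) * ξ) = ρ ^ 2 := by
      rw [Complex.normSq_eq_norm_sq, norm_mul, hξ, Complex.norm_real, Real.norm_eq_abs, mul_one, sq_abs]
    have e2 : (ζ0 * (starRingEnd ℂ) ((ρ:ℂ) * ξ)).re = ρ * ((starRingEnd ℂ) ζ0 * ξ).re := by
      rw [← Complex.conj_re, ← Complex.re_ofReal_mul]
      congr 1
      simp
      ring
    have e3 : ((2 * ρ * (starRingEnd ℂ) ζ0) * ξ).re = 2 * (ρ * ((starRingEnd ℂ) ζ0 * ξ).re) := by
      rw [← Complex.re_ofReal_mul, show (2 * (ρ:ℂ) * (starRingEnd ℂ) ζ0) * ξ =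
        ((2:ℝ):ℂ) * (ρ * ((starRingEnd ℂ) ζ0 * ξ)) by push_cast; ring, Complex.re_ofReal_mul]
    rw [e1, e2, e3]
  have hfin := le_mean hΩ hu (z + ζ0 • v) ((ρ:ℂ) • v)
    (fun ξ hξ => by rw [hdisc]; exact hd _ (hin ξ hξ)) (U + ‖ζ0‖ ^ 2 - 1)
    (fun ξ => U + ‖ζ0‖ ^ 2 - (‖ζ0‖ ^ 2 + ρ ^ 2) + ((-(2 * ρ * (starRingEnd ℂ) ζ0)) * ξ).re)
    (circleIntegrable_affine _ _) (fun ξ hξ => by
      rw [hdisc]
      have hval : U + ‖ζ0‖ ^ 2 - (‖ζ0‖ ^ 2 + ρ ^ 2) + ((-(2 * ρ * (starRingEnd ℂ) ζ0)) * ξ).re =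
          U + ‖ζ0‖ ^ 2 - ‖ζ0 + ρ * ξ‖ ^ 2 := by
        rw [hsq ξ hξ, neg_mul, Complex.neg_re]; ring
      rw [hval]
      refine max_le ?_ ?_
      · have h1 := hmax' (ζ0 + ρ * ξ) (hin ξ hξ.le)
        rw [hU, ← EReal.coe_add] at h1
        rw [EReal.coe_sub]
        rw [EReal.le_sub_iff_add_le (Or.inl (EReal.coe_ne_bot _)) (Or.inl (EReal.coe_ne_top _))]
        exact h1
      · rw [EReal.coe_le_coe_iff]
        have := hin ξ hξ.le
        have := norm_nonneg (ζ0 + ρ * ξ)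
        nlinarith)
  rw [circleAverage_affine, hU, EReal.coe_le_coe_iff] at hfin
  have : 0 < ρ ^ 2 := by positivity
  linarith

/-- if `u = -∞` on the part of the circle near `1`, then `u = -∞` at the centre. -/
lemma arc_bot (hΩ : IsOpen Ω) (hu : IsPSH Ω u) (z v : Fin n → ℂ)
    (hd : ∀ ζ : ℂ, ‖ζ‖ ≤ 1 → z + ζ • v ∈ Ω)
    (hb : ∀ᶠ w in 𝓝 (z + v), u w = ⊥) : u z = ⊥ := by
  -- an upper bound on the circle
  have husc := usc_disc hΩ hu z v hd
  obtain ⟨ζ0, hζ0, hmax⟩ := UpperSemicontinuousOn.exists_isMaxOn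
    (s := Metric.closedBall (0:ℂ) 1) ⟨0, by simp⟩ (isCompact_closedBall _ _) husc
  obtain ⟨M, hM⟩ : ∃ M : ℝ, u (z + ζ0 • v) ≤ (M : EReal) := by
    obtain ⟨M, hM⟩ := EReal.lt_iff_exists_real_btwn.mp (hu.lt_top _ (hd ζ0 (by simpa using hζ0)))
    exact ⟨M, hM.1.le⟩
  have hMall : ∀ ζ : ℂ, ‖ζ‖ ≤ 1 → u (z + ζ • v) ≤ (M : EReal) := fun ζ h =>
    (hmax (by simpa using h)).trans hM
  -- the arc
  have hc : Continuous (fun θ : ℝ => z + circleMap 0 1 θ • v) := by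
    have : Continuous (fun θ : ℝ => circleMap 0 1 θ) := continuous_circleMap 0 1
    fun_prop
  have h0 : (fun θ : ℝ => z + circleMap 0 1 θ • v) 0 = z + v := by simp [circleMap]
  have hev : ∀ᶠ θ : ℝ in 𝓝 0, u (z + circleMap 0 1 θ • v) = ⊥ := by
    have := hc.continuousAt (x := (0:ℝ))
    unfold ContinuousAt at this
    rw [h0] at this
    exact this.eventually hb
  obtain ⟨η, hη, hηb⟩ := Metric.eventually_nhds_iff.mp hev
  set η' : ℝ := min (η / 2) 1 with hη'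
  have hη'0 : 0 < η' := by positivity
  have hη'1 : η' < 2 * Real.pi := by
    have := Real.pi_gt_three
    have := min_le_right (η / 2) 1
    linarith
  have hbot : ∀ θ ∈ Icc (0:ℝ) η', u (z + circleMap 0 1 θ • v) = ⊥ := by
    intro θ hθ
    apply hηb
    rw [Real.dist_eq, sub_zero, abs_of_nonneg hθ.1]
    have := min_le_left (η / 2) 1
    linarith [hθ.2]
  -- choose m
  have key : ∀ m : ℝ, m ≤ M → u z ≤ (((2 * Real.pi)⁻¹ * (η' * m + (2 * Real.pi - η') * M) : ℝ) : EReal) := by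
    intro m hm
    refine (hu.submean z v hd m).trans ?_
    rw [EReal.coe_le_coe_iff, Real.circleAverage_def, smul_eq_mul]
    have hint : IntervalIntegrable (fun θ : ℝ => (max (u (z + circleMap 0 1 θ • v)) (m : EReal)).toReal)
        volume 0 (2 * Real.pi) :=
      circleIntegrable_trunc hΩ hu.lt_top hu.usc z v (fun ζ h => hd ζ h.le) m
    have hi1 : IntervalIntegrable (fun θ : ℝ => (max (u (z + circleMap 0 1 θ • v)) (m : EReal)).toReal)
        volume 0 η' := hint.mono_set (by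
      rw [uIcc_of_le hη'0.le, uIcc_of_le (by linarith)]
      exact Icc_subset_Icc_right hη'1.le)
    have hi2 : IntervalIntegrable (fun θ : ℝ => (max (u (z + circleMap 0 1 θ • v)) (m : EReal)).toReal)
        volume η' (2 * Real.pi) := hint.mono_set (by
      rw [uIcc_of_le hη'1.le, uIcc_of_le (by linarith)]
      exact Icc_subset_Icc_left hη'0.le)
    rw [← intervalIntegral.integral_add_adjacent_intervals hi1 hi2]
    have b1 : ∫ θ in (0:ℝ)..η', (max (u (z + circleMap 0 1 θ • v)) (m : EReal)).toReal = η' * m := by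
      have : ∀ θ ∈ uIcc (0:ℝ) η', (max (u (z + circleMap 0 1 θ • v)) (m : EReal)).toReal = m := by
        intro θ hθ
        rw [uIcc_of_le hη'0.le] at hθ
        rw [hbot θ hθ, max_eq_right bot_le, EReal.toReal_coe]
      rw [intervalIntegral.integral_congr this]
      simp
    have b2 : ∫ θ in η'..(2 * Real.pi), (max (u (z + circleMap 0 1 θ • v)) (m : EReal)).toReal ≤
        (2 * Real.pi - η') * M := by
      have : ∫ θ in η'..(2 * Real.pi), M = (2 * Real.pi - η') * M := by simp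
      rw [← this]
      refine intervalIntegral.integral_mono_on hη'1.le hi2 (by simp) fun θ hθ => ?_
      have h1 : u (z + circleMap 0 1 θ • v) ≤ (M : EReal) := hMall _ (by simp)
      have h2 : max (u (z + circleMap 0 1 θ • v)) (m : EReal) ≤ (M : EReal) :=
        max_le h1 (by rw [EReal.coe_le_coe_iff]; exact hm)
      have hne1 := ne_top_of_le_ne_top (EReal.coe_ne_top _) h2
      have hne2 : max (u (z + circleMap 0 1 θ • v)) (m : EReal) ≠ ⊥ :=
        ne_bot_of_le_ne_bot (EReal.coe_ne_bot _) (le_max_right _ _)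
      rw [← EReal.coe_le_coe_iff, EReal.coe_toReal hne1 hne2]
      exact h2
    rw [b1]
    have := Real.pi_pos
    gcongr
  by_contra hne
  have hnt : u z ≠ ⊤ := (hu.lt_top z (by simpa using hd 0 (by simp))).ne
  obtain ⟨U, hU⟩ : ∃ U : ℝ, u z = (U : EReal) := ⟨(u z).toReal, (EReal.coe_toReal hnt hne).symm⟩
  have hpi := Real.pi_pos
  set m : ℝ := min M ((2 * Real.pi * U - (2 * Real.pi - η') * M) / η' - 1) with hm
  have h1 := key m (min_le_left _ _)
  rw [hU, EReal.coe_le_coe_iff] at h1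
  have h2 : m ≤ (2 * Real.pi * U - (2 * Real.pi - η') * M) / η' - 1 := min_le_right _ _
  have h3 : η' * m ≤ 2 * Real.pi * U - (2 * Real.pi - η') * M - η' := by
    calc η' * m ≤ η' * ((2 * Real.pi * U - (2 * Real.pi - η') * M) / η' - 1) := by gcongr
      _ = _ := by field_simp
  have h4 : (2 * Real.pi)⁻¹ * (η' * m + (2 * Real.pi - η') * M) ≤
      (2 * Real.pi)⁻¹ * (2 * Real.pi * U - η') := by
    gcongr
    linarith
  have h5 : (2 * Real.pi)⁻¹ * (2 * Real.pi * U - η') = U - η' / (2 * Real.pi) := by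
    field_simp
  have h6 : 0 < η' / (2 * Real.pi) := by positivity
  linarith

/-- A plurisubharmonic function on a connected open set which is `-∞` on a nonempty open subset is
`-∞` everywhere. -/
lemma bot_of_open (hΩ : IsOpen Ω) (hconn : IsPreconnected Ω) (hu : IsPSH Ω u) {a : Fin n → ℂ}
    (ha : a ∈ Ω) (hb : ∀ᶠ w in 𝓝 a, u w = ⊥) : ∀ z ∈ Ω, u z = ⊥ := by
  set A : Set (Fin n → ℂ) := interior {z | u z = ⊥} with hA
  have haA : a ∈ A := mem_interior_iff_mem_nhds.mpr hb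
  have hsub : Ω ⊆ A := by
    refine hconn.subset_of_closure_inter_subset isOpen_interior ⟨a, ha, haA⟩ ?_
    rintro z ⟨hz1, hz2⟩
    obtain ⟨R, hR, hRsub⟩ := Metric.isOpen_iff.mp hΩ z hz2
    set s : ℝ := R / 4 with hs
    have hs0 : 0 < s := by positivity
    obtain ⟨w, hwA, hwz⟩ := Metric.mem_closure_iff.mp hz1 s hs0
    rw [hA, mem_interior_iff_mem_nhds]
    refine mem_of_superset (Metric.ball_mem_nhds z hs0) ?_
    intro p hp
    have hpz : dist p z < s := hp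
    refine arc_bot hΩ hu p (w - p) (fun ζ hζ => hRsub ?_) ?_
    · rw [Metric.mem_ball, dist_eq_norm]
      have e1 : p + ζ • (w - p) - z = (p - z) + ζ • (w - p) := by abel
      rw [e1]
      have e2 : ‖w - p‖ ≤ 2 * s := by
        rw [← dist_eq_norm]
        have := dist_triangle w z p
        rw [dist_comm w z, dist_comm z p] at this
        linarith
      calc ‖(p - z) + ζ • (w - p)‖ ≤ ‖p - z‖ + ‖ζ • (w - p)‖ := norm_add_le _ _
        _ = dist p z + ‖ζ‖ * ‖w - p‖ := by rw [norm_smul, dist_eq_norm]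
        _ ≤ dist p z + 1 * (2 * s) := by gcongr
        _ < R := by rw [hs] at *; linarith
    · rw [add_sub_cancel]
      exact mem_interior_iff_mem_nhds.mp hwA
  intro z hz
  have := interior_subset (hsub hz)
  exact this

/-- the exceptional set of `phi a i r` is not pluripolar -/
lemma not_pluripolar (hΩ : IsOpen Ω) (hconn : IsPreconnected Ω) {a : Fin n → ℂ} {i : Fin n} {r : ℝ}
    (hr : 0 < r) (hball : Metric.ball a (2 * r) ⊆ Ω) :
    ¬ IsPluripolar Ω (ExSet Ω (fun z => (phi a i r z : EReal))) := by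
  rintro ⟨u, hu, ⟨z0, hz0, hne⟩, hbot⟩
  refine hne (bot_of_open hΩ hconn hu (a := a) (hball (by simp [hr])) ?_ z0 hz0)
  have hball' : Metric.ball a r ∈ 𝓝 a := Metric.ball_mem_nhds a hr
  filter_upwards [hball'] with w hw
  -- the disc through `w` in the direction `i`
  set p : Fin n → ℂ := Function.update w i (a i) with hp
  set v : Fin n → ℂ := Pi.single i (r:ℂ) with hv
  have hcoord : ∀ ζ : ℂ, p + ζ • v = Function.update w i (a i + ζ * r) := by
    intro ζ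
    ext k
    by_cases hk : k = i
    · subst hk; simp [hp, hv]
    · simp [hp, hv, hk]
  have hdist : ∀ ζ : ℂ, ‖ζ‖ ≤ 1 → p + ζ • v ∈ Metric.ball a (2 * r) := by
    intro ζ hζ
    rw [hcoord, Metric.mem_ball, dist_pi_lt_iff (by positivity)]
    intro k
    by_cases hk : k = i
    · subst hk
      simp only [Function.update_self, dist_eq_norm, add_sub_cancel_left]
      rw [norm_mul, Complex.norm_real, Real.norm_eq_abs, abs_of_pos hr]
      nlinarith
    · rw [Function.update_of_ne hk]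
      have := (dist_pi_lt_iff hr).mp hw k
      linarith
  have hall := disc_bot hΩ hu p v (fun ζ hζ => hball (hdist ζ hζ)) (fun ζ hζ => by
    apply hbot
    refine circle_mem_ex hr (hball (hdist ζ hζ.le)) ?_
    rw [hcoord]
    simp only [Function.update_self, add_sub_cancel_left]
    rw [norm_mul, hζ, Complex.norm_real, Real.norm_eq_abs, abs_of_pos hr, one_mul])
  have hw1 : ‖(w i - a i) / r‖ ≤ 1 := by
    rw [norm_div, Complex.norm_real, Real.norm_eq_abs, abs_of_pos hr, div_le_one hr, ← dist_eq_norm]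
    exact ((dist_pi_lt_iff hr).mp hw i).le
  have h1 := hall _ hw1
  rw [hcoord] at h1
  have h2 : Function.update w i (a i + (w i - a i) / r * r) = w := by
    have hrc : (r:ℂ) ≠ 0 := by exact_mod_cast hr.ne'
    rw [div_mul_cancel₀ _ hrc, add_sub_cancel, Function.update_eq_self]
  rw [h2] at h1
  exact h1

end Pool.Agent.V1282.Ps
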