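import Mathlib

open Set Filter Topology

set_option linter.all false

namespace Pool.Agent.V1282.Sc

/-- The coefficients of the filter. -/
structure Coef where
  u : ℝ
  d0 : ℝ
  d1 : ℝ
  d2 : ℝ
  d3 : ℝ
  s02 : d0 + d2 = 1
  s13 : d1 + d3 = 1
  o2 : d0 * d2 + d1 * d3 = 0
  n2 : d0 ^ 2 + d1 ^ 2 + d2 ^ 2 + d3 ^ 2 = 2
  e23 : d2 - d3 = u
  e10 : d1 - d0 = u
  card : d0 * (d1 + d2) = 1
  hu1 : 543 / 1000 ≤ u
  hu2 : u ≤ 544 / 1000
  hd01 : 64 / 100 ≤ d0
  hd02 : d0 ≤ 6482 / 10000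
  hd31 : -(1917 / 10000) ≤ d3
  hd32 : d3 ≤ -(19 / 100)

lemma exists_coef : Nonempty Coef := by
  have hc : ContinuousOn (fun x : ℝ => x ^ 3 + x ^ 2 + x) (Icc (543 / 1000) (544 / 1000)) := by
    fun_prop
  have h1 := intermediate_value_Icc (by norm_num : (543 / 1000 : ℝ) ≤ 544 / 1000) hc
  have h2 : (1 : ℝ) ∈ Icc ((543 / 1000 : ℝ) ^ 3 + (543 / 1000 : ℝ) ^ 2 + (543 / 1000 : ℝ))
      ((544 / 1000 : ℝ) ^ 3 + (544 / 1000 : ℝ) ^ 2 + (544 / 1000 : ℝ)) := by
    constructor <;> norm_num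
  obtain ⟨u, ⟨hu1, hu2⟩, hu⟩ := h1 h2
  have hu : u ^ 3 + u ^ 2 + u = 1 := hu
  have hp : 0 < 1 + u ^ 2 := by positivity
  have hu0 : 0 < u := by linarith
  refine ⟨{ u := u, d0 := u * (1 + u) / (1 + u ^ 2), d1 := (1 + u) / (1 + u ^ 2),
            d2 := (1 - u) / (1 + u ^ 2), d3 := -(u * (1 - u) / (1 + u ^ 2)),
            s02 := ?_, s13 := ?_, o2 := ?_, n2 := ?_, e23 := ?_, e10 := ?_, card := ?_,
            hu1 := hu1, hu2 := hu2, hd01 := ?_, hd02 := ?_, hd31 := ?_, hd32 := ?_ }⟩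
  · field_simp; ring
  · field_simp; ring
  · field_simp; ring
  · field_simp; ring
  · field_simp; linear_combination -hu
  · field_simp; linear_combination -hu
  · field_simp; linear_combination (1 - u) * hu
  · rw [le_div_iff₀ hp]; nlinarith
  · rw [div_le_iff₀ hp]; nlinarith
  · rw [neg_le_neg_iff, div_le_iff₀ hp]; nlinarith
  · rw [neg_le_neg_iff, le_div_iff₀ hp]; nlinarith

variable (c : Coef)

/-- the transfer operator -/
noncomputable def W (F : ℝ → ℝ) (t : ℝ) : ℝ :=
  c.d0 * F (2 * t) + c.d1 * F (2 * t - 1) + c.d2 * F (2 * t - 2) + c.d3 * F (2 * t - 3)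

/-- zero off `(0,3)` and constant periodisation `s` -/
structure P (F : ℝ → ℝ) (s : ℝ) : Prop where
  cont : Continuous F
  lo : ∀ t, t ≤ 0 → F t = 0
  hi : ∀ t, 3 ≤ t → F t = 0
  sum : ∀ x, 0 ≤ x → x ≤ 1 → F x + F (x + 1) + F (x + 2) = s

variable {c}

lemma W_l0 {F : ℝ → ℝ} {s : ℝ} (h : P F s) {x : ℝ} (h0 : 0 ≤ x) (h1 : x ≤ 1 / 2) :
    W c F x = c.d0 * F (2 * x) := by
  unfold W
  rw [h.lo (2 * x - 1) (by linarith), h.lo (2 * x - 2) (by linarith), h.lo (2 * x - 3) (by linarith)]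
  ring

lemma W_l1 {F : ℝ → ℝ} {s : ℝ} (h : P F s) {x : ℝ} (h0 : 0 ≤ x) (h1 : x ≤ 1 / 2) :
    W c F (x + 1) = c.d0 * F (2 * x + 2) + c.d1 * F (2 * x + 1) + c.d2 * F (2 * x) := by
  unfold W
  rw [show 2 * (x + 1) = 2 * x + 2 by ring, show 2 * x + 2 - 1 = 2 * x + 1 by ring,
    show 2 * x + 2 - 2 = 2 * x by ring, h.lo (2 * x + 2 - 3) (by linarith)]
  ring

lemma W_l2 {F : ℝ → ℝ} {s : ℝ} (h : P F s) {x : ℝ} (h0 : 0 ≤ x) (h1 : x ≤ 1 / 2) :
    W c F (x + 2) = c.d2 * F (2 * x + 2) + c.d3 * F (2 * x + 1) := by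
  unfold W
  rw [show 2 * (x + 2) - 2 = 2 * x + 2 by ring, show 2 * (x + 2) - 3 = 2 * x + 1 by ring,
    h.hi (2 * (x + 2)) (by linarith), h.hi (2 * (x + 2) - 1) (by linarith)]
  ring

lemma W_r0 {F : ℝ → ℝ} {s : ℝ} (h : P F s) {x : ℝ} (h0 : 1 / 2 ≤ x) (h1 : x ≤ 1) :
    W c F x = c.d0 * F (2 * x - 1 + 1) + c.d1 * F (2 * x - 1) := by
  unfold W
  rw [show 2 * x - 1 + 1 = 2 * x by ring, h.lo (2 * x - 2) (by linarith),
    h.lo (2 * x - 3) (by linarith)]
  ring

lemma W_r1 {F : ℝ → ℝ} {s : ℝ} (h : P F s) {x : ℝ} (h0 : 1 / 2 ≤ x) (h1 : x ≤ 1) :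
    W c F (x + 1) = c.d1 * F (2 * x - 1 + 2) + c.d2 * F (2 * x - 1 + 1) + c.d3 * F (2 * x - 1) := by
  unfold W
  rw [show 2 * (x + 1) - 1 = 2 * x - 1 + 2 by ring, show 2 * (x + 1) - 2 = 2 * x - 1 + 1 by ring,
    show 2 * (x + 1) - 3 = 2 * x - 1 by ring, h.hi (2 * (x + 1)) (by linarith)]
  ring

lemma W_r2 {F : ℝ → ℝ} {s : ℝ} (h : P F s) {x : ℝ} (h0 : 1 / 2 ≤ x) (h1 : x ≤ 1) :
    W c F (x + 2) = c.d3 * F (2 * x - 1 + 2) := by
  unfold W
  rw [show 2 * (x + 2) - 3 = 2 * x - 1 + 2 by ring, h.hi (2 * (x + 2)) (by linarith),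
    h.hi (2 * (x + 2) - 1) (by linarith), h.hi (2 * (x + 2) - 2) (by linarith)]
  ring

lemma P_W {F : ℝ → ℝ} {s : ℝ} (h : P F s) : P (W c F) s where
  cont := by
    have := h.cont
    unfold W
    fun_prop
  lo := by
    intro t ht
    unfold W
    rw [h.lo _ (by linarith), h.lo _ (by linarith), h.lo _ (by linarith), h.lo _ (by linarith)]
    ring
  hi := by
    intro t ht
    unfold W
    rw [h.hi _ (by linarith), h.hi _ (by linarith), h.hi _ (by linarith), h.hi _ (by linarith)]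
    ring
  sum := by
    intro x h0 h1
    rcases le_total x (1 / 2) with hx | hx
    · rw [W_l0 h h0 hx, W_l1 h h0 hx, W_l2 h h0 hx]
      have := h.sum (2 * x) (by linarith) (by linarith)
      linear_combination this + (F (2 * x) + F (2 * x + 2)) * c.s02 + F (2 * x + 1) * c.s13
    · rw [W_r0 h hx h1, W_r1 h hx h1, W_r2 h hx h1]
      have := h.sum (2 * x - 1) (by linarith) (by linarith)
      linear_combination this + (F (2 * x - 1) + F (2 * x - 1 + 2)) * c.s13 +
        F (2 * x - 1 + 1) * c.s02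

/-- the bound which is contracted -/
structure B (G : ℝ → ℝ) (r : ℝ) : Prop where
  a : ∀ x, 0 ≤ x → x ≤ 1 → |G x| ≤ r
  b : ∀ x, 0 ≤ x → x ≤ 1 → (37 / 20) * |G (x + 2)| ≤ r

lemma B_W {G : ℝ → ℝ} {r : ℝ} (h : P G 0) (hb : B G r) : B (W c G) ((9 / 10) * r) := by
  have hr : 0 ≤ r := (abs_nonneg _).trans (hb.a 0 le_rfl zero_le_one)
  have k1 := c.hu1
  have k2 := c.hu2
  have k3 := c.hd01
  have k4 := c.hd02
  have k5 := c.hd31
  have k6 := c.hd32
  refine ⟨fun x h0 h1 => ?_, fun x h0 h1 => ?_⟩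
  · rcases le_total x (1 / 2) with hx | hx
    · rw [W_l0 h h0 hx, abs_mul, abs_of_pos (by linarith)]
      have := hb.a (2 * x) (by linarith) (by linarith)
      nlinarith
    · rw [W_r0 h hx h1]
      have e := h.sum (2 * x - 1) (by linarith) (by linarith)
      have ha := hb.a (2 * x - 1) (by linarith) (by linarith)
      have hc := hb.b (2 * x - 1) (by linarith) (by linarith)
      have e2 : c.d0 * G (2 * x - 1 + 1) + c.d1 * G (2 * x - 1)
          = c.u * G (2 * x - 1) - c.d0 * G (2 * x - 1 + 2) := by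
        linear_combination c.d0 * e + G (2 * x - 1) * c.e10
      rw [e2]
      have e3 : |c.u * G (2 * x - 1) - c.d0 * G (2 * x - 1 + 2)|
          ≤ c.u * |G (2 * x - 1)| + c.d0 * |G (2 * x - 1 + 2)| := by
        refine (abs_sub _ _).trans ?_
        rw [abs_mul, abs_mul, abs_of_pos (by linarith : 0 < c.u), abs_of_pos (by linarith : 0 < c.d0)]
      refine e3.trans ?_
      have := abs_nonneg (G (2 * x - 1))
      have := abs_nonneg (G (2 * x - 1 + 2))
      nlinarith
  · rcases le_total x (1 / 2) with hx | hx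
    · rw [W_l2 h h0 hx]
      have e := h.sum (2 * x) (by linarith) (by linarith)
      have ha := hb.a (2 * x) (by linarith) (by linarith)
      have hc := hb.b (2 * x) (by linarith) (by linarith)
      have e2 : c.d2 * G (2 * x + 2) + c.d3 * G (2 * x + 1)
          = c.u * G (2 * x + 2) - c.d3 * G (2 * x) := by
        linear_combination c.d3 * e + G (2 * x + 2) * c.e23
      rw [e2]
      have e3 : |c.u * G (2 * x + 2) - c.d3 * G (2 * x)|
          ≤ c.u * |G (2 * x + 2)| + (-c.d3) * |G (2 * x)| := by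
        refine (abs_sub _ _).trans ?_
        rw [abs_mul, abs_mul, abs_of_pos (by linarith : 0 < c.u), abs_of_neg (by linarith : c.d3 < 0)]
      have := abs_nonneg (G (2 * x))
      have := abs_nonneg (G (2 * x + 2))
      nlinarith
    · rw [W_r2 h hx h1, abs_mul, abs_of_neg (by linarith : c.d3 < 0)]
      have hc := hb.b (2 * x - 1) (by linarith) (by linarith)
      have := abs_nonneg (G (2 * x - 1 + 2))
      nlinarith

lemma bound_all {G : ℝ → ℝ} {r : ℝ} (h : P G 0) (hb : B G r) (t : ℝ) : |G t| ≤ 2 * r := by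
  have hr : 0 ≤ r := (abs_nonneg _).trans (hb.a 0 le_rfl zero_le_one)
  rcases le_total t 0 with h0 | h0
  · rw [h.lo t h0]; simpa using hr
  rcases le_total 3 t with h3 | h3
  · rw [h.hi t h3]; simpa using hr
  rcases le_total t 1 with h1 | h1
  · have := hb.a t h0 h1; linarith
  rcases le_total 2 t with h2 | h2
  · have := hb.b (t - 2) (by linarith) (by linarith)
    rw [show t - 2 + 2 = t by ring] at this
    have := abs_nonneg (G t)
    linarith
  · have e := h.sum (t - 1) (by linarith) (by linarith)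
    have ha := hb.a (t - 1) (by linarith) (by linarith)
    have hc := hb.b (t - 1) (by linarith) (by linarith)
    rw [show t - 1 + 1 = t by ring] at e
    have e2 : G t = -(G (t - 1)) - G (t - 1 + 2) := by linarith
    rw [e2]
    have e3 : |-(G (t - 1)) - G (t - 1 + 2)| ≤ |G (t - 1)| + |G (t - 1 + 2)| := by
      refine (abs_sub _ _).trans ?_
      rw [abs_neg]
    have := abs_nonneg (G (t - 1 + 2))
    linarith

lemma P_sub {F G : ℝ → ℝ} {s s' : ℝ} (h : P F s) (h' : P G s') : P (fun t => F t - G t) (s - s') where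
  cont := h.cont.sub h'.cont
  lo := fun t ht => by simp [h.lo t ht, h'.lo t ht]
  hi := fun t ht => by simp [h.hi t ht, h'.hi t ht]
  sum := fun x h0 h1 => by
    have := h.sum x h0 h1
    have := h'.sum x h0 h1
    linarith

variable (c)

/-- the cascade iterates -/
noncomputable def F : ℕ → ℝ → ℝ
  | 0 => fun t => max 0 (1 - |t - 1|)
  | n + 1 => W c (F n)

variable {c}

lemma P_F (n : ℕ) : P (F c n) 1 := by
  induction n with
  | zero =>
    refine ⟨?_, ?_, ?_, ?_⟩
    · unfold F; fun_prop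
    · intro t ht
      unfold F
      apply max_eq_left
      rw [abs_of_nonpos (by linarith)]; linarith
    · intro t ht
      unfold F
      apply max_eq_left
      rw [abs_of_nonneg (by linarith)]; linarith
    · intro x h0 h1
      unfold F
      rw [abs_of_nonpos (by linarith : x - 1 ≤ 0), abs_of_nonneg (by linarith : 0 ≤ x + 1 - 1),
        abs_of_nonneg (by linarith : 0 ≤ x + 2 - 1), max_eq_right (by linarith),
        max_eq_right (by linarith), max_eq_left (by linarith)]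
      ring
  | succ n ih => exact P_W ih

lemma F0_le (t : ℝ) : |F c 0 t| ≤ 1 := by
  unfold F
  rw [abs_of_nonneg (le_max_left _ _)]
  exact max_le zero_le_one (by have := abs_nonneg (t - 1); linarith)

lemma F1_le (t : ℝ) : |F c 1 t| ≤ 3 := by
  have k1 := c.hu1
  have k2 := c.hu2
  have k3 := c.hd01
  have k4 := c.hd02
  have k5 := c.hd31
  have k6 := c.hd32
  have k7 := c.e10
  have k8 := c.e23
  show |W c (F c 0) t| ≤ 3
  unfold W
  have h0 := F0_le (c := c) (2 * t)
  have h1 := F0_le (c := c) (2 * t - 1)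
  have h2 := F0_le (c := c) (2 * t - 2)
  have h3 := F0_le (c := c) (2 * t - 3)
  rw [abs_le] at h0 h1 h2 h3 ⊢
  constructor <;> nlinarith

lemma G_bound (n : ℕ) : P (fun t => F c (n + 1) t - F c n t) 0 ∧
    B (fun t => F c (n + 1) t - F c n t) (8 * (9 / 10) ^ n) := by
  induction n with
  | zero =>
    refine ⟨by simpa using P_sub (P_F (c := c) 1) (P_F 0), ?_, ?_⟩
    · intro x _ _
      have h0 := F0_le (c := c) x
      have h1 := F1_le (c := c) x
      simp only [zero_add]
      rw [abs_le] at h0 h1 ⊢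
      constructor <;> linarith
    · intro x _ _
      have h0 := F0_le (c := c) (x + 2)
      have h1 := F1_le (c := c) (x + 2)
      have : |F c (0 + 1) (x + 2) - F c 0 (x + 2)| ≤ 4 := by
        simp only [zero_add]
        rw [abs_le] at h0 h1 ⊢
        constructor <;> linarith
      linarith
  | succ n ih =>
    have e : (fun t => F c (n + 1 + 1) t - F c (n + 1) t) =
        W c (fun t => F c (n + 1) t - F c n t) := by
      funext t
      show W c (F c (n + 1)) t - W c (F c n) t = _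
      unfold W
      ring
    rw [e]
    refine ⟨P_W ih.1, ?_⟩
    have := B_W (c := c) ih.1 ih.2
    rw [show 8 * (9 / 10 : ℝ) ^ (n + 1) = 9 / 10 * (8 * (9 / 10) ^ n) by ring]
    exact this

lemma G_le (n : ℕ) (t : ℝ) : ‖F c (n + 1) t - F c n t‖ ≤ 16 * (9 / 10) ^ n := by
  have := bound_all (G_bound (c := c) n).1 (G_bound n).2 t
  rw [Real.norm_eq_abs]
  linarith

variable (c)

/-- the scaling function (real valued) -/
noncomputable def phi (t : ℝ) : ℝ := F c 0 t + ∑' n, (F c (n + 1) t - F c n t)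

variable {c}

lemma summ_geo : Summable (fun n : ℕ => 16 * (9 / 10 : ℝ) ^ n) :=
  (summable_geometric_of_lt_one (by norm_num) (by norm_num)).mul_left _

lemma phi_cont : Continuous (phi c) := by
  unfold phi
  refine (P_F (c := c) 0).cont.add ?_
  exact continuous_tsum (fun n => (G_bound (c := c) n).1.cont) summ_geo (fun n x => G_le n x)

lemma F_tendsto (t : ℝ) : Tendsto (fun n => F c n t) atTop (𝓝 (phi c t)) := by
  have hs : Summable (fun n => F c (n + 1) t - F c n t) :=
    Summable.of_norm_bounded summ_geo (fun n => G_le n t)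
  have h1 := hs.hasSum.tendsto_sum_nat
  simp_rw [Finset.sum_range_sub (fun n => F c n t)] at h1
  have h2 := h1.const_add (F c 0 t)
  refine h2.congr fun n => ?_
  ring

lemma phi_P : P (phi c) 1 where
  cont := phi_cont
  lo := fun t ht => tendsto_nhds_unique (F_tendsto t)
    (by simp_rw [(P_F (c := c) _).lo t ht]; exact tendsto_const_nhds)
  hi := fun t ht => tendsto_nhds_unique (F_tendsto t)
    (by simp_rw [(P_F (c := c) _).hi t ht]; exact tendsto_const_nhds)
  sum := fun x h0 h1 => tendsto_nhds_unique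
    (((F_tendsto x).add (F_tendsto (x + 1))).add (F_tendsto (x + 2)))
    (by simp_rw [(P_F (c := c) _).sum x h0 h1]; exact tendsto_const_nhds)

lemma phi_W (t : ℝ) : phi c t = c.d0 * phi c (2 * t) + c.d1 * phi c (2 * t - 1) +
    c.d2 * phi c (2 * t - 2) + c.d3 * phi c (2 * t - 3) := by
  refine tendsto_nhds_unique ((F_tendsto t).comp (tendsto_add_atTop_nat 1)) ?_
  have h1 := ((((F_tendsto (c := c) (2 * t)).const_mul c.d0).add
    ((F_tendsto (c := c) (2 * t - 1)).const_mul c.d1)).add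
    ((F_tendsto (c := c) (2 * t - 2)).const_mul c.d2)).add ((F_tendsto (c := c) (2 * t - 3)).const_mul c.d3)
  exact h1

/-- the values at `2/3 + k` -/
lemma phi_card : phi c (2 / 3) = 1 ∧ phi c (5 / 3) = 0 ∧ phi c (8 / 3) = 0 := by
  have k1 := c.hu1
  have k2 := c.hu2
  have k3 := c.hd01
  have k4 := c.hd02
  have k5 := c.hd31
  have k6 := c.hd32
  have a0 := phi_W (c := c) (1 / 3)
  have a1 := phi_W (c := c) (4 / 3)
  have a2 := phi_W (c := c) (7 / 3)
  have b0 := phi_W (c := c) (2 / 3)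
  have b1 := phi_W (c := c) (5 / 3)
  have b2 := phi_W (c := c) (8 / 3)
  have sb := phi_P (c := c).sum (2 / 3) (by norm_num) (by norm_num)
  have sa := phi_P (c := c).sum (1 / 3) (by norm_num) (by norm_num)
  have l := phi_P (c := c).lo
  have h := phi_P (c := c).hi
  norm_num at a0 a1 a2 b0 b1 b2 sa sb
  simp only [l (-(1 / 3)) (by norm_num), l (-(4 / 3)) (by norm_num), l (-(7 / 3)) (by norm_num),
    l (-(2 / 3)) (by norm_num), l (-(5 / 3)) (by norm_num),
    h (11 / 3) (by norm_num), h (14 / 3) (by norm_num), h (10 / 3) (by norm_num),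
    h (13 / 3) (by norm_num), h (16 / 3) (by norm_num)] at a0 a1 a2 b0 b1 b2
  generalize phi c (1 / 3) = a at *
  generalize phi c (4 / 3) = a' at *
  generalize phi c (7 / 3) = a'' at *
  generalize phi c (2 / 3) = b at *
  generalize phi c (5 / 3) = b' at *
  generalize phi c (8 / 3) = b'' at *
  have q1 : a'' = c.u * b'' - c.d3 * (b - 1) := by
    linear_combination a2 + c.d3 * sb + b'' * c.e23
  have q2 : b'' * (1 - c.d3 * c.u) = -(c.d3 ^ 2) * (b - 1) := by
    linear_combination b2 + c.d3 * q1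
  have q3 : c.d0 * (1 + c.u) = 1 := by
    linear_combination c.card - c.d0 * c.s02 - c.d0 * c.e10
  have q4 : (b - 1) * (1 - c.u * c.d0 - c.d0 * c.d3) = -(c.d0 * c.u) * b'' := by
    linear_combination b0 + c.d0 * sa + a * c.e10 + c.u * a0 - c.d0 * q1 + q3
  have hK : 0 < (1 - c.u * c.d0 - c.d0 * c.d3) * (1 - c.d3 * c.u) - c.d0 * c.u * c.d3 ^ 2 := by
    have w1 : c.u * c.d0 ≤ 36 / 100 := by nlinarith
    have w2 : 0 ≤ -(c.d0 * c.d3) := by nlinarith
    have w3 : 0 ≤ -(c.d3 * c.u) := by nlinarith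
    have w4 : c.d3 ^ 2 ≤ 4 / 100 := by nlinarith
    have w5 : 0 ≤ c.d3 ^ 2 := by positivity
    have w6 : 0 ≤ c.u * c.d0 := by nlinarith
    nlinarith
  have q5 : (b - 1) * ((1 - c.u * c.d0 - c.d0 * c.d3) * (1 - c.d3 * c.u) -
      c.d0 * c.u * c.d3 ^ 2) = 0 := by
    linear_combination (1 - c.d3 * c.u) * q4 - (c.d0 * c.u) * q2
  have q6 : b - 1 = 0 := by
    rcases mul_eq_zero.mp q5 with h | h
    · exact h
    · exact absurd h hK.ne'
  have q7 : b'' = 0 := by
    rw [q6] at q2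
    have : 0 < 1 - c.d3 * c.u := by nlinarith
    have q2' : b'' * (1 - c.d3 * c.u) = 0 := by rw [q2]; ring
    rcases mul_eq_zero.mp q2' with h | h
    · exact h
    · exact absurd h this.ne'
  exact ⟨by linarith, by linarith, q7⟩

end Pool.Agent.V1282.Sc
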