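import Pool.Agent.V1282.Sc1

open Set Filter Topology MeasureTheory

set_option linter.all false

namespace Pool.Agent.V1282.Sc

variable {c : Coef}

lemma phi_lo {t : ℝ} (ht : t ≤ 0) : phi c t = 0 := phi_P.lo t ht
lemma phi_hi {t : ℝ} (ht : 3 ≤ t) : phi c t = 0 := phi_P.hi t ht

lemma phi_supp : HasCompactSupport (phi c) := by
  refine HasCompactSupport.intro (isCompact_Icc (a := (0:ℝ)) (b := 3)) fun t ht => ?_
  rw [mem_Icc, not_and_or, not_le, not_le] at ht
  rcases ht with h | h
  · exact phi_lo h.le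
  · exact phi_hi h.le

variable (c) in
/-- the correlations -/
noncomputable def g (l : ℤ) : ℝ := ∫ t, phi c t * phi c (t - l)

lemma int_mul (a b : ℝ) : Integrable (fun t => phi c (t - a) * phi c (t - b)) := by
  have hc := phi_cont (c := c)
  refine Continuous.integrable_of_hasCompactSupport (by fun_prop) ?_
  refine HasCompactSupport.mul_right ?_
  exact (phi_supp (c := c)).comp_homeomorph (Homeomorph.subRight a)

lemma int_eq (k l : ℤ) : ∫ t, phi c (t - k) * phi c (t - l) = g c (l - k) := by
  unfold g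
  rw [← integral_sub_right_eq_self (fun t => phi c t * phi c (t - ((l - k : ℤ) : ℝ))) (k : ℝ)]
  congr 1
  ext t
  push_cast
  congr 2
  ring

lemma g_neg (l : ℤ) : g c (-l) = g c l := by
  have h1 := int_eq (c := c) l 0
  have h2 := int_eq (c := c) 0 l
  rw [zero_sub] at h1
  rw [sub_zero] at h2
  rw [← h1, ← h2]
  congr 1
  ext t
  ring

lemma g_big {l : ℤ} (h : 3 ≤ l) : g c l = 0 := by
  unfold g
  have hl : (3:ℝ) ≤ l := by exact_mod_cast h
  have : ∀ t, phi c t * phi c (t - l) = 0 := by
    intro t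
    rcases le_total t 3 with h1 | h1
    · rw [phi_lo (t := t - l) (by linarith), mul_zero]
    · rw [phi_hi h1, zero_mul]
  simp [this]

lemma int_scale (a b : ℤ) : ∫ t, phi c (2 * t - a) * phi c (2 * t - b) = (1 / 2) * g c (b - a) := by
  have h := Measure.integral_comp_mul_left (fun s => phi c (s - a) * phi c (s - b)) 2
  rw [h, int_eq]
  simp

lemma int_mul2 (a b : ℝ) : Integrable (fun t => phi c (2 * t - a) * phi c (2 * t - b)) :=
  (int_mul (c := c) a b).comp_mul_left' two_ne_zero

/-- the two-scale relation for the correlations -/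
lemma g_scale (l : ℤ) : g c l = (1 / 2) * (
    c.d0 * (c.d0 * g c (2 * l) + c.d1 * g c (2 * l + 1) + c.d2 * g c (2 * l + 2) + c.d3 * g c (2 * l + 3)) +
    c.d1 * (c.d0 * g c (2 * l - 1) + c.d1 * g c (2 * l) + c.d2 * g c (2 * l + 1) + c.d3 * g c (2 * l + 2)) +
    c.d2 * (c.d0 * g c (2 * l - 2) + c.d1 * g c (2 * l - 1) + c.d2 * g c (2 * l) + c.d3 * g c (2 * l + 1)) +
    c.d3 * (c.d0 * g c (2 * l - 3) + c.d1 * g c (2 * l - 2) + c.d2 * g c (2 * l - 1) + c.d3 * g c (2 * l))) := by
  have key : ∀ t, phi c t * phi c (t - l) =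
    (c.d0 * (c.d0 * (phi c (2 * t - (0:ℤ)) * phi c (2 * t - (2 * l : ℤ))) +
      c.d1 * (phi c (2 * t - (0:ℤ)) * phi c (2 * t - (2 * l + 1 : ℤ))) +
      c.d2 * (phi c (2 * t - (0:ℤ)) * phi c (2 * t - (2 * l + 2 : ℤ))) +
      c.d3 * (phi c (2 * t - (0:ℤ)) * phi c (2 * t - (2 * l + 3 : ℤ))))) +
    (c.d1 * (c.d0 * (phi c (2 * t - (1:ℤ)) * phi c (2 * t - (2 * l : ℤ))) +
      c.d1 * (phi c (2 * t - (1:ℤ)) * phi c (2 * t - (2 * l + 1 : ℤ))) +
      c.d2 * (phi c (2 * t - (1:ℤ)) * phi c (2 * t - (2 * l + 2 : ℤ))) +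
      c.d3 * (phi c (2 * t - (1:ℤ)) * phi c (2 * t - (2 * l + 3 : ℤ))))) +
    (c.d2 * (c.d0 * (phi c (2 * t - (2:ℤ)) * phi c (2 * t - (2 * l : ℤ))) +
      c.d1 * (phi c (2 * t - (2:ℤ)) * phi c (2 * t - (2 * l + 1 : ℤ))) +
      c.d2 * (phi c (2 * t - (2:ℤ)) * phi c (2 * t - (2 * l + 2 : ℤ))) +
      c.d3 * (phi c (2 * t - (2:ℤ)) * phi c (2 * t - (2 * l + 3 : ℤ))))) +
    (c.d3 * (c.d0 * (phi c (2 * t - (3:ℤ)) * phi c (2 * t - (2 * l : ℤ))) +
      c.d1 * (phi c (2 * t - (3:ℤ)) * phi c (2 * t - (2 * l + 1 : ℤ))) +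
      c.d2 * (phi c (2 * t - (3:ℤ)) * phi c (2 * t - (2 * l + 2 : ℤ))) +
      c.d3 * (phi c (2 * t - (3:ℤ)) * phi c (2 * t - (2 * l + 3 : ℤ))))) := by
    intro t
    rw [phi_W (c := c) t, phi_W (c := c) (t - l)]
    push_cast
    rw [show 2 * (t - (l:ℝ)) = 2 * t - 2 * l by ring,
      show 2 * t - 2 * (l:ℝ) - 1 = 2 * t - (2 * l + 1) by ring,
      show 2 * t - 2 * (l:ℝ) - 2 = 2 * t - (2 * l + 2) by ring,
      show 2 * t - 2 * (l:ℝ) - 3 = 2 * t - (2 * l + 3) by ring, sub_zero]
    ring
  have I : ∀ a b : ℤ, Integrable (fun t => phi c (2 * t - a) * phi c (2 * t - b)) :=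
    fun a b => int_mul2 _ _
  have J : ∀ a : ℤ, ∫ t, (c.d0 * (phi c (2 * t - a) * phi c (2 * t - (2 * l : ℤ))) +
      c.d1 * (phi c (2 * t - a) * phi c (2 * t - (2 * l + 1 : ℤ))) +
      c.d2 * (phi c (2 * t - a) * phi c (2 * t - (2 * l + 2 : ℤ))) +
      c.d3 * (phi c (2 * t - a) * phi c (2 * t - (2 * l + 3 : ℤ)))) =
      (1 / 2) * (c.d0 * g c (2 * l - a) + c.d1 * g c (2 * l + 1 - a) + c.d2 * g c (2 * l + 2 - a)
        + c.d3 * g c (2 * l + 3 - a)) := by
    intro a
    rw [integral_add, integral_add, integral_add, integral_const_mul, integral_const_mul,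
      integral_const_mul, integral_const_mul, int_scale, int_scale, int_scale, int_scale]
    · ring
    · exact (I _ _).const_mul _
    · exact (I _ _).const_mul _
    · exact ((I _ _).const_mul _).add ((I _ _).const_mul _)
    · exact (I _ _).const_mul _
    · exact (((I _ _).const_mul _).add ((I _ _).const_mul _)).add ((I _ _).const_mul _)
    · exact (I _ _).const_mul _
  have K : ∀ a : ℤ, Integrable (fun t => (c.d0 * (phi c (2 * t - a) * phi c (2 * t - (2 * l : ℤ))) +
      c.d1 * (phi c (2 * t - a) * phi c (2 * t - (2 * l + 1 : ℤ))) +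
      c.d2 * (phi c (2 * t - a) * phi c (2 * t - (2 * l + 2 : ℤ))) +
      c.d3 * (phi c (2 * t - a) * phi c (2 * t - (2 * l + 3 : ℤ))))) := by
    intro a
    exact ((((I _ _).const_mul _).add ((I _ _).const_mul _)).add ((I _ _).const_mul _)).add
      ((I _ _).const_mul _)
  have e : g c l = ∫ t, phi c t * phi c (t - l) := rfl
  rw [e]
  simp_rw [key]
  rw [integral_add, integral_add, integral_add, integral_const_mul, integral_const_mul,
      integral_const_mul, integral_const_mul, J, J, J, J]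
  · rw [show 2 * l + 1 - 1 = 2 * l by ring, show 2 * l + 2 - 1 = 2 * l + 1 by ring,
      show 2 * l + 3 - 1 = 2 * l + 2 by ring, show 2 * l + 1 - 2 = 2 * l - 1 by ring,
      show 2 * l + 2 - 2 = 2 * l by ring, show 2 * l + 3 - 2 = 2 * l + 1 by ring,
      show 2 * l + 1 - 3 = 2 * l - 2 by ring, show 2 * l + 2 - 3 = 2 * l - 1 by ring,
      show 2 * l + 3 - 3 = 2 * l by ring]
    simp only [sub_zero]
    ring
  · exact (K _).const_mul _
  · exact (K _).const_mul _
  · exact ((K _).const_mul _).add ((K _).const_mul _)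
  · exact (K _).const_mul _
  · exact (((K _).const_mul _).add ((K _).const_mul _)).add ((K _).const_mul _)
  · exact (K _).const_mul _

lemma g1_zero : g c 1 = 0 := by
  have h := g_scale (c := c) 0
  simp only [mul_zero, zero_add, zero_sub] at h
  rw [g_neg, g_neg, g_neg, g_big (l := 3) le_rfl] at h
  have k1 := c.hu1
  have k2 := c.hu2
  have k3 := c.hd01
  have k4 := c.hd02
  have k5 := c.hd31
  have k6 := c.hd32
  have e : g c 1 * (c.d1 + c.d2 * c.d3) = 0 := by
    linear_combination -h - (1 / 2) * g c 0 * c.n2 - g c 2 * c.o2 - g c 1 * c.d1 * c.s02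
  have : 0 < c.d1 + c.d2 * c.d3 := by
    have := c.s02
    have := c.s13
    have : c.d2 = 1 - c.d0 := by linarith
    have : c.d1 = 1 - c.d3 := by linarith
    nlinarith
  rcases mul_eq_zero.mp e with h | h
  · exact h
  · exact absurd h this.ne'

lemma g2_zero : g c 2 = 0 := by
  have h := g_scale (c := c) 1
  norm_num at h
  rw [show (-1 : ℤ) = -(1:ℤ) from rfl, g_neg, g_big (l := 3) le_rfl, g_big (l := 4) (by norm_num),
    g_big (l := 5) (by norm_num), g1_zero] at h
  linear_combination -h - (1 / 2) * g c 2 * c.n2 - (1 / 2) * g c 0 * c.o2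

lemma phi_int : Integrable (phi c) := phi_cont.integrable_of_hasCompactSupport phi_supp

lemma integral_phi : ∫ t, phi c t = 1 := by
  have h1 : ∫ t, phi c t = ∫ t in (0:ℝ)..3, phi c t := by
    rw [intervalIntegral.integral_of_le (by norm_num), setIntegral_eq_integral_of_forall_compl_eq_zero]
    intro t ht
    rw [mem_Ioc, not_and_or, not_lt, not_le] at ht
    rcases ht with h | h
    · exact phi_lo h
    · exact phi_hi h.le
  have hi : ∀ a b : ℝ, IntervalIntegrable (phi c) volume a b :=
    fun a b => (phi_cont (c := c)).intervalIntegrable a b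
  rw [h1, ← intervalIntegral.integral_add_adjacent_intervals (hi 0 1) (hi 1 3),
    ← intervalIntegral.integral_add_adjacent_intervals (hi 1 2) (hi 2 3)]
  have e1 : ∫ t in (1:ℝ)..2, phi c t = ∫ t in (0:ℝ)..1, phi c (t + 1) := by
    rw [intervalIntegral.integral_comp_add_right (fun t => phi c t)]; norm_num
  have e2 : ∫ t in (2:ℝ)..3, phi c t = ∫ t in (0:ℝ)..1, phi c (t + 2) := by
    rw [intervalIntegral.integral_comp_add_right (fun t => phi c t)]; norm_num
  have hc := phi_cont (c := c)
  have j1 : IntervalIntegrable (fun t => phi c (t + 1)) volume 0 1 :=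
    Continuous.intervalIntegrable (by fun_prop) _ _
  have j2 : IntervalIntegrable (fun t => phi c (t + 2)) volume 0 1 :=
    Continuous.intervalIntegrable (by fun_prop) _ _
  rw [e1, e2, ← intervalIntegral.integral_add j1 j2, ← intervalIntegral.integral_add (hi 0 1) (j1.add j2)]
  have : ∀ t ∈ uIcc (0:ℝ) 1, phi c t + (phi c (t + 1) + phi c (t + 2)) = 1 := by
    intro t ht
    rw [uIcc_of_le zero_le_one] at ht
    have := phi_P (c := c).sum t ht.1 ht.2
    linarith
  rw [intervalIntegral.integral_congr this]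
  simp

lemma g0_one : g c 0 = 1 := by
  have h1 : ∀ t, phi c t = phi c t * phi c (t - (0:ℤ)) + phi c t * phi c (t - (1:ℤ)) +
      phi c t * phi c (t - (2:ℤ)) + phi c t * phi c (t - (-1:ℤ)) + phi c t * phi c (t - (-2:ℤ)) := by
    intro t
    push_cast
    rcases le_total t 0 with h | h
    · simp [phi_lo h]
    rcases le_total 3 t with h' | h'
    · simp [phi_hi h']
    rcases le_total t 1 with h1 | h1
    · have := phi_P (c := c).sum t h h1
      rw [phi_lo (t := t - 1) (by linarith), phi_lo (t := t - 2) (by linarith),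
        show t - 0 = t by ring, show t - -1 = t + 1 by ring, show t - -2 = t + 2 by ring]
      linear_combination (-phi c t) * this
    rcases le_total t 2 with h2 | h2
    · have := phi_P (c := c).sum (t - 1) (by linarith) (by linarith)
      rw [show t - 1 + 1 = t by ring, show t - 1 + 2 = t + 1 by ring] at this
      rw [phi_lo (t := t - 2) (by linarith), show t - 0 = t by ring, show t - -1 = t + 1 by ring,
        phi_hi (t := t - -2) (by linarith)]
      linear_combination (-phi c t) * this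
    · have := phi_P (c := c).sum (t - 2) (by linarith) (by linarith)
      rw [show t - 2 + 1 = t - 1 by ring, show t - 2 + 2 = t by ring] at this
      rw [show t - 0 = t by ring, phi_hi (t := t - -1) (by linarith),
        phi_hi (t := t - -2) (by linarith)]
      linear_combination (-phi c t) * this
  have I : ∀ a : ℤ, Integrable (fun t => phi c t * phi c (t - a)) := by
    intro a
    have := int_mul (c := c) 0 a
    simpa using this
  have h2 : ∫ t, phi c t = _ := integral_congr_ae (Eventually.of_forall h1)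
  rw [integral_phi] at h2
  have G : ∀ a : ℤ, ∫ t, phi c t * phi c (t - a) = g c a := fun a => rfl
  rw [integral_add, integral_add, integral_add, integral_add, G, G, G, G, G,
    g_neg, g_neg, g1_zero, g2_zero] at h2
  · linarith
  · exact I _
  · exact I _
  · exact (I _).add (I _)
  · exact I _
  · exact ((I _).add (I _)).add (I _)
  · exact I _
  · exact (((I _).add (I _)).add (I _)).add (I _)
  · exact I _

lemma g_eq (l : ℤ) : g c l = if l = 0 then 1 else 0 := by
  have key : ∀ n : ℕ, g c n = if n = 0 then 1 else 0 := by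
    intro n
    rcases n with _ | _ | _ | n
    · simpa using g0_one
    · simpa using g1_zero
    · simpa using g2_zero
    · rw [g_big (by push_cast; linarith), if_neg (by omega)]
  rcases Int.eq_nat_or_neg l with ⟨n, rfl | rfl⟩
  · rw [key]; simp
  · rw [g_neg, key]; simp

lemma ortho (k l : ℤ) : ∫ t, phi c (t - k) * phi c (t - l) = if k = l then 1 else 0 := by
  rw [int_eq, g_eq]
  congr 1
  simp only [eq_iff_iff]
  constructor <;> intro h <;> omega

end Pool.Agent.V1282.Sc
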