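import Pool.Agent.V1282.Sc2

open Set Filter Topology MeasureTheory
open scoped ComplexConjugate ENNReal InnerProductSpace

set_option linter.all false

namespace Pool.Agent.V1282.Sc

/-- The function `2^{j/2} φ(2^j t - k)`. -/
noncomputable def dil (φ : ℝ → ℂ) (j k : ℤ) (t : ℝ) : ℂ :=
  (((2:ℝ) ^ ((j:ℝ) / 2) : ℝ) : ℂ) * φ ((2:ℝ) ^ j * t - k)

/-- `V_j`: the closed span in `L²(ℝ)` of the functions `2^{j/2} φ(2^j t - k)`, `k ∈ ℤ`. -/
noncomputable def V (φ : ℝ → ℂ) (j : ℤ) : Submodule ℂ (Lp ℂ 2 (volume : Measure ℝ)) :=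
  (Submodule.span ℂ {f : Lp ℂ 2 (volume : Measure ℝ) |
    ∃ k : ℤ, ⇑f =ᵐ[volume] dil φ j k}).topologicalClosure

/-- `φ` is an orthogonal scaling function (of an orthonormal multiresolution analysis). -/
structure IsOrthogonalScalingFunction (φ : ℝ → ℂ) : Prop where
  memL2 : MemLp φ 2 volume
  orthonormal : ∀ k l : ℤ, ∫ t, φ (t - k) * conj (φ (t - l)) = if k = l then 1 else 0
  two_scale : ∃ (s : Finset ℤ) (d : ℤ → ℂ), ∀ t, φ (t / 2) = ∑ k ∈ s, d k * φ (t - k)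
  nested : ∀ j : ℤ, V φ j ≤ V φ (j + 1)
  dense_union : (⨆ j : ℤ, V φ j).topologicalClosure = ⊤
  trivial_inter : ⨅ j : ℤ, V φ j = ⊥

variable (c : Coef)

/-- the complex scaling function -/
noncomputable def Phi (t : ℝ) : ℂ := (phi c t : ℂ)

variable {c}

lemma Phi_cont : Continuous (Phi c) := by
  have := phi_cont (c := c)
  unfold Phi
  fun_prop

lemma Phi_supp : HasCompactSupport (Phi c) := by
  have := phi_supp (c := c)
  exact this.comp_left (g := fun x : ℝ => (x : ℂ)) (by simp)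

lemma dil_cont (j k : ℤ) : Continuous (dil (Phi c) j k) := by
  have := Phi_cont (c := c)
  unfold dil
  fun_prop

lemma two_zpow_pos (j : ℤ) : (0:ℝ) < (2:ℝ) ^ j := zpow_pos two_pos j

lemma dil_supp (j k : ℤ) : HasCompactSupport (dil (Phi c) j k) := by
  unfold dil
  refine HasCompactSupport.mul_left ?_
  have hne : (2:ℝ) ^ j ≠ 0 := (two_zpow_pos j).ne'
  have h := (Phi_supp (c := c)).comp_homeomorph
    ((Homeomorph.mulLeft₀ ((2:ℝ) ^ j) hne).trans (Homeomorph.subRight (k:ℝ)))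
  exact h

lemma dil_mem (j k : ℤ) : MemLp (dil (Phi c) j k) 2 volume :=
  (dil_cont j k).memLp_of_hasCompactSupport (dil_supp j k)

variable (c) in
/-- the elements of `L²` -/
noncomputable def e (j k : ℤ) : Lp ℂ 2 (volume : Measure ℝ) := (dil_mem (c := c) j k).toLp

lemma e_coe (j k : ℤ) : ⇑(e c j k) =ᵐ[volume] dil (Phi c) j k := MemLp.coeFn_toLp _

lemma V_eq (j : ℤ) : V (Phi c) j = (Submodule.span ℂ (range (e c j))).topologicalClosure := by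
  unfold V
  congr 2
  ext f
  constructor
  · rintro ⟨k, hk⟩
    exact ⟨k, Lp.ext ((e_coe j k).trans hk.symm)⟩
  · rintro ⟨k, rfl⟩
    exact ⟨k, e_coe j k⟩

lemma two_rpow_sq (j : ℤ) : (2:ℝ) ^ ((j:ℝ) / 2) * (2:ℝ) ^ ((j:ℝ) / 2) = (2:ℝ) ^ j := by
  rw [← Real.rpow_add two_pos, add_halves, Real.rpow_intCast]

lemma ortho_e (j : ℤ) : Orthonormal ℂ (e c j) := by
  rw [orthonormal_iff_ite]
  intro k l
  rw [MeasureTheory.L2.inner_def]
  have h1 : ∫ a, ⟪(e c j k : ℝ → ℂ) a, (e c j l : ℝ → ℂ) a⟫_ℂ =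
      ∫ a, (((2:ℝ) ^ j * (phi c ((2:ℝ) ^ j * a - k) * phi c ((2:ℝ) ^ j * a - l)) : ℝ) : ℂ) := by
    refine integral_congr_ae ?_
    filter_upwards [e_coe (c := c) j k, e_coe (c := c) j l] with a h1 h2
    rw [h1, h2]
    simp only [dil, Phi, RCLike.inner_apply, map_mul, Complex.conj_ofReal]
    rw [← two_rpow_sq]
    push_cast
    ring
  rw [h1, integral_complex_ofReal, integral_const_mul,
    Measure.integral_comp_mul_left (fun s => phi c (s - k) * phi c (s - l)), ortho,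
    smul_eq_mul, ← mul_assoc, abs_of_pos (inv_pos.mpr (two_zpow_pos j)),
    mul_inv_cancel₀ (two_zpow_pos j).ne']
  split_ifs <;> simp

/-- the coefficient sequence -/
noncomputable def dd (c : Coef) (i : ℕ) : ℝ :=
  if i = 0 then c.d0 else if i = 1 then c.d1 else if i = 2 then c.d2 else c.d3

lemma e_next (j k : ℤ) : e c j k = ∑ i ∈ Finset.range 4,
    (((2:ℝ) ^ (-(1:ℝ) / 2) * dd c i : ℝ) : ℂ) • e c (j + 1) (2 * k + i) := by
  refine Lp.ext ?_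
  have h := Lp.coeFn_finsetSum (Finset.range 4) (fun i => (((2:ℝ) ^ (-(1:ℝ) / 2) * dd c i : ℝ) : ℂ) •
    e c (j + 1) (2 * k + i))
  refine (e_coe j k).trans (EventuallyEq.trans ?_ h.symm)
  have h2 : ∀ i : ℕ, ⇑((((2:ℝ) ^ (-(1:ℝ) / 2) * dd c i : ℝ) : ℂ) • e c (j + 1) (2 * k + i)) =ᵐ[volume]
      fun t => (((2:ℝ) ^ (-(1:ℝ) / 2) * dd c i : ℝ) : ℂ) * dil (Phi c) (j + 1) (2 * k + i) t := by
    intro i
    filter_upwards [Lp.coeFn_smul ((((2:ℝ) ^ (-(1:ℝ) / 2) * dd c i : ℝ) : ℂ)) (e c (j + 1) (2 * k + i)),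
      e_coe (c := c) (j + 1) (2 * k + i)] with t h1 h2
    rw [h1, Pi.smul_apply, h2, smul_eq_mul]
  filter_upwards [h2 0, h2 1, h2 2, h2 3] with t h0 h1 h2 h3
  simp only [Finset.sum_range_succ, Finset.sum_range_zero, zero_add, Finset.sum_apply, Pi.add_apply]
  rw [h0, h1, h2, h3]
  simp only [dil, Phi]
  rw [phi_W (c := c) ((2:ℝ) ^ j * t - k)]
  have e1 : (2:ℝ) ^ (j + 1) = 2 * 2 ^ j := by rw [zpow_add₀ two_ne_zero]; ring
  have e2 : (2:ℝ) ^ (((j + 1 : ℤ) : ℝ) / 2) = 2 ^ ((j:ℝ) / 2) * 2 ^ ((1:ℝ) / 2) := by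
    rw [← Real.rpow_add two_pos]; congr 1; push_cast; ring
  have e3 : (2:ℝ) ^ (-(1:ℝ) / 2) * 2 ^ ((1:ℝ) / 2) = 1 := by
    rw [← Real.rpow_add two_pos]; norm_num
  rw [e1, e2]
  push_cast
  have e3' : (((2:ℝ) ^ (-(1:ℝ) / 2) : ℝ) : ℂ) * (((2:ℝ) ^ ((1:ℝ) / 2) : ℝ) : ℂ) = 1 := by
    rw [← Complex.ofReal_mul, e3, Complex.ofReal_one]
  rw [show (2:ℝ) * 2 ^ j * t - (2 * (k:ℝ) + 0) = 2 * (2 ^ j * t - k) by ring,
    show (2:ℝ) * 2 ^ j * t - (2 * (k:ℝ) + 1) = 2 * (2 ^ j * t - k) - 1 by ring,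
    show (2:ℝ) * 2 ^ j * t - (2 * (k:ℝ) + 2) = 2 * (2 ^ j * t - k) - 2 by ring,
    show (2:ℝ) * 2 ^ j * t - (2 * (k:ℝ) + 3) = 2 * (2 ^ j * t - k) - 3 by ring]
  simp only [dd, one_ne_zero, if_true, if_false, OfNat.ofNat_ne_zero, OfNat.ofNat_ne_one]
  norm_num
  have e4 : (((2:ℝ) ^ (-(1 / 2) : ℝ) : ℝ) : ℂ) * (((2:ℝ) ^ (1 / 2 : ℝ) : ℝ) : ℂ) = 1 := by
    rw [← Complex.ofReal_mul, ← Real.rpow_add two_pos]; norm_num
  generalize (phi c (2 * (2 ^ j * t - ↑k))) = p0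
  generalize (phi c (2 * (2 ^ j * t - ↑k) - 1)) = p1
  generalize (phi c (2 * (2 ^ j * t - ↑k) - 2)) = p2
  generalize (phi c (2 * (2 ^ j * t - ↑k) - 3)) = p3
  linear_combination (-((((2:ℝ) ^ ((j:ℝ) / 2) : ℝ) : ℂ) * (c.d0 * p0 + c.d1 * p1 + c.d2 * p2 +
    c.d3 * p3))) * e4

lemma nested (j : ℤ) : V (Phi c) j ≤ V (Phi c) (j + 1) := by
  rw [V_eq, V_eq]
  refine Submodule.topologicalClosure_mono ?_
  rw [Submodule.span_le]
  rintro _ ⟨k, rfl⟩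
  rw [e_next]
  refine Submodule.sum_mem _ fun i _ => Submodule.smul_mem _ _ (Submodule.subset_span ⟨_, rfl⟩)

/-- partition of unity -/
lemma pou (x : ℝ) : ∑ k ∈ Finset.Icc (⌊x⌋ - 2) ⌊x⌋, phi c (x - k) = 1 := by
  have h1 : Finset.Icc (⌊x⌋ - 2) ⌊x⌋ = {⌊x⌋ - 2, ⌊x⌋ - 1, ⌊x⌋} := by
    ext k
    simp only [Finset.mem_Icc, Finset.mem_insert, Finset.mem_singleton]
    omega
  rw [h1, Finset.sum_insert, Finset.sum_insert, Finset.sum_singleton]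
  · have h2 := Int.floor_le x
    have h3 := Int.lt_floor_add_one x
    have h4 := phi_P (c := c).sum (x - ⌊x⌋) (by linarith) (by linarith)
    push_cast
    rw [show x - ((⌊x⌋:ℝ) - 2) = x - ⌊x⌋ + 2 by ring, show x - ((⌊x⌋:ℝ) - 1) = x - ⌊x⌋ + 1 by ring]
    linarith
  · simp only [Finset.mem_singleton]; omega
  · simp only [Finset.mem_insert, Finset.mem_singleton]; omega

lemma outside {x : ℝ} {k : ℤ} (h : k ∉ Finset.Icc (⌊x⌋ - 2) ⌊x⌋) : phi c (x - k) = 0 := by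
  rw [Finset.mem_Icc, not_and_or, not_le, not_le] at h
  rcases h with h | h
  · have h1 : (k:ℝ) ≤ ⌊x⌋ - 3 := by
      have : k ≤ ⌊x⌋ - 3 := by omega
      exact_mod_cast this
    have h2 := Int.floor_le x
    exact phi_hi (by linarith)
  · have h1 : (⌊x⌋:ℝ) + 1 ≤ k := by
      have : ⌊x⌋ + 1 ≤ k := by omega
      exact_mod_cast this
    have h2 := Int.lt_floor_add_one x
    exact phi_lo (by linarith)

lemma inside {x : ℝ} {k : ℤ} (h : k ∈ Finset.Icc (⌊x⌋ - 2) ⌊x⌋) : |x - k| ≤ 3 := by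
  rw [Finset.mem_Icc] at h
  have h1 : (⌊x⌋:ℝ) - 2 ≤ k := by exact_mod_cast h.1
  have h2 : (k:ℝ) ≤ ⌊x⌋ := by exact_mod_cast h.2
  have h3 := Int.floor_le x
  have h4 := Int.lt_floor_add_one x
  rw [abs_le]
  constructor <;> linarith

variable (c) in
lemma phi_bdd : ∃ M : ℝ, 0 < M ∧ ∀ t, |phi c t| ≤ M := by
  obtain ⟨C, hC⟩ := (phi_supp (c := c)).exists_bound_of_continuous phi_cont
  exact ⟨max C 1, by positivity, fun t => (hC t).trans (le_max_left _ _)⟩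

/-- pointwise bound of a finite combination -/
lemma pt_bound {M : ℝ} (hM : ∀ t, |phi c t| ≤ M) (s : Finset ℤ) (a : ℤ → ℂ) (x : ℝ) :
    ‖∑ k ∈ s, a k * Phi c (x - k)‖ ^ 2 ≤ (3 * M ^ 2) * ∑ k ∈ s, ‖a k‖ ^ 2 := by
  have h1 : ‖∑ k ∈ s, a k * Phi c (x - k)‖ ≤ ∑ k ∈ s, ‖a k‖ * |phi c (x - k)| := by
    refine (norm_sum_le _ _).trans (le_of_eq ?_)
    refine Finset.sum_congr rfl fun k _ => ?_
    rw [norm_mul, Phi, Complex.norm_real, Real.norm_eq_abs]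
  have h2 : (∑ k ∈ s, ‖a k‖ * |phi c (x - k)|) ^ 2 ≤ (∑ k ∈ s, ‖a k‖ ^ 2) *
      ∑ k ∈ s, |phi c (x - k)| ^ 2 := Finset.sum_mul_sq_le_sq_mul_sq _ _ _
  have h3 : ∑ k ∈ s, |phi c (x - k)| ^ 2 ≤ 3 * M ^ 2 := by
    calc ∑ k ∈ s, |phi c (x - k)| ^ 2
        = ∑ k ∈ s.filter (fun k => k ∈ Finset.Icc (⌊x⌋ - 2) ⌊x⌋), |phi c (x - k)| ^ 2 := by
          rw [Finset.sum_filter]
          refine Finset.sum_congr rfl fun k _ => ?_
          split_ifs with h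
          · rfl
          · rw [outside h]; simp
      _ ≤ ∑ k ∈ Finset.Icc (⌊x⌋ - 2) ⌊x⌋, |phi c (x - k)| ^ 2 := by
          refine Finset.sum_le_sum_of_subset_of_nonneg ?_ (fun _ _ _ => by positivity)
          intro k hk
          exact (Finset.mem_filter.mp hk).2
      _ ≤ ∑ k ∈ Finset.Icc (⌊x⌋ - 2) ⌊x⌋, M ^ 2 := by
          refine Finset.sum_le_sum fun k _ => ?_
          have := hM (x - k)
          have := abs_nonneg (phi c (x - k))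
          gcongr
      _ = 3 * M ^ 2 := by
          rw [Finset.sum_const, Int.card_Icc, show ⌊x⌋ + 1 - (⌊x⌋ - 2) = 3 by ring]
          simp
  calc ‖∑ k ∈ s, a k * Phi c (x - k)‖ ^ 2 ≤ (∑ k ∈ s, ‖a k‖ * |phi c (x - k)|) ^ 2 := by
        gcongr
    _ ≤ (∑ k ∈ s, ‖a k‖ ^ 2) * ∑ k ∈ s, |phi c (x - k)| ^ 2 := h2
    _ ≤ (∑ k ∈ s, ‖a k‖ ^ 2) * (3 * M ^ 2) := by gcongr
    _ = _ := by ring

/-- elements of the span of level `j` are bounded by `C 2^{j/2} ‖f‖` -/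
lemma span_bound {M : ℝ} (hM0 : 0 < M) (hM : ∀ t, |phi c t| ≤ M) (j : ℤ)
    (f : Lp ℂ 2 (volume : Measure ℝ)) (hf : f ∈ Submodule.span ℂ (range (e c j))) :
    ∀ᵐ t, ‖f t‖ ≤ 2 * M * (2:ℝ) ^ ((j:ℝ) / 2) * ‖f‖ := by
  rw [Finsupp.mem_span_range_iff_exists_finsupp] at hf
  obtain ⟨a, rfl⟩ := hf
  have hn : ‖a.sum fun i a => a • e c j i‖ ^ 2 = ∑ k ∈ a.support, ‖a k‖ ^ 2 := by
    have h1 := (ortho_e (c := c) j).inner_sum (fun k => a k) (fun k => a k) a.support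
    rw [Finsupp.sum]
    rw [inner_self_eq_norm_sq_to_K] at h1
    have h2 : (((‖∑ i ∈ a.support, a i • e c j i‖ ^ 2 : ℝ)) : ℂ) =
        ((∑ k ∈ a.support, ‖a k‖ ^ 2 : ℝ) : ℂ) := by
      push_cast
      simpa [Complex.conj_mul'] using h1
    exact_mod_cast h2
  have hc := Lp.coeFn_fun_finsetSum a.support (fun k => a k • e c j k)
  have hk : ∀ᵐ t, ∀ k : ℤ, (a k • e c j k : Lp ℂ 2 (volume : Measure ℝ)) t = a k * dil (Phi c) j k t := by
    rw [ae_all_iff]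
    intro k
    filter_upwards [Lp.coeFn_smul (a k) (e c j k), e_coe (c := c) j k] with t h1 h2
    rw [h1, Pi.smul_apply, h2, smul_eq_mul]
  filter_upwards [hc, hk] with t h1 h2
  have h3 : (a.sum fun i a => a • e c j i : Lp ℂ 2 (volume : Measure ℝ)) t =
      (((2:ℝ) ^ ((j:ℝ) / 2) : ℝ) : ℂ) * ∑ k ∈ a.support, a k * Phi c ((2:ℝ) ^ j * t - k) := by
    rw [Finsupp.sum, h1, Finset.mul_sum]
    refine Finset.sum_congr rfl fun k _ => ?_
    rw [h2 k, dil]; ring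
  rw [h3, norm_mul, Complex.norm_real, Real.norm_eq_abs, abs_of_pos (Real.rpow_pos_of_pos two_pos _)]
  have h4 := pt_bound hM a.support a ((2:ℝ) ^ j * t)
  rw [← hn] at h4
  have h5 : ‖∑ k ∈ a.support, a k * Phi c ((2:ℝ) ^ j * t - k)‖ ≤
      2 * M * ‖a.sum fun i a => a • e c j i‖ := by
    refine abs_le_of_sq_le_sq' ?_ (by positivity) |>.2
    refine h4.trans ?_
    rw [mul_pow, mul_pow]
    have : 0 ≤ M ^ 2 * ‖a.sum fun i a => a • e c j i‖ ^ 2 := by positivity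
    nlinarith
  have h6 : 0 < (2:ℝ) ^ ((j:ℝ) / 2) := Real.rpow_pos_of_pos two_pos _
  nlinarith

end Pool.Agent.V1282.Sc
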