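import Pool.Agent.V1282.Sc3

open Set Filter Topology MeasureTheory
open scoped ComplexConjugate ENNReal InnerProductSpace

set_option linter.all false

namespace Pool.Agent.V1282.Sc

variable {c : Coef}

lemma inner_bound {M : ℝ} (hM0 : 0 < M) (hM : ∀ t, |phi c t| ≤ M) (j : ℤ)
    (h : Lp ℂ 2 (volume : Measure ℝ)) (hh : Integrable h)
    (f : Lp ℂ 2 (volume : Measure ℝ)) (hf : f ∈ V (Phi c) j) :
    ‖⟪h, f⟫_ℂ‖ ≤ (∫ t, ‖h t‖) * (2 * M * (2:ℝ) ^ ((j:ℝ) / 2)) * ‖f‖ := by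
  rw [V_eq] at hf
  have hcl : IsClosed {f : Lp ℂ 2 (volume : Measure ℝ) |
      ‖⟪h, f⟫_ℂ‖ ≤ (∫ t, ‖h t‖) * (2 * M * (2:ℝ) ^ ((j:ℝ) / 2)) * ‖f‖} := by
    refine isClosed_le ?_ ?_ <;> fun_prop
  have hsub : (Submodule.span ℂ (range (e c j)) : Set (Lp ℂ 2 (volume : Measure ℝ))) ⊆
      {f : Lp ℂ 2 (volume : Measure ℝ) |
      ‖⟪h, f⟫_ℂ‖ ≤ (∫ t, ‖h t‖) * (2 * M * (2:ℝ) ^ ((j:ℝ) / 2)) * ‖f‖} := by
    intro f hf
    have hb := span_bound hM0 hM j f hf
    show ‖⟪h, f⟫_ℂ‖ ≤ _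
    rw [MeasureTheory.L2.inner_def]
    refine (norm_integral_le_of_norm_le (g := fun t => ‖h t‖ * (2 * M * (2:ℝ) ^ ((j:ℝ) / 2) * ‖f‖))
      (hh.norm.mul_const _) ?_).trans (le_of_eq ?_)
    · filter_upwards [hb] with t ht
      refine (norm_inner_le_norm _ _).trans ?_
      gcongr
    · rw [integral_mul_const]; ring
  have := closure_minimal hsub hcl
  exact this hf

lemma trivial_inter : ⨅ j : ℤ, V (Phi c) j = ⊥ := by
  obtain ⟨M, hM0, hM⟩ := phi_bdd c
  rw [eq_bot_iff]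
  intro f hf
  rw [Submodule.mem_iInf] at hf
  rw [Submodule.mem_bot]
  have key : ∀ n : ℕ, ∀ᵐ t, t ∈ Icc (-(n:ℝ)) n → f t = 0 := by
    intro n
    set S : Set ℝ := Icc (-(n:ℝ)) n with hS
    have hSm : MeasurableSet S := measurableSet_Icc
    have hmem : MemLp (S.indicator f) 2 volume := (Lp.memLp f).indicator hSm
    set h : Lp ℂ 2 (volume : Measure ℝ) := hmem.toLp with hh
    have hcoe : ⇑h =ᵐ[volume] S.indicator f := MemLp.coeFn_toLp _
    have hint : Integrable h := by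
      refine Integrable.congr ?_ hcoe.symm
      refine IntegrableOn.integrable_indicator ?_ hSm
      have hfS : MemLp f 2 (volume.restrict S) := (Lp.memLp f).restrict S
      haveI : IsFiniteMeasure (volume.restrict S) := ⟨by
        rw [Measure.restrict_apply_univ]; exact measure_Icc_lt_top⟩
      exact hfS.integrable one_le_two
    have hb : ∀ j : ℤ, ‖⟪h, f⟫_ℂ‖ ≤ (∫ t, ‖h t‖) * (2 * M * (2:ℝ) ^ ((j:ℝ) / 2)) * ‖f‖ :=
      fun j => inner_bound hM0 hM j h hint f (hf j)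
    have hlim : Tendsto (fun m : ℕ => (∫ t, ‖h t‖) * (2 * M * (2:ℝ) ^ (((-(m:ℤ) : ℤ):ℝ) / 2)) * ‖f‖)
        atTop (𝓝 0) := by
      have h1 : Tendsto (fun m : ℕ => (2:ℝ) ^ (((-(m:ℤ) : ℤ):ℝ) / 2)) atTop (𝓝 0) := by
        have h2 : ∀ m : ℕ, (2:ℝ) ^ (((-(m:ℤ) : ℤ):ℝ) / 2) = ((2:ℝ) ^ (-(1:ℝ) / 2)) ^ m := by
          intro m
          rw [← Real.rpow_natCast, ← Real.rpow_mul two_pos.le]
          congr 1
          push_cast
          ring
        simp_rw [h2]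
        refine tendsto_pow_atTop_nhds_zero_of_lt_one (by positivity) ?_
        exact Real.rpow_lt_one_of_one_lt_of_neg one_lt_two (by norm_num)
      have h3 := ((h1.const_mul (2 * M)).const_mul (∫ t, ‖h t‖)).mul_const ‖f‖
      simpa using h3
    have h0 : ‖⟪h, f⟫_ℂ‖ ≤ 0 := ge_of_tendsto' hlim fun m => hb (-(m:ℤ))
    have h1 : ⟪h, f⟫_ℂ = ⟪h, h⟫_ℂ := by
      rw [MeasureTheory.L2.inner_def, MeasureTheory.L2.inner_def]
      refine integral_congr_ae ?_
      filter_upwards [hcoe] with t ht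
      rw [ht]
      by_cases hts : t ∈ S
      · rw [indicator_of_mem hts]
      · rw [indicator_of_notMem hts]; simp
    have h2 : h = 0 := by
      rw [← inner_self_eq_zero (𝕜 := ℂ), ← h1]
      exact norm_le_zero_iff.mp h0
    have h3 : ⇑h =ᵐ[volume] 0 := by rw [h2]; exact Lp.coeFn_zero _ _ _
    filter_upwards [hcoe, h3] with t ht ht2 hts
    rw [ht, indicator_of_mem hts] at ht2
    exact ht2
  rw [← ae_all_iff] at key
  refine Lp.ext ?_
  filter_upwards [key, Lp.coeFn_zero ℂ 2 (volume : Measure ℝ)] with t ht h0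
  rw [h0]
  obtain ⟨n, hn⟩ := exists_nat_ge |t|
  exact ht n (by rw [mem_Icc]; exact abs_le.mp hn)

/-- approximation of continuous compactly supported functions -/
lemma approx (g : ℝ → ℂ) (hg : Continuous g) (hgs : HasCompactSupport g) (hgm : MemLp g 2 volume)
    {ε : ℝ} (hε : 0 < ε) : ∃ (j : ℤ), ∃ h ∈ V (Phi c) j, ‖hgm.toLp - h‖ ≤ ε := by
  obtain ⟨M, hM0, hM⟩ := phi_bdd c
  -- support radius
  obtain ⟨R, hR⟩ : ∃ R : ℕ, ∀ t, (R:ℝ) < |t| → g t = 0 := by
    obtain ⟨r, hr⟩ := hgs.isCompact.isBounded.subset_closedBall (0:ℝ)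
    obtain ⟨R, hR⟩ := exists_nat_ge r
    refine ⟨R, fun t ht => ?_⟩
    by_contra hne
    have h1 : t ∈ tsupport g := subset_tsupport g hne
    have h2 := hr h1
    rw [Metric.mem_closedBall, dist_zero_right, Real.norm_eq_abs] at h2
    linarith
  -- choice of the error
  set D : ℝ := 3 * M * (2 * (R + 3) + 1) with hD
  have hDpos : 0 < D := by positivity
  have huc : UniformContinuous g := hgs.uniformContinuous_of_continuous hg
  obtain ⟨δ, hδ, hgδ⟩ := Metric.uniformContinuous_iff.mp huc (ε / D) (by positivity)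
  obtain ⟨n, hn⟩ : ∃ n : ℕ, 3 * (1 / 2 : ℝ) ^ n < δ := by
    obtain ⟨n, hn⟩ := exists_pow_lt_of_lt_one (show 0 < δ / 3 by positivity)
      (show (1 / 2 : ℝ) < 1 by norm_num)
    exact ⟨n, by linarith⟩
  set p : ℝ := (2:ℝ) ^ (n:ℤ) with hp
  have hp0 : 0 < p := two_zpow_pos _
  have hp1 : 1 ≤ p := by rw [hp, zpow_natCast]; exact one_le_pow₀ one_le_two
  have hpinv : p⁻¹ = (1 / 2 : ℝ) ^ n := by rw [hp, zpow_natCast]; simp
  -- finite set
  set s : Finset ℤ := Finset.Icc (-(R * 2 ^ n : ℤ)) (R * 2 ^ n) with hs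
  have hsout : ∀ k : ℤ, k ∉ s → g (k / p) = 0 := by
    intro k hk
    apply hR
    rw [abs_div, abs_of_pos hp0, lt_div_iff₀ hp0]
    rw [hs, Finset.mem_Icc, not_and_or, not_le, not_le] at hk
    have : (R * 2 ^ n : ℤ) < |k| := by
      rcases hk with h | h
      · rw [lt_abs]; right; linarith
      · rw [lt_abs]; left; exact h
    have h2 : ((R * 2 ^ n : ℤ) : ℝ) < ((|k| : ℤ) : ℝ) := by exact_mod_cast this
    rw [Int.cast_abs] at h2
    rw [hp, zpow_natCast]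
    push_cast at h2
    exact h2
  set q : ℝ := (2:ℝ) ^ (((n:ℤ):ℝ) / 2) with hq
  have hq0 : 0 < q := Real.rpow_pos_of_pos two_pos _
  set h : Lp ℂ 2 (volume : Measure ℝ) := ∑ k ∈ s, (((q⁻¹ : ℝ) : ℂ) * g (k / p)) • e c n k with hh
  refine ⟨n, h, ?_, ?_⟩
  · rw [V_eq]
    refine Submodule.le_topologicalClosure _ ?_
    exact Submodule.sum_mem _ fun k _ => Submodule.smul_mem _ _ (Submodule.subset_span ⟨k, rfl⟩)
  have hcoe : ⇑h =ᵐ[volume] fun t => ∑ k ∈ s, g (k / p) * Phi c (p * t - k) := by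
    have hk : ∀ᵐ t, ∀ k : ℤ, ((((q⁻¹ : ℝ) : ℂ) * g (k / p)) • e c n k : Lp ℂ 2 (volume : Measure ℝ)) t
        = g (k / p) * Phi c (p * t - k) := by
      rw [ae_all_iff]
      intro k
      filter_upwards [Lp.coeFn_smul (((q⁻¹ : ℝ) : ℂ) * g (k / p)) (e c n k), e_coe (c := c) n k]
        with t h1 h2
      rw [h1, Pi.smul_apply, h2, smul_eq_mul, dil, ← hq, ← hp]
      have : ((q⁻¹ : ℝ) : ℂ) * (q : ℂ) = 1 := by
        rw [← Complex.ofReal_mul, inv_mul_cancel₀ hq0.ne', Complex.ofReal_one]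
      linear_combination (g (k / p) * Phi c (p * t - k)) * this
    filter_upwards [Lp.coeFn_fun_finsetSum s (fun k => (((q⁻¹ : ℝ) : ℂ) * g (k / p)) • e c n k), hk]
      with t h1 h2
    rw [hh, h1]
    exact Finset.sum_congr rfl fun k _ => h2 k
  -- rewriting of the sum
  have hsum : ∀ t, ∑ k ∈ s, g (k / p) * Phi c (p * t - k) =
      ∑ k ∈ Finset.Icc (⌊p * t⌋ - 2) ⌊p * t⌋, g (k / p) * Phi c (p * t - k) := by
    intro t
    have e1 : ∑ k ∈ s, g (k / p) * Phi c (p * t - k) =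
        ∑ k ∈ s ∪ Finset.Icc (⌊p * t⌋ - 2) ⌊p * t⌋, g (k / p) * Phi c (p * t - k) := by
      refine Finset.sum_subset Finset.subset_union_left fun k _ hk => ?_
      rw [hsout k hk, zero_mul]
    rw [e1]
    symm
    refine Finset.sum_subset Finset.subset_union_right fun k _ hk => ?_
    rw [Phi, outside hk]; simp
  set E : ℝ → ℂ := fun t => g t - ∑ k ∈ s, g (k / p) * Phi c (p * t - k) with hE
  have hEb : ∀ t, ‖E t‖ ≤ 3 * M * (ε / D) := by
    intro t
    have e1 : E t = ∑ k ∈ Finset.Icc (⌊p * t⌋ - 2) ⌊p * t⌋, (g t - g (k / p)) * Phi c (p * t - k) := by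
      rw [hE]
      simp only
      rw [hsum t]
      have e2 : g t = ∑ k ∈ Finset.Icc (⌊p * t⌋ - 2) ⌊p * t⌋, g t * Phi c (p * t - k) := by
        rw [← Finset.mul_sum]
        have := pou (c := c) (p * t)
        have h3 : ∑ k ∈ Finset.Icc (⌊p * t⌋ - 2) ⌊p * t⌋, Phi c (p * t - k) = 1 := by
          unfold Phi
          rw [← Complex.ofReal_sum, this, Complex.ofReal_one]
        rw [h3, mul_one]
      nth_rewrite 1 [e2]
      rw [← Finset.sum_sub_distrib]
      exact Finset.sum_congr rfl fun k _ => by ring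
    rw [e1]
    refine (norm_sum_le _ _).trans ?_
    have : ∀ k ∈ Finset.Icc (⌊p * t⌋ - 2) ⌊p * t⌋, ‖(g t - g (k / p)) * Phi c (p * t - k)‖ ≤
        (ε / D) * M := by
      intro k hk
      rw [norm_mul]
      have h1 := inside hk
      have h2 : dist t (k / p) < δ := by
        rw [Real.dist_eq]
        have : t - k / p = (p * t - k) * p⁻¹ := by field_simp
        rw [this, abs_mul, abs_of_pos (inv_pos.mpr hp0), hpinv]
        refine lt_of_le_of_lt ?_ hn
        gcongr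
      have h3 := hgδ h2
      rw [dist_eq_norm] at h3
      have h4 : ‖Phi c (p * t - k)‖ ≤ M := by
        rw [Phi, Complex.norm_real]; exact hM _
      gcongr
    refine (Finset.sum_le_sum this).trans (le_of_eq ?_)
    rw [Finset.sum_const, Int.card_Icc, show ⌊p * t⌋ + 1 - (⌊p * t⌋ - 2) = 3 by ring]
    simp
    ring
  have hEs : ∀ t, t ∉ Icc (-((R:ℝ) + 3)) ((R:ℝ) + 3) → E t = 0 := by
    intro t ht
    have ht' : (R:ℝ) + 3 < |t| := by
      by_contra hcon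
      exact ht (abs_le.mp (not_lt.mp hcon))
    rw [hE]
    simp only
    rw [hsum t, hR t (by linarith)]
    rw [Finset.sum_eq_zero, sub_zero]
    intro k hk
    have h1 := inside hk
    have h2 : |t - k / p| ≤ 3 := by
      have : t - k / p = (p * t - k) * p⁻¹ := by field_simp
      rw [this, abs_mul, abs_of_pos (inv_pos.mpr hp0)]
      have h3 : p⁻¹ ≤ 1 := inv_le_one_of_one_le₀ hp1
      have h4 : 0 < p⁻¹ := inv_pos.mpr hp0
      have := abs_nonneg (p * t - k)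
      nlinarith
    have h3 : |t| ≤ |t - k / p| + |(k:ℝ) / p| := by
      have := abs_add_le (t - k / p) (k / p)
      rwa [sub_add_cancel] at this
    rw [hR (k / p) (by linarith), zero_mul]
  have hEm : ⇑(hgm.toLp - h) =ᵐ[volume] E := by
    filter_upwards [Lp.coeFn_sub hgm.toLp h, hgm.coeFn_toLp, hcoe] with t h1 h2 h3
    rw [h1, Pi.sub_apply, h2, h3]
  rw [Lp.norm_def]
  refine ENNReal.toReal_le_of_le_ofReal hε.le ?_
  rw [eLpNorm_congr_ae hEm]
  have hind : E = (Icc (-((R:ℝ) + 3)) ((R:ℝ) + 3)).indicator E := by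
    funext t
    by_cases ht : t ∈ Icc (-((R:ℝ) + 3)) ((R:ℝ) + 3)
    · rw [indicator_of_mem ht]
    · rw [indicator_of_notMem ht, hEs t ht]
  rw [hind, eLpNorm_indicator_eq_eLpNorm_restrict measurableSet_Icc]
  refine (eLpNorm_le_of_ae_bound (C := 3 * M * (ε / D)) (Eventually.of_forall hEb)).trans ?_
  rw [Measure.restrict_apply_univ, Real.volume_Icc, ENNReal.ofReal_rpow_of_nonneg (by linarith) (by simp),
    ← ENNReal.ofReal_mul (Real.rpow_nonneg (by
      have : (0:ℝ) ≤ R := Nat.cast_nonneg _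
      linarith) _)]
  apply ENNReal.ofReal_le_ofReal
  have h1 : ((R:ℝ) + 3 - -((R:ℝ) + 3)) ^ (ENNReal.toReal 2)⁻¹ ≤ 2 * (R + 3) + 1 := by
    have h2 : (R:ℝ) + 3 - -((R:ℝ) + 3) = 2 * (R + 3) := by ring
    rw [h2]
    calc (2 * ((R:ℝ) + 3)) ^ (ENNReal.toReal 2)⁻¹ ≤ (2 * ((R:ℝ) + 3) + 1) ^ (ENNReal.toReal 2)⁻¹ := by
          gcongr
          linarith
      _ ≤ (2 * ((R:ℝ) + 3) + 1) ^ (1:ℝ) := by
          refine Real.rpow_le_rpow_of_exponent_le ?_ ?_
          · have : (0:ℝ) ≤ R := Nat.cast_nonneg _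
            linarith
          · simp; norm_num
      _ = _ := by rw [Real.rpow_one]
  calc ((R:ℝ) + 3 - -((R:ℝ) + 3)) ^ (ENNReal.toReal 2)⁻¹ * (3 * M * (ε / D))
      ≤ (2 * (R + 3) + 1) * (3 * M * (ε / D)) := by gcongr
    _ = ε := by rw [hD]; field_simp

lemma dense_union : (⨆ j : ℤ, V (Phi c) j).topologicalClosure = ⊤ := by
  rw [eq_top_iff]
  intro f _
  show f ∈ closure ((⨆ j : ℤ, V (Phi c) j : Submodule ℂ (Lp ℂ 2 (volume : Measure ℝ))) : Set _)
  rw [Metric.mem_closure_iff]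
  intro ε hε
  obtain ⟨g, hgs, hge, hgc, hgm⟩ := (Lp.memLp f).exists_hasCompactSupport_eLpNorm_sub_le
    (by simp) (ε := ENNReal.ofReal (ε / 3)) (by simpa using hε)
  obtain ⟨j, h, hV, hb⟩ := approx (c := c) g hgc hgs hgm (show 0 < ε / 3 by positivity)
  refine ⟨h, Submodule.mem_iSup_of_mem j hV, ?_⟩
  rw [dist_eq_norm]
  have h1 : ‖f - hgm.toLp‖ ≤ ε / 3 := by
    rw [Lp.norm_def]
    refine ENNReal.toReal_le_of_le_ofReal (by positivity) ?_
    refine le_trans (le_of_eq (eLpNorm_congr_ae ?_)) hge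
    filter_upwards [Lp.coeFn_sub f hgm.toLp, hgm.coeFn_toLp] with t h1 h2
    rw [h1, Pi.sub_apply, Pi.sub_apply, h2]
  calc ‖f - h‖ = ‖(f - hgm.toLp) + (hgm.toLp - h)‖ := by congr 1; abel
    _ ≤ ‖f - hgm.toLp‖ + ‖hgm.toLp - h‖ := norm_add_le _ _
    _ < ε := by linarith

end Pool.Agent.V1282.Sc
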