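import Pool.Agent.V1282.TBDef

set_option linter.all false

open Set Filter Topology MeasureTheory

namespace Pool.Agent.V1282.TB

/-! ### the positive-part power -/

theorem hasDerivAt_pospow {b : ℝ} (hb : 1 < b) (x : ℝ) :
    HasDerivAt (fun y : ℝ => (max y 0) ^ b) (b * (max x 0) ^ (b - 1)) x := by
  rcases lt_trichotomy x 0 with hx | hx | hx
  · have h0 : (fun y : ℝ => (max y 0) ^ b) =ᶠ[𝓝 x] fun _ => (0:ℝ) := by
      filter_upwards [Iio_mem_nhds hx] with y hy
      rw [max_eq_right (le_of_lt hy), Real.zero_rpow (by linarith)]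
    rw [max_eq_right hx.le, Real.zero_rpow (by linarith), mul_zero]
    exact (hasDerivAt_const x (0:ℝ)).congr_of_eventuallyEq h0
  · subst hx
    have e : b * (max (0:ℝ) 0) ^ (b - 1) = 0 := by
      rw [max_self, Real.zero_rpow (by linarith), mul_zero]
    rw [e]
    have h1 : HasDerivWithinAt (fun y : ℝ => (max y 0) ^ b) 0 (Iic 0) 0 := by
      refine (hasDerivWithinAt_const (0:ℝ) (Iic 0) (0:ℝ)).congr ?_ ?_
      · intro y hy
        rw [max_eq_right hy, Real.zero_rpow (by linarith)]
      · rw [max_self, Real.zero_rpow (by linarith)]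
    have h2 : HasDerivWithinAt (fun y : ℝ => (max y 0) ^ b) 0 (Ici 0) 0 := by
      have h3 : HasDerivAt (fun y : ℝ => y ^ b) (b * (0:ℝ) ^ (b - 1)) 0 :=
        Real.hasDerivAt_rpow_const (Or.inr hb.le)
      rw [Real.zero_rpow (by linarith : b - 1 ≠ 0), mul_zero] at h3
      refine h3.hasDerivWithinAt.congr ?_ ?_
      · intro y hy
        rw [max_eq_left hy]
      · rw [max_self]
    have h3 := h1.union h2
    rw [Iic_union_Ici] at h3
    exact hasDerivWithinAt_univ.1 h3
  · have h0 : (fun y : ℝ => (max y 0) ^ b) =ᶠ[𝓝 x] fun y => y ^ b := by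
      filter_upwards [Ioi_mem_nhds hx] with y hy
      rw [max_eq_left (le_of_lt hy)]
    rw [max_eq_left hx.le]
    exact (Real.hasDerivAt_rpow_const (Or.inl hx.ne')).congr_of_eventuallyEq h0

/-! ### the profile functions -/

noncomputable def bet (α : ℝ) : ℝ := α / (α - 1)

/-- `G(x) = (1 + α x₊^β)^(1/β)` -/
noncomputable def G (α x : ℝ) : ℝ := (1 + α * (max x 0) ^ bet α) ^ (1 / bet α)

/-- `g(x) = x₊^(β-1) (1 + α x₊^β)^(-1/α)` -/
noncomputable def g (α x : ℝ) : ℝ :=
  (max x 0) ^ (bet α - 1) * (1 + α * (max x 0) ^ bet α) ^ (-(1 / α))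

section

variable {α : ℝ} (hα : 1 < α)
include hα

theorem bet_gt : 1 < bet α := by
  unfold bet
  rw [lt_div_iff₀ (by linarith)]; linarith

theorem bet_pos : 0 < bet α := by linarith [bet_gt hα]

theorem inv_bet : 1 / bet α = 1 - 1 / α := by
  unfold bet
  have h1 : α - 1 ≠ 0 := by linarith
  have h2 : α ≠ 0 := by linarith
  field_simp

theorem bet_sub : bet α - 1 = bet α / α := by
  unfold bet
  have h1 : α - 1 ≠ 0 := by linarith
  have h2 : α ≠ 0 := by linarith
  field_simp
  ring

theorem bet_sub_mul : (bet α - 1) * α = bet α := by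
  rw [bet_sub hα]
  have h2 : α ≠ 0 := by linarith
  field_simp

theorem one_add_pos (x : ℝ) : 0 < 1 + α * (max x 0) ^ bet α := by
  have : 0 ≤ (max x 0) ^ bet α := Real.rpow_nonneg (le_max_right _ _) _
  have : 0 ≤ α * (max x 0) ^ bet α := by positivity
  linarith

theorem one_le_one_add (x : ℝ) : 1 ≤ 1 + α * (max x 0) ^ bet α := by
  have : 0 ≤ (max x 0) ^ bet α := Real.rpow_nonneg (le_max_right _ _) _
  have : 0 ≤ α * (max x 0) ^ bet α := by positivity
  linarith

theorem G_pos (x : ℝ) : 0 < G α x := Real.rpow_pos_of_pos (one_add_pos hα x) _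

theorem one_le_G (x : ℝ) : 1 ≤ G α x :=
  Real.one_le_rpow (one_le_one_add hα x) (by have := bet_pos hα; positivity)

theorem G_of_nonpos {x : ℝ} (hx : x ≤ 0) : G α x = 1 := by
  unfold G
  rw [max_eq_right hx, Real.zero_rpow (bet_pos hα).ne']
  simp

theorem g_of_nonpos {x : ℝ} (hx : x ≤ 0) : g α x = 0 := by
  unfold g
  rw [max_eq_right hx, Real.zero_rpow (by linarith [bet_gt hα])]
  simp

theorem g_pos {x : ℝ} (hx : 0 < x) : 0 < g α x := by
  unfold g
  rw [max_eq_left hx.le]
  have : 0 < 1 + α * x ^ bet α := by positivity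
  positivity

theorem g_nonneg (x : ℝ) : 0 ≤ g α x := by
  rcases le_or_gt x 0 with h | h
  · rw [g_of_nonpos hα h]
  · exact (g_pos hα h).le

theorem hasDerivAt_G (x : ℝ) : HasDerivAt (G α) (α * g α x) x := by
  have h1 := ((hasDerivAt_pospow (bet_gt hα) x).const_mul α).const_add 1
  have h2 := h1.rpow_const (p := 1 / bet α) (Or.inl (one_add_pos hα x).ne')
  have e : α * (bet α * (max x 0) ^ (bet α - 1)) * (1 / bet α) *
      (1 + α * (max x 0) ^ bet α) ^ (1 / bet α - 1) = α * g α x := by
    unfold g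
    have hb := (bet_pos hα).ne'
    have e2 : 1 / bet α - 1 = -(1 / α) := by rw [inv_bet hα]; ring
    rw [e2]
    field_simp
  rw [e] at h2
  exact h2

theorem continuous_G : Continuous (G α) :=
  continuous_iff_continuousAt.2 fun x => (hasDerivAt_G hα x).continuousAt

theorem continuous_g : Continuous (g α) := by
  unfold g
  have hb := bet_gt hα
  refine Continuous.mul ?_ ?_
  · exact Continuous.rpow_const (by fun_prop) (fun x => Or.inr (by linarith))
  · refine Continuous.rpow_const ?_ (fun x => Or.inl (one_add_pos hα x).ne')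
    exact continuous_const.add (continuous_const.mul
      (Continuous.rpow_const (by fun_prop) (fun x => Or.inr (by linarith))))

/-- `α g < α^(1/β)` -/
theorem g_lt (x : ℝ) : g α x < α ^ (-(1 / α)) := by
  have hα0 : 0 < α := by linarith
  rcases le_or_gt x 0 with h | h
  · rw [g_of_nonpos hα h]; positivity
  · unfold g
    rw [max_eq_left h.le]
    have h1 : (0:ℝ) < α * x ^ bet α := by positivity
    have h2 : (1 + α * x ^ bet α) ^ (-(1 / α)) < (α * x ^ bet α) ^ (-(1 / α)) :=
      Real.rpow_lt_rpow_of_neg h1 (by linarith) (by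
        rw [neg_lt_zero]; positivity)
    have h3 : (α * x ^ bet α) ^ (-(1 / α)) = α ^ (-(1 / α)) * x ^ (-(bet α - 1)) := by
      rw [Real.mul_rpow hα0.le (by positivity), ← Real.rpow_mul h.le, bet_sub hα]
      congr 2
      field_simp
    have h4 : x ^ (bet α - 1) * x ^ (-(bet α - 1)) = 1 := by
      rw [← Real.rpow_add h, add_neg_cancel, Real.rpow_zero]
    have h5 : 0 < x ^ (bet α - 1) := by positivity
    calc x ^ (bet α - 1) * (1 + α * x ^ bet α) ^ (-(1 / α))
        < x ^ (bet α - 1) * (α * x ^ bet α) ^ (-(1 / α)) :=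
          mul_lt_mul_of_pos_left h2 h5
      _ = α ^ (-(1 / α)) * (x ^ (bet α - 1) * x ^ (-(bet α - 1))) := by rw [h3]; ring
      _ = α ^ (-(1 / α)) := by rw [h4, mul_one]

/-- `x g(x) = g(x)^α G(x)` -/
theorem mul_g (x : ℝ) : x * g α x = g α x ^ α * G α x := by
  have hα0 : 0 < α := by linarith
  rcases le_or_gt x 0 with h | h
  · rw [g_of_nonpos hα h, Real.zero_rpow hα0.ne']; ring
  · unfold g G
    rw [max_eq_left h.le]
    have h1 : (0:ℝ) < 1 + α * x ^ bet α := by positivity
    rw [Real.mul_rpow (by positivity) (by positivity), ← Real.rpow_mul h.le,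
      ← Real.rpow_mul h1.le, bet_sub_mul hα]
    have e1 : -(1 / α) * α = -1 := by field_simp
    rw [e1, Real.rpow_neg_one, inv_bet hα]
    have e2 : x * (x ^ (bet α - 1) * (1 + α * x ^ bet α) ^ (-(1 / α))) =
        (x ^ (1:ℝ) * x ^ (bet α - 1)) * (1 + α * x ^ bet α) ^ (-(1 / α)) := by
      rw [Real.rpow_one]; ring
    rw [e2, ← Real.rpow_add h]
    have e3 : (1:ℝ) + (bet α - 1) = bet α := by ring
    rw [e3]
    have e4 : (1 + α * x ^ bet α) ^ (1 - 1 / α) =
        (1 + α * x ^ bet α) * (1 + α * x ^ bet α) ^ (-(1 / α)) := by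
      rw [show (1:ℝ) - 1 / α = 1 + -(1 / α) by ring, Real.rpow_add h1, Real.rpow_one]
    rw [e4]
    field_simp

/-! ### the function `γ(x) = G(x) - α^(1/β) x` -/

theorem alpha_pow : α * α ^ (-(1 / α)) = α ^ (1 / bet α) := by
  have hα0 : 0 < α := by linarith
  rw [inv_bet hα, show (1:ℝ) - 1 / α = 1 + -(1 / α) by ring, Real.rpow_add hα0,
    Real.rpow_one]

end

noncomputable def gam (α x : ℝ) : ℝ := G α x - α ^ (1 / bet α) * x

section

variable {α : ℝ} (hα : 1 < α)
include hα

theorem hasDerivAt_gam (x : ℝ) :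
    HasDerivAt (gam α) (α * g α x - α ^ (1 / bet α)) x := by
  have h1 := (hasDerivAt_id x).const_mul (α ^ (1 / bet α))
  have h2 := (hasDerivAt_G hα x).sub h1
  rw [mul_one] at h2
  exact h2

theorem dgam_neg (x : ℝ) : α * g α x - α ^ (1 / bet α) < 0 := by
  have hα0 : 0 < α := by linarith
  rw [← alpha_pow hα]
  have := mul_lt_mul_of_pos_left (g_lt hα x) hα0
  linarith

theorem strictAnti_gam : StrictAnti (gam α) := by
  apply strictAnti_of_deriv_neg
  intro x
  rw [(hasDerivAt_gam hα x).deriv]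
  exact dgam_neg hα x

theorem gam_pos (x : ℝ) : 0 < gam α x := by
  have hα0 : 0 < α := by linarith
  have hb := bet_pos hα
  unfold gam
  rcases le_or_gt x 0 with h | h
  · rw [G_of_nonpos hα h]
    have : α ^ (1 / bet α) * x ≤ 0 := mul_nonpos_of_nonneg_of_nonpos (by positivity) h
    linarith
  · unfold G
    rw [max_eq_left h.le]
    have h1 : (0:ℝ) ≤ α * x ^ bet α := by positivity
    have h2 : (α * x ^ bet α) ^ (1 / bet α) < (1 + α * x ^ bet α) ^ (1 / bet α) :=
      Real.rpow_lt_rpow h1 (by linarith) (by positivity)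
    have h3 : (α * x ^ bet α) ^ (1 / bet α) = α ^ (1 / bet α) * x := by
      rw [Real.mul_rpow hα0.le (by positivity), ← Real.rpow_mul h.le]
      rw [mul_one_div_cancel hb.ne', Real.rpow_one]
    linarith

theorem continuous_gam : Continuous (gam α) :=
  continuous_iff_continuousAt.2 fun x => (hasDerivAt_gam hα x).continuousAt

theorem gam_le {x : ℝ} (hx : 0 < x) :
    gam α x ≤ (1 / bet α) * (α * x ^ bet α) ^ (1 / bet α - 1) := by
  have hα0 : 0 < α := by linarith
  have hb := bet_pos hα
  have hb1 := bet_gt hα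
  unfold gam G
  rw [max_eq_left hx.le]
  set a := α * x ^ bet α with ha
  have h1 : 0 < a := by positivity
  have h3 : a ^ (1 / bet α) = α ^ (1 / bet α) * x := by
    rw [ha, Real.mul_rpow hα0.le (by positivity), ← Real.rpow_mul hx.le]
    rw [mul_one_div_cancel hb.ne', Real.rpow_one]
  rw [← h3]
  have h4 : (1 + a) ^ (1 / bet α) = a ^ (1 / bet α) * (1 + 1 / a) ^ (1 / bet α) := by
    rw [← Real.mul_rpow h1.le (by positivity)]
    congr 1
    field_simp
    ring
  have h50 : (-1:ℝ) ≤ 1 / a := by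
    have : 0 < 1 / a := by positivity
    linarith
  have h5 : (1 + 1 / a) ^ (1 / bet α) ≤ 1 + (1 / bet α) * (1 / a) :=
    rpow_one_add_le_one_add_mul_self h50 (by positivity)
      (by rw [div_le_one hb]; exact hb1.le)
  have h6 : 0 < a ^ (1 / bet α) := by positivity
  rw [h4, Real.rpow_sub h1, Real.rpow_one]
  have h7 := mul_le_mul_of_nonneg_left h5 h6.le
  calc a ^ (1 / bet α) * (1 + 1 / a) ^ (1 / bet α) - a ^ (1 / bet α)
      ≤ a ^ (1 / bet α) * (1 + (1 / bet α) * (1 / a)) - a ^ (1 / bet α) := by linarith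
    _ = 1 / bet α * (a ^ (1 / bet α) / a) := by ring

theorem tendsto_gam_atTop : Tendsto (gam α) atTop (𝓝 0) := by
  have hα0 : 0 < α := by linarith
  have hb := bet_pos hα
  have hb1 := bet_gt hα
  have h1 : Tendsto (fun x : ℝ => (1 / bet α) * (α * x ^ bet α) ^ (1 / bet α - 1))
      atTop (𝓝 ((1 / bet α) * 0)) := by
    apply Tendsto.const_mul
    have h2 : Tendsto (fun x : ℝ => α * x ^ bet α) atTop atTop :=
      (tendsto_rpow_atTop hb).const_mul_atTop hα0
    have h3 : 0 < -(1 / bet α - 1) := by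
      have : 1 / bet α < 1 := by rw [div_lt_one hb]; exact hb1
      linarith
    have h4 := (tendsto_rpow_neg_atTop h3).comp h2
    rw [neg_neg] at h4
    exact h4
  rw [mul_zero] at h1
  refine tendsto_of_tendsto_of_tendsto_of_le_of_le' tendsto_const_nhds h1
    (Eventually.of_forall fun x => (gam_pos hα x).le) ?_
  filter_upwards [eventually_gt_atTop 0] with x hx
  exact gam_le hα hx

theorem tendsto_gam_atBot : Tendsto (gam α) atBot atTop := by
  have hα0 : 0 < α := by linarith
  have h1 : Tendsto (fun x : ℝ => 1 - α ^ (1 / bet α) * x) atBot atTop := by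
    have h2 : Tendsto (fun x : ℝ => α ^ (1 / bet α) * x) atBot atBot :=
      tendsto_id.const_mul_atBot (by positivity)
    have h3 := tendsto_neg_atBot_atTop.comp h2
    have h4 := tendsto_atTop_add_const_left atBot (1:ℝ) h3
    refine h4.congr ?_
    intro x; simp [sub_eq_add_neg]
  refine h1.congr' ?_
  filter_upwards [eventually_le_atBot 0] with x hx
  unfold gam
  rw [G_of_nonpos hα hx]

/-- the function `-log γ`, an increasing bijection of `ℝ` -/
theorem strictMono_nlg : StrictMono (fun x => -Real.log (gam α x)) := by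
  intro x y hxy
  have := Real.log_lt_log (gam_pos hα y) (strictAnti_gam hα hxy)
  simp only
  linarith

theorem continuous_nlg : Continuous (fun x => -Real.log (gam α x)) :=
  ((continuous_gam hα).log fun x => (gam_pos hα x).ne').neg

theorem surj_nlg : Function.Surjective (fun x => -Real.log (gam α x)) := by
  apply (continuous_nlg hα).surjective
  · have h1 : Tendsto (gam α) atTop (𝓝[>] 0) :=
      tendsto_nhdsWithin_iff.2 ⟨tendsto_gam_atTop hα,
        Eventually.of_forall fun x => gam_pos hα x⟩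
    exact tendsto_neg_atBot_atTop.comp (Real.tendsto_log_nhdsGT_zero.comp h1)
  · exact tendsto_neg_atTop_atBot.comp (Real.tendsto_log_atTop.comp (tendsto_gam_atBot hα))

end

/-- the inverse function of `γ : ℝ → (0, ∞)` -/
noncomputable def ginv (α y : ℝ) : ℝ :=
  Function.invFun (fun x => -Real.log (gam α x)) (-Real.log y)

section

variable {α : ℝ} (hα : 1 < α)
include hα

theorem gam_ginv {y : ℝ} (hy : 0 < y) : gam α (ginv α y) = y := by
  have h1 : -Real.log (gam α (ginv α y)) = -Real.log y :=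
    Function.invFun_eq (surj_nlg hα (-Real.log y))
  exact Real.log_injOn_pos (gam_pos hα _) hy (neg_inj.1 h1)

theorem ginv_gam (x : ℝ) : ginv α (gam α x) = x :=
  (strictAnti_gam hα).injective (gam_ginv hα (gam_pos hα x))

theorem ginv_lt_iff {y : ℝ} (hy : 0 < y) {x : ℝ} : ginv α y < x ↔ gam α x < y := by
  rw [← (strictAnti_gam hα).lt_iff_gt, gam_ginv hα hy]

theorem lt_ginv_iff {y : ℝ} (hy : 0 < y) {x : ℝ} : x < ginv α y ↔ y < gam α x := by
  rw [← (strictAnti_gam hα).lt_iff_gt, gam_ginv hα hy]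

theorem continuousAt_ginv {y : ℝ} (hy : 0 < y) : ContinuousAt (ginv α) y := by
  rw [ContinuousAt, tendsto_order]
  constructor
  · intro a ha
    rw [lt_ginv_iff hα hy] at ha
    filter_upwards [Iio_mem_nhds ha, Ioi_mem_nhds hy] with z hz hz0
    rw [lt_ginv_iff hα hz0]; exact hz
  · intro a ha
    have ha : ginv α y < a := ha
    rw [ginv_lt_iff hα hy] at ha
    filter_upwards [Ioi_mem_nhds ha, Ioi_mem_nhds hy] with z hz hz0
    rw [ginv_lt_iff hα hz0]; exact hz

theorem hasDerivAt_ginv {y : ℝ} (hy : 0 < y) :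
    HasDerivAt (ginv α) (α * g α (ginv α y) - α ^ (1 / bet α))⁻¹ y := by
  apply HasDerivAt.of_local_left_inverse (continuousAt_ginv hα hy)
    (hasDerivAt_gam hα (ginv α y)) (dgam_neg hα _).ne
  filter_upwards [Ioi_mem_nhds hy] with z hz
  exact gam_ginv hα hz

end

end Pool.Agent.V1282.TB
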