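import Pool.Agent.V1282.TB1

set_option linter.all false

open Set Filter Topology MeasureTheory

namespace Pool.Agent.V1282.TB

noncomputable def tau (α ρ₂ m₁ t ρ : ℝ) : ℝ := (ρ - ρ₂) / (α * m₁ * t ^ (1 / α))
noncomputable def mR (α ρ₂ m₁ t ρ : ℝ) : ℝ := m₁ * G α (tau α ρ₂ m₁ t ρ)
noncomputable def uR (α ρ₂ m₁ t ρ : ℝ) : ℝ := t ^ (-(1 / α)) * g α (tau α ρ₂ m₁ t ρ)

section

variable {α ρ₁ ρ₂ m₁ m₂ : ℝ} (hα : 1 < α)
include hα

theorem U_pos {t : ℝ} (ht : 0 < t) : 0 < U α t := by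
  unfold U; positivity

theorem U_eq {t : ℝ} (ht : 0 < t) : U α t = α ^ (-(1 / α)) * t ^ (-(1 / α)) := by
  unfold U; rw [Real.mul_rpow (by linarith) ht.le]

theorem U_rpow {t : ℝ} (ht : 0 < t) : U α t ^ α = 1 / (α * t) := by
  have hα0 : 0 < α := by linarith
  unfold U
  rw [← Real.rpow_mul (by positivity)]
  have e1 : -(1 / α) * α = -1 := by field_simp
  rw [e1, Real.rpow_neg_one, one_div]

theorem hasDerivAt_U {t : ℝ} (ht : 0 < t) : HasDerivAt (U α) (-(U α t) * (1 / (α * t))) t := by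
  have hα0 : 0 < α := by linarith
  have h1 : HasDerivAt (fun s : ℝ => α * s) (α * 1) t := (hasDerivAt_id t).const_mul α
  have h2 := h1.rpow_const (p := -(1 / α)) (Or.inl (by positivity))
  have e : α * 1 * (-(1 / α)) * (α * t) ^ (-(1 / α) - 1) = -(U α t) * (1 / (α * t)) := by
    unfold U
    rw [Real.rpow_sub (by positivity), Real.rpow_one]
    field_simp
  rw [e] at h2
  exact h2

theorem continuousOn_U : ContinuousOn (U α) (Ioi 0) :=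
  fun t ht => (hasDerivAt_U hα ht).continuousAt.continuousWithinAt

theorem U_strictAnti {s t : ℝ} (hs : 0 < s) (hst : s < t) : U α t < U α s := by
  have hα0 : 0 < α := by linarith
  unfold U
  apply Real.rpow_lt_rpow_of_neg (by positivity) (by nlinarith)
  rw [neg_lt_zero]; positivity

theorem uR_nonneg {t : ℝ} (ht : 0 < t) (ρ : ℝ) : 0 ≤ uR α ρ₂ m₁ t ρ := by
  unfold uR
  have := g_nonneg hα (tau α ρ₂ m₁ t ρ)
  positivity

theorem uR_lt {t : ℝ} (ht : 0 < t) (ρ : ℝ) : uR α ρ₂ m₁ t ρ < U α t := by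
  rw [U_eq hα ht]
  unfold uR
  have := g_lt hα (tau α ρ₂ m₁ t ρ)
  have h2 : 0 < t ^ (-(1 / α)) := by positivity
  nlinarith

theorem tau_nonpos (hm : 0 < m₁) {t : ℝ} (ht : 0 < t) {ρ : ℝ} (h : ρ ≤ ρ₂) :
    tau α ρ₂ m₁ t ρ ≤ 0 := by
  have hα0 : 0 < α := by linarith
  unfold tau
  apply div_nonpos_of_nonpos_of_nonneg (by linarith) (by positivity)

theorem tau_pos (hm : 0 < m₁) {t : ℝ} (ht : 0 < t) {ρ : ℝ} (h : ρ₂ < ρ) :
    0 < tau α ρ₂ m₁ t ρ := by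
  have hα0 : 0 < α := by linarith
  unfold tau
  apply div_pos (by linarith) (by positivity)

theorem uR_of_le (hm : 0 < m₁) {t : ℝ} (ht : 0 < t) {ρ : ℝ} (h : ρ ≤ ρ₂) :
    uR α ρ₂ m₁ t ρ = 0 := by
  unfold uR; rw [g_of_nonpos hα (tau_nonpos hα hm ht h), mul_zero]

theorem uR_pos (hm : 0 < m₁) {t : ℝ} (ht : 0 < t) {ρ : ℝ} (h : ρ₂ < ρ) :
    0 < uR α ρ₂ m₁ t ρ := by
  unfold uR
  have := g_pos hα (tau_pos hα hm ht h)
  positivity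

theorem mR_of_le (hm : 0 < m₁) {t : ℝ} (ht : 0 < t) {ρ : ℝ} (h : ρ ≤ ρ₂) :
    mR α ρ₂ m₁ t ρ = m₁ := by
  unfold mR; rw [G_of_nonpos hα (tau_nonpos hα hm ht h), mul_one]

theorem fan_eq (hm : 0 < m₁) {t : ℝ} (ht : 0 < t) {ρ : ℝ} (h : ρ₂ < ρ) :
    fan α ρ₂ m₁ t ρ = uR α ρ₂ m₁ t ρ := by
  have hα0 : 0 < α := by linarith
  have hb := bet_pos hα
  have hτ := tau_pos hα hm ht h
  have hx : 0 < (ρ - ρ₂) / (α * m₁ * t) := by
    apply div_pos (by linarith) (by positivity)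
  unfold fan uR g
  rw [max_eq_left hτ.le]
  change (((ρ - ρ₂) / (α * m₁ * t)) ^ (-(bet α)) + α * t) ^ (-(1 / α)) = _
  set τ := tau α ρ₂ m₁ t ρ with hτd
  set x := (ρ - ρ₂) / (α * m₁ * t) with hxd
  have e1 : x = τ * t ^ (-(1 / bet α)) := by
    rw [hxd, hτd]
    unfold tau
    have e2 : t = t ^ (1 / α) * t ^ (1 / bet α) := by
      rw [← Real.rpow_add ht, inv_bet hα, show (1:ℝ) / α + (1 - 1 / α) = 1 by ring,
        Real.rpow_one]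
    have e3 : t ^ (-(1 / bet α)) = (t ^ (1 / bet α))⁻¹ := Real.rpow_neg ht.le _
    rw [e3]
    have h1 : (0:ℝ) < t ^ (1 / α) := by positivity
    have h2 : (0:ℝ) < t ^ (1 / bet α) := by positivity
    conv_lhs => rw [e2]
    field_simp
  have e4 : x ^ (-(bet α)) = τ ^ (-(bet α)) * t := by
    rw [e1, Real.mul_rpow hτ.le (by positivity), ← Real.rpow_mul ht.le]
    rw [show -(1 / bet α) * -(bet α) = 1 by field_simp, Real.rpow_one]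
  have e5 : x ^ (-(bet α)) + α * t = t * (τ ^ (-(bet α)) * (1 + α * τ ^ bet α)) := by
    rw [e4]
    have : τ ^ (-(bet α)) * τ ^ (bet α) = 1 := by
      rw [← Real.rpow_add hτ, neg_add_cancel, Real.rpow_zero]
    linear_combination (-(α * t)) * this
  have h6 : (0:ℝ) < 1 + α * τ ^ bet α := by positivity
  rw [e5, Real.mul_rpow ht.le (by positivity), Real.mul_rpow (by positivity) h6.le,
    ← Real.rpow_mul hτ.le]
  congr 3
  rw [bet_sub hα]; field_simp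

theorem hasDerivAt_mR_space (hm : 0 < m₁) {t : ℝ} (ht : 0 < t) (ρ : ℝ) :
    HasDerivAt (mR α ρ₂ m₁ t) (uR α ρ₂ m₁ t ρ) ρ := by
  have hα0 : 0 < α := by linarith
  have h1 : HasDerivAt (fun x : ℝ => tau α ρ₂ m₁ t x) (1 / (α * m₁ * t ^ (1 / α))) ρ := by
    unfold tau
    exact ((hasDerivAt_id ρ).sub_const ρ₂).div_const _
  have h2 := ((hasDerivAt_G hα (tau α ρ₂ m₁ t ρ)).comp ρ h1).const_mul m₁
  have e : m₁ * (α * g α (tau α ρ₂ m₁ t ρ) * (1 / (α * m₁ * t ^ (1 / α)))) =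
      uR α ρ₂ m₁ t ρ := by
    unfold uR
    rw [Real.rpow_neg ht.le]
    have : (0:ℝ) < t ^ (1 / α) := by positivity
    field_simp
  rw [e] at h2
  exact h2

theorem continuous_uR {t : ℝ} (ht : 0 < t) : Continuous (uR α ρ₂ m₁ t) := by
  unfold uR tau
  exact continuous_const.mul ((continuous_g hα).comp (by fun_prop))

theorem continuous_mR {t : ℝ} (ht : 0 < t) : Continuous (mR α ρ₂ m₁ t) := by
  unfold mR tau
  exact continuous_const.mul ((continuous_G hα).comp (by fun_prop))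

/-- `τ t^(-1) ...`: the pointwise mass equation in the fan -/
theorem uR_rpow_mul (hm : 0 < m₁) {t : ℝ} (ht : 0 < t) (ρ : ℝ) :
    uR α ρ₂ m₁ t ρ ^ α * mR α ρ₂ m₁ t ρ =
      m₁ / t * (tau α ρ₂ m₁ t ρ * g α (tau α ρ₂ m₁ t ρ)) := by
  have hα0 : 0 < α := by linarith
  unfold uR mR
  rw [Real.mul_rpow (by positivity) (g_nonneg hα _), ← Real.rpow_mul ht.le,
    show -(1 / α) * α = -1 by field_simp, Real.rpow_neg_one, mul_g hα]
  field_simp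

theorem hasDerivAt_mR (hm : 0 < m₁) {t : ℝ} (ht : 0 < t) {S : ℝ → ℝ} {S' : ℝ}
    (hS : HasDerivAt S S' t) :
    HasDerivAt (fun s => mR α ρ₂ m₁ s (S s))
      (uR α ρ₂ m₁ t (S t) * S' - uR α ρ₂ m₁ t (S t) ^ α * mR α ρ₂ m₁ t (S t)) t := by
  have hα0 : 0 < α := by linarith
  have h0 : HasDerivAt (fun s : ℝ => s ^ (1 / α)) ((1 / α) * t ^ (1 / α - 1)) t :=
    Real.hasDerivAt_rpow_const (Or.inl ht.ne')
  have h1 : HasDerivAt (fun s : ℝ => α * m₁ * s ^ (1 / α))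
      (α * m₁ * ((1 / α) * t ^ (1 / α - 1))) t := h0.const_mul _
  have hne : α * m₁ * t ^ (1 / α) ≠ 0 := by positivity
  have h2 : HasDerivAt (fun s : ℝ => tau α ρ₂ m₁ s (S s))
      ((S' * (α * m₁ * t ^ (1 / α)) - (S t - ρ₂) * (α * m₁ * ((1 / α) * t ^ (1 / α - 1)))) /
        (α * m₁ * t ^ (1 / α)) ^ 2) t := (hS.sub_const ρ₂).div h1 hne
  have h3 := ((hasDerivAt_G hα (tau α ρ₂ m₁ t (S t))).comp t h2).const_mul m₁
  have e : m₁ * (α * g α (tau α ρ₂ m₁ t (S t)) *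
      ((S' * (α * m₁ * t ^ (1 / α)) - (S t - ρ₂) * (α * m₁ * ((1 / α) * t ^ (1 / α - 1)))) /
        (α * m₁ * t ^ (1 / α)) ^ 2)) =
      uR α ρ₂ m₁ t (S t) * S' - uR α ρ₂ m₁ t (S t) ^ α * mR α ρ₂ m₁ t (S t) := by
    rw [uR_rpow_mul hα hm ht]
    unfold uR
    have h4 : t ^ (1 / α - 1) = t ^ (1 / α) / t := by
      rw [Real.rpow_sub ht, Real.rpow_one]
    rw [h4, Real.rpow_neg ht.le]
    have h5 : tau α ρ₂ m₁ t (S t) * (α * m₁ * t ^ (1 / α)) = S t - ρ₂ := by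
      unfold tau; field_simp
    rw [← h5]
    have h6 : (0:ℝ) < t ^ (1 / α) := by positivity
    generalize g α (tau α ρ₂ m₁ t (S t)) = gg
    generalize tau α ρ₂ m₁ t (S t) = tt
    field_simp
  rw [e] at h3
  exact h3

/-- the relation between the two masses and `γ` -/
theorem mass_relation (hm : 0 < m₁) {t : ℝ} (ht : 0 < t) (ρ : ℝ) :
    U α t * (ρ - ρ₁) - mR α ρ₂ m₁ t ρ =
      U α t * (ρ₂ - ρ₁) - m₁ * gam α (tau α ρ₂ m₁ t ρ) := by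
  have hα0 : 0 < α := by linarith
  have h1 : U α t * (ρ - ρ₂) = m₁ * (α ^ (1 / bet α) * tau α ρ₂ m₁ t ρ) := by
    rw [U_eq hα ht, ← alpha_pow hα]
    unfold tau
    rw [Real.rpow_neg ht.le]
    have h6 : (0:ℝ) < t ^ (1 / α) := by positivity
    field_simp
  unfold mR gam
  linear_combination h1

end

/-! ### the mass function -/

theorem congr_Ioo {f g : ℝ → ℝ} {a b : ℝ} (hab : a ≤ b) (h : ∀ x ∈ Ioo a b, f x = g x)
    (hg : IntervalIntegrable g volume a b) :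
    IntervalIntegrable f volume a b ∧ ∫ x in a..b, f x = ∫ x in a..b, g x := by
  constructor
  · rw [intervalIntegrable_iff_integrableOn_Ioo_of_le hab] at hg ⊢
    exact hg.congr_fun (fun x hx => (h x hx).symm) measurableSet_Ioo
  · rw [intervalIntegral.integral_of_le hab, intervalIntegral.integral_of_le hab,
      integral_Ioc_eq_integral_Ioo, integral_Ioc_eq_integral_Ioo]
    exact setIntegral_congr_fun measurableSet_Ioo h

section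

variable {α ρ₁ ρ₂ m₁ : ℝ} (hα : 1 < α) (hρ : 0 < ρ₁) (hρ' : ρ₁ < ρ₂) (hm : 0 < m₁)
  {t : ℝ} (ht : 0 < t) {s₁ s₂ : ℝ}
include hα hρ hρ' hm ht

theorem dens_fan (h1 : ρ₁ < s₁) {x : ℝ} (hx : s₁ ≤ x) (hx' : x < s₂) :
    dens α ρ₁ ρ₂ m₁ t s₁ s₂ x = uR α ρ₂ m₁ t x := by
  unfold dens
  rw [if_neg (by linarith), if_neg (by linarith)]
  split_ifs with h
  · rw [uR_of_le hα hm ht h]
  · rw [fan_eq hα hm ht (not_le.1 h)]

omit hα hρ hρ' hm ht in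
theorem dens_flat {x : ℝ} (hx : ρ₁ < x) (hx' : x < s₁) :
    dens α ρ₁ ρ₂ m₁ t s₁ s₂ x = U α t := by
  unfold dens
  rw [if_neg (by linarith), if_pos hx']

omit hα hρ hρ' hm ht in
theorem dens_low {x : ℝ} (hx : x ≤ ρ₁) :
    dens α ρ₁ ρ₂ m₁ t s₁ s₂ x = 0 := by
  unfold dens
  rw [if_pos hx]

omit hα hρ hρ' hm ht in
theorem dens_high (h12 : s₁ ≤ s₂) {x : ℝ} (hx : s₂ ≤ x) :
    dens α ρ₁ ρ₂ m₁ t s₁ s₂ x = 0 := by
  unfold dens
  split_ifs <;> first | rfl | linarith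

omit hα hρ' hm ht in
theorem mass_low' : IntervalIntegrable (dens α ρ₁ ρ₂ m₁ t s₁ s₂) volume 0 ρ₁ ∧
    ∫ x in (0:ℝ)..ρ₁, dens α ρ₁ ρ₂ m₁ t s₁ s₂ x = 0 := by
  have h := congr_Ioo (f := dens α ρ₁ ρ₂ m₁ t s₁ s₂) (g := fun _ => (0:ℝ)) hρ.le
    (fun x hx => dens_low hx.2.le) (intervalIntegrable_const)
  refine ⟨h.1, ?_⟩
  rw [h.2]; simp

omit hα hρ' hm ht in
theorem mass_low {ρ : ℝ} (h0 : 0 ≤ ρ) (h : ρ ≤ ρ₁) :
    mass (dens α ρ₁ ρ₂ m₁ t s₁ s₂) ρ = 0 := by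
  unfold mass
  have h := congr_Ioo (f := dens α ρ₁ ρ₂ m₁ t s₁ s₂) (g := fun _ => (0:ℝ)) h0
    (fun x hx => dens_low (by linarith [hx.2])) (intervalIntegrable_const)
  rw [h.2]; simp

omit hα hρ' hm ht in
theorem mass_mid' {ρ : ℝ} (h1 : ρ₁ ≤ ρ) (h2 : ρ ≤ s₁) :
    IntervalIntegrable (dens α ρ₁ ρ₂ m₁ t s₁ s₂) volume 0 ρ ∧
    mass (dens α ρ₁ ρ₂ m₁ t s₁ s₂) ρ = U α t * (ρ - ρ₁) := by
  obtain ⟨hi, he⟩ := mass_low' (α := α) (ρ₂ := ρ₂) (m₁ := m₁) (t := t) (s₁ := s₁)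
    (s₂ := s₂) hρ
  have h := congr_Ioo (f := dens α ρ₁ ρ₂ m₁ t s₁ s₂) (g := fun _ => U α t) h1
    (fun x hx => dens_flat hx.1 (by linarith [hx.2])) (intervalIntegrable_const)
  refine ⟨hi.trans h.1, ?_⟩
  unfold mass
  rw [← intervalIntegral.integral_add_adjacent_intervals hi h.1, he, h.2]
  simp; ring

theorem mass_high' (h1 : ρ₁ < s₁) (h12 : s₁ ≤ s₂) {ρ : ℝ} (h : s₁ ≤ ρ) (h' : ρ ≤ s₂) :
    IntervalIntegrable (dens α ρ₁ ρ₂ m₁ t s₁ s₂) volume 0 ρ ∧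
    mass (dens α ρ₁ ρ₂ m₁ t s₁ s₂) ρ =
      U α t * (s₁ - ρ₁) + (mR α ρ₂ m₁ t ρ - mR α ρ₂ m₁ t s₁) := by
  obtain ⟨hi, he⟩ := mass_mid' (α := α) (ρ₂ := ρ₂) (m₁ := m₁) (t := t) (s₁ := s₁)
    (s₂ := s₂) hρ h1.le le_rfl
  have hc : IntervalIntegrable (uR α ρ₂ m₁ t) volume s₁ ρ :=
    (continuous_uR hα ht).intervalIntegrable _ _
  have h2 := congr_Ioo (f := dens α ρ₁ ρ₂ m₁ t s₁ s₂) (g := uR α ρ₂ m₁ t) h
    (fun x hx => dens_fan hα hρ hρ' hm ht h1 hx.1.le (by linarith [hx.2])) hc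
  have h3 : ∫ x in s₁..ρ, uR α ρ₂ m₁ t x = mR α ρ₂ m₁ t ρ - mR α ρ₂ m₁ t s₁ :=
    intervalIntegral.integral_eq_sub_of_hasDerivAt
      (fun x _ => hasDerivAt_mR_space hα hm ht x) hc
  refine ⟨hi.trans h2.1, ?_⟩
  unfold mass at he ⊢
  rw [← intervalIntegral.integral_add_adjacent_intervals hi h2.1, he, h2.2, h3]

theorem mass_high (h1 : ρ₁ < s₁) (h12 : s₁ ≤ s₂) {ρ : ℝ} (h : s₁ ≤ ρ) :
    mass (dens α ρ₁ ρ₂ m₁ t s₁ s₂) ρ =
      U α t * (s₁ - ρ₁) + (mR α ρ₂ m₁ t (min ρ s₂) - mR α ρ₂ m₁ t s₁) := by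
  rcases le_total ρ s₂ with h' | h'
  · rw [min_eq_left h']
    exact (mass_high' hα hρ hρ' hm ht h1 h12 h h').2
  · rw [min_eq_right h']
    obtain ⟨hi, he⟩ := mass_high' hα hρ hρ' hm ht h1 h12 h12 (le_refl s₂)
    have h2 := congr_Ioo (f := dens α ρ₁ ρ₂ m₁ t s₁ s₂) (g := fun _ => (0:ℝ)) h'
      (fun x hx => dens_high h12 hx.1.le) (intervalIntegrable_const)
    unfold mass at he ⊢
    rw [← intervalIntegral.integral_add_adjacent_intervals hi h2.1, he, h2.2]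
    simp

/-! ### one-sided limits of the density -/

omit hα hρ hρ' hm ht in
theorem lim_left_flat (h1 : ρ₁ < s₁) :
    Tendsto (dens α ρ₁ ρ₂ m₁ t s₁ s₂) (𝓝[<] s₁) (𝓝 (U α t)) := by
  refine tendsto_const_nhds.congr' ?_
  have : Ioo ρ₁ s₁ ∈ 𝓝[<] s₁ := Ioo_mem_nhdsLT h1
  filter_upwards [this] with x hx
  exact (dens_flat hx.1 hx.2).symm

theorem lim_right_fan (h1 : ρ₁ < s₁) (h12 : s₁ < s₂) :
    Tendsto (dens α ρ₁ ρ₂ m₁ t s₁ s₂) (𝓝[>] s₁) (𝓝 (uR α ρ₂ m₁ t s₁)) := by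
  have h2 : Tendsto (uR α ρ₂ m₁ t) (𝓝[>] s₁) (𝓝 (uR α ρ₂ m₁ t s₁)) :=
    ((continuous_uR hα ht).tendsto s₁).mono_left nhdsWithin_le_nhds
  refine h2.congr' ?_
  have : Ioo s₁ s₂ ∈ 𝓝[>] s₁ := Ioo_mem_nhdsGT h12
  filter_upwards [this] with x hx
  exact (dens_fan hα hρ hρ' hm ht h1 hx.1.le hx.2).symm

theorem lim_left_fan (h1 : ρ₁ < s₁) (h12 : s₁ < s₂) :
    Tendsto (dens α ρ₁ ρ₂ m₁ t s₁ s₂) (𝓝[<] s₂) (𝓝 (uR α ρ₂ m₁ t s₂)) := by
  have h2 : Tendsto (uR α ρ₂ m₁ t) (𝓝[<] s₂) (𝓝 (uR α ρ₂ m₁ t s₂)) :=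
    ((continuous_uR hα ht).tendsto s₂).mono_left nhdsWithin_le_nhds
  refine h2.congr' ?_
  have : Ioo s₁ s₂ ∈ 𝓝[<] s₂ := Ioo_mem_nhdsLT h12
  filter_upwards [this] with x hx
  exact (dens_fan hα hρ hρ' hm ht h1 hx.1.le hx.2).symm

omit hα hρ hρ' hm ht in
theorem lim_right_zero (h12 : s₁ ≤ s₂) :
    Tendsto (dens α ρ₁ ρ₂ m₁ t s₁ s₂) (𝓝[>] s₂) (𝓝 0) := by
  refine tendsto_const_nhds.congr' ?_
  filter_upwards [self_mem_nhdsWithin] with x hx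
  exact (dens_high h12 (le_of_lt hx)).symm

end

end Pool.Agent.V1282.TB
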