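import Pool.Agent.V1282.TB2

set_option linter.all false

open Set Filter Topology MeasureTheory

namespace Pool.Agent.V1282.TB

theorem rh_of {α : ℝ} {u : ℝ → ℝ → ℝ} {S : ℝ → ℝ} {t a b : ℝ}
    (h : RankineHugoniot α u S t) (ha : Tendsto (u t) (𝓝[<] (S t)) (𝓝 a))
    (hb : Tendsto (u t) (𝓝[>] (S t)) (𝓝 b)) :
    HasDerivAt S (mass (u t) (S t) * ((b ^ α - a ^ α) / (b - a))) t := by
  obtain ⟨um, up, hne, h1, h2, h3⟩ := h
  rw [tendsto_nhds_unique h1 ha, tendsto_nhds_unique h2 hb] at h3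
  exact h3

/-- a function with zero derivative on `(a,b)` with a limit at `a+` is constant -/
theorem const_of_deriv_zero {f : ℝ → ℝ} {a b l : ℝ} (hf : ∀ x ∈ Ioo a b, HasDerivAt f 0 x)
    (hl : Tendsto f (𝓝[>] a) (𝓝 l)) {x : ℝ} (hx : x ∈ Ioo a b) : f x = l := by
  have hc : ∀ y ∈ Ioo a b, f y = f x := by
    intro y hy
    have hd : DifferentiableOn ℝ f (Ioo a b) := fun z hz =>
      (hf z hz).differentiableAt.differentiableWithinAt
    have := (convex_Ioo a b).is_const_of_fderivWithin_eq_zero (𝕜 := ℝ) hd (fun z hz => by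
      have h1 : HasFDerivWithinAt f (0 : ℝ →L[ℝ] ℝ) (Ioo a b) z := by
        have h2 := (hf z hz).hasFDerivAt.hasFDerivWithinAt (s := Ioo a b)
        have h3 : ContinuousLinearMap.toSpanSingleton ℝ (0:ℝ) = (0 : ℝ →L[ℝ] ℝ) := by
          ext; simp
        rw [h3] at h2
        exact h2
      exact h1.fderivWithin (isOpen_Ioo.uniqueDiffWithinAt hz)) hy hx
    exact this
  have h2 : Tendsto f (𝓝[>] a) (𝓝 (f x)) := by
    refine tendsto_const_nhds.congr' ?_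
    filter_upwards [Ioo_mem_nhdsGT (hx.1.trans hx.2)] with y hy
    exact (hc y hy).symm
  exact tendsto_nhds_unique h2 hl

/-- if `f' = -c f` with `c ≥ 0` on `(a,b)` and `f → 0` at `a+` then `f = 0` -/
theorem zero_of_deriv {f c : ℝ → ℝ} {a b : ℝ}
    (hf : ∀ x ∈ Ioo a b, HasDerivAt f (-(c x) * f x) x)
    (hc : ∀ x ∈ Ioo a b, 0 ≤ c x)
    (hl : Tendsto f (𝓝[>] a) (𝓝 0)) {x : ℝ} (hx : x ∈ Ioo a b) : f x = 0 := by
  have hd : ∀ y ∈ Ioo a b, HasDerivAt (fun y => f y ^ 2) (-(2 * c y) * f y ^ 2) y := by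
    intro y hy
    have := (hf y hy).pow 2
    refine this.congr_deriv ?_
    norm_num
    ring
  have hanti : AntitoneOn (fun y => f y ^ 2) (Ioo a b) := by
    apply antitoneOn_of_deriv_nonpos (convex_Ioo a b)
    · exact fun y hy => (hd y hy).continuousAt.continuousWithinAt
    · rw [interior_Ioo]
      exact fun y hy => (hd y hy).differentiableAt.differentiableWithinAt
    · rw [interior_Ioo]
      intro y hy
      rw [(hd y hy).deriv]
      have := hc y hy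
      nlinarith [sq_nonneg (f y), mul_nonneg this (sq_nonneg (f y))]
  have h2 : Tendsto (fun y => f y ^ 2) (𝓝[>] a) (𝓝 (0 ^ 2)) := hl.pow 2
  have h3 : f x ^ 2 ≤ 0 ^ 2 := by
    apply ge_of_tendsto h2
    filter_upwards [Ioo_mem_nhdsGT hx.1] with y hy
    exact hanti ⟨hy.1, hy.2.trans hx.2⟩ hx hy.2.le
  have h4 : f x ^ 2 = 0 := le_antisymm (by simpa using h3) (sq_nonneg _)
  exact pow_eq_zero_iff (two_ne_zero) |>.1 h4

theorem continuousOn_mR {α ρ₂ m₁ : ℝ} (hα : 1 < α) (hm : 0 < m₁) {S : ℝ → ℝ}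
    (hS : ContinuousOn S (Ioi 0)) :
    ContinuousOn (fun s => mR α ρ₂ m₁ s (S s)) (Ioi 0) := by
  have hα0 : 0 < α := by linarith
  unfold mR tau
  refine continuousOn_const.mul ((continuous_G hα).comp_continuousOn ?_)
  refine ContinuousOn.div (hS.sub continuousOn_const) ?_ ?_
  · refine continuousOn_const.mul ?_
    exact ContinuousOn.rpow_const continuousOn_id (fun x hx => Or.inl (ne_of_gt hx))
  · intro x hx
    have hx : 0 < x := hx
    positivity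

/-- `D = m₁ + m₂ - ((m₁+m₂)^β - m₁^β)^(1/β)` -/
noncomputable def DD (α m₁ m₂ : ℝ) : ℝ :=
  m₁ + m₂ - ((m₁ + m₂) ^ (α / (α - 1)) - m₁ ^ (α / (α - 1))) ^ ((α - 1) / α)

section

variable {α ρ₁ ρ₂ m₁ m₂ : ℝ} (hα : 1 < α) (hρ : 0 < ρ₁) (hρ' : ρ₁ < ρ₂) (hm : 0 < m₁)
  (hm2 : 0 < m₂)
include hα hm hm2

/-- the fan coordinate `τ*` of the outer shock -/
theorem gam_of_G {x : ℝ} (hx : m₁ * G α x = m₁ + m₂) :
    m₁ * gam α x = DD α m₁ m₂ ∧ 0 < x := by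
  have hα0 : 0 < α := by linarith
  have hb := bet_pos hα
  have hx0 : 0 < x := by
    by_contra hcon
    rw [G_of_nonpos hα (not_lt.1 hcon)] at hx
    linarith
  refine ⟨?_, hx0⟩
  have h1 : (m₁ * G α x) ^ bet α = m₁ ^ bet α + m₁ ^ bet α * (α * x ^ bet α) := by
    unfold G
    rw [max_eq_left hx0.le, Real.mul_rpow hm.le (by positivity),
      ← Real.rpow_mul (by positivity), one_div_mul_cancel hb.ne', Real.rpow_one]
    ring
  have h2 : (m₁ + m₂) ^ bet α - m₁ ^ bet α = (m₁ * (α ^ (1 / bet α) * x)) ^ bet α := by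
    rw [← hx, h1, Real.mul_rpow hm.le (by positivity), Real.mul_rpow (by positivity) hx0.le,
      ← Real.rpow_mul hα0.le, one_div_mul_cancel hb.ne', Real.rpow_one]
    ring
  unfold DD
  have h3 : (α - 1) / α = 1 / bet α := by unfold bet; rw [one_div_div]
  rw [h3]
  change _ = m₁ + m₂ - ((m₁ + m₂) ^ bet α - m₁ ^ bet α) ^ (1 / bet α)
  rw [h2, ← Real.rpow_mul (by positivity), mul_one_div_cancel hb.ne', Real.rpow_one, ← hx]
  unfold gam
  ring

theorem DD_pos : 0 < DD α m₁ m₂ := by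
  have hα0 : 0 < α := by linarith
  have hb := bet_pos hα
  unfold DD
  have h3 : (α - 1) / α = 1 / bet α := by unfold bet; rw [one_div_div]
  rw [h3]
  change 0 < m₁ + m₂ - ((m₁ + m₂) ^ bet α - m₁ ^ bet α) ^ (1 / bet α)
  have h4 : m₁ ^ bet α < (m₁ + m₂) ^ bet α := Real.rpow_lt_rpow hm.le (by linarith) hb
  have h5 : ((m₁ + m₂) ^ bet α - m₁ ^ bet α) ^ (1 / bet α) <
      ((m₁ + m₂) ^ bet α) ^ (1 / bet α) := by
    apply Real.rpow_lt_rpow (by linarith) _ (by positivity)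
    have : 0 < m₁ ^ bet α := by positivity
    linarith
  rw [← Real.rpow_mul (by positivity), mul_one_div_cancel hb.ne', Real.rpow_one] at h5
  linarith

include hρ'

theorem mergeTime_pos : 0 < mergeTime α ρ₁ ρ₂ m₁ m₂ := by
  have hα0 : 0 < α := by linarith
  have h1 := DD_pos hα hm hm2
  unfold mergeTime
  change 0 < (1 / α) * ((ρ₂ - ρ₁) / DD α m₁ m₂) ^ α
  have : 0 < ρ₂ - ρ₁ := by linarith
  positivity

theorem U_mergeTime : U α (mergeTime α ρ₁ ρ₂ m₁ m₂) * (ρ₂ - ρ₁) = DD α m₁ m₂ := by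
  have hα0 : 0 < α := by linarith
  have h1 := DD_pos hα hm hm2
  have h2 : 0 < ρ₂ - ρ₁ := by linarith
  unfold mergeTime U
  change (α * ((1 / α) * ((ρ₂ - ρ₁) / DD α m₁ m₂) ^ α)) ^ (-(1 / α)) * _ = _
  have e1 : α * ((1 / α) * ((ρ₂ - ρ₁) / DD α m₁ m₂) ^ α) =
      ((ρ₂ - ρ₁) / DD α m₁ m₂) ^ α := by field_simp
  rw [e1, ← Real.rpow_mul (by positivity), show α * -(1 / α) = -1 by field_simp,
    Real.rpow_neg_one]
  field_simp

theorem U_gt_iff {t : ℝ} (ht : 0 < t) :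
    DD α m₁ m₂ < U α t * (ρ₂ - ρ₁) ↔ t < mergeTime α ρ₁ ρ₂ m₁ m₂ := by
  have h1 := mergeTime_pos hα hρ' hm hm2
  have h2 : 0 < ρ₂ - ρ₁ := by linarith
  rw [← U_mergeTime hα hρ' hm hm2]
  constructor
  · intro h
    by_contra hcon
    rcases (not_lt.1 hcon).eq_or_lt with h3 | h3
    · rw [h3] at h; exact lt_irrefl _ h
    · have := U_strictAnti hα h1 h3
      nlinarith
  · intro h
    have := U_strictAnti hα ht h
    nlinarith

end

section

variable {α ρ₁ ρ₂ m₁ m₂ : ℝ} (hα : 1 < α) (hρ : 0 < ρ₁) (hρ' : ρ₁ < ρ₂) (hm : 0 < m₁)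
  (hm2 : 0 < m₂) {S₁ S₂ : ℝ → ℝ} (h : TwoBump α ρ₁ ρ₂ m₁ m₂ S₁ S₂)
include hα hρ hρ' hm hm2 h

omit hα hρ hρ' hm hm2 in
theorem tendsto_S1 : Tendsto S₁ (𝓝[>] 0) (𝓝 ρ₁) := by
  have := (h.cont₁ 0 (by simp)).tendsto
  rw [h.start₁] at this
  exact this.mono_left (nhdsWithin_mono _ Ioi_subset_Ici_self)

omit hα hρ hρ' hm hm2 in
theorem tendsto_S2 : Tendsto S₂ (𝓝[>] 0) (𝓝 ρ₂) := by
  have := (h.cont₂ 0 (by simp)).tendsto
  rw [h.start₂] at this
  exact this.mono_left (nhdsWithin_mono _ Ioi_subset_Ici_self)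

theorem tendsto_left_mass :
    Tendsto (fun s => U α s * (S₁ s - ρ₁)) (𝓝[>] 0) (𝓝 m₁) := by
  have h1 := h.init ((ρ₁ + ρ₂) / 2) (by linarith) (by linarith) (by linarith)
  rw [if_pos (by linarith), if_neg (by linarith), add_zero] at h1
  refine h1.congr' ?_
  filter_upwards [self_mem_nhdsWithin,
    (tendsto_S1 h).eventually (gt_mem_nhds (show ρ₁ < (ρ₁ + ρ₂) / 2 by linarith))] with s hs h2
  have hs : 0 < s := hs
  rw [mass_high hα hρ hρ' hm hs (h.lt₁ s hs) (h.le s hs) h2.le]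
  have h3 := h.lt₂ s hs
  rw [min_eq_left (by linarith), mR_of_le hα hm hs (by linarith),
    mR_of_le hα hm hs (by linarith)]
  ring

/-- `Φ` -/
theorem phi_tendsto :
    Tendsto (fun s => U α s * (S₁ s - ρ₁) - mR α ρ₂ m₁ s (S₁ s)) (𝓝[>] 0) (𝓝 0) := by
  have h1 := tendsto_left_mass hα hρ hρ' hm hm2 h
  have h2 := h1.sub_const m₁
  rw [sub_self] at h2
  refine h2.congr' ?_
  filter_upwards [self_mem_nhdsWithin,
    (tendsto_S1 h).eventually (gt_mem_nhds hρ')] with s hs h2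
  have hs : 0 < s := hs
  rw [mR_of_le hα hm hs (le_of_lt h2)]

theorem phi_zero {t₀ : ℝ} (hlt : ∀ s ∈ Ioo 0 t₀, S₁ s < S₂ s) {s : ℝ} (hs : s ∈ Ioo 0 t₀) :
    U α s * (S₁ s - ρ₁) - mR α ρ₂ m₁ s (S₁ s) = 0 := by
  have hα0 : 0 < α := by linarith
  refine zero_of_deriv (f := fun s => U α s * (S₁ s - ρ₁) - mR α ρ₂ m₁ s (S₁ s))
    (c := fun s => uR α ρ₂ m₁ s (S₁ s) ^ α) (a := 0) (b := t₀) ?_ ?_
    (phi_tendsto hα hρ hρ' hm hm2 h) hs
  · intro t ht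
    have ht0 : 0 < t := ht.1
    have hl := hlt t ht
    have h1 := rh_of ((h.rh t ht0 hl).1) (lim_left_flat (h.lt₁ t ht0))
      (lim_right_fan hα hρ hρ' hm ht0 (h.lt₁ t ht0) hl)
    rw [(mass_mid' hρ (h.lt₁ t ht0).le le_rfl).2] at h1
    set S' := U α t * (S₁ t - ρ₁) *
      ((uR α ρ₂ m₁ t (S₁ t) ^ α - U α t ^ α) / (uR α ρ₂ m₁ t (S₁ t) - U α t)) with hS'
    have h2 := ((hasDerivAt_U hα ht0).mul (h1.sub_const ρ₁)).sub
      (hasDerivAt_mR (ρ₂ := ρ₂) hα hm ht0 h1)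
    refine h2.congr_deriv ?_
    have h3 : uR α ρ₂ m₁ t (S₁ t) - U α t ≠ 0 := by
      have := uR_lt (ρ₂ := ρ₂) (m₁ := m₁) hα ht0 (S₁ t)
      linarith
    have h4 : (uR α ρ₂ m₁ t (S₁ t) - U α t) * S' = U α t * (S₁ t - ρ₁) *
        (uR α ρ₂ m₁ t (S₁ t) ^ α - U α t ^ α) := by
      rw [hS']; field_simp
    rw [U_rpow hα ht0] at h4
    clear_value S'
    linear_combination (-1:ℝ) * h4
  · intro t ht
    exact Real.rpow_nonneg (uR_nonneg hα ht.1 _) _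

theorem N_const {t₀ : ℝ} (hlt : ∀ s ∈ Ioo 0 t₀, S₁ s < S₂ s) {s : ℝ} (hs : s ∈ Ioo 0 t₀) :
    mR α ρ₂ m₁ s (S₂ s) = m₁ + m₂ := by
  have hα0 : 0 < α := by linarith
  have ht₀ : 0 < t₀ := hs.1.trans hs.2
  refine const_of_deriv_zero (f := fun s => mR α ρ₂ m₁ s (S₂ s)) (a := 0) (b := t₀)
    ?_ ?_ hs
  · intro t ht
    have ht0 : 0 < t := ht.1
    have hl := hlt t ht
    have h1 := rh_of ((h.rh t ht0 hl).2) (lim_left_fan hα hρ hρ' hm ht0 (h.lt₁ t ht0) hl)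
      (lim_right_zero (h.le t ht0))
    rw [mass_high hα hρ hρ' hm ht0 (h.lt₁ t ht0) (h.le t ht0) hl.le, min_self] at h1
    have h5 := phi_zero hα hρ hρ' hm hm2 h hlt ht
    have h6 : U α t * (S₁ t - ρ₁) + (mR α ρ₂ m₁ t (S₂ t) - mR α ρ₂ m₁ t (S₁ t)) =
      mR α ρ₂ m₁ t (S₂ t) := by linarith
    rw [h6] at h1
    have h2 := hasDerivAt_mR (ρ₂ := ρ₂) hα hm ht0 h1
    refine h2.congr_deriv ?_
    have h3 := uR_pos (ρ₂ := ρ₂) hα hm ht0 (h.lt₂ t ht0)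
    rw [Real.zero_rpow hα0.ne']
    generalize uR α ρ₂ m₁ t (S₂ t) = uu at h3 ⊢
    generalize mR α ρ₂ m₁ t (S₂ t) = mm
    generalize uu ^ α = vv
    rw [zero_sub, zero_sub, neg_div_neg_eq]
    field_simp
    ring
  · have h1 := h.init (ρ₂ + 1) (by linarith) (by linarith) (by linarith)
    rw [if_pos (by linarith), if_pos (by linarith)] at h1
    refine h1.congr' ?_
    filter_upwards [Ioo_mem_nhdsGT ht₀,
      (tendsto_S2 h).eventually (gt_mem_nhds (show ρ₂ < ρ₂ + 1 by linarith))] with s hs h2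
    have hs0 : 0 < s := hs.1
    rw [mass_high hα hρ hρ' hm hs0 (h.lt₁ s hs0) (h.le s hs0)
      ((h.le s hs0).trans h2.le), min_eq_right (le_of_lt h2)]
    have h5 := phi_zero hα hρ hρ' hm hm2 h hlt hs
    linarith

theorem lt_mergeTime {t₀ : ℝ} (hlt : ∀ s ∈ Ioo 0 t₀, S₁ s < S₂ s) {s : ℝ}
    (hs : s ∈ Ioo 0 t₀) : s < mergeTime α ρ₁ ρ₂ m₁ m₂ := by
  have hα0 : 0 < α := by linarith
  have hs0 : 0 < s := hs.1
  have h1 := phi_zero hα hρ hρ' hm hm2 h hlt hs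
  have h2 := N_const hα hρ hρ' hm hm2 h hlt hs
  obtain ⟨h3, h4⟩ := gam_of_G hα hm hm2 (x := tau α ρ₂ m₁ s (S₂ s)) h2
  rw [mass_relation hα hm hs0] at h1
  have h5 : tau α ρ₂ m₁ s (S₁ s) < tau α ρ₂ m₁ s (S₂ s) := by
    unfold tau
    have : (0:ℝ) < α * m₁ * s ^ (1 / α) := by positivity
    exact div_lt_div_of_pos_right (by linarith [hlt s hs]) this
  have h6 := strictAnti_gam hα h5
  rw [← U_gt_iff hα hρ' hm hm2 hs0, ← h3]
  nlinarith

theorem exists_first : ∃ t, 0 < t ∧ S₁ t = S₂ t ∧ ∀ s ∈ Ioo 0 t, S₁ s < S₂ s := by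
  set T := mergeTime α ρ₁ ρ₂ m₁ m₂ with hT
  have hTp := mergeTime_pos hα hρ' hm hm2
  set A : Set ℝ := {t | t ∈ Icc 0 (T + 2) ∧ S₁ t - S₂ t = 0} with hA
  have hsub : Icc (0:ℝ) (T + 2) ⊆ Ici 0 := fun x hx => hx.1
  have hcl : IsClosed A := by
    have hc : ContinuousOn (fun t => S₁ t - S₂ t) (Icc 0 (T + 2)) :=
      (h.cont₁.mono hsub).sub (h.cont₂.mono hsub)
    have := hc.preimage_isClosed_of_isClosed isClosed_Icc (isClosed_singleton (x := (0:ℝ)))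
    exact this
  have hcomp : IsCompact A := isCompact_Icc.of_isClosed_subset hcl (fun x hx => hx.1)
  have hne : A.Nonempty := by
    by_contra hcon
    have h1 : ∀ s ∈ Ioo 0 (T + 2), S₁ s < S₂ s := by
      intro s hs
      rcases (h.le s hs.1).lt_or_eq with h2 | h2
      · exact h2
      · exact absurd ⟨s, ⟨hs.1.le, hs.2.le⟩, by linarith⟩ hcon
    have h2 := lt_mergeTime hα hρ hρ' hm hm2 h h1 (s := T + 1) ⟨by linarith, by linarith⟩
    rw [← hT] at h2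
    linarith
  obtain ⟨t, ht, hmin⟩ := hcomp.exists_isLeast hne
  have ht0 : 0 < t := by
    rcases ht.1.1.lt_or_eq with h1 | h1
    · exact h1
    · have := ht.2
      rw [← h1, h.start₁, h.start₂] at this
      linarith
  refine ⟨t, ht0, by linarith [ht.2], fun s hs => ?_⟩
  rcases (h.le s hs.1).lt_or_eq with h2 | h2
  · exact h2
  · exfalso
    have : t ≤ s := hmin ⟨⟨hs.1.le, hs.2.le.trans ht.1.2⟩, by linarith⟩
    linarith [hs.2]

theorem first_eq {t : ℝ} (ht : 0 < t) (he : S₁ t = S₂ t) (hlt : ∀ s ∈ Ioo 0 t, S₁ s < S₂ s) :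
    t = mergeTime α ρ₁ ρ₂ m₁ m₂ ∧ U α t * (S₂ t - ρ₁) = m₁ + m₂ := by
  have hα0 : 0 < α := by linarith
  have hc1 : ContinuousOn S₁ (Ioi 0) := h.cont₁.mono Ioi_subset_Ici_self
  have hc2 : ContinuousOn S₂ (Ioi 0) := h.cont₂.mono Ioi_subset_Ici_self
  have hnb : (𝓝[<] t).NeBot := inferInstance
  -- limits from the left at t
  have hev : ∀ᶠ s in 𝓝[<] t, s ∈ Ioo 0 t := Ioo_mem_nhdsLT ht
  have hA : Tendsto (fun s => U α s * (S₁ s - ρ₁) - mR α ρ₂ m₁ s (S₁ s)) (𝓝[<] t)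
      (𝓝 (U α t * (S₁ t - ρ₁) - mR α ρ₂ m₁ t (S₁ t))) := by
    have hcont : ContinuousOn (fun s => U α s * (S₁ s - ρ₁) - mR α ρ₂ m₁ s (S₁ s)) (Ioi 0) :=
      ((continuousOn_U hα).mul (hc1.sub continuousOn_const)).sub (continuousOn_mR hα hm hc1)
    exact ((hcont.continuousAt (Ioi_mem_nhds ht)).tendsto).mono_left nhdsWithin_le_nhds
  have hA' : U α t * (S₁ t - ρ₁) - mR α ρ₂ m₁ t (S₁ t) = 0 := by
    refine tendsto_nhds_unique hA ?_
    refine tendsto_const_nhds.congr' ?_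
    filter_upwards [hev] with s hs
    exact (phi_zero hα hρ hρ' hm hm2 h hlt hs).symm
  have hB : Tendsto (fun s => mR α ρ₂ m₁ s (S₂ s)) (𝓝[<] t) (𝓝 (mR α ρ₂ m₁ t (S₂ t))) :=
    (((continuousOn_mR hα hm hc2).continuousAt (Ioi_mem_nhds ht)).tendsto).mono_left
      nhdsWithin_le_nhds
  have hB' : mR α ρ₂ m₁ t (S₂ t) = m₁ + m₂ := by
    refine tendsto_nhds_unique hB ?_
    refine tendsto_const_nhds.congr' ?_
    filter_upwards [hev] with s hs
    exact (N_const hα hρ hρ' hm hm2 h hlt hs).symm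
  have hC : U α t * (S₂ t - ρ₁) = m₁ + m₂ := by
    rw [he] at hA'
    linarith
  refine ⟨?_, hC⟩
  rw [he, mass_relation hα hm ht] at hA'
  obtain ⟨h3, h4⟩ := gam_of_G hα hm hm2 (x := tau α ρ₂ m₁ t (S₂ t)) hB'
  rw [h3, ← U_mergeTime hα hρ' hm hm2] at hA'
  have hTp := mergeTime_pos hα hρ' hm hm2
  have h5 : 0 < ρ₂ - ρ₁ := by linarith
  rcases lt_trichotomy t (mergeTime α ρ₁ ρ₂ m₁ m₂) with h6 | h6 | h6
  · have := U_strictAnti hα ht h6
    nlinarith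
  · exact h6
  · have := U_strictAnti hα hTp h6
    nlinarith

theorem U_inv_mul {t x M : ℝ} (ht : 0 < t) (hx : U α t * (x - ρ₁) = M) :
    x = ρ₁ + M * (α * t) ^ (1 / α) := by
  have hα0 : 0 < α := by linarith
  have h1 : U α t = ((α * t) ^ (1 / α))⁻¹ := by
    unfold U; rw [Real.rpow_neg (by positivity)]
  have h2 : 0 < (α * t) ^ (1 / α) := by positivity
  rw [← hx, h1]
  field_simp
  ring

theorem main_unique :
    (∀ t, 0 < t → t < mergeTime α ρ₁ ρ₂ m₁ m₂ → S₁ t < S₂ t) ∧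
    (∀ t, mergeTime α ρ₁ ρ₂ m₁ m₂ ≤ t → S₁ t = S₂ t ∧
      S₂ t = ρ₁ + (m₁ + m₂) * (α * t) ^ (1 / α)) := by
  have hα0 : 0 < α := by linarith
  obtain ⟨T, hT0, hTe, hTlt⟩ := exists_first hα hρ hρ' hm hm2 h
  obtain ⟨hT, hTm⟩ := first_eq hα hρ hρ' hm hm2 h hT0 hTe hTlt
  rw [← hT]
  refine ⟨fun t ht0 ht => hTlt t ⟨ht0, ht⟩, fun t ht => ?_⟩
  rcases ht.eq_or_lt with h1 | h1
  · rw [← h1]
    exact ⟨hTe, U_inv_mul hα hρ hρ' hm hm2 h hT0 hTm⟩
  · have hv := h.vortex T hT0 hTe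
    refine ⟨(hv t h1).1, ?_⟩
    apply U_inv_mul hα hρ hρ' hm hm2 h (hT0.trans h1)
    refine const_of_deriv_zero (f := fun s => U α s * (S₂ s - ρ₁)) (a := T) (b := t + 1)
      ?_ ?_ ⟨h1, by linarith⟩
    · intro s hs
      have hs0 : 0 < s := hT0.trans hs.1
      obtain ⟨he, hr⟩ := hv s hs.1
      have hlim1 : Tendsto (dens α ρ₁ ρ₂ m₁ s (S₁ s) (S₂ s)) (𝓝[<] (S₂ s)) (𝓝 (U α s)) := by
        have := lim_left_flat (α := α) (ρ₂ := ρ₂) (m₁ := m₁) (t := s) (s₂ := S₂ s)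
          (h.lt₁ s hs0)
        rwa [he] at this ⊢
      have h3 := rh_of hr hlim1 (lim_right_zero (h.le s hs0))
      have h4 : mass (dens α ρ₁ ρ₂ m₁ s (S₁ s) (S₂ s)) (S₂ s) = U α s * (S₂ s - ρ₁) := by
        rw [mass_high hα hρ hρ' hm hs0 (h.lt₁ s hs0) (h.le s hs0) (h.le s hs0), min_self, he]
        ring
      rw [h4] at h3
      have h5 := (hasDerivAt_U hα hs0).mul (h3.sub_const ρ₁)
      refine h5.congr_deriv ?_
      have h6 := U_pos hα hs0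
      rw [Real.zero_rpow hα0.ne', U_rpow hα hs0]
      generalize U α s = uu at h6 ⊢
      rw [zero_sub, zero_sub, neg_div_neg_eq]
      field_simp
      ring
    · have hc2 : ContinuousOn S₂ (Ioi 0) := h.cont₂.mono Ioi_subset_Ici_self
      have hc : ContinuousOn (fun s => U α s * (S₂ s - ρ₁)) (Ioi 0) :=
        (continuousOn_U hα).mul (hc2.sub continuousOn_const)
      have := ((hc.continuousAt (Ioi_mem_nhds hT0)).tendsto)
      rw [hTm] at this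
      exact this.mono_left nhdsWithin_le_nhds

end

end Pool.Agent.V1282.TB
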