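import Pool.Agent.V1282.TB3

set_option linter.all false

open Set Filter Topology MeasureTheory

namespace Pool.Agent.V1282.TB

theorem cont_glue {A V : ℝ → ℝ} {T : ℝ} (hA : ContinuousAt A T) (hV : ContinuousAt V T)
    (h : A T = V T) : ContinuousAt (fun t => if t < T then A t else V t) T := by
  unfold ContinuousAt
  have e : (fun t => if t < T then A t else V t) T = V T := if_neg (lt_irrefl T)
  rw [e]
  apply Tendsto.if
  · rw [← h]; exact hA.tendsto.mono_left inf_le_left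
  · exact hV.tendsto.mono_left inf_le_left

noncomputable def tstar (α m₁ m₂ : ℝ) : ℝ :=
  ((((m₁ + m₂) / m₁) ^ bet α - 1) / α) ^ (1 / bet α)

noncomputable def Vf (α ρ₁ m₁ m₂ t : ℝ) : ℝ := ρ₁ + (m₁ + m₂) * (α * t) ^ (1 / α)

noncomputable def Af (α ρ₁ ρ₂ m₁ t : ℝ) : ℝ :=
  ρ₂ + α * m₁ * t ^ (1 / α) * ginv α (U α t * (ρ₂ - ρ₁) / m₁)

noncomputable def Bf (α ρ₂ m₁ m₂ t : ℝ) : ℝ :=
  ρ₂ + α * m₁ * t ^ (1 / α) * tstar α m₁ m₂

noncomputable def S1f (α ρ₁ ρ₂ m₁ m₂ t : ℝ) : ℝ :=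
  if t ≤ 0 then ρ₁ else if t < mergeTime α ρ₁ ρ₂ m₁ m₂ then Af α ρ₁ ρ₂ m₁ t
    else Vf α ρ₁ m₁ m₂ t

noncomputable def S2f (α ρ₁ ρ₂ m₁ m₂ t : ℝ) : ℝ :=
  if t < mergeTime α ρ₁ ρ₂ m₁ m₂ then Bf α ρ₂ m₁ m₂ t else Vf α ρ₁ m₁ m₂ t

section

variable {α ρ₁ ρ₂ m₁ m₂ : ℝ} (hα : 1 < α) (hρ : 0 < ρ₁) (hρ' : ρ₁ < ρ₂) (hm : 0 < m₁)
  (hm2 : 0 < m₂)
include hα hρ hρ' hm hm2

theorem tstar_aux : 0 < (((m₁ + m₂) / m₁) ^ bet α - 1) / α := by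
  have hα0 : 0 < α := by linarith
  have hb := bet_pos hα
  have h1 : 1 < (m₁ + m₂) / m₁ := by rw [lt_div_iff₀ hm]; linarith
  have h2 : 1 < ((m₁ + m₂) / m₁) ^ bet α := Real.one_lt_rpow h1 hb
  have : 0 < ((m₁ + m₂) / m₁) ^ bet α - 1 := by linarith
  positivity

theorem tstar_pos : 0 < tstar α m₁ m₂ := by
  have := tstar_aux hα hρ hρ' hm hm2
  unfold tstar
  exact Real.rpow_pos_of_pos this _

theorem G_tstar : m₁ * G α (tstar α m₁ m₂) = m₁ + m₂ := by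
  have hα0 : 0 < α := by linarith
  have hb := bet_pos hα
  have h1 := tstar_aux hα hρ hρ' hm hm2
  have h2 := tstar_pos hα hρ hρ' hm hm2
  unfold G
  rw [max_eq_left h2.le]
  have h3 : tstar α m₁ m₂ ^ bet α = (((m₁ + m₂) / m₁) ^ bet α - 1) / α := by
    unfold tstar
    rw [← Real.rpow_mul h1.le, one_div_mul_cancel hb.ne', Real.rpow_one]
  rw [h3]
  have h4 : 1 + α * ((((m₁ + m₂) / m₁) ^ bet α - 1) / α) = ((m₁ + m₂) / m₁) ^ bet α := by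
    field_simp; ring
  rw [h4, ← Real.rpow_mul (by positivity), mul_one_div_cancel hb.ne', Real.rpow_one]
  field_simp

theorem gam_tstar : m₁ * gam α (tstar α m₁ m₂) = DD α m₁ m₂ :=
  (gam_of_G hα hm hm2 (G_tstar hα hρ hρ' hm hm2)).1

theorem arg_pos {t : ℝ} (ht : 0 < t) : 0 < U α t * (ρ₂ - ρ₁) / m₁ := by
  have h1 := U_pos hα ht
  have h2 : 0 < ρ₂ - ρ₁ := by linarith
  positivity

theorem tau_Af {t : ℝ} (ht : 0 < t) :
    tau α ρ₂ m₁ t (Af α ρ₁ ρ₂ m₁ t) = ginv α (U α t * (ρ₂ - ρ₁) / m₁) := by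
  have hα0 : 0 < α := by linarith
  unfold tau Af
  have : 0 < t ^ (1 / α) := by positivity
  field_simp
  ring

theorem tau_Bf {t : ℝ} (ht : 0 < t) :
    tau α ρ₂ m₁ t (Bf α ρ₂ m₁ m₂ t) = tstar α m₁ m₂ := by
  have hα0 : 0 < α := by linarith
  unfold tau Bf
  have : 0 < t ^ (1 / α) := by positivity
  field_simp
  ring

theorem phi_Af {t : ℝ} (ht : 0 < t) :
    U α t * (Af α ρ₁ ρ₂ m₁ t - ρ₁) - mR α ρ₂ m₁ t (Af α ρ₁ ρ₂ m₁ t) = 0 := by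
  rw [mass_relation hα hm ht, tau_Af hα hρ hρ' hm hm2 ht,
    gam_ginv hα (arg_pos hα hρ hρ' hm hm2 ht)]
  field_simp
  ring

theorem mR_Bf {t : ℝ} (ht : 0 < t) : mR α ρ₂ m₁ t (Bf α ρ₂ m₁ m₂ t) = m₁ + m₂ := by
  unfold mR
  rw [tau_Bf hα hρ hρ' hm hm2 ht, G_tstar hα hρ hρ' hm hm2]

theorem U_Vf {t : ℝ} (ht : 0 < t) : U α t * (Vf α ρ₁ m₁ m₂ t - ρ₁) = m₁ + m₂ := by
  have hα0 : 0 < α := by linarith
  have h1 : U α t = ((α * t) ^ (1 / α))⁻¹ := by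
    unfold U; rw [Real.rpow_neg (by positivity)]
  have h2 : 0 < (α * t) ^ (1 / α) := by positivity
  unfold Vf
  rw [h1]
  field_simp
  ring

theorem Af_gt {t : ℝ} (ht : 0 < t) : ρ₁ < Af α ρ₁ ρ₂ m₁ t := by
  have h1 := phi_Af hα hρ hρ' hm hm2 ht
  have h2 : 0 < mR α ρ₂ m₁ t (Af α ρ₁ ρ₂ m₁ t) := by
    unfold mR; have := G_pos hα (tau α ρ₂ m₁ t (Af α ρ₁ ρ₂ m₁ t)); positivity
  have h3 := U_pos hα ht
  by_contra hcon
  have : U α t * (Af α ρ₁ ρ₂ m₁ t - ρ₁) ≤ 0 :=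
    mul_nonpos_of_nonneg_of_nonpos h3.le (by linarith)
  linarith

theorem Bf_gt {t : ℝ} (ht : 0 < t) : ρ₂ < Bf α ρ₂ m₁ m₂ t := by
  have hα0 : 0 < α := by linarith
  have := tstar_pos hα hρ hρ' hm hm2
  have h : 0 < α * m₁ * t ^ (1 / α) * tstar α m₁ m₂ := by positivity
  unfold Bf; linarith

theorem Vf_gt {t : ℝ} (ht : 0 < t) : ρ₁ < Vf α ρ₁ m₁ m₂ t := by
  have hα0 : 0 < α := by linarith
  have h : 0 < (m₁ + m₂) * (α * t) ^ (1 / α) := by positivity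
  unfold Vf; linarith

theorem Af_lt_Bf {t : ℝ} (ht : 0 < t) (htT : t < mergeTime α ρ₁ ρ₂ m₁ m₂) :
    Af α ρ₁ ρ₂ m₁ t < Bf α ρ₂ m₁ m₂ t := by
  have hα0 : 0 < α := by linarith
  have h1 : ginv α (U α t * (ρ₂ - ρ₁) / m₁) < tstar α m₁ m₂ := by
    rw [ginv_lt_iff hα (arg_pos hα hρ hρ' hm hm2 ht), lt_div_iff₀ hm, mul_comm,
      gam_tstar hα hρ hρ' hm hm2]
    exact (U_gt_iff hα hρ' hm hm2 ht).2 htT
  unfold Af Bf
  have : (0:ℝ) < α * m₁ * t ^ (1 / α) := by positivity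
  have := mul_lt_mul_of_pos_left h1 this
  linarith

theorem Af_T : Af α ρ₁ ρ₂ m₁ (mergeTime α ρ₁ ρ₂ m₁ m₂) =
    Vf α ρ₁ m₁ m₂ (mergeTime α ρ₁ ρ₂ m₁ m₂) ∧
    Bf α ρ₂ m₁ m₂ (mergeTime α ρ₁ ρ₂ m₁ m₂) =
    Vf α ρ₁ m₁ m₂ (mergeTime α ρ₁ ρ₂ m₁ m₂) := by
  have hT := mergeTime_pos hα hρ' hm hm2
  have hU := U_mergeTime hα hρ' hm hm2
  set T := mergeTime α ρ₁ ρ₂ m₁ m₂ with hTd
  have h1 : Af α ρ₁ ρ₂ m₁ T = Bf α ρ₂ m₁ m₂ T := by
    unfold Af Bf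
    rw [hU, ← gam_tstar hα hρ hρ' hm hm2, mul_div_assoc, mul_comm m₁ _,
      div_mul_cancel₀ _ hm.ne', ginv_gam hα]
  have h2 : U α T * (Bf α ρ₂ m₁ m₂ T - ρ₁) = m₁ + m₂ := by
    have h3 := phi_Af hα hρ hρ' hm hm2 hT
    rw [h1, mR_Bf hα hρ hρ' hm hm2 hT] at h3
    linarith
  have h4 := U_Vf hα hρ hρ' hm hm2 hT
  have h5 := U_pos hα hT
  have h6 : Bf α ρ₂ m₁ m₂ T = Vf α ρ₁ m₁ m₂ T := by
    have : U α T * (Bf α ρ₂ m₁ m₂ T - ρ₁) = U α T * (Vf α ρ₁ m₁ m₂ T - ρ₁) := by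
      rw [h2, h4]
    have := mul_left_cancel₀ h5.ne' this
    linarith
  exact ⟨h1.trans h6, h6⟩

theorem differentiableAt_Af {t : ℝ} (ht : 0 < t) :
    DifferentiableAt ℝ (Af α ρ₁ ρ₂ m₁) t := by
  unfold Af
  have h1 : DifferentiableAt ℝ (fun s : ℝ => s ^ (1 / α)) t :=
    (Real.hasDerivAt_rpow_const (Or.inl ht.ne')).differentiableAt
  have h2 : DifferentiableAt ℝ (fun s : ℝ => U α s * (ρ₂ - ρ₁) / m₁) t :=
    ((hasDerivAt_U hα ht).differentiableAt.mul_const _).div_const _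
  have h3 : DifferentiableAt ℝ (fun s : ℝ => ginv α (U α s * (ρ₂ - ρ₁) / m₁)) t :=
    DifferentiableAt.comp (g := ginv α) (f := fun s : ℝ => U α s * (ρ₂ - ρ₁) / m₁) t
      (hasDerivAt_ginv hα (arg_pos hα hρ hρ' hm hm2 ht)).differentiableAt h2
  exact ((h1.const_mul _).mul h3).const_add _

theorem differentiableAt_Bf {t : ℝ} (ht : 0 < t) :
    DifferentiableAt ℝ (Bf α ρ₂ m₁ m₂) t := by
  unfold Bf
  have h1 : DifferentiableAt ℝ (fun s : ℝ => s ^ (1 / α)) t :=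
    (Real.hasDerivAt_rpow_const (Or.inl ht.ne')).differentiableAt
  exact ((h1.const_mul _).mul_const _).const_add _

theorem hasDerivAt_Vf {t : ℝ} (ht : 0 < t) :
    HasDerivAt (Vf α ρ₁ m₁ m₂) ((m₁ + m₂) * (1 / (α * t) / U α t)) t := by
  have hα0 : 0 < α := by linarith
  have h1 : HasDerivAt (fun s : ℝ => α * s) (α * 1) t := (hasDerivAt_id t).const_mul α
  have h2 := ((h1.rpow_const (p := 1 / α) (Or.inl (by positivity))).const_mul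
    (m₁ + m₂)).const_add ρ₁
  refine h2.congr_deriv ?_
  have e1 : U α t = ((α * t) ^ (1 / α))⁻¹ := by
    unfold U; rw [Real.rpow_neg (by positivity)]
  have e2 : 0 < (α * t) ^ (1 / α) := by positivity
  rw [e1, Real.rpow_sub (by positivity), Real.rpow_one]
  field_simp

theorem hasDerivAt_Af {t : ℝ} (ht : 0 < t) :
    HasDerivAt (Af α ρ₁ ρ₂ m₁) (U α t * (Af α ρ₁ ρ₂ m₁ t - ρ₁) *
      ((uR α ρ₂ m₁ t (Af α ρ₁ ρ₂ m₁ t) ^ α - U α t ^ α) /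
        (uR α ρ₂ m₁ t (Af α ρ₁ ρ₂ m₁ t) - U α t))) t := by
  have hα0 : 0 < α := by linarith
  have h1 := (differentiableAt_Af hα hρ hρ' hm hm2 ht).hasDerivAt
  set d := deriv (Af α ρ₁ ρ₂ m₁) t with hd
  clear_value d
  refine h1.congr_deriv ?_
  have h2 := ((hasDerivAt_U hα ht).mul (h1.sub_const ρ₁)).sub
      (hasDerivAt_mR (ρ₂ := ρ₂) hα hm ht h1)
  have h3 : HasDerivAt ((U α * fun x => Af α ρ₁ ρ₂ m₁ x - ρ₁) -
      fun s => mR α ρ₂ m₁ s (Af α ρ₁ ρ₂ m₁ s)) 0 t := by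
    refine (hasDerivAt_const t (0:ℝ)).congr_of_eventuallyEq ?_
    filter_upwards [Ioi_mem_nhds ht] with s hs
    exact phi_Af hα hρ hρ' hm hm2 hs
  have h4 := h2.unique h3
  have h5 : uR α ρ₂ m₁ t (Af α ρ₁ ρ₂ m₁ t) - U α t ≠ 0 := by
    have := uR_lt (ρ₂ := ρ₂) (m₁ := m₁) hα ht (Af α ρ₁ ρ₂ m₁ t)
    linarith
  have h6 := phi_Af hα hρ hρ' hm hm2 ht
  rw [← mul_div_assoc, eq_div_iff h5, U_rpow hα ht]
  generalize uR α ρ₂ m₁ t (Af α ρ₁ ρ₂ m₁ t) = uu at *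
  generalize mR α ρ₂ m₁ t (Af α ρ₁ ρ₂ m₁ t) = mm at *
  linear_combination (-1:ℝ) * h4 - uu ^ α * h6

theorem hasDerivAt_Bf {t : ℝ} (ht : 0 < t) :
    HasDerivAt (Bf α ρ₂ m₁ m₂) ((m₁ + m₂) *
      ((0 ^ α - uR α ρ₂ m₁ t (Bf α ρ₂ m₁ m₂ t) ^ α) /
        (0 - uR α ρ₂ m₁ t (Bf α ρ₂ m₁ m₂ t)))) t := by
  have hα0 : 0 < α := by linarith
  have h1 := (differentiableAt_Bf hα hρ hρ' hm hm2 ht).hasDerivAt
  set d := deriv (Bf α ρ₂ m₁ m₂) t with hd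
  clear_value d
  refine h1.congr_deriv ?_
  have h2 := hasDerivAt_mR (ρ₂ := ρ₂) hα hm ht h1
  have h3 : HasDerivAt (fun s => mR α ρ₂ m₁ s (Bf α ρ₂ m₁ m₂ s)) 0 t := by
    refine (hasDerivAt_const t (m₁ + m₂)).congr_of_eventuallyEq ?_
    filter_upwards [Ioi_mem_nhds ht] with s hs
    exact mR_Bf hα hρ hρ' hm hm2 hs
  have h4 := h2.unique h3
  have h5 : 0 < uR α ρ₂ m₁ t (Bf α ρ₂ m₁ m₂ t) :=
    uR_pos hα hm ht (Bf_gt hα hρ hρ' hm hm2 ht)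
  rw [mR_Bf hα hρ hρ' hm hm2 ht] at h4
  rw [Real.zero_rpow hα0.ne', zero_sub, zero_sub, neg_div_neg_eq, ← mul_div_assoc,
    eq_div_iff h5.ne']
  linear_combination h4

theorem tendsto_Af_zero : Tendsto (Af α ρ₁ ρ₂ m₁) (𝓝[>] 0) (𝓝 ρ₁) := by
  have hα0 : 0 < α := by linarith
  have hT := mergeTime_pos hα hρ' hm hm2
  have h1 : Tendsto (fun t : ℝ => Vf α ρ₁ m₁ m₂ t) (𝓝[>] 0) (𝓝 ρ₁) := by
    have hc : ContinuousAt (fun t : ℝ => Vf α ρ₁ m₁ m₂ t) 0 := by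
      unfold Vf
      refine continuousAt_const.add (continuousAt_const.mul ?_)
      exact ContinuousAt.rpow_const (by fun_prop) (Or.inr (by positivity))
    have h2 : Vf α ρ₁ m₁ m₂ 0 = ρ₁ := by
      unfold Vf
      rw [mul_zero, Real.zero_rpow (by positivity)]; ring
    have := hc.tendsto
    rw [h2] at this
    exact this.mono_left nhdsWithin_le_nhds
  refine tendsto_of_tendsto_of_tendsto_of_le_of_le' tendsto_const_nhds h1 ?_ ?_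
  · filter_upwards [self_mem_nhdsWithin] with t ht
    exact (Af_gt hα hρ hρ' hm hm2 ht).le
  · filter_upwards [Ioo_mem_nhdsGT hT] with t ht
    have ht0 : 0 < t := ht.1
    have h2 := phi_Af hα hρ hρ' hm hm2 ht0
    have h3 := mR_Bf hα hρ hρ' hm hm2 ht0
    have h4 := Af_lt_Bf hα hρ hρ' hm hm2 ht0 ht.2
    have hmono : Monotone (mR α ρ₂ m₁ t) := by
      apply monotone_of_deriv_nonneg
      · exact fun x => (hasDerivAt_mR_space hα hm ht0 x).differentiableAt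
      · intro x
        rw [(hasDerivAt_mR_space hα hm ht0 x).deriv]
        exact uR_nonneg hα ht0 x
    have h5 := hmono h4.le
    have h6 := U_Vf hα hρ hρ' hm hm2 ht0
    have h7 := U_pos hα ht0
    by_contra hcon
    have h8 : U α t * (Vf α ρ₁ m₁ m₂ t - ρ₁) < U α t * (Af α ρ₁ ρ₂ m₁ t - ρ₁) :=
      mul_lt_mul_of_pos_left (by linarith) h7
    linarith

theorem continuous_Vf : Continuous (Vf α ρ₁ m₁ m₂) := by
  have hα0 : 0 < α := by linarith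
  unfold Vf
  refine continuous_const.add (continuous_const.mul ?_)
  exact Continuous.rpow_const (by fun_prop) (fun _ => Or.inr (by positivity))

theorem continuous_Bf : Continuous (Bf α ρ₂ m₁ m₂) := by
  have hα0 : 0 < α := by linarith
  unfold Bf
  refine continuous_const.add (Continuous.mul (continuous_const.mul ?_) continuous_const)
  exact Continuous.rpow_const (by fun_prop) (fun _ => Or.inr (by positivity))

theorem cont_S2f : ContinuousOn (S2f α ρ₁ ρ₂ m₁ m₂) (Ici 0) := by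
  apply Continuous.continuousOn
  rw [continuous_iff_continuousAt]
  intro t
  rcases lt_trichotomy t (mergeTime α ρ₁ ρ₂ m₁ m₂) with h | h | h
  · refine (continuous_Bf hα hρ hρ' hm hm2).continuousAt.congr ?_
    filter_upwards [Iio_mem_nhds h] with s hs
    have hs : s < mergeTime α ρ₁ ρ₂ m₁ m₂ := hs
    unfold S2f; rw [if_pos hs]
  · rw [h]
    exact cont_glue (continuous_Bf hα hρ hρ' hm hm2).continuousAt
      (continuous_Vf hα hρ hρ' hm hm2).continuousAt (Af_T hα hρ hρ' hm hm2).2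
  · refine (continuous_Vf hα hρ hρ' hm hm2).continuousAt.congr ?_
    filter_upwards [Ioi_mem_nhds h] with s hs
    have hs : mergeTime α ρ₁ ρ₂ m₁ m₂ < s := hs
    unfold S2f; rw [if_neg (not_lt.2 hs.le)]

theorem S1f_pos_eq {t : ℝ} (ht : 0 < t) : S1f α ρ₁ ρ₂ m₁ m₂ t =
    if t < mergeTime α ρ₁ ρ₂ m₁ m₂ then Af α ρ₁ ρ₂ m₁ t else Vf α ρ₁ m₁ m₂ t := by
  unfold S1f; rw [if_neg (not_le.2 ht)]

theorem cont_S1f : ContinuousOn (S1f α ρ₁ ρ₂ m₁ m₂) (Ici 0) := by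
  have hT := mergeTime_pos hα hρ' hm hm2
  intro t ht
  rcases (show 0 ≤ t from ht).eq_or_lt with h0 | h0
  · rw [← h0]
    rw [ContinuousWithinAt]
    have e : S1f α ρ₁ ρ₂ m₁ m₂ 0 = ρ₁ := by unfold S1f; rw [if_pos le_rfl]
    rw [e, ← Ioi_insert, nhdsWithin_insert, tendsto_sup]
    refine ⟨?_, ?_⟩
    · have h1 : Tendsto (S1f α ρ₁ ρ₂ m₁ m₂) (pure 0) (𝓝 (S1f α ρ₁ ρ₂ m₁ m₂ 0)) :=
        tendsto_pure_nhds _ _
      rw [e] at h1
      exact h1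
    · refine (tendsto_Af_zero hα hρ hρ' hm hm2).congr' ?_
      filter_upwards [Ioo_mem_nhdsGT hT] with s hs
      rw [S1f_pos_eq hα hρ hρ' hm hm2 hs.1, if_pos hs.2]
  · apply ContinuousAt.continuousWithinAt
    have hA : ContinuousAt (Af α ρ₁ ρ₂ m₁) t :=
      (differentiableAt_Af hα hρ hρ' hm hm2 h0).continuousAt
    have hV : ContinuousAt (Vf α ρ₁ m₁ m₂) t :=
      (continuous_Vf hα hρ hρ' hm hm2).continuousAt
    have hev : (fun s => if s < mergeTime α ρ₁ ρ₂ m₁ m₂ then Af α ρ₁ ρ₂ m₁ s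
        else Vf α ρ₁ m₁ m₂ s) =ᶠ[𝓝 t] S1f α ρ₁ ρ₂ m₁ m₂ := by
      filter_upwards [Ioi_mem_nhds h0] with s hs
      exact (S1f_pos_eq hα hρ hρ' hm hm2 hs).symm
    refine ContinuousAt.congr ?_ hev
    rcases lt_trichotomy t (mergeTime α ρ₁ ρ₂ m₁ m₂) with h | h | h
    · refine hA.congr ?_
      filter_upwards [Iio_mem_nhds h] with s hs
      have hs : s < mergeTime α ρ₁ ρ₂ m₁ m₂ := hs
      rw [if_pos hs]
    · rw [h] at hA hV ⊢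
      exact cont_glue hA hV (Af_T hα hρ hρ' hm hm2).1
    · refine hV.congr ?_
      filter_upwards [Ioi_mem_nhds h] with s hs
      have hs : mergeTime α ρ₁ ρ₂ m₁ m₂ < s := hs
      rw [if_neg (not_lt.2 hs.le)]

theorem exists_twoBump :
    TwoBump α ρ₁ ρ₂ m₁ m₂ (S1f α ρ₁ ρ₂ m₁ m₂) (S2f α ρ₁ ρ₂ m₁ m₂) := by
  have hα0 : 0 < α := by linarith
  have hT := mergeTime_pos hα hρ' hm hm2
  have hTA := Af_T hα hρ hρ' hm hm2
  -- values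
  have e1 : ∀ t, 0 < t → t < mergeTime α ρ₁ ρ₂ m₁ m₂ →
      S1f α ρ₁ ρ₂ m₁ m₂ t = Af α ρ₁ ρ₂ m₁ t := fun t h0 h => by
    rw [S1f_pos_eq hα hρ hρ' hm hm2 h0, if_pos h]
  have e2 : ∀ t, t < mergeTime α ρ₁ ρ₂ m₁ m₂ →
      S2f α ρ₁ ρ₂ m₁ m₂ t = Bf α ρ₂ m₁ m₂ t := fun t h => by
    unfold S2f; rw [if_pos h]
  have e3 : ∀ t, mergeTime α ρ₁ ρ₂ m₁ m₂ ≤ t →
      S1f α ρ₁ ρ₂ m₁ m₂ t = Vf α ρ₁ m₁ m₂ t := fun t h => by
    rw [S1f_pos_eq hα hρ hρ' hm hm2 (hT.trans_le h), if_neg (not_lt.2 h)]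
  have e4 : ∀ t, mergeTime α ρ₁ ρ₂ m₁ m₂ ≤ t →
      S2f α ρ₁ ρ₂ m₁ m₂ t = Vf α ρ₁ m₁ m₂ t := fun t h => by
    unfold S2f; rw [if_neg (not_lt.2 h)]
  have hlt1 : ∀ t, 0 < t → ρ₁ < S1f α ρ₁ ρ₂ m₁ m₂ t := by
    intro t ht
    rcases lt_or_ge t (mergeTime α ρ₁ ρ₂ m₁ m₂) with h | h
    · rw [e1 t ht h]; exact Af_gt hα hρ hρ' hm hm2 ht
    · rw [e3 t h]; exact Vf_gt hα hρ hρ' hm hm2 ht
  have hlt2 : ∀ t, 0 < t → ρ₂ < S2f α ρ₁ ρ₂ m₁ m₂ t := by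
    intro t ht
    rcases lt_or_ge t (mergeTime α ρ₁ ρ₂ m₁ m₂) with h | h
    · rw [e2 t h]; exact Bf_gt hα hρ hρ' hm hm2 ht
    · rw [e4 t h]
      have h1 := Bf_gt hα hρ hρ' hm hm2 hT
      rw [hTA.2] at h1
      refine h1.trans_le ?_
      unfold Vf
      have : (α * mergeTime α ρ₁ ρ₂ m₁ m₂) ^ (1 / α) ≤ (α * t) ^ (1 / α) :=
        Real.rpow_le_rpow (by positivity) (by nlinarith) (by positivity)
      nlinarith
  have hle : ∀ t, 0 < t → S1f α ρ₁ ρ₂ m₁ m₂ t ≤ S2f α ρ₁ ρ₂ m₁ m₂ t := by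
    intro t ht
    rcases lt_or_ge t (mergeTime α ρ₁ ρ₂ m₁ m₂) with h | h
    · rw [e1 t ht h, e2 t h]; exact (Af_lt_Bf hα hρ hρ' hm hm2 ht h).le
    · rw [e3 t h, e4 t h]
  have hcut : ∀ t, 0 < t → S1f α ρ₁ ρ₂ m₁ m₂ t = S2f α ρ₁ ρ₂ m₁ m₂ t →
      mergeTime α ρ₁ ρ₂ m₁ m₂ ≤ t := by
    intro t ht he
    by_contra hcon
    have h := not_le.1 hcon
    rw [e1 t ht h, e2 t h] at he
    exact absurd he (Af_lt_Bf hα hρ hρ' hm hm2 ht h).ne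
  have hcut' : ∀ t, 0 < t → S1f α ρ₁ ρ₂ m₁ m₂ t < S2f α ρ₁ ρ₂ m₁ m₂ t →
      t < mergeTime α ρ₁ ρ₂ m₁ m₂ := by
    intro t ht he
    by_contra hcon
    have h := not_lt.1 hcon
    rw [e3 t h, e4 t h] at he
    exact lt_irrefl _ he
  have e50 : S2f α ρ₁ ρ₂ m₁ m₂ 0 = ρ₂ := by
    rw [e2 0 hT]
    unfold Bf
    rw [Real.zero_rpow (by positivity)]; ring
  have hS1t : Tendsto (S1f α ρ₁ ρ₂ m₁ m₂) (𝓝[>] 0) (𝓝 ρ₁) := by
    refine (tendsto_Af_zero hα hρ hρ' hm hm2).congr' ?_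
    filter_upwards [Ioo_mem_nhdsGT hT] with s hs
    rw [e1 s hs.1 hs.2]
  have hS2t : Tendsto (S2f α ρ₁ ρ₂ m₁ m₂) (𝓝[>] 0) (𝓝 ρ₂) := by
    have h1 := ((cont_S2f hα hρ hρ' hm hm2) 0 (by simp)).tendsto
    rw [e50] at h1
    exact h1.mono_left (nhdsWithin_mono _ Ioi_subset_Ici_self)
  constructor
  · unfold S1f; rw [if_pos le_rfl]
  · exact e50
  · exact cont_S1f hα hρ hρ' hm hm2
  · exact cont_S2f hα hρ hρ' hm hm2
  · exact hlt1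
  · exact hlt2
  · exact hle
  · -- initial condition
    intro ρ hρ0 hne1 hne2
    rcases lt_or_gt_of_ne hne1 with h1 | h1
    · rw [if_neg (not_le.2 h1), if_neg (by linarith), add_zero]
      refine tendsto_const_nhds.congr' ?_
      filter_upwards with t
      exact (mass_low hρ hρ0.le h1.le).symm
    · rcases lt_or_gt_of_ne hne2 with h2 | h2
      · rw [if_pos h1.le, if_neg (not_le.2 h2), add_zero]
        refine tendsto_const_nhds.congr' ?_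
        filter_upwards [Ioo_mem_nhdsGT hT, hS1t.eventually (gt_mem_nhds h1)] with t ht h3
        have ht0 : 0 < t := ht.1
        rw [mass_high hα hρ hρ' hm ht0 (hlt1 t ht0) (hle t ht0) (le_of_lt h3)]
        have h4 := hlt2 t ht0
        have h5 := phi_Af hα hρ hρ' hm hm2 ht0
        rw [min_eq_left (by linarith), mR_of_le hα hm ht0 h2.le, e1 t ht0 ht.2]
        linarith
      · rw [if_pos h1.le, if_pos h2.le]
        refine tendsto_const_nhds.congr' ?_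
        filter_upwards [Ioo_mem_nhdsGT hT, hS1t.eventually (gt_mem_nhds h1),
          hS2t.eventually (gt_mem_nhds h2)] with t ht h3 h4
        have ht0 : 0 < t := ht.1
        rw [mass_high hα hρ hρ' hm ht0 (hlt1 t ht0) (hle t ht0) (le_of_lt h3)]
        have h5 := phi_Af hα hρ hρ' hm hm2 ht0
        have h6 := mR_Bf hα hρ hρ' hm hm2 ht0
        rw [min_eq_right (le_of_lt h4), e1 t ht0 ht.2, e2 t ht.2]
        linarith
  · -- Rankine–Hugoniot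
    intro t ht hlt
    have htT := hcut' t ht hlt
    have hphi := phi_Af hα hρ hρ' hm hm2 ht
    have hBm := mR_Bf hα hρ hρ' hm hm2 ht
    have huR := uR_lt (ρ₂ := ρ₂) (m₁ := m₁) hα ht (S1f α ρ₁ ρ₂ m₁ m₂ t)
    constructor
    · refine ⟨U α t, uR α ρ₂ m₁ t (S1f α ρ₁ ρ₂ m₁ m₂ t), huR.ne',
        lim_left_flat (hlt1 t ht), lim_right_fan hα hρ hρ' hm ht (hlt1 t ht) hlt, ?_⟩
      rw [(mass_mid' hρ (hlt1 t ht).le le_rfl).2, e1 t ht htT]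
      refine (hasDerivAt_Af hα hρ hρ' hm hm2 ht).congr_of_eventuallyEq ?_
      filter_upwards [Ioo_mem_nhds ht htT] with s hs
      exact e1 s hs.1 hs.2
    · have h3 := uR_pos (ρ₂ := ρ₂) hα hm ht (hlt2 t ht)
      refine ⟨uR α ρ₂ m₁ t (S2f α ρ₁ ρ₂ m₁ m₂ t), 0, h3.ne',
        lim_left_fan hα hρ hρ' hm ht (hlt1 t ht) hlt, lim_right_zero hlt.le, ?_⟩
      rw [mass_high hα hρ hρ' hm ht (hlt1 t ht) hlt.le hlt.le, min_self, e1 t ht htT,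
        e2 t htT]
      have e6 : U α t * (Af α ρ₁ ρ₂ m₁ t - ρ₁) + (mR α ρ₂ m₁ t (Bf α ρ₂ m₁ m₂ t) -
        mR α ρ₂ m₁ t (Af α ρ₁ ρ₂ m₁ t)) = m₁ + m₂ := by linarith
      rw [e6]
      refine (hasDerivAt_Bf hα hρ hρ' hm hm2 ht).congr_of_eventuallyEq ?_
      filter_upwards [Ioo_mem_nhds ht htT] with s hs
      exact e2 s hs.2
  · -- vortex
    intro t ht he s hs
    have htT := hcut t ht he
    have hsT : mergeTime α ρ₁ ρ₂ m₁ m₂ < s := htT.trans_lt hs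
    have hs0 : 0 < s := ht.trans hs
    have heq : S1f α ρ₁ ρ₂ m₁ m₂ s = S2f α ρ₁ ρ₂ m₁ m₂ s := by
      rw [e3 s hsT.le, e4 s hsT.le]
    have h6 := U_pos hα hs0
    refine ⟨heq, U α s, 0, h6.ne', ?_, lim_right_zero (hle s hs0), ?_⟩
    · have h8 := lim_left_flat (α := α) (ρ₂ := ρ₂) (m₁ := m₁) (t := s)
        (s₂ := S2f α ρ₁ ρ₂ m₁ m₂ s) (hlt1 s hs0)
      have h9 : 𝓝[<] (S1f α ρ₁ ρ₂ m₁ m₂ s) = 𝓝[<] (S2f α ρ₁ ρ₂ m₁ m₂ s) := by rw [heq]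
      rw [h9] at h8
      exact h8
    · rw [mass_high hα hρ hρ' hm hs0 (hlt1 s hs0) (hle s hs0) (hle s hs0), min_self, heq,
        sub_self, add_zero, e4 s hsT.le, U_Vf hα hρ hρ' hm hm2 hs0]
      have h7 := hasDerivAt_Vf hα hρ hρ' hm hm2 hs0
      have e7 : (m₁ + m₂) * ((0 ^ α - U α s ^ α) / (0 - U α s)) =
          (m₁ + m₂) * (1 / (α * s) / U α s) := by
        rw [Real.zero_rpow hα0.ne', zero_sub, zero_sub, neg_div_neg_eq, U_rpow hα hs0]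
      rw [e7]
      refine h7.congr_of_eventuallyEq ?_
      filter_upwards [Ioi_mem_nhds hsT] with r hr
      exact e4 r (le_of_lt hr)

end

end Pool.Agent.V1282.TB
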