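import Mathlib

set_option linter.all false

open Set Filter Topology MeasureTheory

namespace Pool.Agent.V1282.TB

/-- The height `U(t) = (α t)^(-1/α)` of the vortex (flat) part of the solution. -/
noncomputable def U (α t : ℝ) : ℝ := (α * t) ^ (-(1 / α))

/-- The rarefaction fan issued from `ρ₂`:
`((ρ - ρ₂)/(α m₁ t))^(-α/(α-1)) + α t)^(-1/α)`, used for `ρ > ρ₂`. -/
noncomputable def fan (α ρ₂ m₁ t ρ : ℝ) : ℝ :=
  (((ρ - ρ₂) / (α * m₁ * t)) ^ (-(α / (α - 1))) + α * t) ^ (-(1 / α))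

/-- The density at time `t`, as a function of the volume coordinate `ρ`, when the
two shocks are located at `s₁ ≤ s₂`: it is `0` up to `ρ₁`, equal to `U(t)` on
`(ρ₁, s₁)`, equal to `0` on `(s₁, ρ₂)` (if `s₁ < ρ₂`), equal to the fan on
`(max s₁ ρ₂, s₂)`, and `0` beyond `s₂`. -/
noncomputable def dens (α ρ₁ ρ₂ m₁ t s₁ s₂ ρ : ℝ) : ℝ :=
  if ρ ≤ ρ₁ then 0
  else if ρ < s₁ then U α t
  else if ρ ≤ ρ₂ then 0
  else if ρ < s₂ then fan α ρ₂ m₁ t ρ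
  else 0

/-- The mass function of a density `u` (in the volume coordinate). -/
noncomputable def mass (u : ℝ → ℝ) (ρ : ℝ) : ℝ := ∫ x in (0:ℝ)..ρ, u x

/-- The curve `S` carries, at time `t`, a shock of the density `u` that moves by the
Rankine–Hugoniot condition: the one-sided limits `um = u(t, S(t)⁻)`,
`up = u(t, S(t)⁺)` exist, differ, and
`S'(t) = m(t, S(t)) (up^α - um^α)/(up - um)`. -/
def RankineHugoniot (α : ℝ) (u : ℝ → ℝ → ℝ) (S : ℝ → ℝ) (t : ℝ) : Prop :=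
  ∃ um up : ℝ, um ≠ up ∧ Tendsto (u t) (𝓝[<] (S t)) (𝓝 um) ∧
    Tendsto (u t) (𝓝[>] (S t)) (𝓝 up) ∧
    HasDerivAt S (mass (u t) (S t) * ((up ^ α - um ^ α) / (up - um))) t

/-- `(S₁, S₂)` are the shock curves of the two-bump solution with data
`m₁ δ_{ρ₁} + m₂ δ_{ρ₂}`. -/
structure TwoBump (α ρ₁ ρ₂ m₁ m₂ : ℝ) (S₁ S₂ : ℝ → ℝ) : Prop where
  /-- the shocks start at `ρ₁` and `ρ₂` -/
  start₁ : S₁ 0 = ρ₁
  start₂ : S₂ 0 = ρ₂
  cont₁ : ContinuousOn S₁ (Ici 0)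
  cont₂ : ContinuousOn S₂ (Ici 0)
  lt₁ : ∀ t, 0 < t → ρ₁ < S₁ t
  lt₂ : ∀ t, 0 < t → ρ₂ < S₂ t
  /-- the shocks are ordered -/
  le : ∀ t, 0 < t → S₁ t ≤ S₂ t
  /-- the initial mass function is `m₁ 1_{[ρ₁,∞)} + m₂ 1_{[ρ₂,∞)}` (attained at all
  points `ρ > 0` except the two jumps) -/
  init : ∀ ρ, 0 < ρ → ρ ≠ ρ₁ → ρ ≠ ρ₂ →
    Tendsto (fun t => mass (dens α ρ₁ ρ₂ m₁ t (S₁ t) (S₂ t)) ρ) (𝓝[>] 0)
      (𝓝 ((if ρ₁ ≤ ρ then m₁ else 0) + (if ρ₂ ≤ ρ then m₂ else 0)))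
  /-- as long as the shocks are distinct, both move by Rankine–Hugoniot -/
  rh : ∀ t, 0 < t → S₁ t < S₂ t →
    RankineHugoniot α (fun s => dens α ρ₁ ρ₂ m₁ s (S₁ s) (S₂ s)) S₁ t ∧
    RankineHugoniot α (fun s => dens α ρ₁ ρ₂ m₁ s (S₁ s) (S₂ s)) S₂ t
  /-- once the shocks have merged the solution is a vortex: they stay together and
  the single shock moves by Rankine–Hugoniot -/
  vortex : ∀ t, 0 < t → S₁ t = S₂ t → ∀ s, t < s → S₁ s = S₂ s ∧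
    RankineHugoniot α (fun s => dens α ρ₁ ρ₂ m₁ s (S₁ s) (S₂ s)) S₂ s

/-- The explicit merging time. -/
noncomputable def mergeTime (α ρ₁ ρ₂ m₁ m₂ : ℝ) : ℝ :=
  (1 / α) * ((ρ₂ - ρ₁) /
    (m₁ + m₂ - ((m₁ + m₂) ^ (α / (α - 1)) - m₁ ^ (α / (α - 1))) ^ ((α - 1) / α))) ^ α

end Pool.Agent.V1282.TB
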